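import Pool.Agent.Helper12.TX.F2

set_option autoImplicit false

/-!
# Project TX: the integer contradiction, case `I ≤ k`, case `t0 l < p`, and the final theorem
-/

namespace Helper12.TX.Fin

/-- the first rule; `v = α I + h l` -/
def RV (p l a b k α I h : ℤ) : Prop := ∀ t X w j s R : ℤ, j = t * l - X * (p - α) - w * p →
    s = w * (p * I) - t * (k * l) - X * (a * l + (h * l - (p - α) * I)) →
    R = t * (b + k) + X * a → -p < j → j < p - α → 0 < R → R < b + k → 0 < s →
    s < a * l + (α * I + h * l) → s + l * R < α * I + h * l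

variable {p l a b k α I h : ℤ}

/-- the case `t0 l < p` -/
theorem caseS {t0 : ℤ} (F : FP p l a b k α I h) (hkI : k < I) (hco : IsCoprime a (b + k))
    (t1 : a ≤ t0 * (b + k)) (t2 : (t0 - 1) * (b + k) ≤ a - 1) (hst : t0 * l < p)
    (rv : RV p l a b k α I h) : False := by
  have h1 := F.hb; have h2 := F.hk; have h3 := F.hka; have h4 := F.hh; have h5 := F.hI
  have hIl := F.hIl; have hlp := F.hlp; have hα0 := F.hα0; have hαp := F.hαp
  have hN := F.hN
  have hl0 : 0 < l := by linarith
  have hβ : 0 < b + k := by linarith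
  have t3 : 1 ≤ t0 := by
    by_contra hcon
    have : t0 * (b + k) ≤ 0 * (b + k) := mul_le_mul_of_nonneg_right (by linarith) hβ.le
    linarith
  have hne : t0 * (b + k) - a ≠ 0 := by
    intro h0
    have h6 : (b + k) ∣ a := ⟨t0, by linarith⟩
    have h7 : IsUnit (b + k) := hco.symm.isUnit_of_dvd' dvd_rfl h6
    rw [Int.isUnit_iff] at h7
    omega
  have hR0 : 0 < t0 * (b + k) + (-1) * a := by
    rcases lt_or_gt_of_ne hne with h6 | h6 <;> linarith
  have hRβ : t0 * (b + k) + (-1) * a < b + k := by linarith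
  set ξ := h * l - (p - α) * I with hξ
  have hξ0 : 0 < ξ := by linarith
  have hv : α * I + h * l = ξ + p * I := by rw [hξ]; ring
  have hkl : 0 < k * l := mul_pos (by linarith) hl0
  have hbl : 0 < b * l := mul_pos (by linarith) hl0
  have htk : t0 * (k * l) ≤ (a + k - 1) * l := by
    have e1 : 0 ≤ (t0 - 1) * b := mul_nonneg (by linarith) (by linarith)
    have e2 : t0 * k ≤ a + k - 1 := by linarith
    have e3 : (t0 * k) * l ≤ (a + k - 1) * l := mul_le_mul_of_nonneg_right e2 hl0.le
    linarith
  have hpI : (k + 1) * l ≤ p * I := by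
    have e1 : l * I ≤ p * I := mul_le_mul_of_nonneg_right hlp.le (by linarith)
    have e2 : (k + 1) * l ≤ I * l := mul_le_mul_of_nonneg_right (by linarith) hl0.le
    linarith
  have htk0 : 0 < t0 * (k * l) := mul_pos (by linarith) hkl
  have htb0 : 0 < t0 * (b * l) := mul_pos (by linarith) hbl
  have hal : 0 < a * l := mul_pos (by linarith) hl0
  have h7 := rv t0 (-1) 1 (t0 * l - (-1) * (p - α) - 1 * p)
    (1 * (p * I) - t0 * (k * l) - (-1) * (a * l + ξ)) (t0 * (b + k) + (-1) * a) rfl rfl rfl
    (by nlinarith) (by linarith) hR0 hRβ (by linarith) (by linarith)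
  linarith

/-- the case `I ≤ k` -/
theorem case0 (F : FP p l a b k α I h) (hIk : I ≤ k) (hco : IsCoprime a (b + k))
    (rv : RV p l a b k α I h) : False := by
  have h1 := F.hb; have h2 := F.hk; have h3 := F.hka; have h4 := F.hh; have h5 := F.hI
  have hIl := F.hIl; have hlp := F.hlp; have hα0 := F.hα0; have hαp := F.hαp
  have hN := F.hN
  have hl0 : 0 < l := by linarith
  have hp0 : 0 < p := by linarith
  have hβ : 0 < b + k := by linarith
  have hN0 : 0 < p - α := by linarith
  -- the ceiling
  let T : ℤ → ℤ := fun X => (X * a + (b + k) - 1) / (b + k)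
  have T1 : ∀ X, T X * (b + k) ≤ X * a + (b + k) - 1 := fun X => Int.ediv_mul_le _ hβ.ne'
  have T2 : ∀ X, X * a ≤ T X * (b + k) := by
    intro X
    have := Int.lt_ediv_add_one_mul_self (X * a + (b + k) - 1) hβ
    have e1 : X * a + (b + k) - 1 < T X * (b + k) + (b + k) := by
      have e2 : (T X + 1) * (b + k) = T X * (b + k) + (b + k) := by ring
      linarith
    linarith
  have Tmono : ∀ X, T X ≤ T (X + 1) := by
    intro X
    apply Int.ediv_le_ediv hβ
    linarith
  have Tpos : ∀ X : ℤ, 1 ≤ X → 1 ≤ T X := by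
    intro X hX
    by_contra hcon
    have e1 : T X ≤ 0 := by linarith [not_le.1 hcon]
    have e2 : T X * (b + k) ≤ 0 * (b + k) := mul_le_mul_of_nonneg_right e1 hβ.le
    have e3 := T2 X
    have e4 : 0 < X * a := mul_pos (by linarith) (by linarith)
    linarith
  let S : ℤ → ℤ := fun X => (k - I) * T X - X * (a + h)
  -- existence
  have hex : ∃ c : ℕ, S ((c : ℤ) + 1) ≤ 0 := by
    refine ⟨(b + k - 2).toNat, ?_⟩
    have e0 : (((b + k - 2).toNat : ℤ) + 1) = b + k - 1 := by
      rw [Int.toNat_of_nonneg (by linarith)]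
      ring
    rw [e0]
    have e1 := T1 (b + k - 1)
    have e2 : T (b + k - 1) ≤ a - 1 := by
      have e3 : T (b + k - 1) * (b + k) < a * (b + k) := by linarith
      have := lt_of_mul_lt_mul_right e3 hβ.le
      linarith
    have e4 : (k - I) * T (b + k - 1) ≤ (k - I) * (a - 1) :=
      mul_le_mul_of_nonneg_left e2 (by linarith)
    have e5 : (k - I) * (a - 1) ≤ (b + k - 1) * (a - 1) :=
      mul_le_mul_of_nonneg_right (by linarith) (by linarith)
    have e6 : (b + k - 1) * (a - 1) ≤ (b + k - 1) * (a + h) :=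
      mul_le_mul_of_nonneg_left (by linarith) (by linarith)
    show (k - I) * T (b + k - 1) - (b + k - 1) * (a + h) ≤ 0
    linarith
  classical
  obtain ⟨c, hc, hmin⟩ : ∃ c : ℕ, S ((c : ℤ) + 1) ≤ 0 ∧ ∀ d : ℕ, d < c → ¬ S ((d : ℤ) + 1) ≤ 0 :=
    ⟨Nat.find hex, Nat.find_spec hex, fun d hd => Nat.find_min hex hd⟩
  have hcβ : (c : ℤ) + 1 ≤ b + k - 1 := by
    by_contra hcon
    have e0 : (b + k - 2).toNat < c := by
      have := not_le.1 hcon
      have e1 := Int.toNat_of_nonneg (show 0 ≤ b + k - 2 by linarith)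
      omega
    have e1 := hmin _ e0
    apply e1
    -- repeat of the existence
    have e0 : (((b + k - 2).toNat : ℤ) + 1) = b + k - 1 := by
      rw [Int.toNat_of_nonneg (by linarith)]
      ring
    rw [e0]
    have e1 := T1 (b + k - 1)
    have e2 : T (b + k - 1) ≤ a - 1 := by
      have e3 : T (b + k - 1) * (b + k) < a * (b + k) := by linarith
      have := lt_of_mul_lt_mul_right e3 hβ.le
      linarith
    have e4 : (k - I) * T (b + k - 1) ≤ (k - I) * (a - 1) :=
      mul_le_mul_of_nonneg_left e2 (by linarith)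
    have e5 : (k - I) * (a - 1) ≤ (b + k - 1) * (a - 1) :=
      mul_le_mul_of_nonneg_right (by linarith) (by linarith)
    have e6 : (b + k - 1) * (a - 1) ≤ (b + k - 1) * (a + h) :=
      mul_le_mul_of_nonneg_left (by linarith) (by linarith)
    show (k - I) * T (b + k - 1) - (b + k - 1) * (a + h) ≤ 0
    linarith
  set X : ℤ := (c : ℤ) + 1 with hX
  have hX1 : 1 ≤ X := by rw [hX]; linarith [Int.natCast_nonneg c]
  have hlow : -(a + h) ≤ S X := by
    rcases Nat.eq_zero_or_pos c with h0 | h0
    · have e1 : X = 1 := by rw [hX, h0]; norm_num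
      rw [e1]
      have e2 : 0 ≤ (k - I) * T 1 := mul_nonneg (by linarith) (by linarith [Tpos 1 le_rfl])
      show -(a + h) ≤ (k - I) * T 1 - 1 * (a + h)
      linarith
    · have e0 := hmin (c - 1) (by omega)
      have e1 : (((c - 1 : ℕ) : ℤ) + 1) = X - 1 := by omega
      rw [e1] at e0
      have e2 : 0 < (k - I) * T (X - 1) - (X - 1) * (a + h) := not_le.1 e0
      have e3 : (k - I) * T (X - 1) ≤ (k - I) * T (X - 1 + 1) :=
        mul_le_mul_of_nonneg_left (Tmono _) (by linarith)
      have e4 : X - 1 + 1 = X := by ring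
      rw [e4] at e3
      show -(a + h) ≤ (k - I) * T X - X * (a + h)
      linarith
  have hS : (k - I) * T X - X * (a + h) ≤ 0 := hc
  have hlow' : -(a + h) ≤ (k - I) * T X - X * (a + h) := hlow
  -- the row
  have hRne : T X * (b + k) - X * a ≠ 0 := by
    intro h0
    have h6 : (b + k) ∣ a * X := ⟨T X, by linarith⟩
    have h7 : (b + k) ∣ X := hco.symm.dvd_of_dvd_mul_left h6
    have h8 := Int.le_of_dvd (by linarith) h7
    linarith
  have hR0 : 0 < T X * (b + k) - X * a := by
    have := T2 X
    exact lt_of_le_of_ne (by linarith) (Ne.symm hRne)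
  have hRβ : T X * (b + k) - X * a < b + k := by have := T1 X; linarith
  have haβp : a + (b + k) < p := by
    have hp := F.hp
    have e1 := F.h3
    have e2 : a * 3 ≤ a * (b + I) := mul_le_mul_of_nonneg_left (by linarith) (by linarith)
    have e3 : 0 < (b + k) * h := by positivity
    linarith
  -- the index
  set w0 := (T X * l + X * (p - α)) / p with hw0
  have w1 : w0 * p ≤ T X * l + X * (p - α) := Int.ediv_mul_le _ hp0.ne'
  have w2 : T X * l + X * (p - α) < (w0 + 1) * p := Int.lt_ediv_add_one_mul_self _ hp0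
  set js := T X * l + X * (p - α) - w0 * p with hjs
  have j0 : 0 ≤ js := by linarith
  have j1 : js < p := by rw [hjs]; linarith
  have jne : js ≠ 0 := by
    intro h0
    refine F.nj (T X) (-X) w0 (T X * (b + k) - X * a) (by rw [← h0, hjs]; ring) (by ring) hR0
      (by linarith)
  have jN : js ≠ p - α := by
    intro h0
    refine F.nj (T X) (-X + 1) w0 (T X * (b + k) - X * a + a) ?_ (by ring) (by linarith)
      (by linarith)
    have e1 : T X * l + X * (p - α) - w0 * p = p - α := by rw [← hjs, h0]
    linear_combination e1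
  have hTl : l ≤ T X * l := by
    have := mul_le_mul_of_nonneg_right (Tpos X hX1) hl0.le
    linarith
  have hTbl : 0 < T X * (b * l) := mul_pos (by linarith [Tpos X hX1]) (mul_pos (by linarith) hl0)
  have hXN : p - α ≤ X * (p - α) := by
    have := mul_le_mul_of_nonneg_right hX1 hN0.le
    linarith
  have hξ0 : 0 < h * l - (p - α) * I := by linarith
  have hXξ : h * l - (p - α) * I ≤ X * (h * l - (p - α) * I) := by
    have := mul_le_mul_of_nonneg_right hX1 hξ0.le
    linarith
  -- the conclusion from the rule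
  have key : ∀ w : ℤ, -p < T X * l + X * (p - α) - w * p → T X * l + X * (p - α) - w * p < p - α →
      0 < w * (p * I) - T X * (k * l) + X * (a * l + (h * l - (p - α) * I)) →
      w * (p * I) - T X * (k * l) + X * (a * l + (h * l - (p - α) * I)) <
        a * l + (α * I + h * l) → False := by
    intro w k1 k2 k3 k4
    have h7 := rv (T X) (-X) w (T X * l + X * (p - α) - w * p)
      (w * (p * I) - T X * (k * l) + X * (a * l + (h * l - (p - α) * I)))
      (T X * (b + k) - X * a) (by ring) (by ring) (by ring) k1 k2 hR0 hRβ k3 k4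
    have hw : w ≤ 0 := by
      by_contra hcon
      have e1 : 1 ≤ w := by linarith [not_le.1 hcon]
      have e2 : 1 * (p * I) ≤ w * (p * I) :=
        mul_le_mul_of_nonneg_right e1 (mul_nonneg hp0.le (by linarith))
      linarith
    have e3 : w * p ≤ 0 * p := mul_le_mul_of_nonneg_right hw hp0.le
    linarith
  -- `s = - l S - I j`
  have es : ∀ w : ℤ, w * (p * I) - T X * (k * l) + X * (a * l + (h * l - (p - α) * I)) =
      -(l * ((k - I) * T X - X * (a + h))) - I * (T X * l + X * (p - α) - w * p) := by
    intro w; ring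
  have hlS : l * ((k - I) * T X - X * (a + h)) ≤ 0 := by
    have := mul_le_mul_of_nonneg_left hS hl0.le
    linarith
  have hlS' : 0 ≤ l * ((k - I) * T X - X * (a + h) + (a + h)) :=
    mul_nonneg hl0.le (by linarith)
  by_cases hc1 : 0 < l * ((k - I) * T X - X * (a + h) + (a + h)) + I * (js - (p - α))
  · have jpos : 0 < js := lt_of_le_of_ne j0 (Ne.symm jne)
    have e0 : T X * l + X * (p - α) - (w0 + 1) * p = js - p := by rw [hjs]; ring
    refine key (w0 + 1) (by rw [e0]; linarith) (by rw [e0]; linarith) ?_ ?_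
    · rw [es]
      have e1 : T X * l + X * (p - α) - (w0 + 1) * p = js - p := by rw [hjs]; ring
      rw [e1]
      have e2 : 0 < I * (p - js) := mul_pos (by linarith) (by linarith)
      linarith
    · rw [es]
      have e1 : T X * l + X * (p - α) - (w0 + 1) * p = js - p := by rw [hjs]; ring
      rw [e1]
      linarith
  · push Not at hc1
    have hIj : I * (js - (p - α)) ≤ 0 := by linarith
    have hj2 : js ≤ p - α := by
      by_contra hcon
      have : 0 < I * (js - (p - α)) := mul_pos (by linarith) (by linarith [not_le.1 hcon])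
      linarith
    have hj3 : js < p - α := lt_of_le_of_ne hj2 jN
    refine key w0 (by rw [← hjs]; linarith) (by rw [← hjs]; exact hj3) ?_ ?_
    · rw [es, ← hjs]
      have e4 : 0 < l * a := mul_pos hl0 (by linarith)
      linarith
    · rw [es, ← hjs]
      have e2 : 0 ≤ I * js := mul_nonneg (by linarith) j0
      have e3 : 0 < α * I := mul_pos hα0 (by linarith)
      linarith

/-- THE INTEGER CONTRADICTION -/
theorem fin (F : FP p l a b k α I h) (hco : IsCoprime a (b + k)) (rv : RV p l a b k α I h)
    (r1 : l ≤ α → R1 p l a b k α I h) (r2 : α < l → R2 p l a b k α I h) : False := by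
  rcases le_or_gt I k with hIk | hkI
  · exact case0 F hIk hco rv
  rcases lt_or_ge α l with hα | hα
  · exact case2 F hkI hα (r2 hα)
  have h1 := F.hb; have h2 := F.hk; have h3 := F.hka
  have hl0 : 0 < l := by have := F.hI; have := F.hIl; linarith
  have hβ : 0 < b + k := by linarith
  set t0 := (a + (b + k) - 1) / (b + k) with ht0
  have e1 : t0 * (b + k) ≤ a + (b + k) - 1 := Int.ediv_mul_le _ hβ.ne'
  have e2 : a + (b + k) - 1 < (t0 + 1) * (b + k) := Int.lt_ediv_add_one_mul_self _ hβ
  have t1 : a ≤ t0 * (b + k) := by linarith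
  have t2 : (t0 - 1) * (b + k) ≤ a - 1 := by linarith
  rcases lt_trichotomy (t0 * l) p with hst | hst | hst
  · exact caseS F hkI hco t1 t2 hst rv
  · refine F.nj t0 0 1 (t0 * (b + k)) (by rw [hst]; ring) (by ring) (by linarith) ?_
    have hp := F.hp
    have e3 : a * 3 ≤ a * (b + I) := mul_le_mul_of_nonneg_left (by have := F.hI; linarith)
      (by linarith)
    have e4 : 0 < (b + k) * h := mul_pos hβ (by have := F.hh; linarith)
    linarith
  · refine case1 F hkI hα ⟨t1, t2, ?_, hst, ?_⟩ (r1 hα)
    · by_contra hcon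
      have : t0 * (b + k) ≤ 0 * (b + k) := mul_le_mul_of_nonneg_right (by linarith) hβ.le
      linarith
    · linarith

end Helper12.TX.Fin
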