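import Pool.Agent.Helper12.TX.StB
import Pool.Agent.Helper12.TX.F3

set_option autoImplicit false
set_option linter.unusedSectionVars false

/-!
# Project TX: the world `TW` is impossible
-/

namespace Helper12.TX

open Helper11.N1 Helper55.KE Helper73.TM

section

variable {p l a b k : ℕ} [NeZero p] [NeZero l] {z : ZMod p → ZMod (p * l)} {i0 ρ : ZMod p}
  {τ : ZMod (p * l)} {y u : ZMod p → ZMod (p * l) → ℤ} {α I h ξ : ℕ}

/-- the relations of the lattice -/
theorem pr_of (H : TW p l a b k z i0 ρ τ y u) (D : VD p l a b z i0 ρ τ α I h ξ) (t X w : ℤ) :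
    PR ρ τ (t * l - X * (p - α) - w * p)
      (-(t * (b * l)) + X * (h * l - (p - α) * I) - w * (p * I)) (t * (b + k) + X * a) := by
  have h1 := H.hE.hlt
  have h2 := H.lρ
  have h3 := D.αρ
  have h4 := D.pτ
  have h5 := D.ατ
  push_cast at h2 h4 h5
  have hp0 : ((p : ℕ) : ZMod p) = 0 := ZMod.natCast_self p
  constructor
  · push_cast
    linear_combination (t : ZMod (p * l)) * h1 + (X : ZMod (p * l)) * h5 -
      ((X : ZMod (p * l)) + (w : ZMod (p * l))) * h4
  · push_cast
    linear_combination (t : ZMod p) * h2 + (X : ZMod p) * h3 -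
      (((X : ZMod p) + (w : ZMod p)) * ρ) * hp0

/-- an index divisible by `p` belongs to a row divisible by `p` -/
theorem fp_of (H : TW p l a b k z i0 ρ τ y u) (hlt : b + k + 1 ≤ a)
    (D : VD p l a b z i0 ρ τ α I h ξ) (hp : p = a * (b + I) + (b + k) * h) :
    Fin.FP (p : ℤ) l a b k α I h := by
  have hP := H.hE.hP
  have hlp := H.hE.hlp
  have hξ : (ξ : ℤ) + p * I = α * I + h * l := by exact_mod_cast D.ξv
  have hl0 : 0 < (l : ℤ) := by exact_mod_cast H.hl0
  have hρu : IsUnit ρ := H.hE.hAP.1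
  -- row `0`
  have hdvd : ∀ t X w : ℤ, (((t * l - X * (p - α) - w * p : ℤ)) : ZMod p) * ρ =
      ((t * (b + k) + X * a : ℤ) : ZMod p) := fun t X w => (pr_of H D t X w).2
  have hnj : ∀ t X w R : ℤ, t * l - X * (p - α) - w * p = 0 → R = t * (b + k) + X * a → 0 < R →
      R < p → False := by
    intro t X w R h0 hR hR0 hRp
    have h1 := hdvd t X w
    rw [h0, ← hR, Int.cast_zero, zero_mul] at h1
    have h2 : (p : ℤ) ∣ R := (ZMod.intCast_zmod_eq_zero_iff_dvd R p).1 h1.symm
    have h3 := Int.le_of_dvd hR0 h2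
    omega
  refine ⟨by exact_mod_cast hP.hb, by exact_mod_cast H.hk, by exact_mod_cast hlt,
    by exact_mod_cast D.h1, by exact_mod_cast D.I1, by exact_mod_cast D.Il,
    by exact_mod_cast hlp, by exact_mod_cast D.α0, by exact_mod_cast D.αp, ?_, ?_, ?_, hnj, ?_⟩
  · have : (p : ℤ) = a * (b + I) + (b + k) * h := by exact_mod_cast hp
    linarith
  · have : (0 : ℤ) < ξ := by exact_mod_cast D.ξ0
    linarith
  · -- the index of the row `p`
    have h1 : (((b + I) * α + h * l : ℕ) : ZMod p) * ρ = ((p : ℕ) : ZMod p) := by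
      have h2 := H.lρ
      have h3 := D.αρ
      have h4 : ((p : ℕ) : ZMod p) = ((a * (b + I) + (b + k) * h : ℕ) : ZMod p) := by
        rw [← hp]
      rw [h4]
      push_cast at h2 ⊢
      linear_combination ((b : ZMod p) + I) * h3 + (h : ZMod p) * h2
    rw [ZMod.natCast_self, hρu.mul_left_eq_zero, ZMod.natCast_eq_zero_iff] at h1
    have h2 : 0 < (b + I) * α + h * l := by
      have := D.h1
      have : 0 < h * l := Nat.mul_pos (by omega) H.hl0
      omega
    have h3 := Nat.le_of_dvd h2 h1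
    exact_mod_cast h3
  · intro hkI t X w j s R hj hs hR hj1 hj2 hR0 hRp hs0
    obtain ⟨q1, q2⟩ := pr_of H D t X w
    rw [← hj] at q1 q2
    rw [← hR] at q2
    have e1 : -(t * (b * l)) + X * (h * l - (p - α) * I) - w * (p * I) = -(s + l * R) := by
      rw [hs, hR]; ring
    rw [e1, hs0, zero_add] at q1
    -- `l ∣ j`
    have e2 : (I : ℤ) * j = l * (t * (I - k) - X * (a + h)) := by
      have e3 : s = -(l * (X * (a + h) - t * (I - k))) - I * j := by rw [hs, hj]; ring
      rw [hs0] at e3
      linarith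
    have hIl : IsCoprime (l : ℤ) (I : ℤ) := (Nat.isCoprime_iff_coprime.2 D.Ic).symm
    obtain ⟨i, hi⟩ := hIl.dvd_of_dvd_mul_left (⟨_, e2⟩ : (l : ℤ) ∣ I * j)
    -- the two congruences
    have f1 : (p : ℤ) ∣ R - i * b := by
      have g1 : (((l * (R - i * b) : ℤ)) : ZMod (p * l)) = 0 := by
        have g2 := H.hE.hlt
        rw [hi] at q1
        push_cast at q1 ⊢
        linear_combination q1 - (i : ZMod (p * l)) * g2
      rw [ZMod.intCast_zmod_eq_zero_iff_dvd] at g1
      push_cast at g1
      rw [mul_comm (p : ℤ)] at g1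
      exact (mul_dvd_mul_iff_left hl0.ne').1 g1
    have f2 : (p : ℤ) ∣ R - i * (b + k) := by
      have g1 : (((R - i * (b + k) : ℤ)) : ZMod p) = 0 := by
        have g2 := H.lρ
        rw [hi] at q2
        push_cast at q2 g2 ⊢
        linear_combination (i : ZMod p) * g2 - q2
      exact (ZMod.intCast_zmod_eq_zero_iff_dvd _ _).1 g1
    have f3 : (p : ℤ) ∣ i * k := by
      have := dvd_sub f1 f2
      have e4 : R - i * b - (R - i * (b + k)) = i * k := by ring
      rwa [e4] at this
    have hkl : (k : ℤ) < l := by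
      have : (I : ℤ) < l := by exact_mod_cast D.Il
      linarith
    have hk0 : (0 : ℤ) < k := by exact_mod_cast H.hk
    have hi0 : i = 0 := by
      rcases lt_trichotomy i 0 with h0 | h0 | h0
      · exfalso
        have g1 : l * i ≤ (l : ℤ) * (-1) := mul_le_mul_of_nonneg_left (by omega) hl0.le
        linarith
      · exact h0
      · exfalso
        have g1 := Int.le_of_dvd (mul_pos h0 hk0) f3
        have g2 : i * k < i * l := mul_lt_mul_of_pos_left hkl h0
        linarith
    rw [hi0, zero_mul, sub_zero] at f1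
    have := Int.le_of_dvd hR0 f1
    omega

/-- `TW` is impossible -/
theorem twf (hLT : StLT) (hVD : StVD) (hCP : StCP) (hRV : StRV) (hS1 : StST1) (hS2 : StST2)
    (H : TW p l a b k z i0 ρ τ y u) : False := by
  have hlt := hLT p l a b k z i0 ρ τ y u H
  obtain ⟨α, I, h, ξ, D⟩ := hVD p l a b k z i0 ρ τ y u H
  have hp := hCP p l a b k z i0 ρ τ y u α I h ξ H D
  have F := fp_of H hlt D hp
  have hξ : (ξ : ℤ) + p * I = α * I + h * l := by exact_mod_cast D.ξv
  have hξ' : (ξ : ℤ) = h * l - (p - α) * I := by linarith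
  have hl0 : 0 < (l : ℤ) := by exact_mod_cast H.hl0
  have hco : IsCoprime (a : ℤ) ((b : ℤ) + k) := by
    have h1 : IsCoprime (a : ℤ) (p : ℤ) := Nat.isCoprime_iff_coprime.2 H.hap
    have h2 : (p : ℤ) = (b + k) * h + (b + I) * a := by
      have : (p : ℤ) = a * (b + I) + (b + k) * h := by exact_mod_cast hp
      linarith
    rw [h2] at h1
    have h3 : IsCoprime (a : ℤ) (((b : ℤ) + k) * h) :=
      (IsCoprime.add_mul_right_right_iff).1 h1
    exact h3.of_mul_right_left
  have hpr : ∀ t X w j s R : ℤ, j = t * l - X * (p - α) - w * p →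
      s = w * (p * I) - t * (k * l) - X * (a * l + (h * l - (p - α) * I)) →
      R = t * (b + k) + X * a → PR ρ τ j (-(s + l * R)) R := by
    intro t X w j s R hj hs hR
    have q := pr_of H D t X w
    rw [← hj, ← hR] at q
    have e1 : -(t * (b * l)) + X * (h * l - (p - α) * I) - w * (p * I) = -(s + l * R) := by
      rw [hs, hR]; ring
    rwa [e1] at q
  refine Fin.fin F hco ?_ ?_ ?_
  · intro t X w j s R hj hs hR k1 k2 k3 k4 k5 k6
    have q := hRV p l a b k z i0 ρ τ y u α I h ξ H D j (-(s + l * R)) R (hpr _ _ _ _ _ _ hj hs hR)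
      k1 k2 k3 k4 (by linarith) (by linarith)
    linarith
  · intro hlα t X w j s R hj hs hR k1 k2 k3 k4 k5 k6 k7
    have hlR : 0 < l * R := mul_pos hl0 k3
    have q := hS1 p l a b k z i0 ρ τ y u α I h ξ H D (by exact_mod_cast hlα) j (-(s + l * R)) R
      (hpr _ _ _ _ _ _ hj hs hR) k1 k2 k3 k4 (by rw [hξ']; linarith) (by linarith) (by linarith)
      (by linarith)
    rw [hξ'] at q
    linarith
  · intro hαl t X w j s R hj hs hR k1 k2 k3 k4 k5 k6 k7
    have hlR : 0 < l * R := mul_pos hl0 k3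
    have q := hS2 p l a b k z i0 ρ τ y u α I h ξ H D (by exact_mod_cast hαl) j (-(s + l * R)) R
      (hpr _ _ _ _ _ _ hj hs hR) k1 k2 k3 k4 (by linarith) (by linarith) (by linarith)
      (by linarith)
    linarith

end

end Helper12.TX
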