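import Pool.Agent.Helper12.TX.StA

set_option autoImplicit false
set_option linter.unusedSectionVars false

/-!
Project TX, module AL: in every row `P` comes before `t`.
-/

namespace Helper12.TX

open Helper11.N1 Helper55.KE Helper73.TM

namespace ALaux

/-- the arc `s + 1, ..., w` counted from `r` -/
theorem arc_iff {M : ℕ} [NeZero M] (r s w X : ZMod M) (h : off r s < off r w) :
    off (s + 1) X < off s w ↔ off r s < off (r + 1) X + 1 ∧ off (r + 1) X + 1 ≤ off r w := by
  have h1 := off_add r s w
  have h2 := off_add (r + 1) (s + 1) X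
  rw [off_translate] at h2
  have h3 := off_lt s w
  have h4 := off_lt (s + 1) X
  have h5 := off_lt r w
  have h6 := off_lt (r + 1) X
  omega

section

variable {p l a b k : ℕ} [NeZero p] [NeZero l] {z : ZMod p → ZMod (p * l)} {i0 ρ : ZMod p}
  {τ : ZMod (p * l)} {y u : ZMod p → ZMod (p * l) → ℤ}

theorem A_shift (z : ZMod p → ZMod (p * l)) (j : ZMod p) (X : ZMod (p * l)) :
    A l a z (j - b) (X + b * l) ↔ off (M := p * l) (z (j - a - b) - b * l + 1) X <
      off (M := p * l) (z (j - a - b) - b * l) (z (j - b) - b * l) := by
  unfold A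
  have e1 : (j - b - a : ZMod p) = j - a - b := by ring
  rw [e1]
  have h1 := off_translate (M := p * l) (z (j - a - b) - b * l + 1) X ((b : ZMod (p * l)) * l)
  have h2 := off_translate (M := p * l) (z (j - a - b) - b * l) (z (j - b) - b * l)
    ((b : ZMod (p * l)) * l)
  rw [← h1, ← h2]
  have e2 : z (j - a - b) - (b : ZMod (p * l)) * l + 1 + b * l = z (j - a - b) + 1 := by ring
  rw [e2, sub_add_cancel, sub_add_cancel]

/-- `y = 0` on the arc `H j` at the first level -/
def ZZ (l b : ℕ) (z : ZMod p → ZMod (p * l)) (y : ZMod p → ZMod (p * l) → ℤ) (j : ZMod p) : Prop :=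
  ∀ X, H l b z j X → y (j + 1) X = 0

theorem step1 (hrow : StRow) (h : TW p l a b k z i0 ρ τ y u) (j : ZMod p)
    (hlt : off (z (j - a)) (z (j - a - b) - b * l) < off (z (j - a)) (z j)) : ZZ l b z y j := by
  intro X hX
  obtain ⟨hy, -, hP, hT⟩ := hrow p l a b k z i0 ρ τ y u h j
  have h1 := (arc_iff (z (j - a)) (z j) (z (j - b) - b * l) X hP).1 hX
  have hB : A l a z (j - b) (X + b * l) :=
    (A_shift z j X).2 ((arc_iff (z (j - a)) _ _ X hT).2 ⟨by omega, h1.2⟩)
  have hA : ¬ A l a z j X := by
    unfold A
    omega
  have h2 := hy X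
  rw [if_pos hB, if_neg hA] at h2
  rcases (h.hW j).y01 X with h3 | h3 <;> rcases (h.hW (j + 1)).y01 X with h4 | h4 <;> omega

theorem step4 (hrow : StRow) (h : TW p l a b k z i0 ρ τ y u) (j : ZMod p)
    (hYY : YY l a b z y j) : ZZ l b z y (j + a) := by
  intro X hX
  have ha := h.hE.hP.ha
  have hab := h.hE.hP.hab
  obtain ⟨hy, -, hP, hT⟩ := hrow p l a b k z i0 ρ τ y u h (j + a)
  have e1 : (j + a - a : ZMod p) = j := by ring
  rw [e1] at hP hT
  have h1 := (arc_iff (z j) (z (j + a)) (z (j + a - b) - b * l) X hP).1 hX
  have hA : ¬ A l a z (j + a) X := by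
    unfold A
    rw [e1]
    omega
  have h2 := hy X
  rw [if_neg hA] at h2
  by_cases h5 : off (z j) (z (j - b) - b * l) < off (z j + 1) X + 1
  · have hB : A l a z (j + a - b) (X + b * l) := by
      rw [A_shift, e1]
      exact (arc_iff (z j) _ _ X hT).2 ⟨h5, h1.2⟩
    rw [if_pos hB] at h2
    rcases (h.hW (j + a)).y01 X with h3 | h3 <;> rcases (h.hW (j + a + 1)).y01 X with h4 | h4 <;>
      omega
  · have hB : ¬ A l a z (j + a - b) (X + b * l) := by
      rw [A_shift, e1]
      intro h6
      exact h5 ((arc_iff (z j) _ _ X hT).1 h6).1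
    rw [if_neg hB] at h2
    have hH : H l b z j X := by
      unfold H
      omega
    have hR : aR a (j + (a : ZMod p)) j := by
      unfold aR
      have e2 : (j + a - 1 - j : ZMod p) = ((a - 1 : ℕ) : ZMod p) := by
        rw [Nat.cast_sub (by omega)]
        push_cast
        ring
      rw [e2, ZMod.val_natCast_of_lt (by omega)]
      omega
    have h3 := hYY (j + (a : ZMod p)) hR X hH
    omega

theorem inn_self (h : TW p l a b k z i0 ρ τ y u) (j : ZMod p) : y (j + 1) (z j) = 1 := by
  have ha := h.hE.hP.ha
  have hb := h.hE.hP.hb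
  have hl := h.hl0
  have hp := h.p3
  refine ((h.hW (j + 1)).inn j (z j) (((bl p l a b h.hE.hP z (j + 1) j).1 (z j)).2 ?_)).1
  have e1 : (j + 1 - j : ZMod p) = ((1 : ℕ) : ZMod p) := by push_cast; ring
  rw [e1, ZMod.val_natCast_of_lt (by omega), off_self]
  refine ⟨?_, Nat.mul_pos (by omega) hl, Nat.mul_pos one_pos hl⟩
  have e2 : 1 - a = 0 := by omega
  rw [e2, zero_mul]

theorem ne_PL (hrow : StRow) (h : TW p l a b k z i0 ρ τ y u) (j : ZMod p) :
    z j ≠ z (j - b) - b * l := by
  obtain ⟨-, -, hP, -⟩ := hrow p l a b k z i0 ρ τ y u h j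
  intro h1
  rw [← h1] at hP
  exact lt_irrefl _ hP

theorem step2 (hrow : StRow) (h : TW p l a b k z i0 ρ τ y u) (j : ZMod p)
    (hj : l ≤ ix i0 ρ j) : ¬ ZZ l b z y j := by
  intro hZ
  have ha := h.hE.hP.ha
  have hp := h.p3
  have hka := h.hka
  have hb := h.hE.hP.hb
  have h2a := h.h2a
  have hne := ne_PL hrow h j
  have hH : H l b z j (z j + 1) := by
    unfold H
    rw [off_self]
    exact Nat.pos_of_ne_zero (fun h1 => hne (off_eq_zero.1 h1))
  have h0 := hZ _ hH
  have h1 := inn_self h j
  have h2 := h.yj (j + 1) (z j)
  have hL : ∃ i, aL a b (j + 1) i ∧ z i - b * l = z j := by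
    refine ⟨j - ((b + k : ℕ) : ZMod p), ?_, h.tied hj⟩
    unfold aL
    have e2 : (j + 1 - b - 1 - (j - ((b + k : ℕ) : ZMod p)) : ZMod p) = ((k : ℕ) : ZMod p) := by
      push_cast
      ring
    rw [e2, ZMod.val_natCast_of_lt (by omega)]
    omega
  have hR : ∃ i, aR a (j + 1) i ∧ z i = z j := by
    refine ⟨j, ?_, rfl⟩
    unfold aR
    have e2 : (j + 1 - 1 - j : ZMod p) = 0 := by ring
    rw [e2, ZMod.val_zero]
    omega
  rw [if_pos hL, if_pos hR] at h2
  omega

theorem step3 (h : TW p l a b k z i0 ρ τ y u) (j : ZMod p)
    (hj : ¬ l ≤ ix i0 ρ j) (hZ : ZZ l b z y j) : YY l a b z y j := by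
  have ha := h.hE.hP.ha
  have hp := h.p3
  have hka := h.hka
  have hk := h.hk
  have hb := h.hE.hP.hb
  have h2a := h.h2a
  have hl := h.hl0
  have hbl : 0 < b * l := Nat.mul_pos (by omega) hl
  have hblM : b * l < p * l := Nat.mul_lt_mul_of_pos_right (by omega) hl
  have hOL := off_lt (z j) (z (j - b) - b * l)
  have key : ∀ n : ℕ, n < a → ∀ X, H l b z j X → y (j + 1 + (n : ZMod p)) X = 0 := by
    intro n
    induction n with
    | zero =>
      intro _ X hX
      rw [Nat.cast_zero, add_zero]
      exact hZ X hX
    | succ n ih =>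
      intro hn
      have ih' := ih (by omega)
      set W : ZMod p := j + 1 + (n : ZMod p) with hWdef
      have hW1 : j + 1 + ((n + 1 : ℕ) : ZMod p) = W + 1 := by
        rw [hWdef]; push_cast; ring
      rw [hW1]
      have up : ∀ m : ℕ, m < off (z j) (z (j - b) - b * l) →
          y (W + 1) (z j + 1 + (m : ZMod (p * l))) = 0 := by
        intro m
        induction m with
        | zero =>
          intro _
          rw [Nat.cast_zero, add_zero]
          have h6 := h.yj (W + 1) (z j)
          have hL : ¬ ∃ i, aL a b (W + 1) i ∧ z i - b * l = z j := by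
            rintro ⟨i, -, hi⟩
            exact hj (h.co hi).2
          have hR : ∃ i, aR a (W + 1) i ∧ z i = z j := by
            refine ⟨j, ?_, rfl⟩
            unfold aR
            have e2 : (W + 1 - 1 - j : ZMod p) = ((n + 1 : ℕ) : ZMod p) := by
              rw [hWdef]; push_cast; ring
            rw [e2, ZMod.val_natCast_of_lt (by omega)]
            exact hn
          rw [if_neg hL, if_pos hR] at h6
          rcases (h.hW (W + 1)).y01 (z j + 1) with h3 | h3
          · exact h3
          · rcases (h.hW (W + 1)).y01 (z j) with h4 | h4 <;> omega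
        | succ m ihm =>
          intro hm
          have ihm' := ihm (by omega)
          set X : ZMod (p * l) := z j + 1 + (m : ZMod (p * l)) with hX
          have hX1 : z j + 1 + ((m + 1 : ℕ) : ZMod (p * l)) = X + 1 := by
            rw [hX]; push_cast; ring
          rw [hX1]
          have hHX : H l b z j X := by
            unfold H
            rw [hX, off_nat _ (by omega)]
            omega
          have hHX1 : H l b z j (X + 1) := by
            unfold H
            rw [← hX1, off_nat _ (by omega)]
            exact hm
          have hy0 := ih' X hHX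
          have hy1 := ih' (X + 1) hHX1
          by_contra hcon
          have hone : y (W + 1) (X + 1) = 1 := by
            rcases (h.hW (W + 1)).y01 (X + 1) with h3 | h3
            · exact absurd h3 hcon
            · exact h3
          have h6 := h.yj (W + 1) X
          rw [hone, ihm'] at h6
          by_cases hR : ∃ i, aR a (W + 1) i ∧ z i = X
          · rw [if_pos hR] at h6
            split_ifs at h6 <;> omega
          by_cases hL : ∃ i, aL a b (W + 1) i ∧ z i - b * l = X
          swap
          · rw [if_neg hL, if_neg hR] at h6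
            omega
          obtain ⟨i, hi1, hi2⟩ := hL
          unfold aL at hi1
          by_cases hiW : aL a b W i
          · have h7 := h.yj W X
            rw [if_pos ⟨i, hiW, hi2⟩, hy0, hy1] at h7
            have hRW : ∃ m', aR a W m' ∧ z m' = X := by
              by_contra hc
              rw [if_neg hc] at h7
              omega
            obtain ⟨m', hm1, hm2⟩ := hRW
            have hm3 : ¬ aR a (W + 1) m' := fun hc => hR ⟨m', hc, hm2⟩
            unfold aR at hm1 hm3
            have e3 : (W + 1 - 1 - m' : ZMod p) = (((W - 1 - m').val + 1 : ℕ) : ZMod p) := by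
              push_cast
              rw [ZMod.natCast_zmod_val]
              ring
            have e4 : (W - 1 - m').val + 1 = a := by
              rw [e3, ZMod.val_natCast_of_lt (by omega)] at hm3
              omega
            rw [e4] at e3
            have hco := (h.co (hi2.trans hm2.symm)).1
            have e5 : (W + 1 - b - 1 - i : ZMod p) = ((a + k : ℕ) : ZMod p) := by
              rw [hco]
              push_cast
              linear_combination e3
            rw [e5, ZMod.val_natCast_of_lt (by omega)] at hi1
            omega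
          · unfold aL at hiW
            have hi0 : W - b - i = 0 := by
              by_contra hne
              have hne' : (W - b - i).val ≠ 0 := fun h8 => hne ((ZMod.val_eq_zero _).1 h8)
              apply hiW
              have e6 : (W + 1 - b - 1 - i : ZMod p) = W - b - i := by ring
              rw [e6] at hi1
              have e7 : (W - b - 1 - i : ZMod p) = (((W - b - i).val - 1 : ℕ) : ZMod p) := by
                rw [Nat.cast_sub (by omega), ZMod.natCast_zmod_val, Nat.cast_one]
                ring
              rw [e7, ZMod.val_natCast_of_lt (by have := ZMod.val_lt (W - (b : ZMod p) - i); omega)]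
              omega
            have hbox : box l a b z i (X + 1) (X + 1 + e p l W) := by
              refine ((bl p l a b h.hE.hP z W i).1 (X + 1)).2 ?_
              have e8 : W - i = ((b : ℕ) : ZMod p) := by linear_combination hi0
              have e9 : z i = X + 1 + ((b * l - 1 : ℕ) : ZMod (p * l)) := by
                rw [Nat.cast_sub (by omega)]
                push_cast
                linear_combination hi2
              rw [e8, ZMod.val_natCast_of_lt (by omega)]
              conv_lhs => rw [e9]
              have e10 : off (X + 1) (z i) = b * l - 1 := by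
                rw [e9, off_nat _ (by omega)]
              rw [e10]
              have e11 : b - a = 0 := by omega
              rw [e11, zero_mul]
              omega
            have h8 := ((h.hW W).inn i (X + 1) hbox).1
            omega
      intro X hX
      have h9 := up (off (z j + 1) X) hX
      rwa [off_spec] at h9
  intro W hW X hX
  unfold aR at hW
  have h1 := key (W - 1 - j).val hW X hX
  have e1 : j + 1 + (((W - 1 - j).val : ℕ) : ZMod p) = W := by
    rw [ZMod.natCast_zmod_val]
    ring
  rwa [e1] at h1

end

end ALaux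

open ALaux

theorem al : StRow → StAL := by
  intro hrow p l a b k _ _ z i0 ρ τ y u h j
  have ha := h.hE.hP.ha
  have hp := h.p3
  have hka := h.hka
  have hb := h.hE.hP.hb
  have h2a := h.h2a
  have hnoZ : ∀ j0, ¬ ZZ l b z y j0 := by
    intro j0 hZ
    have key : ∀ n : ℕ, ZZ l b z y (j0 + (n : ZMod p) * a) := by
      intro n
      induction n with
      | zero =>
        rw [Nat.cast_zero, zero_mul, add_zero]
        exact hZ
      | succ n ih =>
        have e1 : j0 + ((n + 1 : ℕ) : ZMod p) * a = j0 + (n : ZMod p) * a + a := by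
          push_cast
          ring
        rw [e1]
        exact step4 hrow h _ (step3 h _ (fun h1 => step2 hrow h _ h1 ih) ih)
    have htied : l ≤ ix i0 ρ (i0 + (l : ZMod p) * ρ) := by
      rw [h.ix_at h.hE.hlp]
    have hu : IsUnit (a : ZMod p) := (ZMod.isUnit_iff_coprime a p).2 h.hap
    have hk1 := key ((i0 + (l : ZMod p) * ρ - j0) * (a : ZMod p)⁻¹).val
    have e2 : j0 + ((((i0 + (l : ZMod p) * ρ - j0) * (a : ZMod p)⁻¹).val : ℕ) : ZMod p) * a =
        i0 + (l : ZMod p) * ρ := by
      rw [ZMod.natCast_zmod_val, mul_assoc, ZMod.inv_mul_of_unit _ hu]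
      ring
    rw [e2] at hk1
    exact step2 hrow h _ htied hk1
  have hne : z j ≠ z (j - a - b) - b * l := by
    intro h1
    have h2 := (h.co h1.symm).1
    have h3 : ((a - k : ℕ) : ZMod p) = 0 := by
      rw [Nat.cast_sub (by omega)]
      push_cast at h2
      linear_combination -h2
    exact h.nat_ne (by omega) (by omega) h3
  by_contra hc
  have hlt : off (z (j - a)) (z (j - a - b) - b * l) < off (z (j - a)) (z j) := by
    rcases Nat.lt_or_eq_of_le (not_lt.1 hc) with h1 | h1
    · exact h1
    · exact absurd (off_inj_left h1).symm hne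
  exact hnoZ j (step1 hrow h j hlt)

end Helper12.TX
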