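import Pool.Agent.Helper12.TX.StA

set_option autoImplicit false

/-!
# Project TX, module ARC: `y` is the number of arcs
-/

namespace Helper12.TX

open Helper11.N1 Helper55.KE Helper73.TM

namespace ARCaux

theorem card_off {M : ℕ} [NeZero M] (c : ZMod M) {L : ℕ} (hL : L ≤ M) :
    (Finset.univ.filter fun X : ZMod M => off X c < L).card = L := by
  have h : (Finset.range L).card = (Finset.univ.filter fun X : ZMod M => off X c < L).card := by
    apply Finset.card_bij (fun (n : ℕ) _ => c - ((n : ℕ) : ZMod M))
    · intro n hn
      rw [Finset.mem_range] at hn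
      rw [Finset.mem_filter]
      refine ⟨Finset.mem_univ _, ?_⟩
      rw [off_nat' c (by omega)]
      exact hn
    · intro n hn m hm hnm
      rw [Finset.mem_range] at hn hm
      have h1 := off_nat' c (by omega : n < M)
      have h2 := off_nat' c (by omega : m < M)
      rw [hnm] at h1
      omega
    · intro X hX
      rw [Finset.mem_filter] at hX
      exact ⟨off X c, Finset.mem_range.mpr hX.2, off_spec' X c⟩
  rw [← h, Finset.card_range]

theorem sum_off {M : ℕ} [NeZero M] (c : ZMod M) {L : ℕ} (hL : L ≤ M) :
    (∑ X : ZMod M, if off X c < L then (1 : ℤ) else 0) = L := by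
  rw [← Finset.natCast_card_filter, card_off c hL]

theorem ind_step {M : ℕ} [NeZero M] (c X : ZMod M) {L : ℕ} (h0 : 0 < L) (hL : L < M) :
    (if off (X + 1) c < L then (1 : ℤ) else 0) - (if off X c < L then 1 else 0) =
      (if c - (L : ZMod M) = X then 1 else 0) - (if c = X then 1 else 0) := by
  have h1 : off X (X + 1) = 1 := by
    have := off_nat X (by omega : 1 < M)
    rw [Nat.cast_one] at this
    exact this
  by_cases hX : c = X
  · subst hX
    have h2 : off (c + 1) c = M - 1 := by
      have h3 := off_nat (c + 1) (by omega : M - 1 < M)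
      have h4 : c + 1 + ((M - 1 : ℕ) : ZMod M) = c := by
        rw [Nat.cast_sub (by omega : 1 ≤ M), ZMod.natCast_self]
        push_cast
        ring
      rw [h4] at h3
      exact h3
    have h5 : c - (L : ZMod M) ≠ c := by
      intro h6
      have h7 := off_nat' c hL
      rw [h6, off_self] at h7
      omega
    rw [h2, off_self, if_neg (by omega), if_pos h0, if_neg h5, if_pos rfl]
  · have h2 : off X c ≠ 0 := fun h3 => hX (off_eq_zero.1 h3).symm
    have h3 : 1 + off (X + 1) c = off X c := by
      have h4 := off_add X (X + 1) c
      have h5 := off_lt (X + 1) c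
      rw [h1] at h4
      rcases h4 with h4 | h4
      · exact h4
      · omega
    have h6 : c - (L : ZMod M) = X ↔ off X c = L := by
      constructor
      · intro h7
        rw [← h7]
        exact off_nat' c hL
      · intro h7
        rw [← h7]
        exact off_spec' X c
    rw [if_neg hX]
    by_cases h7 : off X c = L
    · rw [if_pos (h6.mpr h7), if_pos (by omega), if_neg (by omega)]
    · rw [if_neg (fun h8 => h7 (h6.mp h8))]
      by_cases h9 : off X c < L
      · rw [if_pos h9, if_pos (by omega)]
        ring
      · rw [if_neg h9, if_neg (by omega)]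

theorem val_sub_nat {p : ℕ} [NeZero p] (x : ZMod p) {n : ℕ} (hn : n < p) :
    (n ≤ x.val ∧ (x - (n : ZMod p)).val = x.val - n) ∨
      (x.val < n ∧ (x - (n : ZMod p)).val = p + x.val - n) := by
  have hx := ZMod.val_lt x
  rcases Nat.lt_or_ge x.val n with h | h
  · right
    refine ⟨h, ?_⟩
    have h1 : x - (n : ZMod p) = ((p + x.val - n : ℕ) : ZMod p) := by
      rw [Nat.cast_sub (by omega), Nat.cast_add, ZMod.natCast_self, ZMod.natCast_zmod_val]
      ring
    rw [h1, ZMod.val_natCast_of_lt (by omega)]
  · left
    refine ⟨h, ?_⟩
    have h1 : x - (n : ZMod p) = ((x.val - n : ℕ) : ZMod p) := by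
      rw [Nat.cast_sub h, ZMod.natCast_zmod_val]
    rw [h1, ZMod.val_natCast_of_lt (by omega)]

theorem const_of_step {M : ℕ} [NeZero M] (f : ZMod M → ℤ) (h : ∀ X, f (X + 1) = f X)
    (X : ZMod M) : f X = f 0 := by
  have h1 : ∀ n : ℕ, f (n : ZMod M) = f 0 := by
    intro n
    induction n with
    | zero => rw [Nat.cast_zero]
    | succ n ih => rw [Nat.cast_succ, h, ih]
  have h2 := h1 X.val
  rw [ZMod.natCast_zmod_val] at h2
  exact h2

end ARCaux

open ARCaux

theorem arc : StSum → StArc := by
  intro hSum p l a b k _ _ z i0 ρ τ y u h W X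
  classical
  have hl0 := h.hl0
  have hP := h.hE.hP
  have hka := h.hka
  have hk := h.hk
  have hab := hP.hab
  have ha2 := hP.ha
  have hb2 := hP.hb
  obtain ⟨hs1, hs2, hs3⟩ := hSum p l a b k z i0 ρ τ y u h W
  have hbl : 0 < b * l := Nat.mul_pos (by omega) hl0
  have h2bl : 2 * (b * l) ≤ a * b * l := by
    rw [mul_assoc a b l]
    exact Nat.mul_le_mul_right _ ha2
  have hlen0 : ∀ j, 0 < len l a b z W j := by
    intro j
    unfold len
    omega
  have hlen1 : ∀ j, len l a b z W j < p * l := by
    intro j
    have h1 := hs3 j
    unfold len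
    split_ifs <;> omega
  have hBR : ∀ j, aB b W j → aR a W j := by
    intro j hj
    unfold aB at hj
    unfold aR
    omega
  -- the number of arcs as a sum
  have hcard : ((Finset.univ.filter fun j : ZMod p =>
      aR a W j ∧ off X (z j) < len l a b z W j).card : ℤ) =
      ∑ j : ZMod p, if aR a W j ∧ off X (z j) < len l a b z W j then (1 : ℤ) else 0 :=
    Finset.natCast_card_filter _ _
  rw [hcard]
  obtain ⟨G, hG⟩ : ∃ G : ZMod (p * l) → ℤ, ∀ X, G X =
      ∑ j : ZMod p, if aR a W j ∧ off X (z j) < len l a b z W j then (1 : ℤ) else 0 :=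
    ⟨_, fun _ => rfl⟩
  rw [← hG]
  have hstep : ∀ X, G (X + 1) - G X = y W (X + 1) - y W X := by
    intro X
    rw [(h.hW W).yJ X, hG, hG, ← Finset.sum_sub_distrib]
    have e1 : ∀ j : ZMod p,
        (if aR a W j ∧ off (X + 1) (z j) < len l a b z W j then (1 : ℤ) else 0) -
          (if aR a W j ∧ off X (z j) < len l a b z W j then (1 : ℤ) else 0) =
        ((if (aR a W j ∧ ¬ aB b W j) ∧ z j - b * l = X then (1 : ℤ) else 0) +
          (if aB b W j ∧ z (j - a) - b * l = X then (1 : ℤ) else 0)) -
          (if aR a W j ∧ z j = X then (1 : ℤ) else 0) := by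
      intro j
      by_cases hR : aR a W j
      · have h1 := ind_step (z j) X (hlen0 j) (hlen1 j)
        simp only [hR, true_and]
        rw [h1]
        congr 1
        by_cases hB : aB b W j
        · have h2 : z j - ((len l a b z W j : ℕ) : ZMod (p * l)) = z (j - a) - b * l := by
            unfold len
            rw [if_pos hB]
            push_cast
            have h3 := off_spec' (z (j - a)) (z j)
            linear_combination h3
          rw [h2]
          simp only [hB, not_true_eq_false, false_and, if_false, true_and, zero_add]
        · have h2 : z j - ((len l a b z W j : ℕ) : ZMod (p * l)) = z j - b * l := by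
            unfold len
            rw [if_neg hB]
            push_cast
            ring
          rw [h2]
          simp only [hB, not_false_eq_true, true_and, false_and, if_false, add_zero]
      · have hB : ¬ aB b W j := fun hB => hR (hBR j hB)
        simp only [hR, hB, false_and, if_false]
        ring
    rw [Finset.sum_congr rfl (fun j _ => e1 j), Finset.sum_sub_distrib, Finset.sum_add_distrib]
    congr 1
    have e2 : ∀ j : ZMod p, (if aL a b W j ∧ z j - b * l = X then (1 : ℤ) else 0) =
        (if (aR a W j ∧ ¬ aB b W j) ∧ z j - b * l = X then (1 : ℤ) else 0) +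
          (if aB b W (j + a) ∧ z j - b * l = X then (1 : ℤ) else 0) := by
      intro j
      by_cases hz : z j - b * l = X
      · simp only [hz, and_true]
        have hv := ZMod.val_lt (W - 1 - j)
        have h1 := val_sub_nat (W - 1 - j) (by omega : b < p)
        have h2 := val_sub_nat (W - 1 - j) (by omega : a < p)
        have h3 : W - (b : ZMod p) - 1 - j = W - 1 - j - (b : ZMod p) := by ring
        have h4 : W - 1 - (j + (a : ZMod p)) = W - 1 - j - (a : ZMod p) := by ring
        unfold aL aR aB
        rw [h3, h4]
        generalize (W - 1 - j - (b : ZMod p)).val = v1 at *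
        generalize (W - 1 - j - (a : ZMod p)).val = v2 at *
        generalize (W - 1 - j).val = v at *
        by_cases c1 : v < a
        · by_cases c2 : v < b
          · rw [if_neg (by omega), if_neg (by omega), if_neg (by omega)]
            ring
          · rw [if_pos (by omega), if_pos (by omega), if_neg (by omega)]
            ring
        · by_cases c2 : v < a + b
          · rw [if_pos (by omega), if_neg (by omega), if_pos (by omega)]
            ring
          · rw [if_neg (by omega), if_neg (by omega), if_neg (by omega)]
            ring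
      · simp only [hz, and_false, if_false, add_zero]
    rw [Finset.sum_congr rfl (fun j _ => e2 j), Finset.sum_add_distrib]
    congr 1
    refine Fintype.sum_equiv (Equiv.subRight (a : ZMod p)) _ _ (fun j => ?_)
    simp only [Equiv.subRight_apply, sub_add_cancel]
  have hsumG : ∑ X, G X = ∑ X, y W X := by
    rw [hs1]
    rw [Finset.sum_congr rfl (fun X _ => hG X), Finset.sum_comm]
    have e5 : ∀ j : ZMod p, (∑ X : ZMod (p * l),
        if aR a W j ∧ off X (z j) < len l a b z W j then (1 : ℤ) else 0) =
        (if aR a W j then ((b * l : ℕ) : ℤ) else 0) +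
          (if aB b W j then (off (z (j - a)) (z j) : ℤ) else 0) := by
      intro j
      by_cases hR : aR a W j
      · simp only [hR, true_and, if_true]
        rw [sum_off (z j) (hlen1 j).le]
        unfold len
        by_cases hB : aB b W j
        · rw [if_pos hB, if_pos hB]
          push_cast
          ring
        · rw [if_neg hB, if_neg hB]
          push_cast
          ring
      · have hB : ¬ aB b W j := fun hB => hR (hBR j hB)
        simp only [hR, hB, false_and, if_false, Finset.sum_const_zero, add_zero]
    rw [Finset.sum_congr rfl (fun j _ => e5 j), Finset.sum_add_distrib]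
    congr 1
    have e6 : (∑ j : ZMod p, if aR a W j then ((b * l : ℕ) : ℤ) else 0) =
        (∑ j : ZMod p, if off j (W - 1) < a then (1 : ℤ) else 0) * ((b * l : ℕ) : ℤ) := by
      rw [Finset.sum_mul]
      refine Finset.sum_congr rfl (fun j _ => ?_)
      have h1 : aR a W j ↔ off j (W - 1) < a := Iff.rfl
      by_cases hR : aR a W j
      · rw [if_pos hR, if_pos (h1.mp hR), one_mul]
      · rw [if_neg hR, if_neg (fun h2 => hR (h1.mpr h2)), zero_mul]
    rw [e6, sum_off (W - 1) (by omega : a ≤ p)]
    push_cast
    ring
  have hconst : ∀ X, G X - y W X = G 0 - y W 0 := by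
    intro X
    refine const_of_step (fun X => G X - y W X) (fun X => ?_) X
    have := hstep X
    linarith
  have hzero : G 0 - y W 0 = 0 := by
    have h1 : ∑ X, (G X - y W X) = 0 := by
      rw [Finset.sum_sub_distrib, hsumG, sub_self]
    rw [Finset.sum_congr rfl (fun X _ => hconst X), Finset.sum_const, Finset.card_univ,
      ZMod.card, nsmul_eq_mul] at h1
    rcases mul_eq_zero.mp h1 with h2 | h2
    · exfalso
      have h3 : p * l = 0 := by exact_mod_cast h2
      have h4 : 0 < p * l := Nat.mul_pos (by omega) hl0
      omega
    · exact h2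
  have h9 := hconst X
  linarith

end Helper12.TX
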