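import Pool.Agent.Helper12.TX.StB

set_option autoImplicit false
set_option linter.unusedSectionVars false

/-!
Project TX, module CP: `p = a (b + I) + (b + k) h` by counting.
-/

namespace Helper12.TX

open Helper11.N1 Helper55.KE Helper73.TM

namespace CPaux

section

variable {p l a b k : ℕ} [NeZero p] [NeZero l] {z : ZMod p → ZMod (p * l)} {i0 ρ : ZMod p}
  {τ : ZMod (p * l)} {y u : ZMod p → ZMod (p * l) → ℤ} {α I h ξ : ℕ}

/-- number of the residues with small value -/
theorem cnt_lt {c : ℕ} (hc : c ≤ p) :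
    (Finset.univ.filter fun v : ZMod p => v.val < c).card = c := by
  classical
  have h1 : (Finset.univ.filter fun v : ZMod p => v.val < c).card = (Finset.range c).card := by
    apply Finset.card_bij (fun v _ => v.val)
    · intro v hv
      rw [Finset.mem_filter] at hv
      exact Finset.mem_range.2 hv.2
    · intro v _ w _ hvw
      exact ZMod.val_injective p hvw
    · intro n hn
      rw [Finset.mem_range] at hn
      refine ⟨(n : ZMod p), ?_, ZMod.val_natCast_of_lt (by omega)⟩
      rw [Finset.mem_filter]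
      refine ⟨Finset.mem_univ _, ?_⟩
      rw [ZMod.val_natCast_of_lt (by omega)]
      exact hn
  rw [h1, Finset.card_range]

/-- the sum over the position of `n` in the window -/
theorem sum_val {A B : ℤ} {β : ℕ} (hβ : β ≤ a) (hap : a ≤ p) :
    (∑ v : ZMod p, if v.val < a then (if v.val + β < a then A else B) else 0) =
      ((a : ℤ) - β) * A + β * B := by
  classical
  have h1 : (∑ v : ZMod p, if v.val < a then (if v.val + β < a then A else B) else 0) =
      ∑ v : ZMod p, ((if v.val < a - β then (A - B) else 0) + (if v.val < a then B else 0)) := by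
    apply Finset.sum_congr rfl
    intro v _
    by_cases h1 : v.val < a
    · rw [if_pos h1, if_pos h1]
      by_cases h2 : v.val + β < a
      · rw [if_pos h2, if_pos (by omega)]
        ring
      · rw [if_neg h2, if_neg (by omega)]
        ring
    · rw [if_neg h1, if_neg h1, if_neg (by omega)]
      ring
  rw [h1, Finset.sum_add_distrib, ← Finset.sum_filter, ← Finset.sum_filter, Finset.sum_const,
    Finset.sum_const, cnt_lt (by omega), cnt_lt hap, nsmul_eq_mul, nsmul_eq_mul]
  push_cast [hβ]
  ring

theorem aR_iff {W n : ZMod p} : aR a W n ↔ (W - 1 - n).val < a := Iff.rfl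

/-- the position of the upper neighbour -/
theorem nxt_val (hβ0 : 0 < b + k) (hβ : b + k < a) (hap : a < p) {W n : ZMod p}
    (hn : aR a W n) : aR a W (nxt a b k W n) ∧ nxt a b k W n ≠ n := by
  unfold aR at hn ⊢
  unfold nxt
  have hv : ((W - 1 - n).val : ZMod p) = W - 1 - n := ZMod.natCast_zmod_val _
  by_cases h1 : (W - 1 - n).val + (b + k) < a
  · rw [if_pos h1]
    have h2 : W - 1 - (n - ((b + k : ℕ) : ZMod p)) =
        (((W - 1 - n).val + (b + k) : ℕ) : ZMod p) := by
      push_cast [hv]
      ring
    refine ⟨?_, ?_⟩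
    · rw [h2, ZMod.val_natCast_of_lt (by omega)]
      exact h1
    · intro h3
      have h4 : ((b + k : ℕ) : ZMod p) = 0 := by linear_combination -h3
      rw [ZMod.natCast_eq_zero_iff] at h4
      have := Nat.le_of_dvd hβ0 h4
      omega
  · rw [if_neg h1]
    have h2 : W - 1 - (n - ((b + k : ℕ) : ZMod p) + (a : ZMod p)) =
        (((W - 1 - n).val + (b + k) - a : ℕ) : ZMod p) := by
      rw [Nat.cast_sub (by omega)]
      push_cast [hv]
      ring
    refine ⟨?_, ?_⟩
    · rw [h2, ZMod.val_natCast_of_lt (by omega)]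
      omega
    · intro h3
      have h4 : ((a - (b + k) : ℕ) : ZMod p) = 0 := by
        rw [Nat.cast_sub (by omega)]
        linear_combination h3
      rw [ZMod.natCast_eq_zero_iff] at h4
      have := Nat.le_of_dvd (by omega) h4
      omega

theorem exist_one (hT : TW p l a b k z i0 ρ τ y u) (hlt : b + k + 1 ≤ a) (x : ZMod (p * l))
    (W : ZMod p) : ∃ n, aR a W n ∧ off (z n) x < off (z n) (z (nxt a b k W n)) := by
  classical
  have hap : a < p := by have := hT.hE.hP.hab; omega
  have hb := hT.hE.hP.hb
  have hne : (Finset.univ.filter fun n : ZMod p => aR a W n).Nonempty := by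
    refine ⟨W - 1, ?_⟩
    rw [Finset.mem_filter]
    refine ⟨Finset.mem_univ _, ?_⟩
    unfold aR
    rw [sub_self, ZMod.val_zero]
    omega
  obtain ⟨n, hn, hmin⟩ := Finset.exists_min_image _ (fun n => off (z n) x) hne
  rw [Finset.mem_filter] at hn
  obtain ⟨hm, hmn⟩ := nxt_val (b := b) (k := k) (by omega) (by omega) hap hn.2
  refine ⟨n, hn.2, ?_⟩
  by_contra hcon
  rw [not_lt] at hcon
  have h1 : off (z n) (z (nxt a b k W n)) ≠ 0 := by
    intro h2
    exact hmn (hT.zinj (off_eq_zero.1 h2)).symm
  have h2 := off_add (z n) (z (nxt a b k W n)) x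
  have h3 := hmin (nxt a b k W n) (by rw [Finset.mem_filter]; exact ⟨Finset.mem_univ _, hm⟩)
  have h4 := off_lt (z n) x
  have h5 := off_lt (z (nxt a b k W n)) x
  omega

theorem unique_one (hT : TW p l a b k z i0 ρ τ y u) (hS : StSucc) (x : ZMod (p * l))
    (W n n' : ZMod p) (hn : aR a W n) (hn' : aR a W n')
    (h1 : off (z n) x < off (z n) (z (nxt a b k W n)))
    (h2 : off (z n') x < off (z n') (z (nxt a b k W n'))) : n = n' := by
  by_contra hne
  have key : ∀ n n' : ZMod p, aR a W n → aR a W n' →
      off (z n') x < off (z n') (z (nxt a b k W n')) → off (z n) x < off (z n') x → False := by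
    intro n n' hn hn' h2 h3
    have h4 := off_add (z n') (z n) x
    have h5 := off_lt (z n') (z n)
    have h6 := off_lt (z n) x
    have h7 : off (z n') (z n) + off (z n) x = off (z n') x := by
      rcases h4 with h4 | h4
      · exact h4
      · have := off_lt (z n') x
        omega
    have h8 := hS p l a b k z i0 ρ τ y u hT W n' n hn' hn (by omega)
    omega
  rcases lt_trichotomy (off (z n) x) (off (z n') x) with h3 | h3 | h3
  · exact key n n' hn hn' h2 h3
  · exact hne (hT.zinj (off_inj_right h3))
  · exact key n' n hn' hn h1 h3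

/-- the two kinds of gaps, counted -/
theorem count_gaps (hT : TW p l a b k z i0 ρ τ y u) (hlt : b + k + 1 ≤ a) (hS : StSucc)
    (x : ZMod (p * l)) : open Classical in
    (p : ℤ) = ((a : ℤ) - ((b + k : ℕ) : ℤ)) *
      ((Finset.univ.filter fun n : ZMod p =>
        off (z n) x < off (z n) (z (n - ((b + k : ℕ) : ZMod p)))).card : ℤ) +
      ((b + k : ℕ) : ℤ) * ((Finset.univ.filter fun n : ZMod p =>
        off (z n) x < off (z n) (z (n - ((b + k : ℕ) : ZMod p) + (a : ZMod p)))).card : ℤ) := by
  classical
  have hap : a < p := by have := hT.hE.hP.hab; omega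
  set T1 : ZMod p → Prop := fun n =>
    off (z n) x < off (z n) (z (n - ((b + k : ℕ) : ZMod p))) with hT1
  set T2 : ZMod p → Prop := fun n =>
    off (z n) x < off (z n) (z (n - ((b + k : ℕ) : ZMod p) + (a : ZMod p))) with hT2
  set P : ZMod p → ZMod p → Prop := fun W n =>
    aR a W n ∧ off (z n) x < off (z n) (z (nxt a b k W n)) with hP
  have h1 : ∀ W, (∑ n, if P W n then (1 : ℤ) else 0) = 1 := by
    intro W
    obtain ⟨n, hn1, hn2⟩ := exist_one hT hlt x W
    rw [Finset.sum_eq_single n]
    · rw [if_pos ⟨hn1, hn2⟩]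
    · intro m _ hm
      rw [if_neg]
      rintro ⟨hm1, hm2⟩
      exact hm (unique_one hT hS x W m n hm1 hn1 hm2 hn2)
    · intro h
      exact absurd (Finset.mem_univ n) h
  have h2 : (∑ W : ZMod p, ∑ n, if P W n then (1 : ℤ) else 0) = p := by
    rw [Finset.sum_congr rfl (fun W _ => h1 W), Finset.sum_const, Finset.card_univ, ZMod.card,
      nsmul_eq_mul, mul_one]
  rw [Finset.sum_comm] at h2
  have h3 : ∀ n : ZMod p, (∑ W : ZMod p, if P W n then (1 : ℤ) else 0) =
      ((a : ℤ) - ((b + k : ℕ) : ℤ)) * (if T1 n then 1 else 0) +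
        ((b + k : ℕ) : ℤ) * (if T2 n then 1 else 0) := by
    intro n
    rw [← sum_val (p := p) (a := a) (β := b + k) (A := if T1 n then 1 else 0) (B := if T2 n then 1 else 0)
      (by omega) (by omega)]
    refine Fintype.sum_equiv ((Equiv.subRight (1 : ZMod p)).trans (Equiv.subRight n)) _ _ ?_
    intro W
    rw [Equiv.trans_apply, Equiv.subRight_apply, Equiv.subRight_apply]
    by_cases h4 : (W - 1 - n).val < a
    · rw [if_pos h4]
      by_cases h5 : (W - 1 - n).val + (b + k) < a
      · rw [if_pos h5]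
        have h6 : P W n ↔ T1 n := by
          rw [hP, hT1]
          unfold aR nxt
          simp only [if_pos h5]
          exact ⟨fun h => h.2, fun h => ⟨h4, h⟩⟩
        simp only [h6]
      · rw [if_neg h5]
        have h6 : P W n ↔ T2 n := by
          rw [hP, hT2]
          unfold aR nxt
          simp only [if_neg h5]
          exact ⟨fun h => h.2, fun h => ⟨h4, h⟩⟩
        simp only [h6]
    · rw [if_neg h4, if_neg]
      rintro ⟨h5, _⟩
      exact h4 h5
  rw [Finset.sum_congr rfl (fun n _ => h3 n), Finset.sum_add_distrib, ← Finset.mul_sum,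
    ← Finset.mul_sum, Finset.sum_boole, Finset.sum_boole] at h2
  rw [← h2]

/-- number of the rows with small index -/
theorem cnt_ix (hT : TW p l a b k z i0 ρ τ y u) {c : ℕ} (hc : c ≤ p) :
    (Finset.univ.filter fun n : ZMod p => ix i0 ρ n < c).card = c := by
  classical
  have h1 : (Finset.univ.filter fun n : ZMod p => ix i0 ρ n < c).card = (Finset.range c).card := by
    apply Finset.card_bij (fun n _ => ix i0 ρ n)
    · intro v hv
      rw [Finset.mem_filter] at hv
      exact Finset.mem_range.2 hv.2
    · intro v _ w _ hvw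
      have h2 := hT.ix_eq v
      have h3 := hT.ix_eq w
      rw [hvw, h3] at h2
      exact h2.symm
    · intro n hn
      rw [Finset.mem_range] at hn
      refine ⟨i0 + (n : ZMod p) * ρ, ?_, hT.ix_at (by omega)⟩
      rw [Finset.mem_filter]
      refine ⟨Finset.mem_univ _, ?_⟩
      rw [hT.ix_at (by omega)]
      exact hn
  rw [h1, Finset.card_range]

theorem bl_lt (hT : TW p l a b k z i0 ρ τ y u) : b * l < p * l :=
  Nat.mul_lt_mul_of_pos_right (by have := hT.hE.hP.hab; omega) hT.hl0

theorem pI_lt (hT : TW p l a b k z i0 ρ τ y u) (hV : VD p l a b z i0 ρ τ α I h ξ) :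
    p * I + b * l < p * l := by
  have h1 := hV.v2
  have h2 := hV.ξv
  have h3 := hV.ξ0
  have h4 : 0 < b * l := Nat.mul_pos (by have := hT.hE.hP.hb; omega) hT.hl0
  have h5 : 2 * b * l = b * l + b * l := by ring
  omega

/-- the gap to the row `β` below -/
theorem gap1 (hT : TW p l a b k z i0 ρ τ y u) (hV : VD p l a b z i0 ρ τ α I h ξ) (n : ZMod p) :
    off (z n) (z (n - ((b + k : ℕ) : ZMod p))) =
      b * l + (if ix i0 ρ n < l then p * I else 0) := by
  by_cases h1 : ix i0 ρ n < l
  · rw [if_pos h1]
    have hlp := hT.hE.hlp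
    have h2 : i0 + ((ix i0 ρ n + p - l : ℕ) : ZMod p) * ρ = n - ((b + k : ℕ) : ZMod p) := by
      rw [Nat.cast_sub (by omega), Nat.cast_add, ZMod.natCast_self, ← hT.lρ]
      conv_rhs => rw [← hT.ix_eq n]
      ring
    have h3 : z (n - ((b + k : ℕ) : ZMod p)) = z n + ((p * I + b * l : ℕ) : ZMod (p * l)) := by
      rw [← h2, hT.hE.zn (by omega), hT.z_ix n, Nat.cast_sub (by omega), Nat.cast_add]
      have h4 := hV.pτ
      have h5 := hT.hE.hlt
      push_cast at h4 ⊢
      linear_combination h4 - h5
    rw [h3, off_nat _ (pI_lt hT hV)]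
    ring
  · rw [if_neg h1]
    have h2 := hT.tied (j := n) (by omega)
    have h3 : z (n - ((b + k : ℕ) : ZMod p)) = z n + ((b * l : ℕ) : ZMod (p * l)) := by
      push_cast at h2 ⊢
      linear_combination h2
    rw [h3, off_nat _ (bl_lt hT)]
    ring

theorem sum_gap1 (hT : TW p l a b k z i0 ρ τ y u) (hV : VD p l a b z i0 ρ τ α I h ξ) :
    (∑ n : ZMod p, off (z n) (z (n - ((b + k : ℕ) : ZMod p)))) = p * (b * l) + l * (p * I) := by
  classical
  rw [Finset.sum_congr rfl (fun n _ => gap1 hT hV n), Finset.sum_add_distrib, Finset.sum_const,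
    Finset.card_univ, ZMod.card, ← Finset.sum_filter, Finset.sum_const,
    cnt_ix hT hT.hE.hlp.le, smul_eq_mul, smul_eq_mul]

/-- the jumps -/
theorem sum_jump (hT : TW p l a b k z i0 ρ τ y u) (hV : VD p l a b z i0 ρ τ α I h ξ) :
    (∑ j : ZMod p, off (z (j - a)) (z j)) = p * (h * l) := by
  classical
  have h1 : ∀ j : ZMod p, off (z (j - a)) (z j) + (if ix i0 ρ j < α then p * I else 0) =
      α * I + h * l := by
    intro j
    by_cases h2 : ix i0 ρ j < α
    · rw [if_pos h2, hV.xξ j h2, hV.ξv]
    · rw [if_neg h2, hV.xv j (by omega), add_zero]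
  have h2 : (∑ j : ZMod p, (off (z (j - a)) (z j) + (if ix i0 ρ j < α then p * I else 0))) =
      p * (α * I + h * l) := by
    rw [Finset.sum_congr rfl (fun j _ => h1 j), Finset.sum_const, Finset.card_univ, ZMod.card,
      smul_eq_mul]
  rw [Finset.sum_add_distrib, ← Finset.sum_filter, Finset.sum_const, cnt_ix hT hV.αp.le,
    smul_eq_mul] at h2
  have h3 : p * (α * I + h * l) = p * (h * l) + α * (p * I) := by ring
  omega

/-- the gap to the upper neighbour of the second kind -/
theorem gap2 (hT : TW p l a b k z i0 ρ τ y u) (hlt : b + k + 1 ≤ a) (hS : StSep) (n : ZMod p) :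
    off (z n) (z (n - ((b + k : ℕ) : ZMod p) + (a : ZMod p))) =
      off (z n) (z (n - ((b + k : ℕ) : ZMod p))) +
      off (z (n - ((b + k : ℕ) : ZMod p) + (a : ZMod p) - a))
        (z (n - ((b + k : ℕ) : ZMod p) + (a : ZMod p))) := by
  have hap : a < p := by have := hT.hE.hP.hab; omega
  set W := n - ((b + k : ℕ) : ZMod p) + (a : ZMod p) with hW
  have hWa : n - ((b + k : ℕ) : ZMod p) = W - a := by rw [hW]; ring
  rw [hWa]
  rcases off_add (z n) (z (W - a)) (z W) with h1 | h1
  · exact h1.symm
  · exfalso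
    have h2 := off_lt (z n) (z (W - a))
    have h3 : off (z n) (z W) < off (z (W - a)) (z W) := by omega
    have h4 : aR a (W + 1) n := by
      unfold aR
      have h5 : W + 1 - 1 - n = ((a - (b + k) : ℕ) : ZMod p) := by
        rw [Nat.cast_sub (by omega), hW]
        ring
      rw [h5, ZMod.val_natCast_of_lt (by omega)]
      have := hT.hE.hP.hb
      omega
    have hWW : W + 1 - 1 - W = 0 := by ring
    have h5 : aR a (W + 1) W := by
      unfold aR
      rw [hWW, ZMod.val_zero]
      omega
    have h6 : aB b (W + 1) W := by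
      unfold aB
      rw [hWW, ZMod.val_zero]
      have := hT.hE.hP.hb
      omega
    have h7 : 0 < b * l := Nat.mul_pos (by have := hT.hE.hP.hb; omega) hT.hl0
    have h8 := (hS p l a b k z i0 ρ τ y u hT).1 (W + 1) n W (z n) h4 h5
      (by
        rw [off_self]
        unfold len
        omega)
      (by
        unfold len
        rw [if_pos h6]
        omega)
    have h9 : ((a - (b + k) : ℕ) : ZMod p) = 0 := by
      rw [Nat.cast_sub (by omega)]
      rw [hW] at h8
      linear_combination -h8
    rw [ZMod.natCast_eq_zero_iff] at h9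
    have := Nat.le_of_dvd (by omega) h9
    omega

theorem sum_gap2 (hT : TW p l a b k z i0 ρ τ y u) (hV : VD p l a b z i0 ρ τ α I h ξ)
    (hlt : b + k + 1 ≤ a) (hS : StSep) :
    (∑ n : ZMod p, off (z n) (z (n - ((b + k : ℕ) : ZMod p) + (a : ZMod p)))) =
      p * (b * l) + l * (p * I) + p * (h * l) := by
  rw [Finset.sum_congr rfl (fun n _ => gap2 hT hlt hS n), Finset.sum_add_distrib,
    sum_gap1 hT hV, ← sum_jump hT hV]
  congr 1
  refine Fintype.sum_equiv ((Equiv.subRight ((b + k : ℕ) : ZMod p)).trans
    (Equiv.addRight (a : ZMod p))) _ _ ?_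
  intro n
  rw [Equiv.trans_apply, Equiv.subRight_apply, Equiv.coe_addRight]

end

end CPaux

open CPaux in
theorem cp : Helper11.N1.StWind → StLT → StSep → StSucc → StCP := by
  intro hWind hLT hSep hSucc p l a b k _ _ z i0 ρ τ y u α I h ξ hT hV
  classical
  have hlt := hLT p l a b k z i0 ρ τ y u hT
  have hp0 : 0 < p := Nat.pos_of_ne_zero (NeZero.ne p)
  have hl0 := hT.hl0
  have hcount := count_gaps hT hlt hSucc (z i0)
  have hA1 : (p * l) * (Finset.univ.filter fun n : ZMod p =>
      off (z n) (z i0) < off (z n) (z (n - ((b + k : ℕ) : ZMod p)))).card =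
      p * (b * l) + l * (p * I) := by
    rw [← sum_gap1 hT hV]
    have h1 := hWind p (p * l) z (-((b + k : ℕ) : ZMod p)) (z i0)
    have h2 : (Finset.univ.filter fun j : ZMod p =>
        off (z (j - -((b + k : ℕ) : ZMod p))) (z i0) <
          off (z (j - -((b + k : ℕ) : ZMod p))) (z j)).card =
        (Finset.univ.filter fun n : ZMod p =>
          off (z n) (z i0) < off (z n) (z (n - ((b + k : ℕ) : ZMod p)))).card := by
      apply Finset.card_bij (fun j _ => j + ((b + k : ℕ) : ZMod p))
      · intro j hj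
        rw [Finset.mem_filter] at hj ⊢
        refine ⟨Finset.mem_univ _, ?_⟩
        rw [add_sub_cancel_right]
        rw [sub_neg_eq_add] at hj
        exact hj.2
      · intro j _ j' _ h3
        exact add_right_cancel h3
      · intro n hn
        refine ⟨n - ((b + k : ℕ) : ZMod p), ?_, sub_add_cancel _ _⟩
        rw [Finset.mem_filter] at hn ⊢
        refine ⟨Finset.mem_univ _, ?_⟩
        rw [sub_neg_eq_add, sub_add_cancel]
        exact hn.2
    rw [h2] at h1
    rw [h1]
    refine Fintype.sum_equiv (Equiv.addRight ((b + k : ℕ) : ZMod p)) _ _ ?_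
    intro j
    rw [Equiv.coe_addRight, add_sub_cancel_right, sub_neg_eq_add]
  have hA2 : (p * l) * (Finset.univ.filter fun n : ZMod p =>
      off (z n) (z i0) < off (z n) (z (n - ((b + k : ℕ) : ZMod p) + (a : ZMod p)))).card =
      p * (b * l) + l * (p * I) + p * (h * l) := by
    rw [← sum_gap2 hT hV hlt hSep]
    have h1 := hWind p (p * l) z ((a : ZMod p) - ((b + k : ℕ) : ZMod p)) (z i0)
    have e1 : ∀ j : ZMod p, j - ((a : ZMod p) - ((b + k : ℕ) : ZMod p)) -
        ((b + k : ℕ) : ZMod p) + (a : ZMod p) = j := by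
      intro j
      ring
    have e2 : ∀ n : ZMod p, n - ((b + k : ℕ) : ZMod p) + (a : ZMod p) -
        ((a : ZMod p) - ((b + k : ℕ) : ZMod p)) = n := by
      intro n
      ring
    have h2 : (Finset.univ.filter fun j : ZMod p =>
        off (z (j - ((a : ZMod p) - ((b + k : ℕ) : ZMod p)))) (z i0) <
          off (z (j - ((a : ZMod p) - ((b + k : ℕ) : ZMod p)))) (z j)).card =
        (Finset.univ.filter fun n : ZMod p =>
          off (z n) (z i0) < off (z n) (z (n - ((b + k : ℕ) : ZMod p) + (a : ZMod p)))).card := by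
      apply Finset.card_bij (fun j _ => j - ((a : ZMod p) - ((b + k : ℕ) : ZMod p)))
      · intro j hj
        rw [Finset.mem_filter] at hj ⊢
        refine ⟨Finset.mem_univ _, ?_⟩
        rw [e1]
        exact hj.2
      · intro j _ j' _ h3
        exact sub_left_injective h3
      · intro n hn
        refine ⟨n - ((b + k : ℕ) : ZMod p) + (a : ZMod p), ?_, e2 n⟩
        rw [Finset.mem_filter] at hn ⊢
        refine ⟨Finset.mem_univ _, ?_⟩
        rw [e2]
        exact hn.2
    rw [h2] at h1
    rw [h1]
    refine Fintype.sum_equiv (Equiv.subRight ((a : ZMod p) - ((b + k : ℕ) : ZMod p))) _ _ ?_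
    intro j
    rw [Equiv.subRight_apply, e1]
  have hpl : 0 < p * l := Nat.mul_pos hp0 hl0
  have hB1 : (Finset.univ.filter fun n : ZMod p =>
      off (z n) (z i0) < off (z n) (z (n - ((b + k : ℕ) : ZMod p)))).card = b + I := by
    apply Nat.eq_of_mul_eq_mul_left hpl
    rw [hA1]
    ring
  have hB2 : (Finset.univ.filter fun n : ZMod p =>
      off (z n) (z i0) < off (z n) (z (n - ((b + k : ℕ) : ZMod p) + (a : ZMod p)))).card =
      b + I + h := by
    apply Nat.eq_of_mul_eq_mul_left hpl
    rw [hA2]
    ring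
  rw [hB1, hB2] at hcount
  have hfin : (p : ℤ) = ((a * (b + I) + (b + k) * h : ℕ) : ℤ) := by
    rw [hcount]
    push_cast
    ring
  exact_mod_cast hfin

end Helper12.TX
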