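import Pool.Agent.Helper12.TX.StA

set_option autoImplicit false
set_option linter.unusedSectionVars false

/-!
# Project TX, module ER: the counting identity
-/

namespace Helper12.TX

open Helper11.N1 Helper55.KE Helper73.TM

namespace ERaux

section

variable {p l a b k : ℕ} [NeZero p] [NeZero l] {z : ZMod p → ZMod (p * l)} {i0 ρ : ZMod p}
  {τ : ZMod (p * l)} {y u : ZMod p → ZMod (p * l) → ℤ}

theorem sizes (h : TW p l a b k z i0 ρ τ y u) : a * l + b * l + l ≤ p * l := by
  have hab := h.hE.hP.hab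
  have h1 : (a + b + 1) * l ≤ p * l := Nat.mul_le_mul_right l (by omega)
  calc a * l + b * l + l = (a + b + 1) * l := by ring
    _ ≤ p * l := h1

/-- the neighbourhood of the box `m` -/
theorem star (h : TW p l a b k z i0 ρ τ y u) {w m : ZMod p} (hU : UU l a b z u w)
    (h0 : 0 < off (sc l z (w - a)) (sc l z m))
    (h1 : off (sc l z (w - a)) (sc l z m) < a * l + off (z (w - a)) (z w)) {n : ℕ} (hn : n < b)
    {X : ZMod (p * l)} (hX : off X (z m) < b * l) : y (w + 1 + (n : ZMod p)) X = 1 := by
  have hl0 := h.hl0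
  have hP := h.hE.hP
  have hab := hP.hab
  have ha := hP.ha
  have hM := sizes h
  obtain ⟨σ, hσ⟩ : ∃ σ, σ = off (sc l z (w - a)) (sc l z m) := ⟨_, rfl⟩
  obtain ⟨xw, hxw⟩ : ∃ xw, xw = off (z (w - a)) (z w) := ⟨_, rfl⟩
  rw [← hσ] at h0 h1
  rw [← hxw] at h1
  have hxw0 : 0 < xw := by
    rw [Nat.pos_iff_ne_zero, hxw]
    intro h2
    have h3 := h.zinj (off_eq_zero.1 h2)
    have h4 : ((a : ℕ) : ZMod p) = 0 := by
      have h5 : w - (w - (a : ZMod p)) = 0 := by rw [h3, sub_self]
      rwa [sub_sub_cancel] at h5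
    exact h.nat_ne (by omega) (by omega) h4
  have hxM : xw < p * l := by rw [hxw]; exact off_lt _ _
  have hσM : σ < p * l := by rw [hσ]; exact off_lt _ _
  have hal : 0 < a * l := Nat.mul_pos (by omega) hl0
  obtain ⟨nn, hnn1, hnn2, hnn3, hnn4⟩ : ∃ nn : ℕ, σ < nn ∧ a * l < nn ∧ nn ≤ a * l + xw ∧
      nn ≤ σ + a * l := by
    rcases le_total σ (a * l) with h2 | h2
    · exact ⟨a * l + 1, by omega, by omega, by omega, by omega⟩
    · exact ⟨σ + 1, by omega, by omega, by omega, by omega⟩
  have hA : A l a z w ((sc l z (w - a) + (nn : ZMod (p * l))) - e p l w) := by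
    unfold A
    have e1 : (sc l z (w - a) + (nn : ZMod (p * l))) - e p l w =
        (z (w - a) + 1) + ((nn - a * l - 1 : ℕ) : ZMod (p * l)) := by
      unfold sc
      rw [e_sub, e_natCast, Nat.cast_sub (by omega), Nat.cast_sub (by omega)]
      push_cast
      ring
    rw [e1, off_nat _ (by omega), ← hxw]
    omega
  have hbox : box l a b z m X (sc l z (w - a) + (nn : ZMod (p * l))) := by
    refine ⟨hX, ?_⟩
    have e1 : sc l z (w - a) + (nn : ZMod (p * l)) =
        (sc l z m + 1) + ((nn - σ - 1 : ℕ) : ZMod (p * l)) := by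
      have e2 := off_spec (sc l z (w - a)) (sc l z m)
      rw [← hσ] at e2
      rw [← e2, Nat.cast_sub (by omega), Nat.cast_sub (by omega)]
      push_cast
      ring
    rw [e1, off_nat _ (by omega)]
    omega
  have hB : aB b (w + 1 + (n : ZMod p)) w := by
    unfold aB
    have e1 : w + 1 + (n : ZMod p) - 1 - w = ((n : ℕ) : ZMod p) := by ring
    rw [e1, ZMod.val_natCast_of_lt (by omega)]
    exact hn
  exact (h.hW _).flat m X _ hbox (hU _ hB _ hA)

/-- the arcs exclude each other -/
theorem excl (h : TW p l a b k z i0 ρ τ y u) {j : ZMod p}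
    (h1 : off (z (j - a)) (z (j - a - b) - b * l) < off (z (j - a)) (z (j - b) - b * l))
    (h2 : off (z (j - a)) (z j) < off (z (j - a)) (z (j - a - b) - b * l)) {x : ZMod (p * l)}
    (hA : A l a z j x) : ¬ A l a z (j - b) (x + b * l) := by
  intro hB
  unfold A at hA hB
  have hj : j - (b : ZMod p) - a = j - a - b := by ring
  rw [hj] at hB
  have e1 : off (z (j - a - b) + 1) (x + (b : ZMod (p * l)) * (l : ZMod (p * l))) =
      off (z (j - a - b) - (b : ZMod (p * l)) * (l : ZMod (p * l)) + 1) x := by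
    have h3 := off_translate (z (j - a - b) - (b : ZMod (p * l)) * (l : ZMod (p * l)) + 1) x
      ((b : ZMod (p * l)) * (l : ZMod (p * l)))
    rw [← h3]
    congr 1
    ring
  have e2 : off (z (j - a - b)) (z (j - b)) =
      off (z (j - a - b) - (b : ZMod (p * l)) * (l : ZMod (p * l))) (z (j - b) - (b : ZMod (p * l)) * (l : ZMod (p * l))) :=
    (off_translate_sub _ _ _).symm
  rw [e1, e2] at hB
  obtain ⟨t, ht⟩ : ∃ t, t = z (j - a - b) - (b : ZMod (p * l)) * (l : ZMod (p * l)) := ⟨_, rfl⟩
  obtain ⟨L, hL⟩ : ∃ L, L = z (j - b) - (b : ZMod (p * l)) * (l : ZMod (p * l)) := ⟨_, rfl⟩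
  obtain ⟨r, hr⟩ : ∃ r, r = z (j - a) := ⟨_, rfl⟩
  rw [← ht, ← hL] at hB
  rw [← hr] at hA
  rw [← hr, ← ht, ← hL] at h1
  rw [← hr, ← ht] at h2
  have hM1 : 1 < p * l := by
    have h3 := h.hE.hl2
    have h4 := h.p3
    nlinarith
  have o1 : off r (r + 1) = 1 := by
    have := off_nat r (n := 1) hM1
    rwa [Nat.cast_one] at this
  have o2 : off t (t + 1) = 1 := by
    have := off_nat t (n := 1) hM1
    rwa [Nat.cast_one] at this
  have a1 := off_add r (r + 1) x
  have a2 := off_add t (t + 1) x
  have a3 := off_add r t x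
  have a4 := off_add r t L
  have l1 := off_lt r x
  have l2 := off_lt t x
  have l3 := off_lt r L
  have l4 := off_lt t L
  have l5 := off_lt r t
  have l6 := off_lt (r + 1) x
  have l7 := off_lt (t + 1) x
  omega

/-- going up and down along the levels -/
theorem walk {v : ZMod p} {a b k : ℕ} (hk : 1 ≤ k) (hka : b + k ≤ a) (h2a : 2 * a < p)
    (hiff : ∀ g : ℕ, g < b → ((v + (g : ZMod p)).val < a ↔
      (v + (g : ZMod p) + (k : ZMod p)).val < a)) {g : ℕ} (hg : g < b)
    (h : (v + (g : ZMod p)).val < a) : v.val + b + k ≤ a := by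
  -- no wrap
  have nowrap : ∀ (x : ZMod p) (n : ℕ), x.val + n < p → (x + (n : ZMod p)).val = x.val + n := by
    intro x n hxn
    have h1 : x + (n : ZMod p) = ((x.val + n : ℕ) : ZMod p) := by
      rw [Nat.cast_add, ZMod.natCast_zmod_val]
    rw [h1, ZMod.val_natCast_of_lt hxn]
  have key : ∀ g : ℕ, g < b → (v + (g : ZMod p)).val < a → (v + (g : ZMod p)).val + k < a := by
    intro g hg h
    have h1 := (hiff g hg).1 h
    rwa [nowrap _ k (by omega)] at h1
  have up : ∀ g : ℕ, g + 1 < b → (v + (g : ZMod p)).val < a →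
      (v + ((g + 1 : ℕ) : ZMod p)).val < a := by
    intro g hg h
    have h1 := key g (by omega) h
    have h2 := nowrap (v + (g : ZMod p)) 1 (by omega)
    have h3 : v + ((g + 1 : ℕ) : ZMod p) = v + (g : ZMod p) + ((1 : ℕ) : ZMod p) := by
      push_cast
      ring
    rw [h3, h2]
    omega
  have down : ∀ g : ℕ, g + 1 < b → (v + ((g + 1 : ℕ) : ZMod p)).val < a →
      (v + (g : ZMod p)).val < a := by
    intro g hg h
    have h1 := key (g + 1) hg h
    rw [hiff g (by omega)]
    have h3 : v + (g : ZMod p) + (k : ZMod p) =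
        v + ((g + 1 : ℕ) : ZMod p) + ((k - 1 : ℕ) : ZMod p) := by
      rw [Nat.cast_sub hk]
      push_cast
      ring
    rw [h3, nowrap _ (k - 1) (by omega)]
    omega
  have all0 : (v + ((0 : ℕ) : ZMod p)).val < a := by
    have : ∀ n : ℕ, n < b → (v + (n : ZMod p)).val < a → (v + ((0 : ℕ) : ZMod p)).val < a := by
      intro n
      induction n with
      | zero => intro _ h1; exact h1
      | succ n ih => intro hn h1; exact ih (by omega) (down n hn h1)
    exact this g hg h
  have all : ∀ n : ℕ, n < b → (v + (n : ZMod p)).val < a := by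
    intro n
    induction n with
    | zero => intro _; exact all0
    | succ n ih => intro hn; exact up n hn (ih (by omega))
  have h5 := key (b - 1) (by omega) (all (b - 1) (by omega))
  rw [Nat.cast_zero, add_zero] at all0
  rw [nowrap v (b - 1) (by omega)] at h5
  omega

/-- which right sides are counted -/
theorem qiff (h : TW p l a b k z i0 ρ τ y u) {w m : ZMod p}
    (hs : ∀ n : ℕ, n < b → ∀ X, off X (z m) < b * l → y (w + 1 + (n : ZMod p)) X = 1)
    {ν : ZMod p} (hν0 : 0 < off (z ν) (z m)) (hνb : off (z ν) (z m) < b * l) :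
    aR a (w + 1 + ((off (z ν) (z m) / l : ℕ) : ZMod p)) ν ↔
      (l ≤ ix i0 ρ ν ∧ (w - ν).val + b + k ≤ a) := by
  classical
  have hl0 := h.hl0
  have hP := h.hE.hP
  have hab := hP.hab
  have hk := h.hk
  have hka := h.hka
  have h2a := h.h2a
  have hg : off (z ν) (z m) / l < b := (Nat.div_lt_iff_lt_mul hl0).2 hνb
  have hM1 : 1 < p * l := by
    have h3 := h.hE.hl2
    have h4 := h.p3
    nlinarith
  -- the point above
  have hup : off (z ν + 1) (z m) < b * l := by
    have a1 := off_add (z ν) (z ν + 1) (z m)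
    have a2 : off (z ν) (z ν + 1) = 1 := by
      have := off_nat (z ν) (n := 1) hM1
      rwa [Nat.cast_one] at this
    have a3 := off_lt (z ν + 1) (z m)
    have a4 := sizes h
    have a5 := off_lt (z ν) (z m)
    omega
  -- the jump vanishes
  have hj : ∀ n : ℕ, n < b → ((∃ j, aL a b (w + 1 + (n : ZMod p)) j ∧ z j - b * l = z ν) ↔
      aR a (w + 1 + (n : ZMod p)) ν) := by
    intro n hn
    have h1 := h.yj (w + 1 + (n : ZMod p)) (z ν)
    rw [hs n hn _ hup, hs n hn _ hνb, sub_self] at h1
    have h2 : (∃ j, aR a (w + 1 + (n : ZMod p)) j ∧ z j = z ν) ↔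
        aR a (w + 1 + (n : ZMod p)) ν := by
      constructor
      · rintro ⟨j, hj, hjz⟩
        rwa [h.zinj hjz] at hj
      · intro hj
        exact ⟨ν, hj, rfl⟩
    rw [← h2]
    by_cases c1 : ∃ j, aL a b (w + 1 + (n : ZMod p)) j ∧ z j - b * l = z ν
    · by_cases c2 : ∃ j, aR a (w + 1 + (n : ZMod p)) j ∧ z j = z ν
      · exact ⟨fun _ => c2, fun _ => c1⟩
      · rw [if_pos c1, if_neg c2] at h1
        norm_num at h1
    · by_cases c2 : ∃ j, aR a (w + 1 + (n : ZMod p)) j ∧ z j = z ν
      · rw [if_neg c1, if_pos c2] at h1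
        norm_num at h1
      · exact ⟨fun h3 => absurd h3 c1, fun h3 => absurd h3 c2⟩
  have hR : ∀ n : ℕ, (aR a (w + 1 + (n : ZMod p)) ν ↔ (w - ν + (n : ZMod p)).val < a) := by
    intro n
    unfold aR
    have e1 : w + 1 + (n : ZMod p) - 1 - ν = w - ν + (n : ZMod p) := by ring
    rw [e1]
  constructor
  · intro h1
    obtain ⟨j, -, hjz⟩ := (hj _ hg).2 h1
    obtain ⟨-, hti⟩ := h.co hjz
    refine ⟨hti, ?_⟩
    have htied := h.tied hti
    refine walk hk hka h2a (fun n hn => ?_) hg ((hR _).1 h1)
    rw [← hR n, ← hj n hn]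
    constructor
    · rintro ⟨i, hi, hiz⟩
      have h3 := (h.co hiz).1
      unfold aL at hi
      rw [h3] at hi
      have e1 : w + 1 + (n : ZMod p) - b - 1 - (ν - ((b + k : ℕ) : ZMod p)) =
          w - ν + (n : ZMod p) + (k : ZMod p) := by
        push_cast
        ring
      rwa [e1] at hi
    · intro hi
      refine ⟨ν - ((b + k : ℕ) : ZMod p), ?_, htied⟩
      unfold aL
      have e1 : w + 1 + (n : ZMod p) - b - 1 - (ν - ((b + k : ℕ) : ZMod p)) =
          w - ν + (n : ZMod p) + (k : ZMod p) := by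
        push_cast
        ring
      rwa [e1]
  · rintro ⟨-, h1⟩
    rw [hR]
    have h2 : w - ν + ((off (z ν) (z m) / l : ℕ) : ZMod p) =
        (((w - ν).val + off (z ν) (z m) / l : ℕ) : ZMod p) := by
      rw [Nat.cast_add, ZMod.natCast_zmod_val]
    rw [h2, ZMod.val_natCast_of_lt (by omega)]
    omega

/-- regrouping a double sum -/
theorem regroup (b l : ℕ) (hl : 0 < l) (F : ℕ → ℤ) :
    ∑ i ∈ Finset.range b, ∑ t ∈ Finset.range l, F (b * l - 1 - (i * l + t)) =
      ∑ o ∈ Finset.range (b * l), F o := by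
  rw [← Finset.sum_product']
  refine Finset.sum_nbij' (fun q => b * l - 1 - (q.1 * l + q.2))
    (fun o => ((b * l - 1 - o) / l, (b * l - 1 - o) % l)) ?_ ?_ ?_ ?_ ?_
  · rintro ⟨i, t⟩ hq
    rw [Finset.mem_product, Finset.mem_range, Finset.mem_range] at hq
    rw [Finset.mem_range]
    simp only at hq ⊢
    have h1 : 0 < b * l := Nat.mul_pos (by omega) hl
    omega
  · intro o ho
    rw [Finset.mem_range] at ho
    rw [Finset.mem_product, Finset.mem_range, Finset.mem_range]
    refine ⟨?_, Nat.mod_lt _ hl⟩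
    apply Nat.div_lt_of_lt_mul
    rw [mul_comm l b]
    omega
  · rintro ⟨i, t⟩ hq
    rw [Finset.mem_product, Finset.mem_range, Finset.mem_range] at hq
    simp only at hq ⊢
    have h1 : i * l + t < b * l := by
      calc i * l + t < i * l + l := by omega
        _ = (i + 1) * l := by ring
        _ ≤ b * l := Nat.mul_le_mul_right l (by omega)
    have h2 : b * l - 1 - (b * l - 1 - (i * l + t)) = i * l + t := by omega
    rw [h2, Prod.mk.injEq]
    constructor
    · rw [mul_comm, Nat.mul_add_div hl, Nat.div_eq_of_lt hq.2, add_zero]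
    · rw [mul_comm, Nat.mul_add_mod, Nat.mod_eq_of_lt hq.2]
  · intro o ho
    rw [Finset.mem_range] at ho
    simp only
    have h1 : (b * l - 1 - o) / l * l + (b * l - 1 - o) % l = b * l - 1 - o :=
      Nat.div_add_mod' _ _
    rw [h1]
    omega
  · rintro ⟨i, t⟩ _
    rfl

end

end ERaux

open ERaux in
theorem er : StRow → StAL → StStrip → StSum → StYf → StER := by
  classical
  intro hRow hAL hStrip _ hYf
  intro p l a b k _ _ z i0 ρ τ y u h w m h0 h1
  have hl0 := h.hl0
  have hP := h.hE.hP
  have hab := hP.hab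
  have hb := hP.hb
  have hs : ∀ n : ℕ, n < b → ∀ X, off X (z m) < b * l → y (w + 1 + (n : ZMod p)) X = 1 :=
    fun n hn X hX => star h (hStrip p l a b k z i0 ρ τ y u h w) h0 h1 hn hX
  have hM := sizes h
  have hbl : 0 < b * l := Nat.mul_pos (by omega) hl0
  have hoff : ∀ o : ℕ, o < b * l → off (z m - (o : ZMod (p * l))) (z m) = o := fun o ho =>
    off_nat' _ (by omega)
  -- the formula
  have hY := hYf p l a b k z i0 ρ τ y u h (w + b) (z m - b * l + 1)
  have hX0 : z m - (b : ZMod (p * l)) * l + 1 = z m - ((b * l - 1 : ℕ) : ZMod (p * l)) := by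
    rw [Nat.cast_sub (by omega)]
    push_cast
    ring
  have hwb : w + (b : ZMod p) = w + 1 + ((b - 1 : ℕ) : ZMod p) := by
    rw [Nat.cast_sub (by omega)]
    push_cast
    ring
  have hleft : y (w + b) (z m - b * l + 1) = 1 := by
    rw [hX0, hwb]
    apply hs (b - 1) (by omega)
    rw [hoff _ (by omega)]
    omega
  rw [hleft, Finset.sum_add_distrib] at hY
  -- the arcs
  have hAsum : (∑ i ∈ Finset.range b, if A l a z (w + b - 1 - (i : ℕ))
      (z m - b * l + 1 + (((i + 1) * l : ℕ) : ZMod (p * l))) then (1 : ℤ) else 0) =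
      if off (z (w - a)) (z m) < off (z (w - a)) (z w) then 1 else 0 := by
    obtain ⟨c, hc⟩ : ∃ c, b = c + 1 := ⟨b - 1, by omega⟩
    have hrange : Finset.range b = Finset.range (c + 1) := by rw [hc]
    rw [hrange, Finset.sum_range_succ, Finset.sum_eq_zero, zero_add]
    · have e1 : w + (b : ZMod p) - 1 - (c : ℕ) = w := by
        rw [hc]
        push_cast
        ring
      have e2 : z m - (b : ZMod (p * l)) * l + 1 + (((c + 1) * l : ℕ) : ZMod (p * l)) =
          z m + 1 := by
        rw [hc]
        push_cast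
        ring
      rw [e1, e2]
      unfold A
      rw [off_translate]
      congr
    · intro i hi
      rw [Finset.mem_range] at hi
      rw [if_neg]
      have hile : (b - i - 1) * l ≤ b * l := Nat.mul_le_mul_right l (by omega)
      have hige : l ≤ (b - i - 1) * l := by
        calc l = 1 * l := (one_mul l).symm
          _ ≤ (b - i - 1) * l := Nat.mul_le_mul_right l (by omega)
      have e2 : z m - (b : ZMod (p * l)) * l + 1 + (((i + 1) * l : ℕ) : ZMod (p * l)) =
          z m - (((b - i - 1) * l - 1 : ℕ) : ZMod (p * l)) := by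
        have e4 : (((b - i - 1) * l - 1 : ℕ) : ZMod (p * l)) =
            ((b : ZMod (p * l)) - i - 1) * l - 1 := by
          rw [Nat.cast_sub (by omega), Nat.cast_mul, Nat.cast_sub (by omega),
            Nat.cast_sub (by omega)]
          push_cast
          ring
        rw [e4]
        push_cast
        ring
      have e1 : w + (b : ZMod p) - 1 - (i : ℕ) = w + 1 + ((b - 2 - i : ℕ) : ZMod p) := by
        rw [Nat.cast_sub (by omega), Nat.cast_sub (by omega)]
        push_cast
        ring
      have e3 : w + (b : ZMod p) - 1 - (i : ℕ) + 1 = w + 1 + ((b - 1 - i : ℕ) : ZMod p) := by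
        rw [Nat.cast_sub (by omega), Nat.cast_sub (by omega)]
        push_cast
        ring
      have hox : off (z m - (((b - i - 1) * l - 1 : ℕ) : ZMod (p * l))) (z m) < b * l := by
        rw [hoff _ (by omega)]
        omega
      obtain ⟨r1, -, -, r4⟩ := hRow p l a b k z i0 ρ τ y u h (w + (b : ZMod p) - 1 - (i : ℕ))
      have r5 := r1 (z m - (b : ZMod (p * l)) * l + 1 + (((i + 1) * l : ℕ) : ZMod (p * l)))
      intro hA
      have hnB := excl h r4 (hAL p l a b k z i0 ρ τ y u h _) hA
      rw [if_neg hnB, if_pos hA, e3, e2] at r5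
      rw [e1] at r5
      rw [hs _ (by omega) _ hox, hs _ (by omega) _ hox] at r5
      norm_num at r5
  -- the right sides
  have hQsum : (∑ i ∈ Finset.range b, Q l a z (w + b - (i : ℕ))
      (z m - b * l + 1 + ((i * l : ℕ) : ZMod (p * l)))) =
      ∑ o ∈ Finset.range (b * l), (if ∃ j, aR a (w + 1 + ((o / l : ℕ) : ZMod p)) j ∧
        z j = z m - (o : ZMod (p * l)) then (1 : ℤ) else 0) := by
    rw [← regroup b l hl0]
    refine Finset.sum_congr rfl fun i hi => ?_
    rw [Finset.mem_range] at hi
    unfold Q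
    refine Finset.sum_congr rfl fun t ht => ?_
    rw [Finset.mem_range] at ht
    have h1 : i * l + t < b * l := by
      calc i * l + t < i * l + l := by omega
        _ = (i + 1) * l := by ring
        _ ≤ b * l := Nat.mul_le_mul_right l (by omega)
    have h2 : (b * l - 1 - (i * l + t)) / l = b - 1 - i := by
      have h3 : b * l - 1 - (i * l + t) = l * (b - 1 - i) + (l - 1 - t) := by
        have h4 : l * (b - 1 - i) = b * l - l - i * l := by
          rw [mul_comm, Nat.sub_mul, Nat.sub_mul, one_mul]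
        have h5 : i * l + l ≤ b * l := by
          calc i * l + l = (i + 1) * l := by ring
            _ ≤ b * l := Nat.mul_le_mul_right l (by omega)
        omega
      rw [h3, Nat.mul_add_div hl0, Nat.div_eq_of_lt (by omega), add_zero]
    have e1 : w + (b : ZMod p) - (i : ℕ) = w + 1 + ((b - 1 - i : ℕ) : ZMod p) := by
      rw [Nat.cast_sub (by omega), Nat.cast_sub (by omega)]
      push_cast
      ring
    have e2 : z m - (b : ZMod (p * l)) * l + 1 + ((i * l : ℕ) : ZMod (p * l)) + (t : ℕ) =
        z m - ((b * l - 1 - (i * l + t) : ℕ) : ZMod (p * l)) := by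
      rw [Nat.cast_sub (by omega), Nat.cast_sub (by omega)]
      push_cast
      ring
    rw [h2, e1, e2]
    congr
  have hcard : (∑ o ∈ Finset.range (b * l), (if ∃ j, aR a (w + 1 + ((o / l : ℕ) : ZMod p)) j ∧
        z j = z m - (o : ZMod (p * l)) then (1 : ℤ) else 0)) =
      (if (w - m).val < a then 1 else 0) +
      ((Finset.univ.filter fun ν : ZMod p => l ≤ ix i0 ρ ν ∧ 0 < off (z ν) (z m) ∧
        off (z ν) (z m) < b * l ∧ (w - ν).val + b + k ≤ a).card : ℤ) := by
    obtain ⟨c, hc⟩ : ∃ c, b * l = c + 1 := ⟨b * l - 1, by omega⟩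
    rw [hc, Finset.sum_range_succ', add_comm]
    congr 1
    · have hiff : (∃ j, aR a (w + 1 + ((0 / l : ℕ) : ZMod p)) j ∧
          z j = z m - ((0 : ℕ) : ZMod (p * l))) ↔ (w - m).val < a := by
        rw [Nat.zero_div, Nat.cast_zero, Nat.cast_zero, add_zero, sub_zero]
        constructor
        · rintro ⟨j, hj, hjz⟩
          rw [h.zinj hjz] at hj
          unfold aR at hj
          rwa [add_sub_cancel_right] at hj
        · intro hj
          refine ⟨m, ?_, rfl⟩
          unfold aR
          rwa [add_sub_cancel_right]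
      by_cases hc2 : (w - m).val < a
      · rw [if_pos hc2, if_pos (hiff.2 hc2)]
      · rw [if_neg hc2, if_neg (fun h3 => hc2 (hiff.1 h3))]
    · rw [← Finset.sum_filter, Finset.sum_const, nsmul_eq_mul, mul_one]
      congr 1
      symm
      refine Finset.card_bij (fun ν _ => off (z ν) (z m) - 1) ?_ ?_ ?_
      · intro ν hν
        obtain ⟨-, c1, c2, c3, c4⟩ := Finset.mem_filter.1 hν
        rw [Finset.mem_filter, Finset.mem_range]
        refine ⟨by omega, ν, ?_, ?_⟩
        · rw [Nat.sub_add_cancel c2]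
          exact (qiff h hs c2 (by omega)).2 ⟨c1, c4⟩
        · rw [Nat.sub_add_cancel c2, off_spec']
      · intro ν hν ν' hν' he
        obtain ⟨-, c1, c2, c3, c4⟩ := Finset.mem_filter.1 hν
        obtain ⟨-, d1, d2, d3, d4⟩ := Finset.mem_filter.1 hν'
        exact h.zinj (off_inj_right (y := z m) (by omega))
      · intro o ho
        obtain ⟨o1, j, o2, o3⟩ := Finset.mem_filter.1 ho
        rw [Finset.mem_range] at o1
        have o4 : off (z j) (z m) = o + 1 := by
          rw [o3]
          exact hoff _ (by omega)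
        have o5 : 0 < off (z j) (z m) := by omega
        have o6 : off (z j) (z m) < b * l := by omega
        have o7 := (qiff h hs o5 o6).1 (by rw [o4]; exact o2)
        refine ⟨j, ?_, by omega⟩
        rw [Finset.mem_filter]
        exact ⟨Finset.mem_univ _, o7.1, o5, by omega, o7.2⟩
  rw [hAsum, hQsum, hcard] at hY
  have hfin : (((if off (z (w - a)) (z m) < off (z (w - a)) (z w) then 1 else 0) +
    (if (w - m).val < a then 1 else 0) +
    (Finset.univ.filter fun ν : ZMod p => l ≤ ix i0 ρ ν ∧ 0 < off (z ν) (z m) ∧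
      off (z ν) (z m) < b * l ∧ (w - ν).val + b + k ≤ a).card : ℕ) : ℤ) = ((1 : ℕ) : ℤ) := by
    push_cast
    rw [add_assoc]
    exact hY.symm
  exact_mod_cast hfin

end Helper12.TX
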