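import Pool.Agent.Helper12.TX.StA
import Pool.Agent.Helper11.N1.M_GH

set_option autoImplicit false

/-!
Module GH of project TX: `u` is the number of strips.
-/

namespace Helper12.TX

open Helper11.N1 Helper55.KE Helper73.TM

open Helper11.N1.GHaux in
/-- module GH -/
theorem gh : StUB → StStrip → StGH := by
  classical
  intro hUB hStrip p l a b k _ _ z i0 ρ τ y u h W S
  have hL := h.hW W
  have hU := hStrip p l a b k z i0 ρ τ y u h
  obtain ⟨hB, -, -⟩ := hUB p l a b k z i0 ρ τ y u h
  have hP := h.hE.hP
  have ha := hP.ha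
  have hb := hP.hb
  have hab := hP.hab
  have hap : ((a : ℕ) : ZMod p) ≠ 0 := h.nat_ne (by omega) (by omega)
  -- the jump of the number of strips
  have hg : ∀ S : ZMod (p * l),
      (∑ j : ZMod p, if aB b W j ∧ A l a z j (S + 1 - e p l j) then (1 : ℤ) else 0) -
        (∑ j : ZMod p, if aB b W j ∧ A l a z j (S - e p l j) then (1 : ℤ) else 0) =
      (∑ j : ZMod p, if aT a b W j ∧ sc l z j + a * l = S then (1 : ℤ) else 0) -
        (∑ j : ZMod p, if aB b W j ∧ sc l z j = S then (1 : ℤ) else 0) := by
    intro S
    rw [← Equiv.sum_comp (Equiv.subRight (a : ZMod p))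
      (fun j : ZMod p => if aT a b W j ∧ sc l z j + a * l = S then (1 : ℤ) else 0),
      ← Finset.sum_sub_distrib, ← Finset.sum_sub_distrib]
    refine Finset.sum_congr rfl fun j _ => ?_
    have hne : z (j - a) ≠ z j := by
      intro h0
      have h1 : j - a = j := h.zinj h0
      exact hap (by
        have h2 := congrArg (fun t => j - t) h1
        simpa using h2)
    have hT : aT a b W (j - a) ↔ aB b W j := by
      unfold aT aB
      rw [show W - a - 1 - (j - a) = W - 1 - j by ring]
    have h1 : sc l z (j - a) + a * l = S ↔ z (j - a) = S - e p l j := by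
      unfold sc
      rw [e_sub, e_natCast]
      push_cast
      constructor
      · intro h
        rw [← h]
        ring
      · intro h
        rw [h]
        ring
    have h2 : sc l z j = S ↔ z j = S - e p l j := by
      unfold sc
      exact eq_sub_iff_add_eq.symm
    simp only [Equiv.subRight_apply, hT, h1, h2]
    by_cases hB : aB b W j
    · simp only [hB, true_and]
      have h3 := jump_GH (z (j - a)) (z j) (S - e p l j) hne
      unfold A
      rw [show S + 1 - e p l j = S - e p l j + 1 by ring]
      convert h3
    · simp only [hB, false_and, if_false]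
  -- the difference is constant
  have hc := const_GH (fun S : ZMod (p * l) =>
    (∑ j : ZMod p, if aB b W j ∧ A l a z j (S - e p l j) then (1 : ℤ) else 0) - u W S)
    (by
      intro S
      have h1 := hg S
      have h2 := hL.uJ S
      show (∑ j : ZMod p, if aB b W j ∧ A l a z j (S + 1 - e p l j) then (1 : ℤ) else 0) -
        u W (S + 1) =
        (∑ j : ZMod p, if aB b W j ∧ A l a z j (S - e p l j) then (1 : ℤ) else 0) - u W S
      linarith) (sc l z (W - 1) + 1) S
  have h0 : aB b W (W - 1) := by
    unfold aB
    rw [sub_self, ZMod.val_zero]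
    omega
  have hu0 := (hB W (W - 1) h0).2
  have hg0 : (∑ j : ZMod p, if aB b W j ∧ A l a z j (sc l z (W - 1) + 1 - e p l j)
      then (1 : ℤ) else 0) = 0 := by
    apply none_GH (fun j : ZMod p => aB b W j ∧ A l a z j (sc l z (W - 1) + 1 - e p l j))
    intro j hj
    have h1 := hU j W hj.1 _ hj.2
    rw [hu0] at h1
    exact zero_ne_one h1
  have hfin : (∑ j : ZMod p, if aB b W j ∧ A l a z j (S - e p l j) then (1 : ℤ) else 0) -
      u W S = 0 := by
    have h1 : (∑ j : ZMod p, if aB b W j ∧ A l a z j (S - e p l j) then (1 : ℤ) else 0) -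
      u W S = (∑ j : ZMod p, if aB b W j ∧ A l a z j (sc l z (W - 1) + 1 - e p l j)
      then (1 : ℤ) else 0) - u W (sc l z (W - 1) + 1) := hc
    rw [h1, hg0, hu0, sub_self]
  rw [Finset.card_filter]
  push_cast
  have h9 : u W S =
      ∑ j : ZMod p, if aB b W j ∧ A l a z j (S - e p l j) then (1 : ℤ) else 0 := by
    linarith
  rw [h9]

end Helper12.TX
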