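import Pool.Agent.Helper12.TX.StA

set_option autoImplicit false

/-!
# Project TX: module LT, the case `a = b + k` is impossible
-/

namespace Helper12.TX

open Helper11.N1 Helper55.KE Helper73.TM

theorem lt : StSum → StLT := by
  intro hSum p l a b k _ _ z i0 ρ τ y u h
  by_contra hcon
  have hka := h.hka
  have hab : b + k = a := by omega
  have hl0 := h.hl0
  have hP := h.hE.hP
  have ha := hP.ha
  have hb := hP.hb
  have habp := hP.hab
  have hix : l ≤ ix i0 ρ (i0 + (l : ZMod p) * ρ) := by rw [h.ix_at h.hE.hlp]
  have ht := h.tied hix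
  rw [hab] at ht
  have h1 := ((hSum p l a b k z i0 ρ τ y u h) (i0 + (l : ZMod p) * ρ)).2.2 (i0 + (l : ZMod p) * ρ)
  set w := i0 + (l : ZMod p) * ρ with hw
  have hbl : b * l < p * l := Nat.mul_lt_mul_of_pos_right (by omega) hl0
  have hbl0 : 0 < b * l := Nat.mul_pos (by omega) hl0
  have h2 : off (z w) (z (w - a)) = b * l := by
    rw [← ht]
    have h3 := off_nat' (z (w - a)) hbl
    push_cast at h3
    exact h3
  have h3 : z w ≠ z (w - a) := by
    intro h4
    rw [h4, off_self] at h2
    omega
  have h4 := off_symm h3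
  have h5 : b * l < a * b * l := by
    have : b * l * 1 < b * l * a := Nat.mul_lt_mul_of_pos_left (by omega) hbl0
    calc b * l = b * l * 1 := (Nat.mul_one _).symm
      _ < b * l * a := this
      _ = a * b * l := by ring
  omega

end Helper12.TX
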