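import Pool.Agent.Helper12.TX.StA

set_option autoImplicit false

/-!
# Project TX, module ND1: no bottom/top coincidence with positive shift
-/

namespace Helper12.TX

open Helper11.N1 Helper55.KE Helper73.TM

theorem nd1 : StND1 := by
  intro p l a b k _ _ z i0 ρ τ y u h m j x hx0 hxb hz hs
  classical
  have hl0 := h.hl0
  have hP := h.hE.hP
  have hka := h.hka
  have hk := h.hk
  have h2a := h.h2a
  have hab := hP.hab
  have hb2 := hP.hb
  -- `j = m + (a - x)`
  have hjm : j = m + ((a - x : ℕ) : ZMod p) := by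
    have h1 : e p l (j - m) = e p l ((a - x : ℕ) : ZMod p) := by
      rw [e_natCast, e_sub]
      unfold sc at hs
      have h2 : (((a - x) * l : ℕ) : ZMod (p * l)) =
          (a : ZMod (p * l)) * l - ((x * l : ℕ) : ZMod (p * l)) := by
        rw [Nat.sub_mul, Nat.cast_sub (Nat.mul_le_mul_right l (by omega))]
        push_cast
        ring
      rw [h2]
      rw [hz] at hs
      linear_combination -hs
    have h3 := e_inj p l hl0 h1
    rw [← h3]
    ring
  have hB : aB b (m + ((a : ℕ) : ZMod p)) j := by
    unfold aB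
    have h1 : (m + ((a : ℕ) : ZMod p) - 1 - j) = ((x - 1 : ℕ) : ZMod p) := by
      rw [hjm, Nat.cast_sub (by omega : x ≤ a), Nat.cast_sub (by omega : 1 ≤ x)]
      push_cast
      ring
    rw [h1, ZMod.val_natCast_of_lt (by omega)]
    omega
  have hS : z m + e p l (m + (a : ℕ)) = sc l z m + a * l := by
    unfold sc
    rw [e_add, e_natCast]
    push_cast
    ring
  have hal : 0 < a * l := Nat.mul_pos (by omega) hl0
  have halp : a * l < p * l := Nat.mul_lt_mul_of_pos_right (by omega) hl0
  have hbox : box l a b z m (z m) (z m + e p l (m + (a : ℕ))) := by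
    refine ⟨?_, ?_⟩
    · rw [off_self]
      exact Nat.mul_pos (by omega) hl0
    · rw [hS]
      have h1 : sc l z m + a * l = (sc l z m + 1) + ((a * l - 1 : ℕ) : ZMod (p * l)) := by
        rw [Nat.cast_sub (by omega : 1 ≤ a * l)]
        push_cast
        ring
      rw [h1, off_nat _ (by omega)]
      omega
  have hu0 : u (m + (a : ℕ)) (sc l z m + a * l) = 0 := by
    rw [← hS]
    exact ((h.hW (m + (a : ℕ))).inn m (z m) hbox).2
  have hjump := h.uj (m + (a : ℕ)) (sc l z m + a * l)
  rw [hu0, sub_zero] at hjump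
  rw [if_pos (⟨j, hB, hs.symm⟩ : ∃ j, aB b (m + ((a : ℕ) : ZMod p)) j ∧
    sc l z j = sc l z m + a * l)] at hjump
  have hge : 0 ≤ u (m + (a : ℕ)) (sc l z m + a * l + 1) := by
    rcases (h.hW (m + (a : ℕ))).u01 (sc l z m + a * l + 1) with h1 | h1 <;> rw [h1]
    norm_num
  have hex : ∃ i, aT a b (m + ((a : ℕ) : ZMod p)) i ∧ sc l z i + a * l = sc l z m + a * l := by
    by_contra hno
    rw [if_neg hno] at hjump
    omega
  obtain ⟨m', hT, hm'⟩ := hex
  have hsc : sc l z m = sc l z m' := (add_right_cancel hm').symm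
  unfold aT at hT
  have e1 : (m + ((a : ℕ) : ZMod p) - a - 1 - m') = m - 1 - m' := by ring
  rw [e1] at hT
  have hmm : m - m' = (((m - 1 - m').val + 1 : ℕ) : ZMod p) := by
    push_cast
    rw [ZMod.natCast_zmod_val]
    ring
  have hzz : z m' = z m + ((((m - 1 - m').val + 1) * l : ℕ) : ZMod (p * l)) := by
    rw [← e_natCast, ← hmm, e_sub]
    unfold sc at hsc
    linear_combination -hsc
  rcases Nat.lt_or_ge ((m - 1 - m').val + 1) b with hlt | hge2
  · have heq := h.ss hsc hzz hlt
    have h0 : (((m - 1 - m').val + 1 : ℕ) : ZMod p) = 0 := by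
      rw [← hmm, heq, sub_self]
    exact h.nat_ne (by omega) (by omega) h0
  · have hxb' : (m - 1 - m').val + 1 = b := by omega
    rw [hxb'] at hzz hmm
    have hco : z m' - b * l = z m := by
      rw [hzz]
      push_cast
      ring
    have h1 := (h.co hco).1
    have h2 : ((k : ℕ) : ZMod p) = 0 := by
      have h3 : m - m' = ((b + k : ℕ) : ZMod p) := by
        rw [h1]
        ring
      rw [hmm] at h3
      push_cast at h3
      linear_combination -h3
    exact h.nat_ne (by omega) (by omega) h2

end Helper12.TX
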