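import Pool.Agent.Helper12.TX.StA

set_option autoImplicit false
set_option linter.unusedSectionVars false

/-!
Module ROW of project TX: the row formulas.
-/

namespace Helper12.TX

open Helper11.N1 Helper55.KE Helper73.TM

namespace ROWaux

/-- indicator -/
noncomputable def io (P : Prop) : ℤ := open Classical in if P then 1 else 0

theorem io_pos {P : Prop} (h : P) : io P = 1 := by
  unfold io
  rw [if_pos h]

theorem io_neg {P : Prop} (h : ¬ P) : io P = 0 := by
  unfold io
  rw [if_neg h]

theorem io_eq (P : Prop) [Decidable P] : io P = if P then 1 else 0 := by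
  by_cases h : P
  · rw [io_pos h, if_pos h]
  · rw [io_neg h, if_neg h]

theorem io_congr {P Q : Prop} (h : P ↔ Q) : io P = io Q := by rw [propext h]

theorem sum_single {ι : Type*} [Fintype ι] {T : Type*} (g : ι → T) (i0 : ι) (x : T) :
    ∑ i, io (i = i0 ∧ g i = x) = io (x = g i0) := by
  rw [Finset.sum_eq_single i0]
  · exact io_congr ⟨fun h => h.2.symm, fun h => ⟨rfl, h.symm⟩⟩
  · intro i _ hi
    exact io_neg fun h => hi h.1
  · intro h
    exact absurd (Finset.mem_univ i0) h

/-- moving a window of rows of length `a` by one step -/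
theorem window {p : ℕ} [NeZero p] {T : Type*} (g : ZMod p → T) (a : ℕ) (ha : 1 ≤ a) (hap : a < p)
    (j : ZMod p) (x : T) :
    ∑ i, io ((j - i).val < a ∧ g i = x) - ∑ i, io ((j - 1 - i).val < a ∧ g i = x) =
      io (x = g j) - io (x = g (j - a)) := by
  rw [← sum_single g j x, ← sum_single g (j - a) x, ← Finset.sum_sub_distrib,
    ← Finset.sum_sub_distrib]
  refine Finset.sum_congr rfl fun i _ => ?_
  by_cases hx : g i = x
  · have h3 : (i = j) ↔ (j - i).val = 0 := by
      rw [ZMod.val_eq_zero, sub_eq_zero]
      exact eq_comm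
    have h4 : (i = j - a) ↔ (j - i).val = a := by
      constructor
      · intro h
        rw [h, sub_sub_cancel, ZMod.val_natCast, Nat.mod_eq_of_lt hap]
      · intro h
        have h5 : j - i = (a : ZMod p) := by rw [← h, ZMod.natCast_zmod_val]
        rw [← h5]; ring
    have h5 : ((j - i).val = 0 ∧ (j - 1 - i).val = p - 1) ∨
        (1 ≤ (j - i).val ∧ (j - 1 - i).val + 1 = (j - i).val) := by
      rcases Nat.eq_zero_or_pos (j - i).val with h | h
      · left
        refine ⟨h, ?_⟩
        have h0 : j - i = 0 := (ZMod.val_eq_zero _).1 h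
        have h6 : j - 1 - i = ((p - 1 : ℕ) : ZMod p) := by
          rw [Nat.cast_sub (by omega), ZMod.natCast_self]
          push_cast
          linear_combination h0
        rw [h6, ZMod.val_natCast, Nat.mod_eq_of_lt (by omega)]
      · right
        refine ⟨h, ?_⟩
        have hlt := ZMod.val_lt (j - i)
        have h6 : j - 1 - i = (((j - i).val - 1 : ℕ) : ZMod p) := by
          rw [Nat.cast_sub (by omega), ZMod.natCast_zmod_val]
          push_cast; ring
        rw [h6, ZMod.val_natCast, Nat.mod_eq_of_lt (by omega)]
        omega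
    rw [io_congr (show ((j - i).val < a ∧ g i = x) ↔ (j - i).val < a from
        ⟨fun h => h.1, fun h => ⟨h, hx⟩⟩),
      io_congr (show ((j - 1 - i).val < a ∧ g i = x) ↔ (j - 1 - i).val < a from
        ⟨fun h => h.1, fun h => ⟨h, hx⟩⟩),
      io_congr (show (i = j ∧ g i = x) ↔ (j - i).val = 0 from
        ⟨fun h => h3.1 h.1, fun h => ⟨h3.2 h, hx⟩⟩),
      io_congr (show (i = j - a ∧ g i = x) ↔ (j - i).val = a from
        ⟨fun h => h4.1 h.1, fun h => ⟨h4.2 h, hx⟩⟩)]
    simp only [io_eq]
    split_ifs <;> omega
  · rw [io_neg (fun h => hx h.2), io_neg (fun h => hx h.2), io_neg (fun h => hx h.2),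
      io_neg (fun h => hx h.2)]

section

variable {p l a b k : ℕ} [NeZero p] [NeZero l] {z : ZMod p → ZMod (p * l)} {i0 ρ : ZMod p}
  {τ : ZMod (p * l)} {y u : ZMod p → ZMod (p * l) → ℤ}

theorem yJ' (h : TW p l a b k z i0 ρ τ y u) (W : ZMod p) (X : ZMod (p * l)) :
    y W (X + 1) - y W X = ∑ i, io ((W - b - 1 - i).val < a ∧ z i - b * l = X) -
      ∑ i, io ((W - 1 - i).val < a ∧ z i = X) := by
  classical
  rw [(h.hW W).yJ X]
  congr 1
  · refine Finset.sum_congr rfl fun i _ => ?_
    by_cases hi : aL a b W i ∧ z i - b * l = X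
    · exact (if_pos hi).trans (io_pos hi).symm
    · exact (if_neg hi).trans (io_neg hi).symm
  · refine Finset.sum_congr rfl fun i _ => ?_
    by_cases hi : aR a W i ∧ z i = X
    · exact (if_pos hi).trans (io_pos hi).symm
    · exact (if_neg hi).trans (io_neg hi).symm

theorem uJ' (h : TW p l a b k z i0 ρ τ y u) (W : ZMod p) (S : ZMod (p * l)) :
    u W (S + 1) - u W S = ∑ i, io ((W - a - 1 - i).val < b ∧ sc l z i + a * l = S) -
      ∑ i, io ((W - 1 - i).val < b ∧ sc l z i = S) := by
  classical
  rw [(h.hW W).uJ S]
  congr 1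
  · refine Finset.sum_congr rfl fun i _ => ?_
    by_cases hi : aT a b W i ∧ sc l z i + a * l = S
    · exact (if_pos hi).trans (io_pos hi).symm
    · exact (if_neg hi).trans (io_neg hi).symm
  · refine Finset.sum_congr rfl fun i _ => ?_
    by_cases hi : aB b W i ∧ sc l z i = S
    · exact (if_pos hi).trans (io_pos hi).symm
    · exact (if_neg hi).trans (io_neg hi).symm

theorem e_cast (n : ℕ) : e p l (n : ZMod p) = (n : ZMod (p * l)) * l := by
  rw [e_natCast]; push_cast; ring

/-- step (1) for `y` -/
theorem step_y (h : TW p l a b k z i0 ρ τ y u) (j : ZMod p) (x : ZMod (p * l)) :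
    (y j (x + 1) - y (j + 1) (x + 1)) - (y j x - y (j + 1) x) =
      io (x = z j) + io (x = z (j - a - b) - b * l) -
      io (x = z (j - a)) - io (x = z (j - b) - b * l) := by
  have hp1 := h.hE.hP.ha
  have hp3 := h.hE.hP.hab
  have h1 := yJ' h j x
  have h2 := yJ' h (j + 1) x
  have h3 := window z a (by omega) (by omega) j x
  have h4 := window (fun i => z i - b * l) a (by omega) (by omega) (j - b) x
  have e1 : j + 1 - 1 = j := add_sub_cancel_right j 1
  have e3 : j + 1 - (b : ZMod p) - 1 = j - b := by ring
  rw [e1, e3] at h2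
  have e5 : j - (b : ZMod p) - a = j - a - b := by ring
  simp only [e5] at h4
  linarith

/-- step (1) for `u` -/
theorem step_u (h : TW p l a b k z i0 ρ τ y u) (j : ZMod p) (x : ZMod (p * l)) :
    (u j (x + 1 + e p l j) - u (j + 1) (x + 1 + e p l j)) -
      (u j (x + e p l j) - u (j + 1) (x + e p l j)) =
      io (x = z j) + io (x = z (j - a - b) - b * l) -
      io (x = z (j - a)) - io (x = z (j - b) - b * l) := by
  have hp1 := h.hE.hP.hb
  have hp3 := h.hE.hP.hab
  have h1 := uJ' h j (x + e p l j)
  have h2 := uJ' h (j + 1) (x + e p l j)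
  have h3 := window (sc l z) b (by omega) (by omega) j (x + e p l j)
  have h4 := window (fun i => sc l z i + a * l) b (by omega) (by omega) (j - a) (x + e p l j)
  have e1 : j + 1 - 1 = j := add_sub_cancel_right j 1
  have e3 : j + 1 - (a : ZMod p) - 1 = j - a := by ring
  rw [e1, e3] at h2
  have f1 : (x + e p l j = sc l z j) ↔ x = z j := by
    unfold sc
    exact add_left_inj _
  have f2 : (x + e p l j = sc l z (j - b)) ↔ x = z (j - b) - b * l := by
    unfold sc
    rw [e_sub, e_cast]
    constructor
    · intro h; linear_combination h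
    · intro h; linear_combination h
  have f3 : (x + e p l j = sc l z (j - a) + a * l) ↔ x = z (j - a) := by
    unfold sc
    rw [e_sub, e_cast]
    constructor
    · intro h; linear_combination h
    · intro h; linear_combination h
  have f4 : (x + e p l j = sc l z (j - a - b) + a * l) ↔ x = z (j - a - b) - b * l := by
    unfold sc
    rw [e_sub, e_sub, e_cast, e_cast]
    constructor
    · intro h; linear_combination h
    · intro h; linear_combination h
  rw [io_congr f1, io_congr f2] at h3
  simp only [f3, f4] at h4
  have e6 : x + 1 + e p l j = x + e p l j + 1 := by ring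
  rw [e6]
  linarith

end

end ROWaux

open ROWaux in
theorem row : StND1 → StRow := by
  intro hND p l a b k _ _ z i0 ρ τ y u h j
  classical
  have hpar := h.hE.hP
  have ha := hpar.ha
  have hb := hpar.hb
  have hab := hpar.hab
  have hq := h.hE.hl2
  have hk := h.hk
  have hka := h.hka
  have h2a := h.h2a
  have hBL := Helper11.N1.bl p l a b hpar
  have m1 : (a + b) * l + l ≤ p * l := by
    have : (a + b + 1) * l ≤ p * l := Nat.mul_le_mul_right l (by omega)
    linarith [Nat.succ_mul (a + b) l]
  have m2 : (a + b) * l = a * l + b * l := Nat.add_mul a b l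
  have m3 : l + l ≤ a * l := by
    have : 2 * l ≤ a * l := Nat.mul_le_mul_right l ha
    omega
  have m4 : l + l ≤ b * l := by
    have : 2 * l ≤ b * l := Nat.mul_le_mul_right l hb
    omega
  have cbq : ((b * l : ℕ) : ZMod (p * l)) = (b : ZMod (p * l)) * l := by push_cast; ring
  have caq : ((a * l : ℕ) : ZMod (p * l)) = (a : ZMod (p * l)) * l := by push_cast; ring
  -- the four points
  obtain ⟨P, hP⟩ : ∃ P, P = z j := ⟨_, rfl⟩
  obtain ⟨r, hr⟩ : ∃ r, r = z (j - a) := ⟨_, rfl⟩
  obtain ⟨L, hl⟩ : ∃ L, L = z (j - b) - b * l := ⟨_, rfl⟩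
  obtain ⟨t, ht⟩ : ∃ t, t = z (j - a - b) - b * l := ⟨_, rfl⟩
  obtain ⟨c, hc⟩ : ∃ c : ZMod (p * l) → ℤ, ∀ x, c x = y j x - y (j + 1) x := ⟨_, fun _ => rfl⟩
  obtain ⟨c', hc'⟩ : ∃ c' : ZMod (p * l) → ℤ, ∀ x, c' x = u j (x + e p l j) - u (j + 1) (x + e p l j) :=
    ⟨_, fun _ => rfl⟩
  have s1 : ∀ x, c (x + 1) - c x = (if x = P then 1 else 0) + (if x = t then 1 else 0) -
      (if x = r then 1 else 0) - (if x = L then 1 else 0) := by
    intro x
    rw [hc, hc, hP, hr, hl, ht, step_y h j x]
    simp only [io_eq]
  have s2 : ∀ x, c' (x + 1) - c' x = (if x = P then 1 else 0) + (if x = t then 1 else 0) -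
      (if x = r then 1 else 0) - (if x = L then 1 else 0) := by
    intro x
    rw [hc', hc', hP, hr, hl, ht, step_u h j x]
    simp only [io_eq]
  -- rows are different
  have cne : ∀ n : ℕ, 0 < n → n < p → (n : ZMod p) ≠ 0 := fun n h0 hn => h.nat_ne h0 hn
  have nrP : r ≠ P := by
    intro h0
    have h1 := h.zinj (hr.symm.trans (h0.trans hP))
    exact cne a (by omega) (by omega) (by linear_combination -h1)
  have nrt : r ≠ t := by
    intro h0
    have h1 := (h.co (ht.symm.trans (h0.symm.trans hr))).1
    refine cne k (by omega) (by omega) ?_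
    push_cast at h1
    linear_combination h1
  have nrl : r ≠ L := by
    intro h0
    have h1 := (h.co (hl.symm.trans (h0.symm.trans hr))).1
    refine cne (a + k) (by omega) (by omega) ?_
    push_cast at h1 ⊢
    linear_combination h1
  -- values
  have v01 : ∀ n : ℕ, n < p → ((n : ℕ) : ZMod p).val = n := fun n hn => by
    rw [ZMod.val_natCast, Nat.mod_eq_of_lt hn]
  have v1 : (j + 1 - j).val = 1 := by
    have h1 : j + 1 - j = ((1 : ℕ) : ZMod p) := by push_cast; ring
    rw [h1, v01 1 (by omega)]
  -- (2) c = c'
  have cP : c P = c' P := by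
    rw [hc, hc', hP]
    have hyP : y (j + 1) (z j) = 1 := by
      refine ((h.hW (j + 1)).inn j (z j) ?_).1
      rw [(hBL z (j + 1) j).1 (z j), v1, off_self]
      refine ⟨?_, by omega, by omega⟩
      have : (1 - a) * l = 0 := by
        rw [Nat.sub_eq_zero_of_le (by omega), zero_mul]
      omega
    have hBj : aB b (j + 1) j := by
      unfold aB
      rw [add_sub_cancel_right, sub_self, ZMod.val_zero]
      omega
    have hscj : sc l z j = z j + e p l j := rfl
    have hjump := h.uj (j + 1) (sc l z j)
    have hB' : ∃ i, aB b (j + 1) i ∧ sc l z i = sc l z j := ⟨j, hBj, rfl⟩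
    by_cases hT : ∃ i, aT a b (j + 1) i ∧ sc l z i + a * l = sc l z j
    · rw [if_pos hT, if_pos hB'] at hjump
      obtain ⟨i, hTi, hi⟩ := hT
      obtain ⟨x, hx0, hxb, hx⟩ := h.tb hTi hBj hi
      have hxl : x * l < b * l := Nat.mul_lt_mul_of_pos_right hxb h.hl0
      rcases hx with hx | hx
      · exact (hND p l a b k z i0 ρ τ y u h i j x hx0 hxb hx hi).elim
      · have hbox : box l a b z i (z j) (z j + e p l j) := by
          refine ⟨?_, ?_⟩
          · rw [hx, off_nat _ (by omega)]
            exact hxl
          · have h1 : z j + e p l j = sc l z i + 1 + ((a * l - 1 : ℕ) : ZMod (p * l)) := by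
              rw [Nat.cast_sub (by omega), caq]
              have h2 : z j + e p l j = sc l z i + a * l := hi.symm
              rw [h2]
              push_cast; ring
            rw [h1, off_nat _ (by omega)]
            omega
        have h3 := (h.hW j).inn i (z j) hbox
        obtain ⟨X, hX⟩ : ∃ X : ZMod (p * l), X = z j + 1 - (l : ZMod (p * l)) := ⟨_, rfl⟩
        have hbox2 : box l a b z j X (X + e p l (j + 1)) := by
          rw [(hBL z (j + 1) j).1 X, v1]
          have h4 : off X (z j) = l - 1 := by
            have h5 : z j = X + ((l - 1 : ℕ) : ZMod (p * l)) := by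
              rw [Nat.cast_sub (by omega), hX]
              push_cast; ring
            rw [h5]
            exact off_nat _ (by omega)
          rw [h4]
          have : (1 - a) * l = 0 := by
            rw [Nat.sub_eq_zero_of_le (by omega), zero_mul]
          refine ⟨by omega, by omega, by omega⟩
        have h4 := ((h.hW (j + 1)).inn j X hbox2).2
        have h5 : X + e p l (j + 1) = sc l z j + 1 := by
          rw [e_add, e_one, hscj, hX]
          ring
        rw [h5] at h4
        have h6 : u (j + 1) (z j + e p l j) = 0 := by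
          rw [← hscj]
          linarith
        rw [h3.1, h3.2, hyP, h6]
        norm_num
    · rw [if_neg hT, if_pos hB'] at hjump
      have hu1 : u (j + 1) (z j + e p l j) = 1 := by
        rw [← hscj]
        rcases (h.hW (j + 1)).u01 (sc l z j) with h1 | h1
        · rcases (h.hW (j + 1)).u01 (sc l z j + 1) with h2 | h2 <;> omega
        · exact h1
      have nobox : ∀ i, ¬ box l a b z i (z j) (z j + e p l j) := by
        rintro i ⟨h1, h2⟩
        have h2' : off (sc l z i + 1) (sc l z j) < a * l := h2
        have hlt : off (sc l z i + 1) (sc l z j) + 1 < (p * l) := by omega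
        have hadd : off (sc l z i + 1) (sc l z j + 1) = off (sc l z i + 1) (sc l z j) + 1 := by
          have h3 := off_spec (sc l z i + 1) (sc l z j)
          conv_lhs => rw [← h3]
          have h4 : sc l z i + 1 + ((off (sc l z i + 1) (sc l z j) : ℕ) : ZMod (p * l)) + 1 =
            sc l z i + 1 + ((off (sc l z i + 1) (sc l z j) + 1 : ℕ) : ZMod (p * l)) := by push_cast; ring
          rw [h4, off_nat _ hlt]
        have hne : off (sc l z i + 1) (sc l z j) + 1 ≠ a * l := by
          intro h3
          have h5 := off_spec (sc l z i + 1) (sc l z j)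
          have h6 : sc l z j = sc l z i + ((off (sc l z i + 1) (sc l z j) + 1 : ℕ) : ZMod (p * l)) := by
            conv_lhs => rw [← h5]
            push_cast; ring
          rw [h3, caq] at h6
          apply hT
          refine ⟨i, ?_, h6.symm⟩
          unfold aT
          have h7 : j + 1 - (a : ZMod p) - 1 - i = j - a - i := by ring
          rw [h7]
          have h8 : z i = z j + (((j - a - i).val * l : ℕ) : ZMod (p * l)) := by
            have h9 : e p l (j - a - i) = (((j - a - i).val * l : ℕ) : ZMod (p * l)) := by
              unfold e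
              rw [mul_comm l]
            rw [← h9, e_sub, e_sub, e_cast]
            unfold sc at h6
            linear_combination -h6
          have h10 : (j - (a : ZMod p) - i).val * l < p * l :=
            Nat.mul_lt_mul_of_pos_right (ZMod.val_lt _) h.hl0
          rw [h8, off_nat _ h10] at h1
          exact Nat.lt_of_mul_lt_mul_right h1
        have h3 : box l a b z i (z j) (sc l z j + 1) := ⟨h1, by omega⟩
        have h4 : box l a b z j (z j) (sc l z j + 1) := by
          refine ⟨?_, ?_⟩
          · rw [off_self]; omega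
          · rw [off_self]; omega
        have h5 := h.hD _ _ _ _ h3 h4
        rw [h5] at hadd h2'
        rw [off_self] at hadd
        omega
      have h1 := (h.hW j).out (z j) nobox
      rw [h1, hyP, hu1]
  have cc : ∀ x, c x = c' x := by
    intro x
    have h1 : ∀ n : ℕ, c (P + n) - c' (P + n) = c P - c' P := by
      intro n
      induction n with
      | zero => simp
      | succ n ih =>
        have h2 : P + ((n + 1 : ℕ) : ZMod (p * l)) = P + n + 1 := by push_cast; ring
        have h3 := s1 (P + n)
        have h4 := s2 (P + n)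
        rw [h2]
        linarith
    have h2 := h1 (off P x)
    rw [off_spec] at h2
    linarith
  -- (3) c l = 1
  have vb : (j - (j - (b : ZMod p))).val = b := by
    rw [sub_sub_cancel, ZMod.val_natCast, Nat.mod_eq_of_lt (by omega)]
  have va : (j - (j - (a : ZMod p))).val = a := by
    rw [sub_sub_cancel, ZMod.val_natCast, Nat.mod_eq_of_lt (by omega)]
  have cl : c L = 1 := by
    have hoff : off (L + 1) (z (j - b)) = b * l - 1 := by
      have h1 : z (j - b) = L + 1 + ((b * l - 1 : ℕ) : ZMod (p * l)) := by
        rw [Nat.cast_sub (by omega), cbq, hl]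
        push_cast; ring
      conv_lhs => rw [h1]
      exact off_nat _ (by omega)
    have hbox : box l a b z (j - b) (L + 1) (L + 1 + e p l j) := by
      rw [(hBL z j (j - b)).1 (L + 1), hoff, vb]
      have h1 : (b - a) * l ≤ (b - 1) * l := Nat.mul_le_mul_right l (by omega)
      have h2 : (b - 1) * l = b * l - l := by rw [Nat.sub_mul, one_mul]
      omega
    have h1 := ((h.hW j).inn (j - b) (L + 1) hbox).1
    -- right sides at `L`
    have hRk : ∀ i, z i = L → i = j + k := by
      intro i hi
      have h3 := (h.co (i := j - b) (j := i) (hl.symm.trans hi.symm)).1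
      push_cast at h3
      linear_combination -h3
    have h2 : y j (L + 1) - y j L = 0 := by
      have h3 := h.yj j L
      rw [if_neg, if_neg] at h3
      · rw [h3]; norm_num
      · rintro ⟨i, hi, hi'⟩
        have h4 := hRk i hi'
        rw [h4] at hi
        unfold aR at hi
        have h5 : j - 1 - (j + k) = ((p - 1 - k : ℕ) : ZMod p) := by
          rw [Nat.cast_sub (by omega), Nat.cast_sub (by omega), ZMod.natCast_self]
          push_cast; ring
        rw [h5, v01 _ (by omega)] at hi
        omega
      · rintro ⟨i, hi, hi'⟩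
        have h4 : i = j - b := h.zinj (sub_left_injective (hi'.trans hl))
        rw [h4] at hi
        unfold aL at hi
        have h5 : j - (b : ZMod p) - 1 - (j - b) = ((p - 1 : ℕ) : ZMod p) := by
          rw [Nat.cast_sub (by omega), ZMod.natCast_self]
          push_cast; ring
        rw [h5, v01 _ (by omega)] at hi
        omega
    have h3 : y (j + 1) L = 0 := by
      have h4 := h.yj (j + 1) L
      rw [if_pos, if_neg] at h4
      · rcases (h.hW (j + 1)).y01 L with h5 | h5
        · exact h5
        · rcases (h.hW (j + 1)).y01 (L + 1) with h6 | h6 <;> omega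
      · rintro ⟨i, hi, hi'⟩
        have h5 := hRk i hi'
        rw [h5] at hi
        unfold aR at hi
        have h6 : j + 1 - 1 - (j + k) = ((p - k : ℕ) : ZMod p) := by
          rw [Nat.cast_sub (by omega), ZMod.natCast_self]
          push_cast; ring
        rw [h6, v01 _ (by omega)] at hi
        omega
      · refine ⟨j - b, ?_, hl.symm⟩
        unfold aL
        have h5 : j + 1 - (b : ZMod p) - 1 - (j - b) = 0 := by ring
        rw [h5, ZMod.val_zero]; omega
    rw [hc, h3]
    linarith
  -- (4) c r = 0
  have cr : c r = 0 := by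
    rw [cc, hc']
    have hbox : box l a b z (j - a) r (r + e p l j) := by
      rw [(hBL z j (j - a)).1 r, va, hr, off_self]
      refine ⟨?_, by omega, by omega⟩
      rw [Nat.sub_self, zero_mul]
    have h1 := ((h.hW j).inn (j - a) r hbox).2
    have hTa : aT a b (j + 1) (j - (a : ZMod p)) := by
      unfold aT
      have h4 : j + 1 - (a : ZMod p) - 1 - (j - a) = 0 := by ring
      rw [h4, ZMod.val_zero]; omega
    have h5 : sc l z (j - a) + a * l = r + e p l j := by
      unfold sc
      rw [e_sub, e_cast, hr]
      ring
    have h3 : u (j + 1) (r + e p l j) = 0 := by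
      have h4 := h.uj (j + 1) (r + e p l j)
      rw [if_pos ⟨j - (a : ZMod p), hTa, h5⟩, if_neg] at h4
      · rcases (h.hW (j + 1)).u01 (r + e p l j) with h6 | h6
        · exact h6
        · rcases (h.hW (j + 1)).u01 (r + e p l j + 1) with h7 | h7 <;> omega
      · rintro ⟨i, hi, hi'⟩
        unfold aB at hi
        rw [add_sub_cancel_right] at hi
        have h6 : z i = z (j - a) + (((j - i).val * l : ℕ) : ZMod (p * l)) := by
          have h9 : e p l (j - i) = (((j - i).val * l : ℕ) : ZMod (p * l)) := by
            unfold e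
            rw [mul_comm l]
          rw [← h9, e_sub, ← hr]
          unfold sc at hi'
          linear_combination hi'
        rcases Nat.eq_zero_or_pos (j - i).val with h7 | h7
        · rw [h7, zero_mul, Nat.cast_zero, add_zero] at h6
          have h8 := h.zinj h6
          have h9 : j - i = 0 := (ZMod.val_eq_zero _).1 h7
          exact cne a (by omega) (by omega) (by linear_combination h9 + h8)
        · exact hND p l a b k z i0 ρ τ y u h (j - a) i (j - i).val h7 hi h6 (h5.trans hi'.symm)
    rw [h1, h3]
    norm_num
  -- (5)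
  obtain ⟨π, hπ⟩ : ∃ π, π = off r P := ⟨_, rfl⟩
  obtain ⟨σ', hτ⟩ : ∃ σ', σ' = off r t := ⟨_, rfl⟩
  obtain ⟨lam, hlam⟩ : ∃ lam, lam = off r L := ⟨_, rfl⟩
  have π1 : 1 ≤ π := by
    rcases Nat.eq_zero_or_pos π with h0 | h0
    · rw [hπ] at h0; exact absurd (off_eq_zero.1 h0) nrP
    · exact h0
  have τ1 : 1 ≤ σ' := by
    rcases Nat.eq_zero_or_pos σ' with h0 | h0
    · rw [hτ] at h0; exact absurd (off_eq_zero.1 h0) nrt
    · exact h0
  have lam1 : 1 ≤ lam := by
    rcases Nat.eq_zero_or_pos lam with h0 | h0
    · rw [hlam] at h0; exact absurd (off_eq_zero.1 h0) nrl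
    · exact h0
  have πM : π < (p * l) := by rw [hπ]; exact off_lt _ _
  have τM : σ' < (p * l) := by rw [hτ]; exact off_lt _ _
  have lamM : lam < (p * l) := by rw [hlam]; exact off_lt _ _
  have hat : ∀ (w : ZMod (p * l)) (n : ℕ), n < (p * l) → ((r + (n : ZMod (p * l)) = w) ↔ off r w = n) := by
    intro w n hn
    constructor
    · intro h0; rw [← h0, off_nat _ hn]
    · intro h0; rw [← h0, off_spec]
  have key : ∀ n : ℕ, 1 ≤ n → n ≤ (p * l) → c (r + n) = -1 + (if π < n then 1 else 0) +
      (if σ' < n then 1 else 0) - (if lam < n then 1 else 0) := by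
    intro n hn
    induction n, hn using Nat.le_induction with
    | base =>
      intro _
      have h1 := s1 r
      rw [cr, if_neg nrP, if_neg nrt, if_pos rfl, if_neg nrl] at h1
      rw [if_neg (by omega), if_neg (by omega), if_neg (by omega)]
      push_cast
      linarith
    | succ n hn ih =>
      intro hnM
      have ih' := ih (by omega)
      have h1 := s1 (r + n)
      have e1 : r + ((n + 1 : ℕ) : ZMod (p * l)) = r + n + 1 := by push_cast; ring
      rw [e1]
      simp only [hat _ n (by omega), ← hπ, ← hτ, ← hlam, off_self] at h1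
      have h2 : c (r + n + 1) = c (r + n) + ((if π = n then 1 else 0) + (if σ' = n then 1 else 0) -
        (if 0 = n then 1 else 0) - (if lam = n then 1 else 0)) := by linarith
      rw [h2, ih']
      split_ifs <;> omega
  have hlast : π < lam ∧ σ' < lam := by
    have h1 := key lam lam1 (by omega)
    have h2 : r + (lam : ZMod (p * l)) = L := by rw [hlam, off_spec]
    rw [h2, cl] at h1
    constructor
    · by_contra h0
      rw [if_neg h0] at h1
      split_ifs at h1 <;> omega
    · by_contra h0
      rw [if_neg h0] at h1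
      split_ifs at h1 <;> omega
  have hA1 : ∀ x, A l a z j x ↔ off (r + 1) x < π := by
    intro x
    unfold A
    rw [hπ, hr, hP]
  have htb : z (j - b - a) = t + b * l := by
    rw [ht]
    have : j - (b : ZMod p) - a = j - a - b := by ring
    rw [this]; ring
  have hlb : z (j - b) = L + b * l := by rw [hl]; ring
  have hA2 : ∀ x, A l a z (j - b) (x + b * l) ↔ off (t + 1) x < off t L := by
    intro x
    unfold A
    rw [htb, hlb, off_translate]
    have : t + b * l + 1 = t + 1 + (b : ZMod (p * l)) * l := by ring
    rw [this, off_translate]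
  have htl : off t L = lam - σ' := by
    have h1 := off_add r t L
    have h2 := off_lt t L
    rw [← hτ, ← hlam] at h1
    omega
  have hmain : ∀ x, c x = (if A l a z (j - b) (x + b * l) then 1 else 0) -
      (if A l a z j x then 1 else 0) := by
    intro x
    obtain ⟨n, hn⟩ : ∃ n, n = off (r + 1) x := ⟨_, rfl⟩
    obtain ⟨m, hm⟩ : ∃ m, m = off (t + 1) x := ⟨_, rfl⟩
    have hnM : n < (p * l) := by rw [hn]; exact off_lt _ _
    have hmM : m < (p * l) := by rw [hm]; exact off_lt _ _
    have hx : r + ((n + 1 : ℕ) : ZMod (p * l)) = x := by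
      have := off_spec (r + 1) x
      rw [← hn] at this
      conv_rhs => rw [← this]
      push_cast; ring
    have h1 := key (n + 1) (by omega) (by omega)
    rw [hx] at h1
    have h2 : σ' + m = n ∨ σ' + m = n + (p * l) := by
      have h3 := off_add (r + 1) (t + 1) x
      rw [off_translate, ← hτ, ← hm, ← hn] at h3
      exact h3
    rw [h1]
    simp only [hA1, hA2, ← hn, ← hm, htl]
    obtain ⟨h4, h5⟩ := hlast
    split_ifs <;> omega
  refine ⟨?_, ?_, ?_, ?_⟩
  · intro x
    rw [← hc, hmain]
  · intro x
    rw [← hc', ← cc, hmain]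
  · rw [← hr, ← hP, ← hl, ← hπ, ← hlam]
    exact hlast.1
  · rw [← hr, ← ht, ← hl, ← hτ, ← hlam]
    exact hlast.2

end Helper12.TX
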