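import Pool.Agent.Helper12.TX.Defs
import Pool.Agent.Helper11.N1.M_BL

set_option autoImplicit false
set_option linter.unusedSectionVars false

/-!
# Project TX: coincidences of letters and the sums of `TLvl`
-/

namespace Helper12.TX

open Helper11.N1 Helper55.KE Helper73.TM

section

variable {p l a b k : ℕ} [NeZero p] [NeZero l] {z : ZMod p → ZMod (p * l)} {i0 ρ : ZMod p}
  {τ : ZMod (p * l)} {y u : ZMod p → ZMod (p * l) → ℤ}

/-- a sum of indicators with at most one nonzero term -/
theorem sum_ind {ι : Type*} [Fintype ι] (P : ι → Prop) [DecidablePred P]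
    (h : ∀ i j, P i → P j → i = j) : (∑ i, if P i then (1 : ℤ) else 0) =
      (open Classical in if ∃ i, P i then 1 else 0) := by
  classical
  by_cases hex : ∃ i, P i
  · obtain ⟨i, hi⟩ := hex
    rw [if_pos ⟨i, hi⟩, Finset.sum_eq_single i, if_pos hi]
    · intro j _ hj
      rw [if_neg (fun h1 => hj (h j i h1 hi))]
    · intro h1
      exact absurd (Finset.mem_univ i) h1
  · rw [if_neg hex]
    apply Finset.sum_eq_zero
    intro j _
    rw [if_neg (fun h1 => hex ⟨j, h1⟩)]

namespace TW

theorem zinj (h : TW p l a b k z i0 ρ τ y u) {i j : ZMod p} (hij : z i = z j) : i = j :=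
  h.hE.zinj hij

theorem hl0 (h : TW p l a b k z i0 ρ τ y u) : 0 < l := by
  have := h.hE.hl2
  omega

theorem p3 (h : TW p l a b k z i0 ρ τ y u) : 6 < p := by
  have h1 := h.hk
  have h2 := h.hka
  have h3 := h.h2a
  have h4 := h.hE.hP.hb
  omega

/-- a natural number between `0` and `p` is not `0` in `ZMod p` -/
theorem nat_ne (_h : TW p l a b k z i0 ρ τ y u) {n : ℕ} (h0 : 0 < n) (hn : n < p) :
    ((n : ℕ) : ZMod p) ≠ 0 := by
  intro h1
  rw [ZMod.natCast_eq_zero_iff] at h1
  exact absurd (Nat.le_of_dvd h0 h1) (by omega)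

theorem ix_lt (i0 ρ j : ZMod p) : ix i0 ρ j < p := ZMod.val_lt _

theorem ix_eq (h : TW p l a b k z i0 ρ τ y u) (j : ZMod p) :
    i0 + ((ix i0 ρ j : ℕ) : ZMod p) * ρ = j := by
  unfold ix
  rw [ZMod.natCast_zmod_val, mul_assoc, ZMod.inv_mul_of_unit _ h.hE.hAP.1]
  ring

theorem ix_at (h : TW p l a b k z i0 ρ τ y u) {n : ℕ} (hn : n < p) :
    ix i0 ρ (i0 + (n : ZMod p) * ρ) = n := by
  unfold ix
  rw [add_sub_cancel_left, mul_assoc, ZMod.mul_inv_of_unit _ h.hE.hAP.1, mul_one,
    ZMod.val_natCast_of_lt hn]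

theorem z_ix (h : TW p l a b k z i0 ρ τ y u) (j : ZMod p) :
    z j = z i0 + (ix i0 ρ j : ZMod (p * l)) * τ := by
  conv_lhs => rw [← h.ix_eq j]
  exact h.hE.zn (ix_lt i0 ρ j)

theorem lρ (h : TW p l a b k z i0 ρ τ y u) : (l : ZMod p) * ρ = ((b + k : ℕ) : ZMod p) := by
  rw [h.hE.hlr]
  push_cast
  ring

/-- a right side of `j` at the left side of `i` -/
theorem co (h : TW p l a b k z i0 ρ τ y u) {i j : ZMod p} (hij : z i - b * l = z j) :
    i = j - ((b + k : ℕ) : ZMod p) ∧ l ≤ ix i0 ρ j := by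
  have h1 : ix i0 ρ i + l = ix i0 ρ j := by
    rw [← h.hE.tie_iff (ix_lt i0 ρ j) (ix_lt i0 ρ i), h.ix_eq, h.ix_eq]
    exact hij
  refine ⟨?_, by omega⟩
  have h2 := h.ix_eq j
  rw [← h1] at h2
  rw [← h2, ← h.ix_eq i, h.ix_at (ix_lt i0 ρ i), ← h.lρ]
  push_cast
  ring

/-- a tied row -/
theorem tied (h : TW p l a b k z i0 ρ τ y u) {j : ZMod p} (hj : l ≤ ix i0 ρ j) :
    z (j - ((b + k : ℕ) : ZMod p)) - b * l = z j := by
  have h1 := h.hE.tie hj (ix_lt i0 ρ j)
  rw [h.ix_eq] at h1
  rw [← h1]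
  congr 2
  rw [Nat.cast_sub hj, ← h.lρ]
  conv_lhs => rw [← h.ix_eq j]
  ring

/-- two boxes with the same second coordinate -/
theorem ss (h : TW p l a b k z i0 ρ τ y u) {i j : ZMod p} (hij : sc l z i = sc l z j) {x : ℕ}
    (hx : z j = z i + ((x * l : ℕ) : ZMod (p * l))) (hxb : x < b) : i = j := by
  have hl0 := h.hl0
  have hP := h.hE.hP
  have h1 : x * l < b * l := Nat.mul_lt_mul_of_pos_right hxb hl0
  have h2 : b * l ≤ p * l := Nat.mul_le_mul_right l (by have := hP.hab; omega)
  have h3 : 0 < a * l := Nat.mul_pos (by have := hP.ha; omega) hl0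
  refine h.hD i j (z i) (sc l z i + 1) ⟨?_, ?_⟩ ⟨?_, ?_⟩
  · rw [off_self]; omega
  · rw [off_self]; omega
  · rw [hx, off_nat _ (by omega)]; omega
  · rw [hij, off_self]; omega

theorem zdiff_of_ss {i j : ZMod p} (hij : sc l z i = sc l z j) :
    z j = z i + (((i - j).val * l : ℕ) : ZMod (p * l)) := by
  have h1 : e p l (i - j) = (((i - j).val * l : ℕ) : ZMod (p * l)) := by
    unfold e
    rw [mul_comm l]
  rw [← h1, e_sub]
  unfold sc at hij
  linear_combination -hij

/-- two active bottoms at the same place -/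
theorem bb (h : TW p l a b k z i0 ρ τ y u) {W i j : ZMod p} (hi : aB b W i) (hj : aB b W j)
    (hij : sc l z i = sc l z j) : i = j := by
  unfold aB at hi hj
  have hp : b < p := by have := h.hE.hP.hab; omega
  have h1 : (i - j).val < b ∨ (j - i).val < b := by
    have h2 : (((W - 1 - j).val : ℤ) - (W - 1 - i).val : ℤ) = ((i - j).val : ℤ) ∨
        (((W - 1 - j).val : ℤ) - (W - 1 - i).val : ℤ) = -((j - i).val : ℤ) := by
      rcases le_total (W - 1 - i).val (W - 1 - j).val with h3 | h3
      · left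
        have h4 : (i - j) = (((W - 1 - j).val - (W - 1 - i).val : ℕ) : ZMod p) := by
          rw [Nat.cast_sub h3, ZMod.natCast_zmod_val, ZMod.natCast_zmod_val]
          ring
        rw [h4, ZMod.val_natCast_of_lt (by omega)]
        omega
      · right
        have h4 : (j - i) = (((W - 1 - i).val - (W - 1 - j).val : ℕ) : ZMod p) := by
          rw [Nat.cast_sub h3, ZMod.natCast_zmod_val, ZMod.natCast_zmod_val]
          ring
        rw [h4, ZMod.val_natCast_of_lt (by omega)]
        omega
    rcases h2 with h2 | h2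
    · left; omega
    · right; omega
  rcases h1 with h1 | h1
  · exact h.ss hij (zdiff_of_ss hij) h1
  · exact (h.ss hij.symm (zdiff_of_ss hij.symm) h1).symm

/-- two active tops at the same place -/
theorem tt (h : TW p l a b k z i0 ρ τ y u) {W i j : ZMod p} (hi : aT a b W i) (hj : aT a b W j)
    (hij : sc l z i + a * l = sc l z j + a * l) : i = j := by
  have h1 : aB b (W - ((a : ℕ) : ZMod p)) i := hi
  have h2 : aB b (W - ((a : ℕ) : ZMod p)) j := hj
  exact h.bb h1 h2 (add_right_cancel hij)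

/-- an active top at an active bottom -/
theorem tb (h : TW p l a b k z i0 ρ τ y u) {W m j : ZMod p} (hm : aT a b W m) (hj : aB b W j)
    (hmj : sc l z m + a * l = sc l z j) : ∃ x : ℕ, 0 < x ∧ x < b ∧
      (z j = z m + ((x * l : ℕ) : ZMod (p * l)) ∨ z m = z j + ((x * l : ℕ) : ZMod (p * l))) := by
  unfold aT at hm
  unfold aB at hj
  have hp : b < p := by have := h.hE.hP.hab; omega
  have hne : m ≠ j := by
    rintro rfl
    have h1 : ((a * l : ℕ) : ZMod (p * l)) = 0 := by
      push_cast
      linear_combination hmj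
    rw [ZMod.natCast_eq_zero_iff] at h1
    have h2 := Nat.le_of_dvd (Nat.mul_pos (by have := h.hE.hP.ha; omega) h.hl0) h1
    have h3 : a * l < p * l :=
      Nat.mul_lt_mul_of_pos_right (by have := h.hE.hP.hab; omega) h.hl0
    omega
  have hzz : z j - z m = (a : ZMod (p * l)) * l - e p l (j - m) := by
    rw [e_sub]
    unfold sc at hmj
    linear_combination -hmj
  have hz0 : z j ≠ z m := fun h1 => hne (h.zinj h1.symm)
  rcases le_total (W - a - 1 - m).val (W - 1 - j).val with h3 | h3
  · -- `j - m = a - x`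
    refine ⟨(W - 1 - j).val - (W - a - 1 - m).val, ?_, by omega, Or.inl ?_⟩
    · rcases Nat.eq_or_lt_of_le h3 with h4 | h4
      · exfalso
        have h5 : W - a - 1 - m = W - 1 - j := ZMod.val_injective p h4
        have h6 : j - m = ((a : ℕ) : ZMod p) := by linear_combination h5
        rw [h6, e_natCast] at hzz
        apply hz0
        push_cast at hzz
        linear_combination hzz
      · omega
    · have h4 : j - m = ((a : ℕ) : ZMod p) -
          (((W - 1 - j).val - (W - a - 1 - m).val : ℕ) : ZMod p) := by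
        rw [Nat.cast_sub h3, ZMod.natCast_zmod_val, ZMod.natCast_zmod_val]
        ring
      rw [h4, e_sub, e_natCast, e_natCast] at hzz
      have h5 : ((a * l : ℕ) : ZMod (p * l)) = a * l := by push_cast; ring
      rw [h5] at hzz
      linear_combination hzz
  · refine ⟨(W - a - 1 - m).val - (W - 1 - j).val, ?_, by omega, Or.inr ?_⟩
    · rcases Nat.eq_or_lt_of_le h3 with h4 | h4
      · exfalso
        have h5 : W - a - 1 - m = W - 1 - j := ZMod.val_injective p h4.symm
        have h6 : j - m = ((a : ℕ) : ZMod p) := by linear_combination h5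
        rw [h6, e_natCast] at hzz
        apply hz0
        push_cast at hzz
        linear_combination hzz
      · omega
    · have h4 : j - m = ((a : ℕ) : ZMod p) +
          (((W - a - 1 - m).val - (W - 1 - j).val : ℕ) : ZMod p) := by
        rw [Nat.cast_sub h3, ZMod.natCast_zmod_val, ZMod.natCast_zmod_val]
        ring
      rw [h4, e_add, e_natCast, e_natCast] at hzz
      have h5 : ((a * l : ℕ) : ZMod (p * l)) = a * l := by push_cast; ring
      rw [h5] at hzz
      linear_combination -hzz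

/-- the jump of `y` -/
theorem yj (h : TW p l a b k z i0 ρ τ y u) (W : ZMod p) (X : ZMod (p * l)) :
    open Classical in y W (X + 1) - y W X =
      (if ∃ j, aL a b W j ∧ z j - b * l = X then 1 else 0) -
      (if ∃ j, aR a W j ∧ z j = X then 1 else 0) := by
  classical
  rw [(h.hW W).yJ X]
  congr 1
  · rw [sum_ind]
    rintro i j ⟨_, h1⟩ ⟨_, h2⟩
    exact h.zinj (sub_left_injective (h1.trans h2.symm))
  · rw [sum_ind]
    rintro i j ⟨_, h1⟩ ⟨_, h2⟩
    exact h.zinj (h1.trans h2.symm)

/-- the jump of `u` -/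
theorem uj (h : TW p l a b k z i0 ρ τ y u) (W : ZMod p) (S : ZMod (p * l)) :
    open Classical in u W (S + 1) - u W S =
      (if ∃ j, aT a b W j ∧ sc l z j + a * l = S then 1 else 0) -
      (if ∃ j, aB b W j ∧ sc l z j = S then 1 else 0) := by
  classical
  rw [(h.hW W).uJ S]
  congr 1
  · rw [sum_ind]
    rintro i j ⟨hi, h1⟩ ⟨hj, h2⟩
    exact h.tt hi hj (h1.trans h2.symm)
  · rw [sum_ind]
    rintro i j ⟨hi, h1⟩ ⟨hj, h2⟩
    exact h.bb hi hj (h1.trans h2.symm)

end TW

end

end Helper12.TX
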