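import Pool.Agent.Helper12.TX.StB
import Pool.Agent.Helper12.TX.Api

/-!
# Project TX, module RV: the first rule
-/

set_option autoImplicit false
set_option linter.unusedSectionVars false

namespace Helper12.TX

open Helper11.N1 Helper55.KE Helper73.TM

namespace RVaux

theorem offD {M : ℕ} [NeZero M] {x y : ZMod M} {D : ℤ} (h : y - x = ((D : ℤ) : ZMod M))
    (h0 : 0 ≤ D) (h1 : D < M) : (off x y : ℤ) = D := by
  unfold off
  rw [h, ZMod.val_intCast, Int.emod_eq_of_lt h0 h1]

end RVaux

open RVaux in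
theorem rv : StLT → StSum → StSep → StER → StRV := by
  classical
  intro hLT hSum hSep hER p l a b k _ _ z i0 ρ τ y u α I h ξ hT hV j x r hPR hj1 hj2 hr0 hr1 hx1 hx2
  have hlt := hLT p l a b k z i0 ρ τ y u hT
  have hP := hT.hE.hP
  have h2a := hT.h2a
  have hl0 := hT.hl0
  have hαp := hV.αp
  have hb2 := hP.hb
  set v : ℕ := α * I + h * l with hv
  have hv' : ((α : ℤ) * I + h * l : ℤ) = (v : ℤ) := by rw [hv]; push_cast; ring
  rw [hv'] at hx1 ⊢
  -- the index
  obtain ⟨n, hn, hαn, hn0, hn1⟩ : ∃ n : ℕ, n < p ∧ α ≤ n ∧ 0 ≤ (n : ℤ) + j ∧ (n : ℤ) + j < p := by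
    rcases le_or_gt 0 j with h0 | h0
    · exact ⟨α, hαp, le_rfl, by omega, by omega⟩
    · exact ⟨p - 1, by omega, by omega, by omega, by omega⟩
  obtain ⟨n', hn'⟩ := Int.eq_ofNat_of_zero_le hn0
  have hn'p : n' < p := by omega
  set w : ZMod p := i0 + (n : ZMod p) * ρ with hw
  set m : ZMod p := i0 + (n' : ZMod p) * ρ with hm
  have hzw : z w = z i0 + (n : ZMod (p * l)) * τ := hT.hE.zn hn
  have hzm : z m = z i0 + (n' : ZMod (p * l)) * τ := hT.hE.zn hn'p
  have hc1 : ((n' : ℕ) : ZMod (p * l)) = (n : ZMod (p * l)) + ((j : ℤ) : ZMod (p * l)) := by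
    have : (((n' : ℕ) : ℤ) : ZMod (p * l)) = (((n : ℤ) + j : ℤ) : ZMod (p * l)) := by rw [hn']
    rw [Int.cast_natCast] at this
    rw [this]; push_cast; ring
  have hc2 : ((n' : ℕ) : ZMod p) = (n : ZMod p) + ((j : ℤ) : ZMod p) := by
    have : (((n' : ℕ) : ℤ) : ZMod p) = (((n : ℤ) + j : ℤ) : ZMod p) := by rw [hn']
    rw [Int.cast_natCast] at this
    rw [this]; push_cast; ring
  have hzd : z m - z w = ((x : ℤ) : ZMod (p * l)) := by
    rw [hzm, hzw, hc1, ← hPR.1]; ring
  have hmw : m - w = ((r : ℤ) : ZMod p) := by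
    rw [hm, hw, hc2, ← hPR.2]; ring
  have hoff : off (z (w - a)) (z w) = v := by
    refine hV.xv w ?_
    rw [hw, TW.ix_at hT hn]
    exact hαn
  have hzv : z w = z (w - a) + ((v : ℕ) : ZMod (p * l)) := by
    rw [← hoff]; exact (off_spec _ _).symm
  have hzma : z m - z (w - a) = ((x + v : ℤ) : ZMod (p * l)) := by
    push_cast
    rw [← hzd, hzv]; ring
  obtain ⟨rn, hrn⟩ := Int.eq_ofNat_of_zero_le hr0.le
  have hmw' : m - w = ((rn : ℕ) : ZMod p) := by
    rw [hmw, hrn, Int.cast_natCast]
  have hsc : sc l z m - sc l z (w - a) = ((x + v + l * r + a * l : ℤ) : ZMod (p * l)) := by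
    have h1 : e p l m - e p l (w - a) = (((rn + a) * l : ℕ) : ZMod (p * l)) := by
      rw [← e_sub, ← e_natCast]
      congr 1
      push_cast
      rw [← hmw']; ring
    have h2 : sc l z m - sc l z (w - a) = (z m - z (w - a)) + (e p l m - e p l (w - a)) := by
      unfold sc; ring
    rw [h2, h1, hzma, hrn]
    push_cast
    ring
  -- sizes
  have hS := (hSum p l a b k z i0 ρ τ y u hT w).2.2 w
  rw [hoff] at hS
  have hrl : r * l < a * l := by
    have h1 : r < a := by omega
    have h2 : (0 : ℤ) < l := by exact_mod_cast hl0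
    exact mul_lt_mul_of_pos_right h1 h2
  have h2al : 2 * (a * l) ≤ a * b * l := by
    have h1 : a * 2 ≤ a * b := Nat.mul_le_mul_left a hb2
    calc 2 * (a * l) = a * 2 * l := by ring
      _ ≤ a * b * l := Nat.mul_le_mul_right l h1
  have h2al' : 2 * ((a : ℤ) * l) + v ≤ p * l := by
    have : 2 * (a * l) + v ≤ p * l := by omega
    exact_mod_cast this
  have hal : (0 : ℤ) < (a : ℤ) * l := by
    have h1 : 0 < a * l := Nat.mul_pos (by have := hP.ha; omega) hl0
    exact_mod_cast h1
  have hrl0 : 0 < r * l := mul_pos hr0 (by exact_mod_cast hl0)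
  have hplc : ((p * l : ℕ) : ℤ) = (p : ℤ) * l := by push_cast; ring
  have hσ : (off (sc l z (w - a)) (sc l z m) : ℤ) = x + v + l * r + a * l := by
    refine offD hsc ?_ ?_
    · nlinarith
    · rw [hplc]; nlinarith
  have hER' := hER p l a b k z i0 ρ τ y u hT w m
    (by
      have : (0 : ℤ) < (off (sc l z (w - a)) (sc l z m) : ℤ) := by rw [hσ]; nlinarith
      exact_mod_cast this)
    (by
      rw [hoff]
      have : (off (sc l z (w - a)) (sc l z m) : ℤ) < (a : ℤ) * l + v := by rw [hσ]; nlinarith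
      exact_mod_cast this)
  -- the second term
  have hval : (m - w).val = rn := by
    rw [hmw', ZMod.val_natCast_of_lt (by omega)]
  have hsecond : ¬ (w - m).val < a := by
    have h1 : w - m = ((p - rn : ℕ) : ZMod p) := by
      rw [Nat.cast_sub (by omega), ← hmw', ZMod.natCast_self]; ring
    rw [h1, ZMod.val_natCast_of_lt (by omega)]
    omega
  have hthird : (Finset.univ.filter fun ν : ZMod p => l ≤ ix i0 ρ ν ∧ 0 < off (z ν) (z m) ∧
      off (z ν) (z m) < b * l ∧ (w - ν).val + b + k ≤ a).card = 0 := by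
    rw [Finset.card_eq_zero, Finset.filter_eq_empty_iff]
    rintro ν - ⟨hν1, hν2, hν3, hν4⟩
    have h1 := ((hSep p l a b k z i0 ρ τ y u hT).2.2 w m ν hν1 hν2 hν3 hν4).1
    rw [hval] at h1
    omega
  rw [if_neg hsecond, hthird, hoff] at hER'
  have hfirst : off (z (w - a)) (z m) < v := by
    by_contra hc
    rw [if_neg hc] at hER'
    omega
  -- conclusion
  by_contra hcon
  have hxv : x + v ≤ 0 := by omega
  rcases hxv.lt_or_eq with h3 | h3
  · have h4 : (off (z (w - a)) (z m) : ℤ) = x + v + p * l := by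
      refine offD ?_ ?_ ?_
      · rw [hzma]
        have h5 : ((p : ZMod (p * l)) * (l : ZMod (p * l))) = 0 := by
          have := ZMod.natCast_self (p * l)
          push_cast at this
          exact this
        push_cast
        rw [h5]; ring
      · nlinarith
      · rw [hplc]; linarith
    have h6 : (off (z (w - a)) (z m) : ℤ) < v := by exact_mod_cast hfirst
    nlinarith
  · have h4 : z m = z (w - a) := by
      rw [h3] at hzma
      rw [Int.cast_zero] at hzma
      exact sub_eq_zero.1 hzma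
    have h5 := hT.zinj h4
    have h6 : ((rn + a : ℕ) : ZMod p) = 0 := by
      push_cast
      rw [← hmw', h5]; ring
    exact hT.nat_ne (by omega) (by omega) h6

end Helper12.TX
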