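import Pool.Agent.Helper12.TX.StA

set_option autoImplicit false

/-!
# Project TX: module SEP, separation of right sides
-/

namespace Helper12.TX

open Helper11.N1 Helper55.KE Helper73.TM

namespace SEPaux

/-- the opposite difference -/
theorem val_opp {p : ℕ} [NeZero p] {i j : ZMod p} (h : i ≠ j) :
    (i - j).val + (j - i).val = p := by
  have h1 := off_symm (x := j) (y := i) (fun h2 => h h2.symm)
  exact h1

end SEPaux

open SEPaux in
theorem sep : StSum → StArc → StSep := by
  intro hSum hArc p l a b k _ _ z i0 ρ τ y u h
  classical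
  have hl0 := h.hl0
  have hP := h.hE.hP
  have ha := hP.ha
  have hb := hP.hb
  have habp := hP.hab
  have hka := h.hka
  have hk := h.hk
  have hbl0 : 0 < b * l := Nat.mul_pos (by omega) hl0
  have hS := hSum p l a b k z i0 ρ τ y u h
  have hA := hArc p l a b k z i0 ρ τ y u h
  -- first part
  have part1 : ∀ (W i j : ZMod p) (X : ZMod (p * l)), aR a W i → aR a W j →
      off X (z i) < len l a b z W i → off X (z j) < len l a b z W j → i = j := by
    intro W i j X hi hj h1 h2
    have h3 := hA W X
    have h4 : (Finset.univ.filter fun j : ZMod p =>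
        aR a W j ∧ off X (z j) < len l a b z W j).card ≤ 1 := by
      have h5 : y W X ≤ 1 := by
        rcases (h.hW W).y01 X with h6 | h6 <;> rw [h6] <;> norm_num
      rw [h3] at h5
      exact_mod_cast h5
    rw [Finset.card_le_one] at h4
    refine h4 i ?_ j ?_
    · simp only [Finset.mem_filter, Finset.mem_univ, true_and]; exact ⟨hi, h1⟩
    · simp only [Finset.mem_filter, Finset.mem_univ, true_and]; exact ⟨hj, h2⟩
  have hlen : ∀ W j : ZMod p, b * l ≤ len l a b z W j := by
    intro W j
    unfold len
    exact Nat.le_add_right _ _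
  -- second part
  have part2 : ∀ n g : ZMod p, 0 < off (z n) (z g) → off (z n) (z g) < b * l →
      a ≤ (g - n).val ∧ (g - n).val + a + b ≤ p := by
    intro n g h0 h1
    have hne : n ≠ g := by
      rintro rfl
      rw [off_self] at h0
      omega
    have hnot : ∀ W : ZMod p, aR a W n → aR a W g → False := by
      intro W hn hg
      refine hne (part1 W n g (z n) hn hg ?_ ?_)
      · rw [off_self]
        have := hlen W n
        omega
      · have := hlen W g
        omega
    have hopp := val_opp (p := p) (fun h2 => hne h2.symm : g ≠ n)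
    have h2 : a ≤ (g - n).val := by
      by_contra hc
      refine hnot (g + 1) ?_ ?_
      · unfold aR
        rw [add_sub_cancel_right]
        omega
      · unfold aR
        rw [add_sub_cancel_right, sub_self, ZMod.val_zero]
        omega
    have h3 : a ≤ (n - g).val := by
      by_contra hc
      refine hnot (n + 1) ?_ ?_
      · unfold aR
        rw [add_sub_cancel_right, sub_self, ZMod.val_zero]
        omega
      · unfold aR
        rw [add_sub_cancel_right]
        omega
    refine ⟨h2, ?_⟩
    by_contra hc
    have h4 : (n - g).val < a + b := by omega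
    -- the row `g + a`
    have hav : ((a : ℕ) : ZMod p).val = a := ZMod.val_natCast_of_lt (by omega)
    have h5 : (n + 1 - 1 - (g + (a : ZMod p))).val = (n - g).val - a := by
      have h6 : n + 1 - 1 - (g + (a : ZMod p)) = (n - g) - ((a : ℕ) : ZMod p) := by ring
      rw [h6, ZMod.val_sub (by rw [hav]; exact h3), hav]
    have hR : aR a (n + 1) (g + (a : ZMod p)) := by
      unfold aR
      rw [h5]
      omega
    have hB : aB b (n + 1) (g + (a : ZMod p)) := by
      unfold aB
      rw [h5]
      omega
    have hRn : aR a (n + 1) n := by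
      unfold aR
      rw [add_sub_cancel_right, sub_self, ZMod.val_zero]
      omega
    have hlg : len l a b z (n + 1) (g + (a : ZMod p)) =
        b * l + off (z g) (z (g + (a : ZMod p))) := by
      unfold len
      rw [if_pos hB, add_sub_cancel_right]
    have hx : off (z n) (z (g + (a : ZMod p))) < len l a b z (n + 1) (g + (a : ZMod p)) := by
      rw [hlg]
      rcases off_add (z n) (z g) (z (g + (a : ZMod p))) with h7 | h7
      · omega
      · omega
    have heq : n = g + (a : ZMod p) := by
      refine part1 (n + 1) n (g + (a : ZMod p)) (z n) hRn hR ?_ hx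
      rw [off_self]
      have := hlen (n + 1) n
      omega
    have h8 := (hS n).2.2 (g + (a : ZMod p))
    rw [add_sub_cancel_right, ← heq] at h8
    have hzne : z n ≠ z g := fun h9 => hne (h.zinj h9)
    have h9 := off_symm hzne
    have h10 : b * l ≤ a * b * l := by
      have : b * l * 1 ≤ b * l * a := Nat.mul_le_mul_left _ (by omega)
      calc b * l = b * l * 1 := (Nat.mul_one _).symm
        _ ≤ b * l * a := this
        _ = a * b * l := by ring
    omega
  refine ⟨part1, part2, ?_⟩
  intro w m ν hν h0 h1 hw
  obtain ⟨h2, h3⟩ := part2 ν m h0 h1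
  have ht := h.tied hν
  have hbl : b * l < p * l := Nat.mul_lt_mul_of_pos_right (by omega) hl0
  have h4 : off (z ν) (z (ν - ((b + k : ℕ) : ZMod p))) = b * l := by
    rw [← ht]
    have h5 := off_nat' (z (ν - ((b + k : ℕ) : ZMod p))) hbl
    push_cast at h5 ⊢
    exact h5
  have h5 := off_lt (z m) (z (ν - ((b + k : ℕ) : ZMod p)))
  have h6 : off (z ν) (z m) + off (z m) (z (ν - ((b + k : ℕ) : ZMod p))) = b * l := by
    rcases off_add (z ν) (z m) (z (ν - ((b + k : ℕ) : ZMod p))) with h7 | h7
    · rw [h7, h4]
    · exfalso
      omega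
  obtain ⟨h7, h8⟩ := part2 m (ν - ((b + k : ℕ) : ZMod p)) (by omega) (by omega)
  have hne : ν - ((b + k : ℕ) : ZMod p) ≠ m := by
    intro h9
    rw [h9, sub_self, ZMod.val_zero] at h7
    omega
  have h9 := val_opp hne
  have hβ : (((b + k : ℕ) : ZMod p)).val = b + k := ZMod.val_natCast_of_lt (by omega)
  have h10 : (m - (ν - ((b + k : ℕ) : ZMod p))).val = (m - ν).val + (b + k) := by
    have h11 : m - (ν - ((b + k : ℕ) : ZMod p)) = (m - ν) + ((b + k : ℕ) : ZMod p) := by ring
    rw [h11, ZMod.val_add_of_lt (by rw [hβ]; omega), hβ]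
  have h11 : (m - w).val = (m - ν).val - (w - ν).val := by
    have h12 : m - w = (m - ν) - (w - ν) := by ring
    rw [h12, ZMod.val_sub (by omega)]
  omega

end Helper12.TX
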