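import Pool.Agent.Helper12.TX.StB

set_option autoImplicit false
set_option linter.unusedSectionVars false

/-!
# Project TX, module ST1: the rule for the overlap vectors when `α ≥ l`
-/

namespace Helper12.TX

open Helper11.N1 Helper55.KE Helper73.TM

namespace ST1aux

/-- exactly one element in every window of length `d` -/
theorem two_of_windows {E : ℤ → Prop} {d s : ℤ} (hd : 0 < d)
    (h : ∀ t, s ≤ t → t ≤ s + d → ∃! e, (t ≤ e ∧ e < t + d) ∧ E e) : ∃ e, E e ∧ E (e + d) := by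
  obtain ⟨e1, ⟨⟨h1, h2⟩, h3⟩, -⟩ := h s le_rfl (by omega)
  obtain ⟨e2, ⟨⟨h4, h5⟩, h6⟩, -⟩ := h (e1 + 1) (by omega) (by omega)
  obtain ⟨e3, -, h7⟩ := h e1 (by omega) (by omega)
  have h8 := h7 e1 ⟨⟨le_rfl, by omega⟩, h3⟩
  by_cases h9 : e2 < e1 + d
  · have h10 := h7 e2 ⟨⟨by omega, h9⟩, h6⟩
    omega
  · have h10 : e2 = e1 + d := by omega
    exact ⟨e1, h3, h10 ▸ h6⟩

/-- an arc has at least the expected number of elements -/
theorem arc_card {M : ℕ} [NeZero M] (x : ZMod M) {n m : ℕ} (hn : n ≤ M) (hm : n ≤ m) :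
    n ≤ (Finset.univ.filter fun X : ZMod M => off X x < m).card := by
  classical
  have h1 : ((Finset.range n).image fun t : ℕ => x - (t : ZMod M)).card = n := by
    rw [Finset.card_image_of_injOn, Finset.card_range]
    intro s hs t ht hst
    have hs' : s < n := by simpa using hs
    have ht' : t < n := by simpa using ht
    have h2 := off_nat' x (n := s) (by omega)
    have h3 := off_nat' x (n := t) (by omega)
    have hst' : x - (s : ZMod M) = x - (t : ZMod M) := hst
    rw [hst'] at h2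
    omega
  rw [← h1]
  apply Finset.card_le_card
  intro X hX
  rw [Finset.mem_image] at hX
  obtain ⟨t, ht, rfl⟩ := hX
  rw [Finset.mem_range] at ht
  rw [Finset.mem_filter, off_nat' x (by omega)]
  exact ⟨Finset.mem_univ _, by omega⟩

section

variable {p l a b k : ℕ} [NeZero p] [NeZero l] {z : ZMod p → ZMod (p * l)} {i0 ρ : ZMod p}
  {τ : ZMod (p * l)} {y u : ZMod p → ZMod (p * l) → ℤ}

/-- the arcs of one level are disjoint: a bound for the jump -/
theorem sum3 (hsep : StSep) (h : TW p l a b k z i0 ρ τ y u) (w : ZMod p)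
    (hv : off (z (w - a)) (z w) + 2 * b * l ≤ p * l) :
    a * b * l + off (z (w - a)) (z w) ≤ p * l := by
  classical
  obtain ⟨hs, -, -⟩ := hsep p l a b k z i0 ρ τ y u h
  have ha2 := h.h2a
  have ha := h.hE.hP.ha
  have hb := h.hE.hP.hb
  set J := off (z (w - a)) (z w) with hJ
  have hbl : 2 * b * l = b * l + b * l := by ring
  have hR : ∀ i : ℕ, i < a → aR a (w + 1) (w - (i : ZMod p)) := by
    intro i hi
    unfold aR
    have h1 : w + 1 - 1 - (w - (i : ZMod p)) = (i : ZMod p) := by ring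
    rw [h1, ZMod.val_natCast_of_lt (by omega)]
    exact hi
  have hcard : ∀ i ∈ Finset.range a, b * l + (if i = 0 then J else 0) ≤
      (Finset.univ.filter fun X : ZMod (p * l) =>
        off X (z (w - (i : ZMod p))) < len l a b z (w + 1) (w - (i : ZMod p))).card := by
    intro i _
    apply arc_card
    · split_ifs <;> omega
    · unfold len
      apply Nat.add_le_add_left
      by_cases h0 : i = 0
      · subst h0
        rw [if_pos rfl, Nat.cast_zero, sub_zero, if_pos]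
        unfold aB
        have h1 : w + 1 - 1 - w = 0 := by ring
        rw [h1, ZMod.val_zero]
        omega
      · rw [if_neg h0]
        exact Nat.zero_le _
  have hdis : ∀ i ∈ Finset.range a, ∀ i' ∈ Finset.range a, i ≠ i' → Disjoint
      (Finset.univ.filter fun X : ZMod (p * l) =>
        off X (z (w - (i : ZMod p))) < len l a b z (w + 1) (w - (i : ZMod p)))
      (Finset.univ.filter fun X : ZMod (p * l) =>
        off X (z (w - (i' : ZMod p))) < len l a b z (w + 1) (w - (i' : ZMod p))) := by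
    intro i hi i' hi' hne
    rw [Finset.mem_range] at hi hi'
    rw [Finset.disjoint_left]
    intro X hX hX'
    rw [Finset.mem_filter] at hX hX'
    have h1 := hs (w + 1) _ _ X (hR i hi) (hR i' hi') hX.2 hX'.2
    have h2 : (i : ZMod p) = (i' : ZMod p) := by linear_combination -h1
    apply hne
    have h3 := congrArg ZMod.val h2
    rwa [ZMod.val_natCast_of_lt (by omega), ZMod.val_natCast_of_lt (by omega)] at h3
  have h1 := Finset.card_biUnion hdis
  have h2 := Finset.card_le_univ ((Finset.range a).biUnion fun i : ℕ =>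
    (Finset.univ.filter fun X : ZMod (p * l) =>
        off X (z (w - (i : ZMod p))) < len l a b z (w + 1) (w - (i : ZMod p))))
  rw [ZMod.card] at h2
  have h3 := Finset.sum_le_sum hcard
  rw [Finset.sum_add_distrib, Finset.sum_const, Finset.card_range, smul_eq_mul,
    Finset.sum_ite_eq', if_pos (Finset.mem_range.2 (by omega))] at h3
  calc a * b * l + J = a * (b * l) + J := by ring
    _ ≤ _ := h3
    _ = _ := h1.symm
    _ ≤ p * l := h2

/-- the rows which are counted, in terms of integers -/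
def EE (a b k : ℕ) {p l : ℕ} (ρ : ZMod p) (τ : ZMod (p * l)) (x e : ℤ) : Prop :=
  0 < off ((e : ZMod (p * l)) * τ) (x : ZMod (p * l)) ∧
    off ((e : ZMod (p * l)) * τ) (x : ZMod (p * l)) < b * l ∧
    (-((e : ZMod p) * ρ)).val + b + k ≤ a

theorem zrow (h : TW p l a b k z i0 ρ τ y u) {n : ℤ} (h0 : 0 ≤ n) (hn : n < p) :
    z (i0 + (n : ZMod p) * ρ) = z i0 + (n : ZMod (p * l)) * τ := by
  obtain ⟨m, rfl⟩ := Int.eq_ofNat_of_zero_le h0
  have h1 := h.hE.zn (n := m) (by omega)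
  rw [Int.cast_natCast, Int.cast_natCast]
  exact h1

theorem ixrow (h : TW p l a b k z i0 ρ τ y u) {n : ℤ} (h0 : 0 ≤ n) (hn : n < p) :
    (ix i0 ρ (i0 + (n : ZMod p) * ρ) : ℤ) = n := by
  obtain ⟨m, rfl⟩ := Int.eq_ofNat_of_zero_le h0
  rw [Int.cast_natCast, h.ix_at (by omega)]

/-- the counted rows -/
theorem mem_iff (h : TW p l a b k z i0 ρ τ y u) {w m : ZMod p} {n j x : ℤ}
    (hx : (j : ZMod (p * l)) * τ = (x : ZMod (p * l))) (hw : w = i0 + (n : ZMod p) * ρ)
    (hm : z m = z i0 + ((n + j : ℤ) : ZMod (p * l)) * τ) (ν : ZMod p) :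
    (l ≤ ix i0 ρ ν ∧ 0 < off (z ν) (z m) ∧ off (z ν) (z m) < b * l ∧
      (w - ν).val + b + k ≤ a) ↔ (l ≤ ix i0 ρ ν ∧ EE a b k ρ τ x ((ix i0 ρ ν : ℤ) - n)) := by
  have h1 : off (z ν) (z m) =
      off ((((ix i0 ρ ν : ℤ) - n : ℤ) : ZMod (p * l)) * τ) (x : ZMod (p * l)) := by
    unfold off
    congr 1
    rw [hm, h.z_ix ν, ← hx]
    push_cast
    ring
  have h2 : w - ν = -((((ix i0 ρ ν : ℤ) - n : ℤ) : ZMod p) * ρ) := by
    conv_lhs => rw [← h.ix_eq ν, hw]
    push_cast
    ring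
  rw [h1, h2]
  unfold EE
  exact Iff.rfl

theorem mem_of (h : TW p l a b k z i0 ρ τ y u) {w m : ZMod p} {n j x e : ℤ}
    (hx : (j : ZMod (p * l)) * τ = (x : ZMod (p * l))) (hw : w = i0 + (n : ZMod p) * ρ)
    (hm : z m = z i0 + ((n + j : ℤ) : ZMod (p * l)) * τ) (h1 : l - n ≤ e) (h2 : e < p - n)
    (h3 : EE a b k ρ τ x e) : ∃ ν, (ix i0 ρ ν : ℤ) = e + n ∧
      (l ≤ ix i0 ρ ν ∧ 0 < off (z ν) (z m) ∧ off (z ν) (z m) < b * l ∧
      (w - ν).val + b + k ≤ a) := by
  have hl : (0 : ℤ) ≤ l := by positivity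
  have h4 := ixrow h (n := e + n) (by omega) (by omega)
  refine ⟨i0 + ((e + n : ℤ) : ZMod p) * ρ, h4, ?_⟩
  rw [mem_iff h hx hw hm, h4, add_sub_cancel_right]
  exact ⟨by omega, h3⟩

/-- exactly one row is counted -/
theorem card_one (h : TW p l a b k z i0 ρ τ y u) {w m : ZMod p} {n j x : ℤ}
    (hx : (j : ZMod (p * l)) * τ = (x : ZMod (p * l))) (hw : w = i0 + (n : ZMod p) * ρ)
    (hm : z m = z i0 + ((n + j : ℤ) : ZMod (p * l)) * τ)
    (hc : open Classical in (Finset.univ.filter fun ν : ZMod p => l ≤ ix i0 ρ ν ∧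
      0 < off (z ν) (z m) ∧ off (z ν) (z m) < b * l ∧ (w - ν).val + b + k ≤ a).card = 1) :
    ∃! e : ℤ, (l - n ≤ e ∧ e < p - n) ∧ EE a b k ρ τ x e := by
  classical
  rw [Finset.card_eq_one] at hc
  obtain ⟨ν0, hν⟩ := hc
  have h0 : ν0 ∈ Finset.univ.filter fun ν : ZMod p => l ≤ ix i0 ρ ν ∧
      0 < off (z ν) (z m) ∧ off (z ν) (z m) < b * l ∧ (w - ν).val + b + k ≤ a := by
    rw [hν]
    exact Finset.mem_singleton_self _
  rw [Finset.mem_filter, mem_iff h hx hw hm] at h0
  have h1 := TW.ix_lt i0 ρ ν0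
  refine ⟨(ix i0 ρ ν0 : ℤ) - n, ⟨⟨by omega, by omega⟩, h0.2.2⟩, ?_⟩
  rintro e ⟨⟨h2, h3⟩, h4⟩
  obtain ⟨ν, h5, h6⟩ := mem_of h hx hw hm h2 h3 h4
  have h7 : ν ∈ Finset.univ.filter fun ν : ZMod p => l ≤ ix i0 ρ ν ∧
      0 < off (z ν) (z m) ∧ off (z ν) (z m) < b * l ∧ (w - ν).val + b + k ≤ a :=
    Finset.mem_filter.2 ⟨Finset.mem_univ _, h6⟩
  rw [hν, Finset.mem_singleton] at h7
  rw [← h7, h5]
  ring

/-- no row is counted -/
theorem card_zero (h : TW p l a b k z i0 ρ τ y u) {w m : ZMod p} {n j x : ℤ}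
    (hx : (j : ZMod (p * l)) * τ = (x : ZMod (p * l))) (hw : w = i0 + (n : ZMod p) * ρ)
    (hm : z m = z i0 + ((n + j : ℤ) : ZMod (p * l)) * τ)
    (hc : open Classical in (Finset.univ.filter fun ν : ZMod p => l ≤ ix i0 ρ ν ∧
      0 < off (z ν) (z m) ∧ off (z ν) (z m) < b * l ∧ (w - ν).val + b + k ≤ a).card = 0) :
    ∀ e : ℤ, l - n ≤ e → e < p - n → ¬ EE a b k ρ τ x e := by
  classical
  intro e h2 h3 h4
  obtain ⟨ν, h5, h6⟩ := mem_of h hx hw hm h2 h3 h4
  have h7 : ν ∈ Finset.univ.filter fun ν : ZMod p => l ≤ ix i0 ρ ν ∧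
      0 < off (z ν) (z m) ∧ off (z ν) (z m) < b * l ∧ (w - ν).val + b + k ≤ a :=
    Finset.mem_filter.2 ⟨Finset.mem_univ _, h6⟩
  rw [Finset.card_eq_zero] at hc
  rw [hc] at h7
  exact absurd h7 (Finset.notMem_empty _)

/-- the application of the exclusion rule -/
theorem app (hER : StER) (h : TW p l a b k z i0 ρ τ y u) {w m : ZMod p} {D r : ℤ} {J : ℕ}
    (hz : z m - z (w - a) = (D : ZMod (p * l))) (hmw : m - w = (r : ZMod p))
    (hJ : off (z (w - a)) (z w) = J) (hr0 : 0 < r) (hr : r ≤ p - a)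
    (h1 : 0 < D + (r + a) * l) (h2 : D + r * l < J) (h3 : a * l + J ≤ p * l) :
    open Classical in (if off (z (w - a)) (z m) < J then 1 else 0) +
      (Finset.univ.filter fun ν : ZMod p => l ≤ ix i0 ρ ν ∧ 0 < off (z ν) (z m) ∧
        off (z ν) (z m) < b * l ∧ (w - ν).val + b + k ≤ a).card = 1 := by
  classical
  have h3' : (a : ℤ) * l + J ≤ p * l := by exact_mod_cast h3
  have h4 : sc l z m - sc l z (w - a) = ((D + (r + a) * l : ℤ) : ZMod (p * l)) := by
    have h5 : m - (w - a) = ((r + a : ℤ) : ZMod p) := by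
      push_cast
      rw [← hmw]
      ring
    have h6 := congrArg (e p l) h5
    rw [e_sub, e_int'] at h6
    unfold sc
    push_cast at h6 ⊢
    linear_combination hz + h6
  have h5 : (off (sc l z (w - a)) (sc l z m) : ℤ) = D + (r + a) * l := by
    have h6 : off (sc l z (w - a)) (sc l z m) =
        off (((0 : ℤ) : ZMod (p * l))) (((D + (r + a) * l : ℤ) : ZMod (p * l))) := by
      unfold off
      rw [h4, Int.cast_zero, sub_zero]
    rw [h6, off_of_int rfl rfl (by omega) (by push_cast; linarith), sub_zero]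
  have h6 := hER p l a b k z i0 ρ τ y u h w m (by omega) (by
    rw [hJ]
    have h7 : (off (sc l z (w - a)) (sc l z m) : ℤ) < a * l + J := by
      rw [h5]
      linarith
    exact_mod_cast h7)
  rw [hJ] at h6
  have h7 : ¬ (w - m).val < a := by
    have h8 : w - m = ((((p : ℤ) - r).toNat : ℕ) : ZMod p) := by
      have h9 : ((((p : ℤ) - r).toNat : ℕ) : ℤ) = (p : ℤ) - r := Int.toNat_of_nonneg (by
        have : (0 : ℤ) ≤ a := by positivity
        linarith)
      rw [← Int.cast_natCast, h9]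
      push_cast
      rw [ZMod.natCast_self, ← hmw]
      ring
    rw [h8, ZMod.val_natCast_of_lt (by omega)]
    omega
  rw [if_neg h7, add_zero] at h6
  exact h6

/-- a distance from a difference -/
theorem off_pos {x y : ZMod (p * l)} {D : ℤ} (hz : y - x = (D : ZMod (p * l))) (h0 : 0 ≤ D)
    (h1 : D < p * l) : (off x y : ℤ) = D := by
  have h6 : off x y = off (((0 : ℤ) : ZMod (p * l))) ((D : ℤ) : ZMod (p * l)) := by
    unfold off
    rw [hz, Int.cast_zero, sub_zero]
  rw [h6, off_of_int rfl rfl h0 (by push_cast; linarith), sub_zero]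

theorem off_neg {x y : ZMod (p * l)} {D : ℤ} (hz : y - x = (D : ZMod (p * l)))
    (h0 : -(p * l : ℤ) ≤ D) (h1 : D < 0) : (off x y : ℤ) = D + p * l := by
  apply off_pos _ (by linarith) (by linarith)
  rw [hz]
  push_cast
  rw [pl0, add_zero]

variable {α I h ξ : ℕ}

/-- two elements at distance `p - l` -/
theorem not_two (hT : TW p l a b k z i0 ρ τ y u) (hV : VD p l a b z i0 ρ τ α I h ξ) {x e : ℤ}
    (h1 : EE a b k ρ τ x e) (h2 : EE a b k ρ τ x (e + (p - l))) : False := by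
  obtain ⟨h3, h4, -⟩ := h1
  obtain ⟨h5, h6, -⟩ := h2
  have hv2 := hV.v2
  have hξv := hV.ξv
  have hξ0 := hV.ξ0
  have hbl : 2 * b * l = b * l + b * l := by ring
  set d := off ((e : ZMod (p * l)) * τ) (x : ZMod (p * l)) with hd
  have h7 := off_spec ((e : ZMod (p * l)) * τ) (x : ZMod (p * l))
  rw [← hd] at h7
  have h8 : (x : ZMod (p * l)) - ((e + (p - l) : ℤ) : ZMod (p * l)) * τ =
      ((d - (p * I + b * l) : ℤ) : ZMod (p * l)) := by
    have h9 := hV.pτ
    have h10 := hT.hE.hlt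
    push_cast at h9 ⊢
    linear_combination -h7 - h9 + h10
  have hv2' : ((α * I + h * l + 2 * b * l : ℕ) : ℤ) ≤ ((p * l : ℕ) : ℤ) := by exact_mod_cast hv2
  have hξv' : ((ξ + p * I : ℕ) : ℤ) = ((α * I + h * l : ℕ) : ℤ) := by exact_mod_cast hξv
  have h4' : ((d : ℕ) : ℤ) < ((b * l : ℕ) : ℤ) := by exact_mod_cast h4
  have h6' : (off (((e + (p - l) : ℤ) : ZMod (p * l)) * τ) (x : ZMod (p * l)) : ℤ) <
    ((b * l : ℕ) : ℤ) := by exact_mod_cast h6
  have hpI : (0 : ℤ) ≤ (p : ℤ) * I := by positivity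
  have hd0 : (0 : ℤ) ≤ (d : ℤ) := by positivity
  have hξ0' : (0 : ℤ) < (ξ : ℤ) := by exact_mod_cast hξ0
  have hbl0 : (0 : ℤ) ≤ (b : ℤ) * l := by positivity
  push_cast at hv2' hξv' h4'
  rw [off_neg h8 (by linarith) (by linarith)] at h6'
  push_cast at h6'
  linarith

/-- the rows with index in `[-(p - α), α)` -/
theorem rowA (hT : TW p l a b k z i0 ρ τ y u) (hV : VD p l a b z i0 ρ τ α I h ξ) {n : ℤ}
    (h1 : -((p : ℤ) - α) ≤ n) (h2 : n < α) {w : ZMod p} (hw : w = i0 + (n : ZMod p) * ρ) :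
    z (w - a) = z i0 + (n : ZMod (p * l)) * τ - (ξ : ZMod (p * l)) ∧
      off (z (w - a)) (z w) = if 0 ≤ n then ξ else ξ + p * I := by
  have hαp := hV.αp
  by_cases h0 : 0 ≤ n
  · have h3 := zrow hT h0 (by omega : n < p)
    have h4 := ixrow hT h0 (by omega : n < p)
    rw [← hw] at h3 h4
    have h5 := hV.xξ w (by omega)
    rw [if_pos h0]
    refine ⟨?_, h5⟩
    have h6 := off_spec' (z (w - a)) (z w)
    rw [h5] at h6
    rw [← h6, h3]
  · have h3 := zrow hT (n := n + p) (by omega) (by omega)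
    have h4 := ixrow hT (n := n + p) (by omega) (by omega)
    have h7 : i0 + ((n + p : ℤ) : ZMod p) * ρ = w := by
      rw [hw]
      push_cast
      rw [ZMod.natCast_self, add_zero]
    rw [h7] at h3 h4
    have h5 := hV.xv w (by omega)
    have h9 := hV.pτ
    have h10 := hV.ξv
    rw [if_neg h0, h10]
    refine ⟨?_, h5⟩
    have h6 := off_spec' (z (w - a)) (z w)
    rw [h5, ← h10] at h6
    rw [← h6, h3]
    push_cast at h9 ⊢
    linear_combination h9

/-- the rows with index in `[α, p)` -/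
theorem rowC (hT : TW p l a b k z i0 ρ τ y u) (hV : VD p l a b z i0 ρ τ α I h ξ) {n : ℤ}
    (h1 : (α : ℤ) ≤ n) (h2 : n < p) {w : ZMod p} (hw : w = i0 + (n : ZMod p) * ρ) :
    z (w - a) = z i0 + (n : ZMod (p * l)) * τ - ((α * I + h * l : ℕ) : ZMod (p * l)) ∧
      off (z (w - a)) (z w) = α * I + h * l := by
  have h3 := zrow hT (by omega) h2
  have h4 := ixrow hT (by omega) h2
  rw [← hw] at h3 h4
  have h5 := hV.xv w (by omega)
  refine ⟨?_, h5⟩
  have h6 := off_spec' (z (w - a)) (z w)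
  rw [h5] at h6
  rw [← h6, h3]

/-- the bound for the jumps -/
theorem bound (hSep : StSep) (hT : TW p l a b k z i0 ρ τ y u)
    (hV : VD p l a b z i0 ρ τ α I h ξ) : a * l + (α * I + h * l) ≤ p * l := by
  have h1 := sum3 hSep hT (i0 + (α : ZMod p) * ρ) (by
    rw [hV.xv _ (by rw [hT.ix_at hV.αp])]
    exact hV.v2)
  rw [hV.xv _ (by rw [hT.ix_at hV.αp])] at h1
  have hb := hT.hE.hP.hb
  have h2 : a * l ≤ a * b * l :=
    Nat.mul_le_mul_right l (Nat.le_mul_of_pos_right a (by omega))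
  omega

/-- the case `x = - ξ` -/
theorem ne_xi (hSep : StSep) (hT : TW p l a b k z i0 ρ τ y u)
    (hV : VD p l a b z i0 ρ τ α I h ξ) {j x r : ℤ} (hPR : PR ρ τ j x r) (hr1 : 0 < r)
    (hr2 : r ≤ p - a) (hx2 : x + l * r < 0) : x ≠ -(ξ : ℤ) := by
  intro hx
  obtain ⟨h1, h2⟩ := hPR
  have h3 := bound hSep hT hV
  have h4 := hV.ατ
  have h5 := hV.pτ
  have h6 := hV.ξv
  have h7 : ((j - (p - α) : ℤ) : ZMod (p * l)) * τ = 0 := by
    have h8 : ((ξ + p * I : ℕ) : ZMod (p * l)) = ((α * I + h * l : ℕ) : ZMod (p * l)) := by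
      rw [h6]
    rw [hx] at h1
    push_cast at h1 h4 h5 h8 ⊢
    linear_combination h1 - h5 + h4 - h8
  rw [hT.hE.mul_eq_zero] at h7
  have h8 : (p : ℤ) ∣ j - (p - α) := by
    refine dvd_trans ?_ h7
    push_cast
    exact dvd_mul_right _ _
  have h9 : ((j - (p - α) : ℤ) : ZMod p) = 0 := (ZMod.intCast_zmod_eq_zero_iff_dvd _ _).2 h8
  have h10 : ((r + a : ℤ) : ZMod p) = 0 := by
    have h11 := hV.αρ
    push_cast at h9 h2 ⊢
    rw [ZMod.natCast_self] at h9
    linear_combination -h2 - h11 + ρ * h9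
  rw [ZMod.intCast_zmod_eq_zero_iff_dvd] at h10
  have ha : (0 : ℤ) ≤ a := by positivity
  have h11 : (p : ℤ) ≤ r + a := Int.le_of_dvd (by omega) h10
  have h12 : r = p - a := by omega
  have h3' : ((a * l + (α * I + h * l) : ℕ) : ℤ) ≤ ((p * l : ℕ) : ℤ) := by exact_mod_cast h3
  have h6' : ((ξ + p * I : ℕ) : ℤ) = ((α * I + h * l : ℕ) : ℤ) := by exact_mod_cast h6
  push_cast at h3' h6'
  have hpI : (0 : ℤ) ≤ (p : ℤ) * I := by positivity
  rw [h12, hx, mul_sub] at hx2
  linarith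

end

end ST1aux

open ST1aux in
theorem st1 : StLT → StSep → StER → StST1 := by
  intro hLT hSep hER p l a b k _ _ z i0 ρ τ y u α I h ξ hT hV hlα j x r hPR hj1 hj2 hr1 hr2
    hx1 hx2 hx3 hx4
  by_contra hcon
  have hx5 : x < -(ξ : ℤ) := lt_of_le_of_ne (not_lt.1 hcon) (ne_xi hSep hT hV hPR hr1 hr2 hx2)
  have hβ := hLT p l a b k z i0 ρ τ y u hT
  have hbound := bound hSep hT hV
  have hξv := hV.ξv
  have hαp := hV.αp
  have hα0 := hV.α0
  have hl0 := hT.hl0
  have hlp := hT.hE.hlp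
  have hJ := hPR.1
  have hR := hPR.2
  have hbound' : ((a * l + (α * I + h * l) : ℕ) : ℤ) ≤ ((p * l : ℕ) : ℤ) := by
    exact_mod_cast hbound
  have hξv' : ((ξ + p * I : ℕ) : ℤ) = ((α * I + h * l : ℕ) : ℤ) := by exact_mod_cast hξv
  have hξ0 : (0 : ℤ) < (ξ : ℤ) := by exact_mod_cast hV.ξ0
  have hpI : (0 : ℤ) ≤ (p : ℤ) * I := by positivity
  push_cast at hbound' hξv'
  -- the rule for the rows with jump `ξ`
  have hA : ∀ n : ℤ, -((p : ℤ) - α) ≤ n → n < α → -j ≤ n → n < p - j →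
      ((0 ≤ n ∨ (p : ℤ) * I ≤ p * l + x) →
        ∃! e : ℤ, (l - n ≤ e ∧ e < p - n) ∧ EE a b k ρ τ x e) ∧
      ((n < 0 ∧ (p : ℤ) * l + x < p * I) → ∀ e : ℤ, l - n ≤ e → e < p - n →
        ¬ EE a b k ρ τ x e) := by
    intro n h1 h2 h3 h4
    obtain ⟨h5, h6⟩ := rowA hT hV h1 h2 rfl
    have h7 := zrow hT (n := n + j) (by omega) (by omega)
    have h8 : z (i0 + ((n + j : ℤ) : ZMod p) * ρ) - z (i0 + (n : ZMod p) * ρ - a) =
        ((x + ξ : ℤ) : ZMod (p * l)) := by
      rw [h7, h5]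
      push_cast
      linear_combination hJ
    have h9 : i0 + ((n + j : ℤ) : ZMod p) * ρ - (i0 + (n : ZMod p) * ρ) = (r : ZMod p) := by
      rw [← hR]
      push_cast
      ring
    have h10 := off_neg h8 (by linarith) (by linarith)
    have h11 := app hER hT h8 h9 h6 hr1 hr2 (by linarith [mul_comm (l : ℤ) r, add_mul r (a : ℤ) l])
      (by
        split_ifs <;> push_cast <;> linarith [mul_comm (l : ℤ) r])
      (by
        split_ifs
        · have : 0 ≤ p * I := Nat.zero_le _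
          omega
        · omega)
    constructor
    · intro h12
      rw [if_neg, zero_add] at h11
      · exact card_one hT hJ rfl h7 h11
      · split_ifs with h13
        · have h14 : (ξ : ℤ) ≤ (off (z (i0 + (n : ZMod p) * ρ - a))
            (z (i0 + ((n + j : ℤ) : ZMod p) * ρ)) : ℤ) := by
            rw [h10]
            linarith
          omega
        · rcases h12 with h12 | h12
          · exact absurd h12 h13
          · have h14 : ((ξ + p * I : ℕ) : ℤ) ≤ (off (z (i0 + (n : ZMod p) * ρ - a))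
              (z (i0 + ((n + j : ℤ) : ZMod p) * ρ)) : ℤ) := by
              rw [h10]
              push_cast
              linarith
            omega
    · rintro ⟨h12, h13⟩
      rw [if_pos] at h11
      · exact card_zero hT hJ rfl h7 (by omega)
      · rw [if_neg (not_le.2 h12)]
        have h14 : (off (z (i0 + (n : ZMod p) * ρ - a))
            (z (i0 + ((n + j : ℤ) : ZMod p) * ρ)) : ℤ) < ((ξ + p * I : ℕ) : ℤ) := by
          rw [h10]
          push_cast
          linarith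
        exact_mod_cast h14
  -- the rule for the rows with jump `v`
  have hC : ∀ n : ℤ, (α : ℤ) ≤ n → n < p → -j ≤ n → n < p - j →
      (-(α * I + h * l : ℤ) ≤ x → ∀ e : ℤ, l - n ≤ e → e < p - n → ¬ EE a b k ρ τ x e) ∧
      (x < -(α * I + h * l : ℤ) →
        ∃! e : ℤ, (l - n ≤ e ∧ e < p - n) ∧ EE a b k ρ τ x e) := by
    intro n h1 h2 h3 h4
    obtain ⟨h5, h6⟩ := rowC hT hV h1 h2 rfl
    have h7 := zrow hT (n := n + j) (by omega) (by omega)
    have h8 : z (i0 + ((n + j : ℤ) : ZMod p) * ρ) - z (i0 + (n : ZMod p) * ρ - a) =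
        ((x + (α * I + h * l) : ℤ) : ZMod (p * l)) := by
      rw [h7, h5]
      push_cast
      linear_combination hJ
    have h9 : i0 + ((n + j : ℤ) : ZMod p) * ρ - (i0 + (n : ZMod p) * ρ) = (r : ZMod p) := by
      rw [← hR]
      push_cast
      ring
    have h11 := app hER hT h8 h9 h6 hr1 hr2 (by linarith [mul_comm (l : ℤ) r, add_mul r (a : ℤ) l])
      (by push_cast; linarith [mul_comm (l : ℤ) r]) hbound
    constructor
    · intro h12
      have h10 := off_pos h8 (by linarith) (by linarith)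
      rw [if_pos] at h11
      · exact card_zero hT hJ rfl h7 (by omega)
      · have h14 : (off (z (i0 + (n : ZMod p) * ρ - a))
            (z (i0 + ((n + j : ℤ) : ZMod p) * ρ)) : ℤ) < ((α * I + h * l : ℕ) : ℤ) := by
          rw [h10]
          push_cast
          linarith
        exact_mod_cast h14
    · intro h12
      have h10 := off_neg h8 (by linarith) (by linarith)
      rw [if_neg, zero_add] at h11
      · exact card_one hT hJ rfl h7 h11
      · have h14 : ((α * I + h * l : ℕ) : ℤ) ≤ (off (z (i0 + (n : ZMod p) * ρ - a))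
            (z (i0 + ((n + j : ℤ) : ZMod p) * ρ)) : ℤ) := by
          rw [h10]
          push_cast
          linarith
        omega
  -- two integers which are never counted
  have hEl : ¬ EE a b k ρ τ x (l : ℤ) := by
    rintro ⟨-, -, h1⟩
    rw [Int.cast_natCast, hT.lρ] at h1
    have h2 : -((b + k : ℕ) : ZMod p) = ((p - (b + k) : ℕ) : ZMod p) := by
      have h2a := hT.h2a
      rw [Nat.cast_sub (by omega), ZMod.natCast_self]
      ring
    have h2a := hT.h2a
    have hb := hT.hE.hP.hb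
    rw [h2, ZMod.val_natCast_of_lt (by omega)] at h1
    omega
  have hEN : ¬ EE a b k ρ τ x ((p : ℤ) - α) := by
    rintro ⟨-, -, h1⟩
    have h2 : -((((p : ℤ) - α : ℤ) : ZMod p) * ρ) = ((a : ℕ) : ZMod p) := by
      push_cast
      rw [ZMod.natCast_self, ← hV.αρ]
      ring
    have h2a := hT.h2a
    have hb := hT.hE.hP.hb
    rw [h2, ZMod.val_natCast_of_lt (by omega)] at h1
    omega
  -- (B)
  have hB : ∀ n : ℤ, -((p : ℤ) - α) ≤ n → n < α → -j ≤ n → n < p - j →
      ∃! e : ℤ, (l - n ≤ e ∧ e < p - n) ∧ EE a b k ρ τ x e := by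
    intro n h1 h2 h3 h4
    refine (hA n h1 h2 h3 h4).1 ?_
    by_contra h5
    have h6 : ¬ 0 ≤ n := fun h => h5 (Or.inl h)
    have h7 : ¬ (p : ℤ) * I ≤ p * l + x := fun h => h5 (Or.inr h)
    obtain ⟨e, ⟨⟨h8, h9⟩, h10⟩, -⟩ := (hA 0 (by omega) (by omega) (by omega) (by omega)).1
      (Or.inl le_rfl)
    have h11 : e ≠ l := fun h => hEl (h ▸ h10)
    exact (hA (-1) (by omega) (by omega) (by omega) (by omega)).2 ⟨by omega, not_le.1 h7⟩ e
      (by omega) (by omega) h10
  -- (D)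
  have hD : j < p - α → ∀ n : ℤ, (α : ℤ) ≤ n → n < p → -j ≤ n → n < p - j →
      ∃! e : ℤ, (l - n ≤ e ∧ e < p - n) ∧ EE a b k ρ τ x e := by
    intro h0 n h1 h2 h3 h4
    refine (hC n h1 h2 h3 h4).2 ?_
    by_contra h5
    obtain ⟨e, ⟨⟨h8, h9⟩, h10⟩, -⟩ := hB (α - 1) (by omega) (by omega) (by omega) (by omega)
    have h11 : e ≠ p - α := fun h => hEN (h ▸ h10)
    exact (hC α le_rfl (by omega) (by omega) (by omega)).1 (not_lt.1 h5) e
      (by omega) (by omega) h10
  -- (E)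
  have hE : ∃ s : ℤ, ∀ n : ℤ, s ≤ n → n ≤ s + (p - l) →
      ∃! e : ℤ, (l - n ≤ e ∧ e < p - n) ∧ EE a b k ρ τ x e := by
    rcases lt_or_ge j ((p : ℤ) - α) with h1 | h1
    · rcases lt_or_ge j 0 with h2 | h2
      · refine ⟨-j, fun n h3 h4 => ?_⟩
        rcases lt_or_ge n (α : ℤ) with h5 | h5
        · exact hB n (by omega) h5 (by omega) (by omega)
        · exact hD h1 n h5 (by omega) (by omega) (by omega)
      · refine ⟨-j, fun n h3 h4 => ?_⟩
        rcases lt_or_ge n (α : ℤ) with h5 | h5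
        · exact hB n (by omega) h5 (by omega) (by omega)
        · exact hD h1 n h5 (by omega) (by omega) (by omega)
    · refine ⟨-((p : ℤ) - α), fun n h3 h4 => ?_⟩
      exact hB n (by omega) (by omega) (by omega) (by omega)
  -- (F)
  obtain ⟨s, hs⟩ := hE
  obtain ⟨e, h1, h2⟩ := two_of_windows (E := EE a b k ρ τ x) (d := (p : ℤ) - l)
    (s := l - (s + (p - l))) (by omega) (fun t ht1 ht2 => by
      have h3 := hs (l - t) (by omega) (by omega)
      have h4 : (l : ℤ) - (l - t) = t := by ring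
      have h5 : (p : ℤ) - (l - t) = t + (p - l) := by ring
      rw [h4, h5] at h3
      exact h3)
  exact not_two hT hV h1 h2

end Helper12.TX
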