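import Pool.Agent.Helper12.TX.StB

set_option autoImplicit false
set_option linter.unusedSectionVars false

/-!
# Project TX: module ST2, the rule for `α < l`
-/

namespace Helper12.TX

open Helper11.N1 Helper55.KE Helper73.TM

namespace ST2aux

/-- the number of positions in an arc -/
theorem card_arc {M : ℕ} [NeZero M] (c : ZMod M) {N : ℕ} (hN : N ≤ M) :
    (Finset.univ.filter fun X : ZMod M => off X c < N).card = N := by
  conv_rhs => rw [← Finset.card_range N]
  refine Finset.card_nbij' (fun X => off X c) (fun n => c - (n : ZMod M)) ?_ ?_ ?_ ?_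
  · intro X hX
    rw [Finset.mem_coe, Finset.mem_filter] at hX
    exact Finset.mem_coe.2 (Finset.mem_range.2 hX.2)
  · intro n hn
    rw [Finset.mem_coe, Finset.mem_range] at hn
    rw [Finset.mem_coe, Finset.mem_filter]
    refine ⟨Finset.mem_univ _, ?_⟩
    rw [off_nat' _ (lt_of_lt_of_le hn hN)]
    exact hn
  · intro X _
    show c - ((off X c : ℕ) : ZMod M) = X
    exact off_spec' X c
  · intro n hn
    rw [Finset.mem_coe, Finset.mem_range] at hn
    exact off_nat' _ (lt_of_lt_of_le hn hN)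

/-- consecutive windows with exactly one element -/
theorem two_of_windows {E : ℤ → Prop} {l p s : ℤ} (hlp : l < p)
    (h : ∀ n, s ≤ n → n ≤ s + (p - l) → ∃ e, (l - n ≤ e ∧ e < p - n ∧ E e) ∧
      ∀ e', l - n ≤ e' → e' < p - n → E e' → e' = e) : ∃ e, E e ∧ E (e + (p - l)) := by
  obtain ⟨e1, ⟨h1, h2, h3⟩, -⟩ := h (s + (p - l)) (by linarith) le_rfl
  obtain ⟨f, -, h4⟩ := h (l - e1) (by linarith) (by linarith)
  have h5 : e1 = f := h4 e1 (by linarith) (by linarith) h3
  obtain ⟨e2, ⟨h6, h7, h8⟩, -⟩ := h (l - e1 - 1) (by omega) (by linarith)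
  refine ⟨e1, h3, ?_⟩
  rcases lt_or_ge e2 (e1 + (p - l)) with h9 | h9
  · exfalso
    have h10 : e2 = f := h4 e2 (by linarith) (by linarith) h8
    omega
  · have h10 : e2 = e1 + (p - l) := by omega
    rwa [← h10]

section

variable {p l a b k : ℕ} [NeZero p] [NeZero l] {z : ZMod p → ZMod (p * l)} {i0 ρ : ZMod p}
  {τ : ZMod (p * l)} {y u : ZMod p → ZMod (p * l) → ℤ} {α I h ξ : ℕ}

/-- the total length of the arcs of a level -/
theorem bound (hSep : StSep) (hT : TW p l a b k z i0 ρ τ y u) (w : ZMod p) :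
    a * b * l + off (z (w - a)) (z w) ≤ p * l := by
  classical
  obtain ⟨hS, -, -⟩ := hSep p l a b k z i0 ρ τ y u hT
  have hP := hT.hE.hP
  have ha := hP.ha
  have hb := hP.hb
  have hab := hP.hab
  have hl0 := hT.hl0
  have hw0 : aB b (w + 1) w := by
    unfold aB
    rw [add_sub_cancel_right, sub_self, ZMod.val_zero]
    omega
  have hact : ∀ i : ℕ, i < a → aR a (w + 1) (w - (i : ZMod p)) := by
    intro i hi
    unfold aR
    rw [add_sub_cancel_right, sub_sub_cancel, ZMod.val_natCast_of_lt (by omega)]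
    exact hi
  have hw1 : aR a (w + 1) w := by
    have h1 := hact 0 (by omega)
    rwa [Nat.cast_zero, sub_zero] at h1
  -- a row with a short arc
  have hlen : ∀ j, b * l ≤ len l a b z (w + 1) j := by
    intro j
    unfold len
    exact Nat.le_add_right _ _
  have hlw : len l a b z (w + 1) w = b * l + off (z (w - a)) (z w) := by
    unfold len
    rw [if_pos hw0]
  -- the arc of `w` is not the whole circle
  have hshort : b * l + off (z (w - a)) (z w) ≤ p * l := by
    by_contra hcon
    have h1 : w - ((1 : ℕ) : ZMod p) = w := by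
      refine hS (w + 1) _ _ (z (w - ((1 : ℕ) : ZMod p))) (hact 1 (by omega)) hw1 ?_ ?_
      · rw [off_self]
        have h2 := hlen (w - ((1 : ℕ) : ZMod p))
        have h3 : 0 < b * l := Nat.mul_pos (by omega) hl0
        omega
      · rw [hlw]
        have h2 := off_lt (z (w - ((1 : ℕ) : ZMod p))) (z w)
        omega
    have h2 : ((1 : ℕ) : ZMod p) = 0 := by linear_combination -h1
    exact hT.nat_ne (by omega) (by omega) h2
  have hblp : b * l ≤ p * l := Nat.mul_le_mul_right l (by omega)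
  let S : ℕ → Finset (ZMod (p * l)) := fun i => Finset.univ.filter fun X =>
    off X (z (w - (i : ZMod p))) < if i = 0 then b * l + off (z (w - a)) (z w) else b * l
  have hcard : ∀ i, (S i).card = if i = 0 then b * l + off (z (w - a)) (z w) else b * l := by
    intro i
    refine card_arc _ ?_
    split_ifs
    · exact hshort
    · exact hblp
  have hmem : ∀ i X, X ∈ S i → off X (z (w - (i : ZMod p))) <
      len l a b z (w + 1) (w - (i : ZMod p)) := by
    intro i X hX
    have h1 := (Finset.mem_filter.1 hX).2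
    by_cases hi : i = 0
    · subst hi
      rw [if_pos rfl] at h1
      rw [Nat.cast_zero, sub_zero] at h1 ⊢
      rw [hlw]
      exact h1
    · rw [if_neg hi] at h1
      exact lt_of_lt_of_le h1 (hlen _)
  have hdis : ((Finset.range a : Finset ℕ) : Set ℕ).PairwiseDisjoint S := by
    intro i hi j hj hij
    rw [Finset.mem_coe, Finset.mem_range] at hi hj
    rw [Function.onFun, Finset.disjoint_left]
    intro X hXi hXj
    have h1 := hS (w + 1) _ _ X (hact i hi) (hact j hj) (hmem i X hXi) (hmem j X hXj)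
    have h2 : ((i : ℕ) : ZMod p) = ((j : ℕ) : ZMod p) := by linear_combination -h1
    rw [ZMod.natCast_eq_natCast_iff', Nat.mod_eq_of_lt (by omega), Nat.mod_eq_of_lt (by omega)] at h2
    exact hij h2
  have h1 : ((Finset.range a).biUnion S).card ≤ p * l := by
    refine (Finset.card_le_univ _).trans ?_
    rw [ZMod.card]
  rw [Finset.card_biUnion hdis, Finset.sum_congr rfl fun i _ => hcard i] at h1
  have h2 : ∀ i, (if i = 0 then b * l + off (z (w - a)) (z w) else b * l) =
      b * l + if i = 0 then off (z (w - a)) (z w) else 0 := by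
    intro i
    split_ifs <;> rfl
  rw [Finset.sum_congr rfl fun i _ => h2 i, Finset.sum_add_distrib, Finset.sum_const,
    Finset.card_range, smul_eq_mul, Finset.sum_ite_eq' (Finset.range a) 0, if_pos
    (Finset.mem_range.2 (by omega)), ← mul_assoc] at h1
  exact h1

/-- the predicate of the windows -/
def E (p l a b k : ℕ) (ρ : ZMod p) (τ : ZMod (p * l)) (x e : ℤ) : Prop :=
  0 < off (((e : ℤ) : ZMod (p * l)) * τ) ((x : ℤ) : ZMod (p * l)) ∧
    off (((e : ℤ) : ZMod (p * l)) * τ) ((x : ℤ) : ZMod (p * l)) < b * l ∧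
    (-(((e : ℤ) : ZMod p) * ρ)).val + b + k ≤ a

/-- a window with exactly one element -/
theorem exu (hT : TW p l a b k z i0 ρ τ y u) {n m : ℕ} (hm : m < p) {j x r : ℤ}
    (hPR : PR ρ τ j x r) (hnm : (m : ℤ) = n + j)
    (hc : open Classical in (Finset.univ.filter fun ν : ZMod p => l ≤ ix i0 ρ ν ∧
      0 < off (z ν) (z (i0 + (m : ZMod p) * ρ)) ∧
      off (z ν) (z (i0 + (m : ZMod p) * ρ)) < b * l ∧
      ((i0 + (n : ZMod p) * ρ) - ν).val + b + k ≤ a).card = 1) :
    ∃ e, ((l : ℤ) - n ≤ e ∧ e < (p : ℤ) - n ∧ E p l a b k ρ τ x e) ∧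
      ∀ e', (l : ℤ) - n ≤ e' → e' < (p : ℤ) - n → E p l a b k ρ τ x e' → e' = e := by
  classical
  have key : ∀ i : ℕ, i < p → (off (z (i0 + (i : ZMod p) * ρ)) (z (i0 + (m : ZMod p) * ρ)) =
      off ((((i : ℤ) - n : ℤ) : ZMod (p * l)) * τ) ((x : ℤ) : ZMod (p * l))) ∧
      ((i0 + (n : ZMod p) * ρ) - (i0 + (i : ZMod p) * ρ) =
        -((((i : ℤ) - n : ℤ) : ZMod p) * ρ)) := by
    intro i hi
    constructor
    · rw [hT.hE.zn hi, hT.hE.zn hm, ← hPR.1]
      unfold off
      congr 1
      have h1 : ((m : ℕ) : ZMod (p * l)) = (n : ZMod (p * l)) + ((j : ℤ) : ZMod (p * l)) := by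
        have h2 := congrArg (fun t : ℤ => (t : ZMod (p * l))) hnm
        push_cast at h2
        exact h2
      rw [h1]
      push_cast
      ring
    · push_cast
      ring
  have hix : ∀ i : ℕ, i < p → ix i0 ρ (i0 + (i : ZMod p) * ρ) = i := fun i hi => hT.ix_at hi
  obtain ⟨ν, hν⟩ := Finset.card_eq_one.1 hc
  have hν1 : ν ∈ ({ν} : Finset (ZMod p)) := Finset.mem_singleton_self ν
  rw [← hν, Finset.mem_filter] at hν1
  obtain ⟨-, h1, h2, h3, h4⟩ := hν1
  have hiν := hT.ix_eq ν
  have hi := TW.ix_lt i0 ρ ν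
  generalize hgi : ix i0 ρ ν = i at h1 hiν hi
  subst hiν
  obtain ⟨k1, k2⟩ := key i hi
  refine ⟨(i : ℤ) - n, ⟨by omega, by omega, ?_⟩, ?_⟩
  · unfold E
    rw [← k1, ← k2]
    exact ⟨h2, h3, h4⟩
  · intro e' h5 h6 h7
    obtain ⟨i', hi'⟩ : ∃ i' : ℕ, (i' : ℤ) = e' + n := ⟨(e' + n).toNat, by omega⟩
    have hi'p : i' < p := by omega
    obtain ⟨k3, k4⟩ := key i' hi'p
    have h8 : e' = (i' : ℤ) - n := by omega
    rw [h8] at h7
    unfold E at h7
    rw [← k3, ← k4] at h7
    have h9 : i0 + (i' : ZMod p) * ρ ∈ ({i0 + (i : ZMod p) * ρ} : Finset (ZMod p)) := by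
      rw [← hν, Finset.mem_filter]
      refine ⟨Finset.mem_univ _, ?_, h7⟩
      rw [hix i' hi'p]
      omega
    rw [Finset.mem_singleton] at h9
    have h10 := congrArg (ix i0 ρ) h9
    rw [hix i' hi'p, hix i hi] at h10
    omega

/-- two elements at distance `p - l` -/
theorem not_two (hT : TW p l a b k z i0 ρ τ y u) (hV : VD p l a b z i0 ρ τ α I h ξ) {x e : ℤ}
    (h1 : E p l a b k ρ τ x e) (h2 : E p l a b k ρ τ x (e + (p - l))) : False := by
  have hv2 := hV.v2
  have hξ := hV.ξv
  have hξ0 := hV.ξ0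
  have hl0 := hT.hl0
  have hb := hT.hE.hP.hb
  have hI := hV.I1
  have hbl0 : 0 < b * l := Nat.mul_pos (by omega) hl0
  obtain ⟨h3, h4, -⟩ := h1
  obtain ⟨-, h5, -⟩ := h2
  have hd := off_spec (((e : ℤ) : ZMod (p * l)) * τ) ((x : ℤ) : ZMod (p * l))
  generalize off (((e : ℤ) : ZMod (p * l)) * τ) ((x : ℤ) : ZMod (p * l)) = d at h3 h4 hd
  have h2bl : 2 * b * l = b * l + b * l := by ring
  rw [h2bl] at hv2
  obtain ⟨n, hn⟩ : ∃ n : ℕ, n + (p * I + b * l) = p * l + d :=
    ⟨p * l + d - (p * I + b * l), by omega⟩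
  have hpI : 0 < p * I := Nat.mul_pos (by have := hT.p3; omega) (by omega)
  have hnlt : n < p * l := by omega
  have h6 : ((x : ℤ) : ZMod (p * l)) =
      ((e + (p - l) : ℤ) : ZMod (p * l)) * τ + ((n : ℕ) : ZMod (p * l)) := by
    have h7 := congrArg (fun t : ℕ => (t : ZMod (p * l))) hn
    have h8 := hV.pτ
    have h9 := hT.hE.hlt
    have h10 : ((p : ZMod (p * l)) * (l : ZMod (p * l))) = 0 := by
      rw [← Nat.cast_mul, ZMod.natCast_self]
    push_cast at h7 h8 ⊢
    rw [← hd]
    linear_combination -h7 - h8 + h9 - h10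
  rw [h6, off_nat _ hnlt] at h5
  omega

end

end ST2aux

open ST2aux in
theorem st2 : StLT → StSep → StER → StST2 := by
  intro hLT hSep hER p l a b k _ _ z i0 ρ τ y u α I h ξ hT hV hαl j x r hPR hj1 hj2 hr0 hr1
    hx1 hx2 hx3 hx4
  classical
  by_contra hcon
  have hxv : x ≤ -(α * I + h * l : ℤ) := not_lt.1 hcon
  have hlt := hLT p l a b k z i0 ρ τ y u hT
  have hP := hT.hE.hP
  have ha := hP.ha
  have hb := hP.hb
  have hab := hP.hab
  have hl0 := hT.hl0
  have hlp := hT.hE.hlp
  have hbl0 : 0 < b * l := Nat.mul_pos (by omega) hl0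
  -- the windows
  have hwin : ∀ n : ℤ, max (α : ℤ) (-j) ≤ n → n ≤ max (α : ℤ) (-j) + ((p : ℤ) - l) →
      ∃ e, ((l : ℤ) - n ≤ e ∧ e < (p : ℤ) - n ∧ E p l a b k ρ τ x e) ∧
      ∀ e', (l : ℤ) - n ≤ e' → e' < (p : ℤ) - n → E p l a b k ρ τ x e' → e' = e := by
    intro n' hn1 hn2
    obtain ⟨n, rfl⟩ : ∃ n : ℕ, (n : ℤ) = n' := ⟨n'.toNat, by omega⟩
    obtain ⟨m, hm⟩ : ∃ m : ℕ, (m : ℤ) = n + j := ⟨(n + j : ℤ).toNat, by omega⟩
    have hnp : n < p := by omega
    have hmp : m < p := by omega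
    refine exu hT hmp hPR hm ?_
    -- the rows
    obtain ⟨w, hw⟩ : ∃ w, w = i0 + (n : ZMod p) * ρ := ⟨_, rfl⟩
    obtain ⟨g, hg⟩ : ∃ g, g = i0 + (m : ZMod p) * ρ := ⟨_, rfl⟩
    rw [← hw, ← hg]
    have hixw : α ≤ ix i0 ρ w := by rw [hw, hT.ix_at hnp]; omega
    have hjump := hV.xv w hixw
    obtain ⟨v, hv⟩ : ∃ v, v = α * I + h * l := ⟨_, rfl⟩
    have hvZ : (v : ℤ) = α * I + h * l := by rw [hv]; push_cast; rfl
    rw [← hv] at hjump
    rw [← hvZ] at hxv hx1
    have hbd := bound hSep hT w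
    rw [hjump] at hbd
    have hmn : ((m : ℕ) : ZMod (p * l)) = (n : ZMod (p * l)) + ((j : ℤ) : ZMod (p * l)) := by
      have h2 := congrArg (fun t : ℤ => (t : ZMod (p * l))) hm
      push_cast at h2
      exact h2
    have hmn' : ((m : ℕ) : ZMod p) = (n : ZMod p) + ((j : ℤ) : ZMod p) := by
      have h2 := congrArg (fun t : ℤ => (t : ZMod p)) hm
      push_cast at h2
      exact h2
    have hzgw : z g = z w + ((x : ℤ) : ZMod (p * l)) := by
      rw [hg, hw, hT.hE.zn hmp, hT.hE.zn hnp, ← hPR.1, hmn]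
      ring
    have hzw : z w = z (w - a) + ((v : ℕ) : ZMod (p * l)) := by
      have h1 := off_spec (z (w - a)) (z w)
      rw [hjump] at h1
      exact h1.symm
    obtain ⟨R, hR⟩ : ∃ R : ℕ, (R : ℤ) = r := ⟨r.toNat, by omega⟩
    have hgw : g = w + ((R : ℕ) : ZMod p) := by
      have h1 := hPR.2
      rw [← hR] at h1
      push_cast at h1
      rw [hg, hw, hmn']
      linear_combination h1
    -- products
    have h3 : a * l + b * l + l ≤ p * l := by
      have h4 : (a + b + 1) * l ≤ p * l := Nat.mul_le_mul_right l (by omega)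
      linarith [add_mul (a + b) 1 l, add_mul a b l, one_mul l]
    have h2abl : 2 * (a * l) ≤ a * b * l := by
      have h5 : (2 * a) * l ≤ (a * b) * l := Nat.mul_le_mul_right l (by
        rw [mul_comm 2 a]; exact Nat.mul_le_mul_left a hb)
      linarith [mul_assoc 2 a l]
    have hal0 : 0 < a * l := Nat.mul_pos (by omega) hl0
    -- the second coordinate
    have hσ0 : 0 < x + v + l * r + a * l := by linarith
    have hσ1 : x + v + l * r + a * l < a * l + v := by linarith
    obtain ⟨σ, hσ⟩ : ∃ σ : ℕ, (σ : ℤ) = x + v + l * r + a * l :=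
      ⟨_, Int.toNat_of_nonneg hσ0.le⟩
    have hσ' : ((σ : ℕ) : ZMod (p * l)) = ((x : ℤ) : ZMod (p * l)) + (v : ZMod (p * l)) +
        (l : ZMod (p * l)) * ((R : ℕ) : ZMod (p * l)) + (a : ZMod (p * l)) * (l : ZMod (p * l)) := by
      have h2 := congrArg (fun t : ℤ => (t : ZMod (p * l))) hσ
      rw [← hR] at h2
      push_cast at h2
      exact h2
    have hσv : σ < a * l + v := by
      have h8 : (σ : ℤ) < ((a * l + v : ℕ) : ℤ) := by push_cast; linarith
      exact_mod_cast h8
    have hσ2 : 0 < σ := by omega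
    have hsc : sc l z g = sc l z (w - a) + ((σ : ℕ) : ZMod (p * l)) := by
      have h5 : g = (w - a) + ((R + a : ℕ) : ZMod p) := by
        rw [hgw]; push_cast; ring
      unfold sc
      rw [hzgw, hzw, hσ']
      conv_lhs => rw [h5]
      rw [e_add, e_natCast]
      push_cast
      ring
    have hoff : off (sc l z (w - a)) (sc l z g) = σ := by
      rw [hsc, off_nat]
      omega
    -- `x ≠ - v`
    have hne : x ≠ -(v : ℤ) := by
      intro h5
      have h6 : z g = z (w - a) := by
        rw [hzgw, hzw, h5]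
        push_cast
        ring
      have h7 : g = w - a := hT.zinj h6
      rw [h7, off_self] at hoff
      omega
    have her := hER p l a b k z i0 ρ τ y u hT w g (by rw [hoff]; exact hσ2)
      (by rw [hoff, hjump]; exact hσv)
    have h1 : ¬ off (z (w - a)) (z g) < off (z (w - a)) (z w) := by
      have hxlt : x + v < 0 := by
        rcases lt_or_eq_of_le hxv with h12 | h12
        · linarith
        · exact absurd h12 hne
      obtain ⟨c, hc⟩ : ∃ c : ℕ, (c : ℤ) = p * l + x + v := ⟨_, Int.toNat_of_nonneg (by linarith)⟩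
      have hc' : ((c : ℕ) : ZMod (p * l)) = (p : ZMod (p * l)) * (l : ZMod (p * l)) +
          ((x : ℤ) : ZMod (p * l)) + (v : ZMod (p * l)) := by
        have h2 := congrArg (fun t : ℤ => (t : ZMod (p * l))) hc
        push_cast at h2
        exact h2
      have h10 : ((p : ZMod (p * l)) * (l : ZMod (p * l))) = 0 := by
        rw [← Nat.cast_mul, ZMod.natCast_self]
      have h6 : z g = z (w - a) + ((c : ℕ) : ZMod (p * l)) := by
        rw [hzgw, hzw, hc', h10]
        ring
      have h11 : c < p * l := by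
        have h12 : (c : ℤ) < ((p * l : ℕ) : ℤ) := by push_cast; linarith
        exact_mod_cast h12
      rw [hjump, h6, off_nat _ h11]
      intro h13
      have h14 : (c : ℤ) < v := by exact_mod_cast h13
      linarith
    have h2 : ¬ (w - g).val < a := by
      have h5 : w - g = (((p - R : ℕ)) : ZMod p) := by
        rw [Nat.cast_sub (by omega), ZMod.natCast_self, hgw]
        ring
      rw [h5, ZMod.val_natCast_of_lt (by omega)]
      omega
    rw [if_neg h1, if_neg h2, zero_add, zero_add] at her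
    exact her
  obtain ⟨e, he1, he2⟩ := two_of_windows (by omega) hwin
  exact not_two hT hV he1 he2

end Helper12.TX
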