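import Pool.Agent.Helper12.TX.StA

set_option autoImplicit false
set_option linter.unusedSectionVars false

/-!
# Project TX: module STRIP (the strips)
-/

namespace Helper12.TX

open Helper11.N1 Helper55.KE Helper73.TM

namespace STRIPaux

open Classical in
theorem mpos {p q : ℕ} [NeZero p] [NeZero q] : 0 < p * q :=
  Nat.mul_pos (Nat.pos_of_ne_zero (NeZero.ne p)) (Nat.pos_of_ne_zero (NeZero.ne q))

/-- the arc `A j` read from its last point -/
theorem A_iff {p q a : ℕ} [NeZero p] [NeZero q] (z : ZMod p → ZMod (p * q)) (j : ZMod p)
    (x : ZMod (p * q)) :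
    A q a z j x ↔ ∃ k : ℕ, k < off (z (j - a)) (z j) ∧ x = z j - (k : ZMod (p * q)) := by
  have hM : off (z (j - a)) (z j) < p * q := off_lt _ _
  have hP := off_spec (z (j - a)) (z j)
  unfold A
  constructor
  · intro h
    refine ⟨off (z (j - a)) (z j) - 1 - off (z (j - a) + 1) x, by omega, ?_⟩
    have h2 := off_spec (z (j - a) + 1) x
    have h3 : ((off (z (j - a)) (z j) - 1 - off (z (j - a) + 1) x : ℕ) : ZMod (p * q)) =
        (off (z (j - a)) (z j) : ZMod (p * q)) - 1 - (off (z (j - a) + 1) x : ZMod (p * q)) := by
      rw [Nat.cast_sub (by omega), Nat.cast_sub (by omega), Nat.cast_one]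
    rw [h3]
    calc x = z (j - a) + 1 + (off (z (j - a) + 1) x : ZMod (p * q)) := h2.symm
      _ = (z (j - a) + (off (z (j - a)) (z j) : ZMod (p * q))) -
          ((off (z (j - a)) (z j) : ZMod (p * q)) - 1 -
            (off (z (j - a) + 1) x : ZMod (p * q))) := by ring
      _ = _ := by rw [hP]
  · rintro ⟨k, hk, hx⟩
    have h3 : ((off (z (j - a)) (z j) - 1 - k : ℕ) : ZMod (p * q)) =
        (off (z (j - a)) (z j) : ZMod (p * q)) - 1 - (k : ZMod (p * q)) := by
      rw [Nat.cast_sub (by omega), Nat.cast_sub (by omega), Nat.cast_one]
    have h4 : x = (z (j - a) + 1) + ((off (z (j - a)) (z j) - 1 - k : ℕ) : ZMod (p * q)) := by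
      rw [h3, hx]
      calc z j - (k : ZMod (p * q)) = (z (j - a) + (off (z (j - a)) (z j) : ZMod (p * q))) -
            (k : ZMod (p * q)) := by rw [hP]
        _ = _ := by ring
    rw [h4, off_nat _ (by omega)]
    omega

section

variable {p l a b k : ℕ} [NeZero p] [NeZero l] {z : ZMod p → ZMod (p * l)} {i0 ρ : ZMod p}
  {τ : ZMod (p * l)} {y u : ZMod p → ZMod (p * l) → ℤ}

/-- the strip at all its levels -/
theorem climb (hUB : StUB) (h : TW p l a b k z i0 ρ τ y u)
    (j : ZMod p) (h0 : ∀ S, A l a z j (S - e p l j) → u (j + 1) S = 1) : UU l a b z u j := by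
  have hp := h.hE.hP
  have hab := hp.hab
  have ha := hp.ha
  have hb := hp.hb
  have hl0 := h.hl0
  obtain ⟨uB, uT, uC⟩ := hUB p l a b k z i0 ρ τ y u h
  have hval : ∀ n : ℕ, n < p → ((n : ℕ) : ZMod p).val = n := fun n hn =>
    ZMod.val_cast_of_lt hn
  have key : ∀ n : ℕ, n < b → ∀ S, A l a z j (S - e p l j) →
      u (j + 1 + (n : ZMod p)) S = 1 := by
    intro n
    induction n with
    | zero =>
      intro _ S hS
      rw [Nat.cast_zero, add_zero]
      exact h0 S hS
    | succ n ih =>
      intro hn
      have ih' := ih (by omega)
      set W : ZMod p := j + 1 + (n : ZMod p) with hWdef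
      have hW1 : j + 1 + ((n + 1 : ℕ) : ZMod p) = W + 1 := by
        rw [hWdef]; push_cast; ring
      rw [hW1]
      have down : ∀ k : ℕ, k < off (z (j - a)) (z j) →
          u (W + 1) (sc l z j - (k : ZMod (p * l))) = 1 := by
        intro k
        induction k with
        | zero =>
          intro _
          rw [Nat.cast_zero, sub_zero]
          refine (uB (W + 1) j ?_).1
          unfold aB
          have h1 : W + 1 - 1 - j = ((n + 1 : ℕ) : ZMod p) := by
            rw [hWdef]; push_cast; ring
          rw [h1, hval _ (by omega)]
          exact hn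
        | succ k ihk =>
          intro hk
          have ihk' := ihk (by omega)
          set S : ZMod (p * l) := sc l z j - ((k + 1 : ℕ) : ZMod (p * l)) with hSdef
          have hS1 : sc l z j - (k : ZMod (p * l)) = S + 1 := by
            rw [hSdef]; push_cast; ring
          rw [hS1] at ihk'
          have hAS : A l a z j (S - e p l j) := by
            rw [A_iff]
            refine ⟨k + 1, hk, ?_⟩
            rw [hSdef]
            unfold sc
            ring
          have hWS : u W S = 1 := ih' S hAS
          rcases (h.hW (W + 1)).u01 S with h4 | h4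
          · exfalso
            by_cases hBex : ∃ i, aB b (W + 1) i ∧ sc l z i = S
            · obtain ⟨i, hi1, hi2⟩ := hBex
              have h5 := (uB (W + 1) i hi1).1
              rw [hi2, h4] at h5
              exact absurd h5 (by norm_num)
            by_cases hTex : ∃ i, aT a b (W + 1) i ∧ sc l z i + a * l = S
            · obtain ⟨i, hi1, hi2⟩ := hTex
              by_cases hTW : aT a b W i
              · have h5 := (uT W i hTW).1
                rw [hi2, hWS] at h5
                exact absurd h5 (by norm_num)
              have hi0 : W - a - i = 0 := by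
                by_contra hne
                have hne' : (W - a - i).val ≠ 0 := fun h6 => hne ((ZMod.val_eq_zero _).1 h6)
                apply hTW
                unfold aT at hi1 ⊢
                have h6 : W + 1 - (a : ZMod p) - 1 - i = W - a - i := by ring
                rw [h6] at hi1
                have h7 : W - (a : ZMod p) - 1 - i = (((W - a - i).val - 1 : ℕ) : ZMod p) := by
                  rw [Nat.cast_sub (by omega), ZMod.natCast_zmod_val, Nat.cast_one]
                  ring
                rw [h7, hval _ (by have := ZMod.val_lt (W - (a : ZMod p) - i); omega)]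
                omega
              have hWi : W - i = (a : ZMod p) := by
                have h8 : W - i = (W - a - i) + a := by ring
                rw [h8, hi0, zero_add]
              have hWv : (W - i).val = a := by rw [hWi]; exact hval a (by omega)
              have hbox := ((bl p l a b hp z W i).1 (z i)).2 (by
                rw [off_self, hWv, Nat.sub_self, Nat.zero_mul]
                exact ⟨le_refl _, Nat.mul_pos (by omega) hl0, Nat.mul_pos (by omega) hl0⟩)
              have hinn := ((h.hW W).inn i (z i) hbox).2
              have h9 : z i + e p l W = S := by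
                rw [← hi2]
                have h10 : W = i + (a : ZMod p) := by rw [← hWi]; ring
                rw [h10, e_add, e_natCast]
                unfold sc
                push_cast
                ring
              rw [h9, hWS] at hinn
              exact absurd hinn (by norm_num)
            have h5 := uC (W + 1) S (fun i hi1 hi2 => hBex ⟨i, hi1, hi2⟩)
              (fun i hi1 hi2 => hTex ⟨i, hi1, hi2⟩)
            rw [ihk', h4] at h5
            exact absurd h5 (by norm_num)
          · exact h4
      intro S hS
      rw [A_iff] at hS
      obtain ⟨k, hk, hx⟩ := hS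
      have h1 : S = sc l z j - (k : ZMod (p * l)) := by
        have h2 : S = (S - e p l j) + e p l j := by ring
        rw [h2, hx]
        unfold sc
        ring
      rw [h1]
      exact down k hk
  intro W hW S hS
  unfold aB at hW
  have h1 := key (W - 1 - j).val hW S hS
  rw [ZMod.natCast_zmod_val] at h1
  have h2 : j + 1 + (W - 1 - j) = W := by ring
  rw [h2] at h1
  exact h1

end

end STRIPaux

open STRIPaux in
/-- STRIP. -/
theorem strip : StRow → StAL → StUB → StStrip := by
  classical
  intro hRow hAL hUB p l' a b k _ _ z i0 ρ τ y u h j
  have hp := h.hE.hP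
  have hab := hp.hab
  have ha := hp.ha
  have hb := hp.hb
  have hlt := hAL p l' a b k z i0 ρ τ y u h j
  apply climb hUB h j
  intro S hS
  obtain ⟨_, h2, h3, h4⟩ := hRow p l' a b k z i0 ρ τ y u h j
  have h5 := h2 (S - e p l' j)
  rw [sub_add_cancel] at h5
  have hnA : ¬ A l' a z (j - b) (S - e p l' j + b * l') := by
    intro hA
    unfold A at hA hS
    set x := S - e p l' j with hx
    set r := z (j - a) with hr
    have ht1 : z (j - b - a) + 1 = (z (j - a - b) - b * l') + 1 + b * l' := by
      rw [show j - (b : ZMod p) - a = j - a - b by ring]; ring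
    have ht2 : z (j - b - a) = (z (j - a - b) - b * l') + b * l' := by
      rw [show j - (b : ZMod p) - a = j - a - b by ring]; ring
    have hl : z (j - b) = (z (j - b) - b * l') + b * l' := by ring
    rw [ht1, off_translate, ht2, hl, off_translate] at hA
    set t := z (j - a - b) - (b : ZMod (p * l')) * l' with ht
    have hl2 : z (j - b) - (b : ZMod (p * l')) * l' + b * l' - b * l' = z (j - b) - b * l' := by ring
    set l := z (j - b) - (b : ZMod (p * l')) * l' with hldef
    have hM : 0 < p * l' := mpos
    have e1 : off r x = off (r + 1) x + 1 := by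
      have h6 := off_lt r (z j)
      have h7 : x = r + ((off (r + 1) x + 1 : ℕ) : ZMod (p * l')) := by
        have h8 := off_spec (r + 1) x
        calc x = r + 1 + (off (r + 1) x : ZMod (p * l')) := h8.symm
          _ = _ := by push_cast; ring
      have h9 := off_nat r (n := off (r + 1) x + 1) (by omega)
      rw [← h7] at h9
      exact h9
    have hxt : x ≠ t := by
      intro h6
      rw [h6] at e1 hS
      omega
    have e2 := off_add r t x
    have e3 := off_add r t l
    have l1 := off_lt r l
    have l2 := off_lt t x
    have l3 := off_lt t l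
    have l4 := off_lt r t
    have l5 := off_lt (t + 1) x
    have e4 : off t x = off (t + 1) x + 1 := by
      rcases Nat.lt_or_ge (off (t + 1) x + 1) (p * l') with h6 | h6
      · have h7 : x = t + ((off (t + 1) x + 1 : ℕ) : ZMod (p * l')) := by
          have h8 := off_spec (t + 1) x
          calc x = t + 1 + (off (t + 1) x : ZMod (p * l')) := h8.symm
            _ = _ := by push_cast; ring
        have h9 := off_nat t (n := off (t + 1) x + 1) h6
        rw [← h7] at h9
        exact h9
      · omega
    omega
  have hA' : A l' a z j (S - e p l' j) := hS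
  rw [if_neg hnA, if_pos hA'] at h5
  rcases (h.hW j).u01 S with h6 | h6 <;> rcases (h.hW (j + 1)).u01 S with h7 | h7 <;> omega

end Helper12.TX
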