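import Pool.Agent.Helper12.TX.StB

set_option autoImplicit false
set_option linter.unusedSectionVars false

/-!
Project TX, module SUCC: cyclic order of the right sides.
-/

namespace Helper12.TX

open Helper11.N1 Helper55.KE Helper73.TM

namespace SUCCaux

/-- going back along an arc -/
theorem back {M : ℕ} [NeZero M] {x y w : ZMod M} (h : off y w ≤ off x w) :
    off x y + off y w = off x w := by
  have h1 := off_lt x y
  rcases off_add x y w with h2 | h2
  · exact h2
  · omega

/-- an intermediate point -/
theorem mid {M : ℕ} [NeZero M] {x y w : ZMod M} (h : off x y ≤ off x w) :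
    off x y + off y w = off x w := by
  have h1 := off_lt y w
  rcases off_add x y w with h2 | h2
  · exact h2
  · omega

theorem val_pred {p : ℕ} [NeZero p] {x : ZMod p} (hx : x ≠ 0) : (x - 1).val + 1 = x.val := by
  have h0 : x.val ≠ 0 := fun h => hx ((ZMod.val_eq_zero x).1 h)
  have h1 := ZMod.val_lt x
  have h2 : x - 1 = ((x.val - 1 : ℕ) : ZMod p) := by
    rw [Nat.cast_sub (by omega), ZMod.natCast_zmod_val]
    push_cast
    ring
  rw [h2, ZMod.val_natCast_of_lt (by omega)]
  omega

theorem val_nat {p : ℕ} {n : ℕ} (hn : n < p) {x : ZMod p} (hx : x = (n : ZMod p)) :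
    x.val = n := by
  rw [hx, ZMod.val_natCast_of_lt hn]

theorem val_eq {p : ℕ} [NeZero p] {n : ℕ} {x : ZMod p} (hx : x.val = n) : x = (n : ZMod p) := by
  rw [← hx, ZMod.natCast_zmod_val]

section

variable {p l a b k : ℕ} [NeZero p] [NeZero l] {z : ZMod p → ZMod (p * l)} {i0 ρ : ZMod p}
  {τ : ZMod (p * l)} {y u : ZMod p → ZMod (p * l) → ℤ}

/-- the claim -/
def C (l a b k : ℕ) (z : ZMod p → ZMod (p * l)) (W n : ZMod p) : Prop :=
  ∀ g : ZMod p, aR a W g → 0 < off (z n) (z g) → off (z n) (z (nxt a b k W n)) ≤ off (z n) (z g)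

theorem off_pos (h : TW p l a b k z i0 ρ τ y u) {i j : ZMod p} (hij : i ≠ j) :
    0 < off (z i) (z j) := by
  rcases Nat.eq_zero_or_pos (off (z i) (z j)) with h1 | h1
  · exact absurd (h.zinj (off_eq_zero.1 h1)) hij
  · exact h1

/-- active sides of two consecutive levels -/
theorem act_down {W g : ZMod p} (hg : aR a (W + 1) g) (hne : g ≠ W) :
    aR a W g ∧ (W - 1 - g).val + 1 = (W - g).val := by
  unfold aR at hg ⊢
  have e1 : W + 1 - 1 - g = W - g := by ring
  have e2 : W - 1 - g = W - g - 1 := by ring
  rw [e1] at hg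
  have h1 := val_pred (x := W - g) (sub_ne_zero.2 (Ne.symm hne))
  rw [e2]
  exact ⟨by omega, h1⟩

theorem act_up (hap : a < p) {W n : ZMod p} (hn : aR a W n) (hne : n ≠ W - a) :
    aR a (W + 1) n ∧ (W - n).val = (W - 1 - n).val + 1 ∧ (W - 1 - n).val + 1 < a := by
  unfold aR at hn ⊢
  have e1 : W + 1 - 1 - n = W - n := by ring
  rw [e1]
  have h1 : (W - 1 - n).val + 1 ≠ a := by
    intro h2
    apply hne
    have h3 := val_eq (n := (W - 1 - n).val) (x := W - 1 - n) rfl
    have h4 : W - n = (((W - 1 - n).val + 1 : ℕ) : ZMod p) := by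
      push_cast
      rw [ZMod.natCast_zmod_val]
      ring
    rw [h2] at h4
    rw [← h4]
    ring
  have h5 : W - n = (((W - 1 - n).val + 1 : ℕ) : ZMod p) := by
    push_cast
    rw [ZMod.natCast_zmod_val]
    ring
  have h6 := val_nat (n := (W - 1 - n).val + 1) (by omega) h5
  omega

theorem self_act (ha : 0 < a) (W : ZMod p) : aR a (W + 1) W := by
  unfold aR
  have e1 : W + 1 - 1 - W = 0 := by ring
  rw [e1, ZMod.val_zero]
  exact ha

theorem ne_of_act (hap : a < p) {W n : ZMod p} (hn : aR a W n) : n ≠ W := by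
  rintro rfl
  unfold aR at hn
  have h1 : n - 1 - n = ((p - 1 : ℕ) : ZMod p) := by
    rw [Nat.cast_sub (by omega), ZMod.natCast_self]
    push_cast
    ring
  rw [h1, ZMod.val_natCast_of_lt (by omega)] at hn
  omega

/-- fact (J) -/
theorem fJ (h : TW p l a b k z i0 ρ τ y u) (hS : ∀ (W i j : ZMod p) (X : ZMod (p * l)), aR a W i →
    aR a W j → off X (z i) < len l a b z W i → off X (z j) < len l a b z W j → i = j)
    {W g : ZMod p} (hg : aR a (W + 1) g) (hne : g ≠ W) :
    b * l + off (z (W - a)) (z W) ≤ off (z g) (z W) := by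
  by_contra hc
  have ha : 0 < a := by have := h.hE.hP.ha; omega
  have hb : 0 < b := by have := h.hE.hP.hb; omega
  have hl := h.hl0
  have hbl : 0 < b * l := Nat.mul_pos hb hl
  apply hne
  have hB : aB b (W + 1) W := by
    unfold aB
    have e1 : W + 1 - 1 - W = 0 := by ring
    rw [e1, ZMod.val_zero]
    exact hb
  refine hS (W + 1) g W (z g) hg (self_act ha W) ?_ ?_
  · rw [off_self]
    unfold len
    omega
  · unfold len
    rw [if_pos hB]
    omega

/-- the step at a row which stays -/
theorem step1 (h : TW p l a b k z i0 ρ τ y u) (hlt : b + k + 1 ≤ a)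
    (hS : ∀ (W i j : ZMod p) (X : ZMod (p * l)), aR a W i →
      aR a W j → off X (z i) < len l a b z W i → off X (z j) < len l a b z W j → i = j)
    {W n : ZMod p} (hn : aR a W n) (hC : C l a b k z W n) (hne : n ≠ W - a) :
    C l a b k z (W + 1) n := by
  have h2a := h.h2a
  have hap : a < p := by omega
  have hb : 0 < b := by have := h.hE.hP.hb; omega
  have hbl : 0 < b * l := Nat.mul_pos hb h.hl0
  obtain ⟨hn1, hv, hva⟩ := act_up hap hn hne
  have hnW : n ≠ W := ne_of_act hap hn
  have hJn := fJ h hS hn1 hnW
  have hback : off (z n) (z (W - a)) + off (z (W - a)) (z W) = off (z n) (z W) :=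
    back (by omega)
  have hA : aR a W (W - a) := by
    unfold aR
    have e1 : W - 1 - (W - (a : ZMod p)) = ((a - 1 : ℕ) : ZMod p) := by
      rw [Nat.cast_sub (by omega)]
      push_cast
      ring
    rw [val_nat (by omega) e1]
    omega
  intro g hg hg0
  have e1 : W + 1 - 1 - n = W - n := by ring
  by_cases hm : nxt a b k W n = W - a
  · -- (iii)
    have hi : (W - 1 - n).val + (b + k) + 1 = a := by
      unfold nxt at hm
      split_ifs at hm with hc
      · have h3 : W - 1 - n = ((a - 1 - (b + k) : ℕ) : ZMod p) := by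
          rw [Nat.cast_sub (by omega), Nat.cast_sub (by omega)]
          push_cast at hm ⊢
          linear_combination -hm
        have h4 := val_nat (by omega) h3
        omega
      · exfalso
        have h3 : W - 1 - n = ((2 * a - 1 - (b + k) : ℕ) : ZMod p) := by
          rw [Nat.cast_sub (by omega), Nat.cast_sub (by omega)]
          push_cast at hm ⊢
          linear_combination -hm
        have h4 := val_nat (by omega) h3
        unfold aR at hn
        omega
    have hnx : nxt a b k (W + 1) n = W := by
      unfold nxt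
      rw [e1, hv, if_neg (by omega)]
      have h3 := val_eq (n := a - 1 - (b + k)) (x := W - 1 - n) (by omega)
      rw [Nat.cast_sub (by omega), Nat.cast_sub (by omega)] at h3
      push_cast at h3 ⊢
      linear_combination -h3
    rw [hnx]
    by_cases hgW : g = W
    · rw [hgW]
    by_contra hlt2
    push Not at hlt2
    obtain ⟨hg1, -⟩ := act_down hg hgW
    have h5 := hC g hg1 hg0
    rw [hm] at h5
    have hJg := fJ h hS hg hgW
    have h6 := mid (x := z n) (y := z g) (w := z W) hlt2.le
    omega
  · -- (i)
    have hnx : nxt a b k (W + 1) n = nxt a b k W n := by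
      unfold nxt
      rw [e1, hv]
      by_cases hc : (W - 1 - n).val + (b + k) < a
      · rw [if_pos hc]
        rw [if_pos]
        by_contra hc2
        apply hm
        unfold nxt
        rw [if_pos hc]
        have h3 := val_eq (n := a - 1 - (b + k)) (x := W - 1 - n) (by omega)
        rw [Nat.cast_sub (by omega), Nat.cast_sub (by omega)] at h3
        push_cast at h3 ⊢
        linear_combination -h3
      · rw [if_neg hc, if_neg (by omega)]
    rw [hnx]
    by_cases hgW : g = W
    · rw [hgW]
      by_contra hlt2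
      push Not at hlt2
      have h5 := hC (W - a) hA (off_pos h hne)
      omega
    · exact hC g (act_down hg hgW).1 hg0

/-- the step at the row which disappears -/
theorem step2 (h : TW p l a b k z i0 ρ τ y u) (hlt : b + k + 1 ≤ a)
    (hS : ∀ (W i j : ZMod p) (X : ZMod (p * l)), aR a W i →
      aR a W j → off X (z i) < len l a b z W i → off X (z j) < len l a b z W j → i = j)
    {W : ZMod p} (hC : C l a b k z W (W - a)) : C l a b k z (W + 1) W := by
  have h2a := h.h2a
  have hap : a < p := by omega
  have hb : 0 < b := by have := h.hE.hP.hb; omega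
  have hbl : 0 < b * l := Nat.mul_pos hb h.hl0
  have hm : nxt a b k W (W - a) = W - ((b + k : ℕ) : ZMod p) := by
    unfold nxt
    have e1 : W - 1 - (W - (a : ZMod p)) = ((a - 1 : ℕ) : ZMod p) := by
      rw [Nat.cast_sub (by omega)]
      push_cast
      ring
    rw [val_nat (by omega) e1, if_neg (by omega)]
    ring
  have hm' : nxt a b k (W + 1) W = W - ((b + k : ℕ) : ZMod p) := by
    unfold nxt
    have e1 : W + 1 - 1 - W = 0 := by ring
    rw [e1, ZMod.val_zero, if_pos (by omega)]
  intro g hg hg0
  rw [hm']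
  have hgW : g ≠ W := by
    rintro rfl
    rw [off_self] at hg0
    omega
  by_contra hlt2
  push Not at hlt2
  set m : ZMod p := W - ((b + k : ℕ) : ZMod p) with hmd
  have hmW : m ≠ W := by
    intro h1
    have h2 : ((b + k : ℕ) : ZMod p) = 0 := by
      rw [hmd] at h1
      linear_combination -h1
    exact h.nat_ne (by omega) (by omega) h2
  have hmact : aR a (W + 1) m := by
    unfold aR
    have e1 : W + 1 - 1 - m = ((b + k : ℕ) : ZMod p) := by
      rw [hmd]
      ring
    rw [e1, ZMod.val_natCast_of_lt (by omega)]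
    omega
  have hJm := fJ h hS hmact hmW
  have hzmW : z m ≠ z W := fun h1 => hmW (h.zinj h1)
  have hsym := off_symm hzmW
  have h3 : off (z (W - a)) (z W) + off (z W) (z m) = off (z (W - a)) (z m) :=
    off_add_of_lt (by omega)
  have h4 : off (z (W - a)) (z W) + off (z W) (z g) = off (z (W - a)) (z g) :=
    off_add_of_lt (by omega)
  have h5 := hC g (act_down hg hgW).1 (by omega)
  rw [hm] at h5
  omega

/-- the start -/
theorem start (h : TW p l a b k z i0 ρ τ y u) (hlt : b + k + 1 ≤ a)
    (hS : ∀ (W i j : ZMod p) (X : ZMod (p * l)), aR a W i →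
      aR a W j → off X (z i) < len l a b z W i → off X (z j) < len l a b z W j → i = j) :
    C l a b k z (i0 + (l : ZMod p) * ρ + 1) (i0 + (l : ZMod p) * ρ) := by
  have h2a := h.h2a
  have hap : a < p := by omega
  have hb : 0 < b := by have := h.hE.hP.hb; omega
  have hbl : 0 < b * l := Nat.mul_pos hb h.hl0
  set n : ZMod p := i0 + (l : ZMod p) * ρ with hn
  have hix : ix i0 ρ n = l := by
    rw [hn]
    exact h.ix_at h.hE.hlp
  have ht := h.tied (j := n) (by omega)
  set m : ZMod p := n - ((b + k : ℕ) : ZMod p) with hm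
  have hnx : nxt a b k (n + 1) n = m := by
    unfold nxt
    have e1 : n + 1 - 1 - n = 0 := by ring
    rw [e1, ZMod.val_zero, if_pos (by omega)]
  have hblp : b * l < p * l := Nat.mul_lt_mul_of_pos_right (by omega) h.hl0
  have hzm : z m = z n + ((b * l : ℕ) : ZMod (p * l)) := by
    push_cast
    linear_combination ht
  have hoff : off (z n) (z m) = b * l := by
    rw [hzm, off_nat _ hblp]
  intro g hg hg0
  rw [hnx]
  by_contra hlt2
  push Not at hlt2
  have h1 := mid (x := z n) (y := z g) (w := z m) hlt2.le
  have hmact : aR a (n + 1) m := by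
    unfold aR
    have e1 : n + 1 - 1 - m = ((b + k : ℕ) : ZMod p) := by
      rw [hm]
      ring
    rw [e1, ZMod.val_natCast_of_lt (by omega)]
    omega
  have hgm : g = m := by
    refine hS (n + 1) g m (z g) hg hmact ?_ ?_
    · rw [off_self]
      unfold len
      omega
    · unfold len
      omega
  rw [hgm] at hlt2
  omega

/-- a block of `a` levels -/
theorem block (h : TW p l a b k z i0 ρ τ y u) (hlt : b + k + 1 ≤ a)
    (hS : ∀ (W i j : ZMod p) (X : ZMod (p * l)), aR a W i →
      aR a W j → off X (z i) < len l a b z W i → off X (z j) < len l a b z W j → i = j)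
    {n : ZMod p} (hC : C l a b k z (n + 1) n) :
    ∀ i : ℕ, i < a → C l a b k z (n + 1 + (i : ZMod p)) n := by
  have h2a := h.h2a
  have hap : a < p := by omega
  intro i
  induction i with
  | zero =>
    intro _
    simpa using hC
  | succ i ih =>
    intro hi
    have h1 := ih (by omega)
    have e1 : n + 1 + ((i + 1 : ℕ) : ZMod p) = n + 1 + (i : ZMod p) + 1 := by
      push_cast
      ring
    rw [e1]
    have e2 : n + 1 + (i : ZMod p) - 1 - n = ((i : ℕ) : ZMod p) := by ring
    refine step1 h hlt hS ?_ h1 ?_
    · unfold aR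
      rw [e2, ZMod.val_natCast_of_lt (by omega)]
      omega
    · intro h2
      have h3 : (((a - (i + 1) : ℕ)) : ZMod p) = 0 := by
        rw [Nat.cast_sub (by omega)]
        push_cast
        linear_combination h2
      exact h.nat_ne (by omega) (by omega) h3

theorem all (h : TW p l a b k z i0 ρ τ y u) (hlt : b + k + 1 ≤ a)
    (hS : ∀ (W i j : ZMod p) (X : ZMod (p * l)), aR a W i →
      aR a W j → off X (z i) < len l a b z W i → off X (z j) < len l a b z W j → i = j)
    (n : ZMod p) : C l a b k z (n + 1) n := by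
  have h2a := h.h2a
  have hap : a < p := by omega
  set n0 : ZMod p := i0 + (l : ZMod p) * ρ with hn0
  have key : ∀ t : ℕ, C l a b k z (n0 + (t : ZMod p) * a + 1) (n0 + (t : ZMod p) * a) := by
    intro t
    induction t with
    | zero => simpa using start h hlt hS
    | succ t ih =>
      have h1 := block h hlt hS ih (a - 1) (by omega)
      have e1 : n0 + (t : ZMod p) * a + 1 + ((a - 1 : ℕ) : ZMod p) =
          n0 + ((t + 1 : ℕ) : ZMod p) * a := by
        rw [Nat.cast_sub (by omega)]
        push_cast
        ring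
      rw [e1] at h1
      have e2 : n0 + (t : ZMod p) * a = n0 + ((t + 1 : ℕ) : ZMod p) * a - a := by
        push_cast
        ring
      rw [e2] at h1
      exact step2 h hlt hS h1
  have hu : IsUnit ((a : ℕ) : ZMod p) := (ZMod.isUnit_iff_coprime a p).2 h.hap
  have h1 := key (((n - n0) * ((a : ZMod p))⁻¹).val)
  have e1 : n0 + ((((n - n0) * ((a : ZMod p))⁻¹).val : ℕ) : ZMod p) * a = n := by
    rw [ZMod.natCast_zmod_val, mul_assoc, ZMod.inv_mul_of_unit _ hu]
    ring
  rw [e1] at h1
  exact h1

end

end SUCCaux

open SUCCaux in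
theorem succ : StLT → StSep → StSucc := by
  intro hLT hSep p l a b k _ _ z i0 ρ τ y u h W n g hn hg hg0
  have hlt := hLT p l a b k z i0 ρ τ y u h
  obtain ⟨hS, -, -⟩ := hSep p l a b k z i0 ρ τ y u h
  have h1 := block h hlt hS (all h hlt hS n) (W - 1 - n).val hn
  have e1 : n + 1 + (((W - 1 - n).val : ℕ) : ZMod p) = W := by
    rw [ZMod.natCast_zmod_val]
    ring
  rw [e1] at h1
  exact h1 g hg hg0

end Helper12.TX
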