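import Pool.Agent.Helper12.TX.StA

set_option autoImplicit false
set_option linter.unusedSectionVars false

/-!
# Project TX: module SUM (the total of `y` on a line)
-/

namespace Helper12.TX

open Helper11.N1 Helper55.KE Helper73.TM

namespace SUMaux

/-- the number of positions in an arc -/
theorem card_arc {M : ℕ} [NeZero M] (x0 c : ZMod M) {N : ℕ} (hN : N ≤ M) :
    (Finset.univ.filter fun S : ZMod M => off x0 (S - c) < N).card = N := by
  conv_rhs => rw [← Finset.card_range N]
  refine Finset.card_nbij' (fun S => off x0 (S - c)) (fun n => x0 + (n : ZMod M) + c) ?_ ?_ ?_ ?_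
  · intro S hS
    rw [Finset.mem_coe, Finset.mem_filter] at hS
    exact Finset.mem_coe.2 (Finset.mem_range.2 hS.2)
  · intro n hn
    rw [Finset.mem_coe, Finset.mem_range] at hn
    rw [Finset.mem_coe, Finset.mem_filter]
    refine ⟨Finset.mem_univ _, ?_⟩
    rw [add_sub_cancel_right, off_nat _ (lt_of_lt_of_le hn hN)]
    exact hn
  · intro S _
    show x0 + ((off x0 (S - c) : ℕ) : ZMod M) + c = S
    rw [off_spec, sub_add_cancel]
  · intro n hn
    rw [Finset.mem_coe, Finset.mem_range] at hn
    show off x0 (x0 + (n : ZMod M) + c - c) = n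
    rw [add_sub_cancel_right, off_nat _ (lt_of_lt_of_le hn hN)]

section

variable {p l a b k : ℕ} [NeZero p] [NeZero l] {z : ZMod p → ZMod (p * l)} {i0 ρ : ZMod p}
  {τ : ZMod (p * l)} {y u : ZMod p → ZMod (p * l) → ℤ}

theorem nn_line (h : TW p l a b k z i0 ρ τ y u) (W : ZMod p) (X : ZMod (p * l)) :
    NN l a b z X (X + e p l W) = y W X - u W (X + e p l W) := by
  classical
  have e1 : NN l a b z X (X + e p l W) =
      (if ∃ j, box l a b z j X (X + e p l W) then 1 else 0) := by
    unfold NN
    rw [sum_ind]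
    · intro i j hi hj
      exact h.hD i j _ _ hi hj
  rw [e1]
  by_cases hex : ∃ j, box l a b z j X (X + e p l W)
  · obtain ⟨j, hj⟩ := hex
    obtain ⟨h1, h2⟩ := (h.hW W).inn j X hj
    rw [if_pos ⟨j, hj⟩, h1, h2, sub_zero]
  · rw [if_neg hex, (h.hW W).out X (fun j hj => hex ⟨j, hj⟩), sub_self]

open Classical in
theorem sum_u (hGH : StGH) (h : TW p l a b k z i0 ρ τ y u) (W : ZMod p) :
    ∑ S, u W S = ∑ j : ZMod p, if aB b W j then (off (z (j - a)) (z j) : ℤ) else 0 := by
  have e1 : ∀ S, u W S = ∑ j : ZMod p,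
      if aB b W j ∧ A l a z j (S - e p l j) then (1 : ℤ) else 0 := by
    intro S
    rw [hGH p l a b k z i0 ρ τ y u h W S, Finset.card_filter]
    push_cast
    rfl
  rw [Finset.sum_congr rfl fun S _ => e1 S, Finset.sum_comm]
  refine Finset.sum_congr rfl fun j _ => ?_
  by_cases hj : aB b W j
  · rw [if_pos hj]
    have e2 : ∀ S : ZMod (p * l), (if aB b W j ∧ A l a z j (S - e p l j) then (1 : ℤ) else 0) =
        if off (z (j - a) + 1) (S - e p l j) < off (z (j - a)) (z j) then 1 else 0 := by
      intro S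
      by_cases hA : off (z (j - a) + 1) (S - e p l j) < off (z (j - a)) (z j)
      · rw [if_pos hA, if_pos ⟨hj, hA⟩]
      · rw [if_neg hA, if_neg (fun h1 => hA h1.2)]
    rw [Finset.sum_congr rfl fun S _ => e2 S, Finset.sum_boole, card_arc _ _ (off_lt _ _).le]
  · rw [if_neg hj]
    refine Finset.sum_eq_zero fun S _ => ?_
    rw [if_neg (fun h1 => hj h1.1)]

end

end SUMaux

open SUMaux

theorem sum : Helper11.N1.StCnt → StGH → StSum := by
  intro hC hGH p l a b k _ _ z i0 ρ τ y u h W
  classical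
  have hy1 : ∀ W X, y W X ≤ 1 := by
    intro W X
    rcases (h.hW W).y01 X with h1 | h1 <;> rw [h1]
    norm_num
  have main : ∀ W, ∑ X, y W X = (a * b * l : ℕ) +
      ∑ j : ZMod p, if aB b W j then (off (z (j - a)) (z j) : ℤ) else 0 := by
    intro W
    have h1 := hC p l a b h.hE.hP z W
    have h2 : ∑ X : ZMod (p * l), u W (X + e p l W) = ∑ S, u W S :=
      Equiv.sum_comp (Equiv.addRight (e p l W)) (fun S => u W S)
    rw [Finset.sum_congr rfl fun X _ => nn_line h W X, Finset.sum_sub_distrib, h2,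
      sum_u hGH h W] at h1
    linarith
  have bd : ∀ W, ((a * b * l : ℕ) : ℤ) +
      ∑ j : ZMod p, (if aB b W j then (off (z (j - a)) (z j) : ℤ) else 0) ≤ (p * l : ℕ) := by
    intro W
    rw [← main W]
    calc ∑ X, y W X ≤ ∑ _X : ZMod (p * l), (1 : ℤ) := Finset.sum_le_sum fun X _ => hy1 W X
      _ = (p * l : ℕ) := by
        rw [Finset.sum_const, Finset.card_univ, ZMod.card, nsmul_eq_mul, mul_one]
  refine ⟨main W, bd W, ?_⟩
  intro j
  have h1 := bd (j + 1)
  have hb : 0 < b := by have := h.hE.hP.hb; omega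
  have hj : aB b (j + 1) j := by
    unfold aB
    rw [add_sub_cancel_right, sub_self, ZMod.val_zero]
    exact hb
  have h2 : (off (z (j - a)) (z j) : ℤ) ≤
      ∑ i : ZMod p, (if aB b (j + 1) i then (off (z (i - a)) (z i) : ℤ) else 0) := by
    have h3 := Finset.single_le_sum (s := Finset.univ)
      (f := fun i : ZMod p => if aB b (j + 1) i then (off (z (i - a)) (z i) : ℤ) else 0)
      (fun i _ => by
        split_ifs
        · exact Int.natCast_nonneg _
        · exact le_rfl) (Finset.mem_univ j)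
    rw [if_pos hj] at h3
    exact h3
  have h4 : ((a * b * l + off (z (j - a)) (z j) : ℕ) : ℤ) ≤ (p * l : ℕ) := by
    push_cast at h1 h2 ⊢
    linarith
  exact_mod_cast h4

end Helper12.TX
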