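import Pool.Agent.Helper12.TX.StA

set_option autoImplicit false
set_option linter.unusedSectionVars false

/-!
# Project TX: module UB (horizontal letters without coincidences)
-/

namespace Helper12.TX

open Helper11.N1 Helper55.KE Helper73.TM

namespace UBaux

section

variable {p l a b k : ℕ} [NeZero p] [NeZero l] {z : ZMod p → ZMod (p * l)} {i0 ρ : ZMod p}
  {τ : ZMod (p * l)} {y u : ZMod p → ZMod (p * l) → ℤ}

/-- the distance after one step -/
theorem off_succ {M : ℕ} [NeZero M] {x w : ZMod M} (h : x ≠ w) : off (x + 1) w + 1 = off x w := by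
  have h0 : off x w ≠ 0 := fun h1 => h (off_eq_zero.1 h1)
  have h1 := off_lt x w
  have h2 : off (x + 1) w = off x w - 1 := by
    have h3 := off_spec x w
    have h4 : x + 1 + ((off x w - 1 : ℕ) : ZMod M) = w := by
      rw [Nat.cast_sub (by omega)]
      push_cast
      linear_combination h3
    have h5 := off_nat (x + 1) (n := off x w - 1) (by omega)
    rw [h4] at h5
    exact h5
  omega

/-- `y` vanishes at the right side of `j` at level `j` -/
theorem yzero (hRow : StRow) (hAL : StAL) (h : TW p l a b k z i0 ρ τ y u) (j : ZMod p) :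
    y j (z j) = 0 := by
  classical
  obtain ⟨h1, -, h3, h4⟩ := hRow p l a b k z i0 ρ τ y u h j
  have h5 := hAL p l a b k z i0 ρ τ y u h j
  have hk := h.hk
  have hka := h.hka
  have h2a := h.h2a
  have hb := h.hE.hP.hb
  set r := z (j - a) with hr
  set P := z j with hP
  set t := z (j - a - b) - b * l with ht
  set L := z (j - b) - b * l with hL
  have hrP : r ≠ P := by
    intro h6
    have h7 := h.zinj h6
    have h8 : ((a : ℕ) : ZMod p) = 0 := by linear_combination -h7
    exact h.nat_ne (n := a) (by omega) (by omega) h8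
  have hπ : off r P ≠ 0 := fun h6 => hrP (off_eq_zero.1 h6)
  have htP : t ≠ P := by
    intro h6
    rw [h6] at h5
    omega
  have hA1 : A l a z j (z j) := by
    unfold A
    rw [← hr, ← hP]
    have := off_succ hrP
    omega
  have hA2 : ¬ A l a z (j - b) (z j + b * l) := by
    unfold A
    have e0 : j - (b : ZMod p) - (a : ZMod p) = j - a - b := by ring
    have e1 : off (z (j - b - a) + 1) (z j + (b : ZMod (p * l)) * (l : ZMod (p * l))) =
        off (t + 1) P := by
      have e3 := off_translate_sub (z (j - b - a) + 1) (z j + (b : ZMod (p * l)) * (l : ZMod (p * l)))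
        ((b : ZMod (p * l)) * (l : ZMod (p * l)))
      rw [← e3, e0, hP, ht]
      have e4 : z (j - a - b) + 1 - (b : ZMod (p * l)) * (l : ZMod (p * l)) =
          z (j - a - b) - b * l + 1 := by ring
      have e5 : z j + (b : ZMod (p * l)) * (l : ZMod (p * l)) - b * l = z j := by ring
      rw [e4, e5]
    have e2 : off (z (j - b - a)) (z (j - b)) = off t L := by
      have e3 := off_translate_sub (z (j - b - a)) (z (j - b))
        ((b : ZMod (p * l)) * (l : ZMod (p * l)))
      rw [← e3, e0, ht, hL]
    rw [e1, e2]
    have h6 := off_succ htP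
    have h7 := off_add r t L
    have h8 := off_add r t P
    have h9 := off_lt r L
    have h10 := off_lt t L
    have h11 := off_lt r P
    omega
  have h6 := h1 (z j)
  rw [if_neg hA2, if_pos hA1] at h6
  rcases (h.hW j).y01 (z j) with h7 | h7
  · exact h7
  · rcases (h.hW (j + 1)).y01 (z j) with h8 | h8
    · rw [h7, h8] at h6
      omega
    · rw [h7, h8] at h6
      omega

/-- no coincidence of an active top and an active bottom -/
theorem no_tb (hND : StND1) (hRow : StRow) (hAL : StAL) (h : TW p l a b k z i0 ρ τ y u)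
    {W m j : ZMod p} (hm : aT a b W m) (hj : aB b W j)
    (hmj : sc l z m + a * l = sc l z j) : False := by
  obtain ⟨x, hx0, hxb, h1 | h1⟩ := h.tb hm hj hmj
  · exact hND p l a b k z i0 ρ τ y u h m j x hx0 hxb h1 hmj
  · have hl0 := h.hl0
    have hPar := h.hE.hP
    have hxl : x * l < b * l := Nat.mul_lt_mul_of_pos_right hxb hl0
    have hbp : b * l ≤ p * l := Nat.mul_le_mul_right l (by have := hPar.hab; omega)
    have hal : a * l < p * l := Nat.mul_lt_mul_of_pos_right (by have := hPar.hab; omega) hl0
    have hal0 : 0 < a * l := Nat.mul_pos (by have := hPar.ha; omega) hl0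
    have hbox : box l a b z m (z j) (z j + e p l j) := by
      refine ⟨?_, ?_⟩
      · rw [h1, off_nat _ (by omega)]
        exact hxl
      · have e1 : z j + e p l j = sc l z j := rfl
        have e2 : sc l z j = sc l z m + 1 + ((a * l - 1 : ℕ) : ZMod (p * l)) := by
          rw [← hmj, Nat.cast_sub (by omega)]
          push_cast
          ring
        rw [e1, e2, off_nat _ (by omega)]
        omega
    have h2 := ((h.hW j).inn m (z j) hbox).1
    rw [yzero hRow hAL h j] at h2
    exact absurd h2 (by norm_num)

end

end UBaux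

open UBaux in
theorem ub : StND1 → StRow → StAL → StUB := by
  classical
  intro hND hRow hAL p l a b k _ _ z i0 ρ τ y u h
  refine ⟨?_, ?_, ?_⟩
  · intro W j hj
    have h1 := h.uj W (sc l z j)
    rw [if_neg (by
      rintro ⟨m, hm, hmj⟩
      exact no_tb hND hRow hAL h hm hj hmj), if_pos ⟨j, hj, rfl⟩] at h1
    rcases (h.hW W).u01 (sc l z j) with h2 | h2 <;>
      rcases (h.hW W).u01 (sc l z j + 1) with h3 | h3 <;> rw [h2, h3] at h1 <;>
      first | exact ⟨h2, h3⟩ | exact absurd h1 (by norm_num)
  · intro W j hj
    have h1 := h.uj W (sc l z j + a * l)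
    rw [if_pos ⟨j, hj, rfl⟩, if_neg (by
      rintro ⟨m, hm, hmj⟩
      exact no_tb hND hRow hAL h hj hm hmj.symm)] at h1
    rcases (h.hW W).u01 (sc l z j + a * l) with h2 | h2 <;>
      rcases (h.hW W).u01 (sc l z j + a * l + 1) with h3 | h3 <;> rw [h2, h3] at h1 <;>
      first | exact ⟨h2, h3⟩ | exact absurd h1 (by norm_num)
  · intro W S hB hT
    have h1 := h.uj W S
    rw [if_neg (by
      rintro ⟨m, hm, hmj⟩
      exact hT m hm hmj), if_neg (by
      rintro ⟨m, hm, hmj⟩
      exact hB m hm hmj)] at h1
    linarith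

end Helper12.TX
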