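import Pool.Agent.Helper12.TX.StA
import Pool.Agent.Helper11.N1.M_YF

set_option autoImplicit false
set_option linter.unusedSectionVars false

/-!
Project TX, module YF: the formula for `y` as a height difference, with constant `0`.
-/

namespace Helper12.TX.YFaux

open Helper11.N1 Helper55.KE Helper73.TM Helper11.N1.YFaux

section

variable {p l a b k : ℕ} [NeZero p] [NeZero l]

/-- the jump of the arc indicator -/
theorem iA_step (hP : Par p l a b) {z : ZMod p → ZMod (p * l)}
    (hz : ∀ i j, z i = z j → i = j) (j : ZMod p) (x : ZMod (p * l)) : open Classical in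
    iA l a z j (x + 1) - iA l a z j x =
      (if x = z (j - a) then 1 else 0) - (if x = z j then 1 else 0) := by
  classical
  have hab := hP.hab
  have ha := hP.ha
  have hq := hP.hq
  have hM : 1 < p * l := by
    have : p * 1 ≤ p * l := Nat.mul_le_mul_left p hq
    omega
  have hne : z (j - a) ≠ z j := by
    intro h
    have h1 := hz _ _ h
    have h2 : (a : ZMod p) = 0 := by
      have h3 : j - (j - (a : ZMod p)) = 0 := by rw [h1, sub_self]
      rwa [sub_sub_cancel] at h3
    have h4 := natCast_val (p := p) a (by omega)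
    rw [h2, ZMod.val_zero] at h4
    omega
  have h1 : off (z (j - a) + 1) (x + 1) = off (z (j - a)) x := off_translate _ _ _
  have hpi : off (z (j - a)) (z j) ≠ 0 := fun h => hne (off_eq_zero.1 h)
  have hpl := off_lt (z (j - a)) (z j)
  have hn := off_lt (z (j - a)) x
  have h2 : off (z (j - a) + 1) x =
      if off (z (j - a)) x = 0 then p * l - 1 else off (z (j - a)) x - 1 := by
    have h3 : off (z (j - a)) (z (j - a) + 1) = 1 := by
      have := off_nat (z (j - a)) (n := 1) hM
      rwa [Nat.cast_one] at this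
    have h4 := off_add (z (j - a)) (z (j - a) + 1) x
    rw [h3] at h4
    have h5 := off_lt (z (j - a) + 1) x
    split_ifs with h6 <;> omega
  have e1 : (x = z (j - a)) ↔ off (z (j - a)) x = 0 := by
    rw [off_eq_zero]
    exact eq_comm
  have e2 : (x = z j) ↔ off (z (j - a)) x = off (z (j - a)) (z j) := by
    constructor
    · intro h
      rw [h]
    · intro h
      exact off_inj_left h
  have e3 : A l a z j (x + 1) ↔ off (z (j - a)) x < off (z (j - a)) (z j) := by
    unfold A
    rw [h1]
  have e4 : A l a z j x ↔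
      (off (z (j - a)) x ≠ 0 ∧ off (z (j - a)) x ≤ off (z (j - a)) (z j)) := by
    unfold A
    rw [h2]
    split_ifs with h6 <;> omega
  unfold iA
  simp only [e1, e2, e3, e4]
  generalize off (z (j - a)) x = n at *
  generalize off (z (j - a)) (z j) = m at *
  by_cases c1 : n = 0
  · have c2 : n < m := by omega
    have c3 : ¬ (n ≠ 0 ∧ n ≤ m) := by omega
    have c4 : ¬ n = m := by omega
    rw [if_pos c1, if_pos c2, if_neg c3, if_neg c4]
  · by_cases c2 : n < m
    · have c3 : (n ≠ 0 ∧ n ≤ m) := by omega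
      have c4 : ¬ n = m := by omega
      rw [if_neg c1, if_pos c2, if_pos c3, if_neg c4]
      norm_num
    · by_cases c4 : n = m
      · have c3 : (n ≠ 0 ∧ n ≤ m) := by omega
        rw [if_neg c1, if_neg c2, if_pos c3, if_pos c4]
      · have c3 : ¬ (n ≠ 0 ∧ n ≤ m) := by omega
        rw [if_neg c1, if_neg c2, if_neg c3, if_neg c4]

theorem iR_eq {z : ZMod p → ZMod (p * l)} (hz : ∀ i j, z i = z j → i = j) (W i : ZMod p) :
    open Classical in iR l a z W (z i) = if aR a W i then 1 else 0 := by
  classical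
  unfold iR
  have h : (∃ j, aR a W j ∧ z j = z i) ↔ aR a W i := by
    constructor
    · rintro ⟨j, h1, h2⟩
      rw [← hz _ _ h2]
      exact h1
    · intro h1
      exact ⟨i, h1, rfl⟩
  simp only [h]

/-- the jump of the indicator of a right side, as the level changes -/
theorem iR_level (hP : Par p l a b) {z : ZMod p → ZMod (p * l)}
    (hz : ∀ i j, z i = z j → i = j) (j : ZMod p) (x : ZMod (p * l)) : open Classical in
    iR l a z (j + 1) x - iR l a z j x =
      (if x = z j then 1 else 0) - (if x = z (j - a) then 1 else 0) := by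
  classical
  have hab := hP.hab
  have ha := hP.ha
  by_cases hx : ∃ i, z i = x
  · obtain ⟨i, rfl⟩ := hx
    rw [iR_eq hz, iR_eq hz]
    have h1 : (j + 1 - 1 - i : ZMod p) = j - i := by ring
    have h2 : (j - 1 - i : ZMod p) = (j - i) - 1 := by ring
    have e1 : aR a (j + 1) i ↔ (j - i).val < a := by
      unfold aR
      rw [h1]
    have hlt := ZMod.val_lt (j - i)
    have e2 : aR a j i ↔ ((j - i).val ≠ 0 ∧ (j - i).val ≤ a) := by
      unfold aR
      rw [h2, val_pred (by omega)]
      split_ifs with h3 <;> omega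
    have e3 : z i = z j ↔ (j - i).val = 0 := by
      rw [ZMod.val_eq_zero, sub_eq_zero]
      constructor
      · intro h
        exact (hz _ _ h).symm
      · intro h
        rw [h]
    have e4 : z i = z (j - a) ↔ (j - i).val = a := by
      constructor
      · intro h
        have h3 := hz _ _ h
        rw [h3, sub_sub_cancel]
        exact natCast_val _ (by omega)
      · intro h
        have h3 : (j - i) = (a : ZMod p) := by
          rw [← h, ZMod.natCast_zmod_val]
        rw [← h3, sub_sub_cancel]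
    simp only [e1, e2, e3, e4]
    generalize (j - i).val = n at *
    by_cases c1 : n = 0
    · have c2 : n < a := by omega
      have c3 : ¬ (n ≠ 0 ∧ n ≤ a) := by omega
      have c4 : ¬ n = a := by omega
      rw [if_pos c1, if_pos c2, if_neg c3, if_neg c4]
    · by_cases c2 : n < a
      · have c3 : (n ≠ 0 ∧ n ≤ a) := by omega
        have c4 : ¬ n = a := by omega
        rw [if_neg c1, if_pos c2, if_pos c3, if_neg c4]
        norm_num
      · by_cases c4 : n = a
        · have c3 : (n ≠ 0 ∧ n ≤ a) := by omega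
          rw [if_neg c1, if_neg c2, if_pos c3, if_pos c4]
        · have c3 : ¬ (n ≠ 0 ∧ n ≤ a) := by omega
          rw [if_neg c1, if_neg c2, if_neg c3, if_neg c4]
  · have h1 : ∀ W, iR l a z W x = 0 := by
      intro W
      unfold iR
      rw [if_neg]
      rintro ⟨i, _, h⟩
      exact hx ⟨i, h⟩
    have h2 : ¬ x = z j := fun h => hx ⟨j, h.symm⟩
    have h3 : ¬ x = z (j - a) := fun h => hx ⟨_, h.symm⟩
    rw [h1, h1, if_neg h2, if_neg h3]

/-- (1), one place -/
theorem step1 (hP : Par p l a b) {z : ZMod p → ZMod (p * l)} (hz : ∀ i j, z i = z j → i = j)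
    (j : ZMod p) (x : ZMod (p * l)) :
    iA l a z j (x + 1) - iA l a z j x = - (iR l a z (j + 1) x - iR l a z j x) := by
  rw [iA_step hP hz, iR_level hP hz]
  ring

/-- (2), the right side -/
theorem YY1_step (hP : Par p l a b) {z : ZMod p → ZMod (p * l)}
    (hz : ∀ i j, z i = z j → i = j) (W : ZMod p) (X : ZMod (p * l)) :
    YY1 l a b z W (X + 1) - YY1 l a b z W X =
      iR l a z (W - b) (X + b * l) - iR l a z W X := by
  unfold YY1
  rw [← Finset.sum_sub_distrib]
  have h : ∀ i ∈ Finset.range b,
      (iA l a z (W - 1 - (i : ℕ)) (X + 1 + (((i + 1) * l : ℕ) : ZMod (p * l))) +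
      Q l a z (W - (i : ℕ)) (X + 1 + ((i * l : ℕ) : ZMod (p * l)))) -
      (iA l a z (W - 1 - (i : ℕ)) (X + (((i + 1) * l : ℕ) : ZMod (p * l))) +
      Q l a z (W - (i : ℕ)) (X + ((i * l : ℕ) : ZMod (p * l)))) =
      (fun i : ℕ => iR l a z (W - (i : ℕ)) (X + ((i * l : ℕ) : ZMod (p * l)))) (i + 1) -
      (fun i : ℕ => iR l a z (W - (i : ℕ)) (X + ((i * l : ℕ) : ZMod (p * l)))) i := by
    intro i _
    have h1 := step1 hP hz (W - 1 - (i : ℕ)) (X + (((i + 1) * l : ℕ) : ZMod (p * l)))
    have h2 := Q_step (a := a) z (W - (i : ℕ)) (X + ((i * l : ℕ) : ZMod (p * l)))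
    have e1 : X + 1 + (((i + 1) * l : ℕ) : ZMod (p * l)) =
        X + (((i + 1) * l : ℕ) : ZMod (p * l)) + 1 := by ring
    have e2 : X + 1 + ((i * l : ℕ) : ZMod (p * l)) = X + ((i * l : ℕ) : ZMod (p * l)) + 1 := by
      ring
    have e3 : X + ((i * l : ℕ) : ZMod (p * l)) + (l : ZMod (p * l)) =
        X + (((i + 1) * l : ℕ) : ZMod (p * l)) := by
      push_cast
      ring
    have e4 : W - 1 - ((i : ℕ) : ZMod p) + 1 = W - (i : ℕ) := by ring
    have e5 : W - ((i + 1 : ℕ) : ZMod p) = W - 1 - (i : ℕ) := by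
      push_cast
      ring
    rw [e4] at h1
    rw [e3] at h2
    rw [e1, e2]
    simp only [e5]
    linarith
  rw [Finset.sum_congr rfl h, Finset.sum_range_sub
    (fun i : ℕ => iR l a z (W - (i : ℕ)) (X + ((i * l : ℕ) : ZMod (p * l))))]
  have e6 : ((b * l : ℕ) : ZMod (p * l)) = (b : ZMod (p * l)) * l := by push_cast; ring
  simp only [e6, Nat.cast_zero, sub_zero, zero_mul, add_zero]

/-- (2), the left side -/
theorem y_step {z : ZMod p → ZMod (p * l)} {i0 ρ : ZMod p} {τ : ZMod (p * l)}
    {y u : ZMod p → ZMod (p * l) → ℤ} (h : TW p l a b k z i0 ρ τ y u) (W : ZMod p)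
    (X : ZMod (p * l)) :
    y W (X + 1) - y W X = iR l a z (W - b) (X + b * l) - iR l a z W X := by
  classical
  rw [h.yj W X]
  unfold iR
  congr 1
  have e1 : (∃ j, aL a b W j ∧ z j - b * l = X) ↔
      (∃ j, aR a (W - (b : ZMod p)) j ∧ z j = X + b * l) := by
    constructor
    · rintro ⟨j, h1, h2⟩
      exact ⟨j, h1, by rw [← h2]; ring⟩
    · rintro ⟨j, h1, h2⟩
      exact ⟨j, h1, by rw [h2]; ring⟩
  simp only [e1]

/-- the sum of the arc indicator -/
theorem sum_iA {z : ZMod p → ZMod (p * l)} (j : ZMod p) :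
    ∑ X : ZMod (p * l), iA l a z j X = (off (z (j - a)) (z j) : ℤ) := by
  classical
  have hlt := off_lt (z (j - a)) (z j)
  have h1 : ∑ X : ZMod (p * l), iA l a z j X =
      ∑ t ∈ Finset.range (p * l), if t < off (z (j - a)) (z j) then (1 : ℤ) else 0 := by
    refine Finset.sum_nbij' (fun X => off (z (j - a) + 1) X)
      (fun t => z (j - a) + 1 + (t : ZMod (p * l))) ?_ ?_ ?_ ?_ ?_
    · intro X _
      exact Finset.mem_range.2 (off_lt _ X)
    · intro t _
      exact Finset.mem_univ _
    · intro X _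
      exact off_spec _ X
    · intro t ht
      exact off_nat _ (Finset.mem_range.1 ht)
    · intro X _
      unfold iA A
      split_ifs <;> rfl
  rw [h1, ← Finset.sum_filter, Finset.sum_const, nsmul_eq_mul, mul_one]
  have h2 : (Finset.range (p * l)).filter (fun t => t < off (z (j - a)) (z j)) =
      Finset.range (off (z (j - a)) (z j)) := by
    ext t
    rw [Finset.mem_filter, Finset.mem_range, Finset.mem_range]
    omega
  rw [h2, Finset.card_range]

/-- a sum over the rows with small index difference -/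
theorem sum_rows (c : ℕ) (hc : c < p) (V : ZMod p) (f : ZMod p → ℤ) : open Classical in
    (∑ j : ZMod p, if (V - j).val < c then f j else 0) =
      ∑ i ∈ Finset.range c, f (V - (i : ℕ)) := by
  classical
  rw [← Finset.sum_filter]
  refine Finset.sum_nbij' (fun j => (V - j).val) (fun i => V - ((i : ℕ) : ZMod p)) ?_ ?_ ?_ ?_ ?_
  · intro j hj
    rw [Finset.mem_filter] at hj
    exact Finset.mem_range.2 hj.2
  · intro i hi
    rw [Finset.mem_range] at hi
    rw [Finset.mem_filter, sub_sub_cancel, ZMod.val_natCast_of_lt (by omega)]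
    exact ⟨Finset.mem_univ _, hi⟩
  · intro j _
    simp only [ZMod.natCast_zmod_val]
    ring
  · intro i hi
    rw [Finset.mem_range] at hi
    rw [sub_sub_cancel, ZMod.val_natCast_of_lt (by omega)]
  · intro j _
    simp only [ZMod.natCast_zmod_val]
    congr 1
    ring

/-- the sum of the indicator of the right sides -/
theorem sum_iR {z : ZMod p → ZMod (p * l)} (hz : ∀ i j, z i = z j → i = j) (ha : a < p)
    (W : ZMod p) (c : ZMod (p * l)) :
    ∑ X : ZMod (p * l), iR l a z W (X + c) = (a : ℤ) := by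
  classical
  have h0 : ∑ X : ZMod (p * l), iR l a z W (X + c) = ∑ X : ZMod (p * l), iR l a z W X :=
    Equiv.sum_comp (Equiv.addRight c) (fun X => iR l a z W X)
  have h1 : ∀ X : ZMod (p * l), iR l a z W X =
      ∑ j : ZMod p, if aR a W j ∧ z j = X then (1 : ℤ) else 0 := by
    intro X
    rw [sum_ind]
    · rfl
    · rintro i j ⟨_, h2⟩ ⟨_, h3⟩
      exact hz _ _ (h2.trans h3.symm)
  rw [h0, Finset.sum_congr rfl (fun X _ => h1 X), Finset.sum_comm]
  have h2 : ∀ j : ZMod p, (∑ X : ZMod (p * l), if aR a W j ∧ z j = X then (1 : ℤ) else 0) =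
      if (W - 1 - j).val < a then 1 else 0 := by
    intro j
    by_cases h3 : aR a W j
    · have h3' : (W - 1 - j).val < a := h3
      rw [if_pos h3', Finset.sum_eq_single (z j)]
      · rw [if_pos ⟨h3, rfl⟩]
      · intro X _ hX
        rw [if_neg (fun h4 => hX h4.2.symm)]
      · intro h4
        exact absurd (Finset.mem_univ _) h4
    · have h3' : ¬ (W - 1 - j).val < a := h3
      rw [if_neg h3']
      refine Finset.sum_eq_zero fun X _ => ?_
      rw [if_neg (fun h4 => h3 h4.1)]
  rw [Finset.sum_congr rfl (fun j _ => h2 j)]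
  have h3 := sum_rows a ha (W - 1) (fun _ => (1 : ℤ))
  rw [h3]
  simp

/-- the sum of the right side -/
theorem sum_YY1 {z : ZMod p → ZMod (p * l)} (hz : ∀ i j, z i = z j → i = j) (ha : a < p)
    (hb : b < p) (W : ZMod p) : open Classical in
    ∑ X : ZMod (p * l), YY1 l a b z W X = (a * b * l : ℕ) +
      ∑ j : ZMod p, if aB b W j then (off (z (j - a)) (z j) : ℤ) else 0 := by
  classical
  unfold YY1
  rw [Finset.sum_comm]
  have h1 : ∀ i ∈ Finset.range b, ∑ X : ZMod (p * l),
      (iA l a z (W - 1 - (i : ℕ)) (X + (((i + 1) * l : ℕ) : ZMod (p * l))) +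
      Q l a z (W - (i : ℕ)) (X + ((i * l : ℕ) : ZMod (p * l)))) =
      (off (z (W - 1 - (i : ℕ) - a)) (z (W - 1 - (i : ℕ))) : ℤ) + l * a := by
    intro i _
    rw [Finset.sum_add_distrib]
    congr 1
    · have h2 := Equiv.sum_comp (Equiv.addRight ((((i + 1) * l : ℕ) : ZMod (p * l))))
        (fun X => iA l a z (W - 1 - (i : ℕ)) X)
      rw [sum_iA] at h2
      exact h2
    · simp only [Q_eq]
      rw [Finset.sum_comm]
      have h3 : ∀ k ∈ Finset.range l, ∑ X : ZMod (p * l),
          iR l a z (W - (i : ℕ)) (X + ((i * l : ℕ) : ZMod (p * l)) + (k : ℕ)) = (a : ℤ) := by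
        intro k _
        have h4 := sum_iR hz ha (W - (i : ℕ)) (((i * l : ℕ) : ZMod (p * l)) + (k : ℕ))
        rw [← h4]
        refine Finset.sum_congr rfl fun X _ => ?_
        rw [add_assoc]
      rw [Finset.sum_congr rfl h3, Finset.sum_const, Finset.card_range, nsmul_eq_mul]
  rw [Finset.sum_congr rfl h1, Finset.sum_add_distrib, Finset.sum_const, Finset.card_range,
    nsmul_eq_mul]
  have h5 := sum_rows b hb (W - 1) (fun j => (off (z (j - a)) (z j) : ℤ))
  have h6 : (∑ j : ZMod p, if aB b W j then (off (z (j - a)) (z j) : ℤ) else 0) =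
      ∑ j : ZMod p, if (W - 1 - j).val < b then (off (z (j - a)) (z j) : ℤ) else 0 := by
    refine Finset.sum_congr rfl fun j _ => ?_
    by_cases h7 : aB b W j
    · rw [if_pos h7, if_pos (show (W - 1 - j).val < b from h7)]
    · rw [if_neg h7, if_neg (show ¬ (W - 1 - j).val < b from h7)]
  rw [h6, h5]
  push_cast
  ring

end

end Helper12.TX.YFaux

namespace Helper12.TX

open Helper11.N1 Helper55.KE Helper73.TM

open Helper11.N1.YFaux in
theorem yf : StRow → StSum → StYf := by
  classical
  intro _ hSum p l a b k _ _ z i0 ρ τ y u h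
  have hP := h.hE.hP
  have hab := hP.hab
  have hz : ∀ i j, z i = z j → i = j := fun i j hij => h.zinj hij
  have hX : ∀ W X, YY1 l a b z W X - y W X = YY1 l a b z W 0 - y W 0 := by
    intro W X
    refine const_of_step (fun X => YY1 l a b z W X - y W X) ?_ X
    intro X
    have h1 := YFaux.YY1_step hP hz W X
    have h2 := YFaux.y_step h W X
    show YY1 l a b z W (X + 1) - y W (X + 1) = YY1 l a b z W X - y W X
    linarith
  intro W X
  have h1 := YFaux.sum_YY1 (l := l) hz (a := a) (b := b) (by omega) (by omega) W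
  have h2 := (hSum p l a b k z i0 ρ τ y u h W).1
  have h3 : ∑ X : ZMod (p * l), (YY1 l a b z W X - y W X) = 0 := by
    rw [Finset.sum_sub_distrib, h1, h2, sub_self]
  rw [Finset.sum_congr rfl (fun X _ => hX W X), Finset.sum_const, nsmul_eq_mul] at h3
  have h4 : ((Finset.univ : Finset (ZMod (p * l))).card : ℤ) ≠ 0 := by
    rw [Finset.card_univ, ZMod.card]
    exact_mod_cast (NeZero.ne (p * l))
  have h5 : YY1 l a b z W 0 - y W 0 = 0 := by
    rcases mul_eq_zero.1 h3 with h6 | h6
    · exact absurd h6 h4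
    · exact h6
  have h6 := hX W X
  rw [h5] at h6
  have h7 : y W X = YY1 l a b z W X := by linarith
  exact h7

end Helper12.TX
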