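import Pool.Agent.Helper11.N1.M_CNT
import Pool.Agent.Helper11.N1.M_WIND
import Pool.Agent.Helper12.TX.M_ND1
import Pool.Agent.Helper12.TX.M_ROW
import Pool.Agent.Helper12.TX.M_AL
import Pool.Agent.Helper12.TX.M_UB
import Pool.Agent.Helper12.TX.M_STRIP
import Pool.Agent.Helper12.TX.M_GH
import Pool.Agent.Helper12.TX.M_SUM
import Pool.Agent.Helper12.TX.M_LT
import Pool.Agent.Helper12.TX.M_YF
import Pool.Agent.Helper12.TX.M_ARC
import Pool.Agent.Helper12.TX.M_SEP
import Pool.Agent.Helper12.TX.M_ER
import Pool.Agent.Helper12.TX.M_VD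
import Pool.Agent.Helper12.TX.M_SUCC
import Pool.Agent.Helper12.TX.M_CP
import Pool.Agent.Helper12.TX.M_RV
import Pool.Agent.Helper12.TX.M_ST1
import Pool.Agent.Helper12.TX.M_ST2
import Pool.Agent.Helper12.TX.F4

set_option autoImplicit false
set_option linter.unusedSectionVars false

/-!
# Project TX: the world of the exact tie model is impossible
-/

namespace Helper12.TX

open Helper11.N1 Helper55.KE Helper73.TM

section

variable {p l a b k : ℕ} [NeZero p] [NeZero l] {z : ZMod p → ZMod (p * l)} {i0 ρ : ZMod p}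
  {τ : ZMod (p * l)} {y u : ZMod p → ZMod (p * l) → ℤ}

/-- THE WORLD IS IMPOSSIBLE -/
theorem TW.false (H : TW p l a b k z i0 ρ τ y u) : False := by
  have hRow := row nd1
  have hAL := al hRow
  have hUB := ub nd1 hRow hAL
  have hStrip := strip hRow hAL hUB
  have hGH := gh hUB hStrip
  have hSum := sum (cnt bl) hGH
  have hLT := lt hSum
  have hYf := yf hRow hSum
  have hArc := arc hSum
  have hSep := sep hSum hArc
  have hER := er hRow hAL hStrip hSum hYf
  have hVD := vd hLT hSep
  have hSucc := succ hLT hSep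
  have hCP := cp wind hLT hSep hSucc
  have hRV := rv hLT hSum hSep hER
  have hS1 := st1 hLT hSep hER
  have hS2 := st2 hLT hSep hER
  exact twf hLT hVD hCP hRV hS1 hS2 H

end

end Helper12.TX
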