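import Pool.Agent.Helper73.TM.Co
import Pool.Agent.Helper11.N1.StB

set_option autoImplicit false
set_option linter.unusedSectionVars false

/-!
# Project TX (MP_0a4b47_nt, ties, empty overlap set): definitions

The exact tie model `EX` of helper73 (`Helper73/TM/Ex.lean`): rows `ZMod p`, positions
`ZMod (p * l)`, the progression `z (i0 + n ρ) = z i0 + n τ`, `0 ≤ n < p`, with
`l τ = - b l`, `l ρ = b + k`.  So the right side of the row with index `n ≥ l` is the left side of the
row with index `n - l`, which is `b + k` rows below.  Letters can coincide, therefore a level in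
normal form is described by the sums of all active letters at one place.
-/

namespace Helper12.TX

open Helper11.N1 Helper55.KE Helper73.TM

section

variable {p : ℕ} (l a b : ℕ) (z : ZMod p → ZMod (p * l))

/-- a level in normal form: `F = N - y + u` with `y`, `u` in `{0, 1}`; letters may coincide -/
structure TLvl [NeZero p] (W : ZMod p) (y u : ZMod (p * l) → ℤ) : Prop where
  y01 : ∀ X, y X = 0 ∨ y X = 1
  u01 : ∀ S, u S = 0 ∨ u S = 1
  yJ : ∀ X, y (X + 1) - y X =
    (open Classical in ∑ j : ZMod p, if aL a b W j ∧ z j - b * l = X then (1 : ℤ) else 0) -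
    (open Classical in ∑ j : ZMod p, if aR a W j ∧ z j = X then (1 : ℤ) else 0)
  uJ : ∀ S, u (S + 1) - u S =
    (open Classical in ∑ j : ZMod p, if aT a b W j ∧ sc l z j + a * l = S then (1 : ℤ) else 0) -
    (open Classical in ∑ j : ZMod p, if aB b W j ∧ sc l z j = S then (1 : ℤ) else 0)
  inn : ∀ j X, box l a b z j X (X + e p l W) → y X = 1 ∧ u (X + e p l W) = 0
  out : ∀ X, (∀ j, ¬ box l a b z j X (X + e p l W)) → y X = u (X + e p l W)
  flat : ∀ j X S, box l a b z j X S → u S = 1 → y X = 1

end

/-- the index of a row -/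
def ix {p : ℕ} (i0 ρ j : ZMod p) : ℕ := ((j - i0) * ρ⁻¹).val

/-- the world: the exact tie model with disjoint boxes, all levels in normal form -/
structure TW (p l a b k : ℕ) [NeZero p] [NeZero l] (z : ZMod p → ZMod (p * l)) (i0 ρ : ZMod p)
    (τ : ZMod (p * l)) (y u : ZMod p → ZMod (p * l) → ℤ) : Prop where
  hE : EX p l a b z i0 ρ τ (k : ℤ)
  hD : Disj l a b z
  hk : 1 ≤ k
  hka : b + k ≤ a
  h2a : 2 * a < p
  hap : a.Coprime p
  hbp : b.Coprime p
  hW : ∀ W, TLvl l a b z W (y W) (u W)

end Helper12.TX
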