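import Mathlib

set_option autoImplicit false

/-!
# Project TX: the integer contradiction, case `I > k`, `α < l`
-/

namespace Helper12.TX.Fin

/-- the numerical data; `N = p - α`, `ξ = h l - N I`, `L = a l + ξ`, `v = ξ + p I` -/
structure FP (p l a b k α I h : ℤ) : Prop where
  hb : 2 ≤ b
  hk : 1 ≤ k
  hka : b + k + 1 ≤ a
  hh : 1 ≤ h
  hI : 1 ≤ I
  hIl : I < l
  hlp : l < p
  hα0 : 0 < α
  hαp : α < p
  hp : p = (b + k) * h + a * (b + I)
  hN : (p - α) * I < h * l
  hpl : p ≤ (b + I) * α + h * l
  nj : ∀ t X w R : ℤ, t * l - X * (p - α) - w * p = 0 → R = t * (b + k) + X * a → 0 < R → R < p →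
    False
  nz : k < I → ∀ t X w j s R : ℤ, j = t * l - X * (p - α) - w * p →
    s = w * (p * I) - t * (k * l) - X * (a * l + (h * l - (p - α) * I)) →
    R = t * (b + k) + X * a → -l < j → j < p → 0 < R → R < p → s ≠ 0

/-- the rule for `α < l` -/
def R2 (p l a b k α I h : ℤ) : Prop := ∀ t X w j s R : ℤ, j = t * l - X * (p - α) - w * p →
    s = w * (p * I) - t * (k * l) - X * (a * l + (h * l - (p - α) * I)) →
    R = t * (b + k) + X * a → -l < j → j < l - α → 0 < R → R ≤ p - a → 0 < s →
    s < a * l + (α * I + h * l) → s + l * R < p * l → s + l * R < α * I + h * l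

/-- one state of the chain -/
structure St2 (p l a b k α I h : ℤ) (t X w j s R : ℤ) : Prop where
  hj : j = t * l - X * (p - α) - w * p
  hs : s = w * (p * I) - t * (k * l) - X * (a * l + (h * l - (p - α) * I))
  hR : R = t * (b + k) + X * a
  j1 : -l < j
  j2 : j < l - α
  s0 : 0 < s
  z0 : s + l * R < α * I + h * l
  t1 : 1 ≤ t
  X0 : 0 ≤ X

variable {p l a b k α I h : ℤ}

theorem FP.h3 (F : FP p l a b k α I h) : 3 * h ≤ (b + k) * h := by
  have h1 := F.hb; have h2 := F.hk; have h3 := F.hh
  nlinarith

theorem FP.ha4 (F : FP p l a b k α I h) : 4 ≤ a := by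
  have h1 := F.hb; have h2 := F.hk; have h3 := F.hka
  linarith

/-- numerical bounds for the case `α < l` -/
theorem FP.b2 (F : FP p l a b k α I h) :
    2 * I + 2 * h + (b + k) ≤ p - a ∧ 3 * I + 3 * h + 2 * b ≤ p := by
  have h1 := F.hb; have h2 := F.hk; have h3 := F.hka; have h4 := F.hh; have h5 := F.hI
  have h6 := F.h3
  have hp := F.hp
  have e1 : (b + k + 1) * (b + I - 1) ≤ a * (b + I - 1) :=
    mul_le_mul_of_nonneg_right h3 (by linarith)
  have e2 : 3 * (I + 1) ≤ (b + k) * (b + I - 1) :=
    mul_le_mul (by linarith) (by linarith) (by linarith) (by linarith)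
  have e3 : 4 * (b + I) ≤ a * (b + I) := mul_le_mul_of_nonneg_right F.ha4 (by linarith)
  have e4 : (b + k) * 1 ≤ (b + k) * (b + I - 1) :=
    mul_le_mul_of_nonneg_left (by linarith) (by linarith)
  have e5 : (b + k) * (b + I - 1) = (b + k) * (b + I - 2) + (b + k) := by ring
  have e6 : 3 * I ≤ (b + k) * (b + I - 2) :=
    mul_le_mul (by linarith) (by linarith) (by linarith) (by linarith)
  constructor
  · rw [hp]; nlinarith
  · rw [hp]; nlinarith

theorem FP.v2 (F : FP p l a b k α I h) (hα : α < l) : α * I + h * l < l * (I + h) := by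
  have h5 := F.hI
  have : α * I < l * I := mul_lt_mul_of_pos_right hα (by linarith)
  linarith [this]

/-- `R` from `l R < l c` -/
theorem lt_of_l (F : FP p l a b k α I h) {x y : ℤ} (hxy : l * x < l * y) : x < y := by
  have h1 : 0 < l := by have := F.hI; have := F.hIl; linarith
  exact lt_of_mul_lt_mul_left hxy h1.le

/-- the first vector -/
theorem first2 (F : FP p l a b k α I h) (hkI : k < I) (hα : α < l)
    (r2 : R2 p l a b k α I h) : ∃ n s R : ℤ, 1 ≤ n ∧ St2 p l a b k α I h n 0 1 (n * l - p) s R ∧
      n * l < p := by
  have h1 := F.hb; have h2 := F.hk; have h3 := F.hka; have h4 := F.hh; have h5 := F.hI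
  have hIl := F.hIl; have hlp := F.hlp; have hα0 := F.hα0
  have hl0 : 0 < l := by linarith
  set n := p / l with hn
  have n1 : n * l ≤ p := Int.ediv_mul_le p hl0.ne'
  have n2 : p < (n + 1) * l := Int.lt_ediv_add_one_mul_self p hl0
  have n0 : 1 ≤ n := by
    by_contra hcon
    have : n + 1 ≤ 1 := by linarith [not_le.1 hcon]
    have : (n + 1) * l ≤ 1 * l := mul_le_mul_of_nonneg_right this hl0.le
    linarith
  have n3 : n ≤ b + I + h - 1 := by
    have e1 : (b + I) * α ≤ (b + I) * l := mul_le_mul_of_nonneg_left hα.le (by linarith)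
    have e1' : (b + I) * α < (b + I) * l := mul_lt_mul_of_pos_left hα (by linarith)
    have e2 : n * l < (b + I + h) * l := by
      calc n * l ≤ p := n1
        _ ≤ (b + I) * α + h * l := F.hpl
        _ < (b + I + h) * l := by linarith
    have := lt_of_mul_lt_mul_right e2 hl0.le
    linarith
  have hp := F.hp
  have n4 : n * (b + k) ≤ p - a := by
    have e1 : n * (b + k) ≤ (b + I + h - 1) * (b + k) := mul_le_mul_of_nonneg_right n3 (by linarith)
    have e2 : (b + I - 1) * (b + k) ≤ (b + I - 1) * a :=
      mul_le_mul_of_nonneg_left (by linarith) (by linarith)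
    rw [hp]
    linarith [e1, e2]
  have n5 : 0 < n * (b + k) := mul_pos (by linarith) (by linarith)
  have n6 : n * l ≠ p := by
    intro h6
    refine F.nj n 0 1 (n * (b + k)) ?_ (by ring) n5 (by linarith)
    rw [h6]; ring
  have n7 : n * l < p := lt_of_le_of_ne n1 n6
  have hN := F.hN
  have hpI : p * I < α * I + h * l := by nlinarith
  have s1 : 0 < p * I - n * (k * l) := by
    have e1 : k * (n * l) ≤ k * p := mul_le_mul_of_nonneg_left n1 (by linarith)
    have e2 : k * p < I * p := mul_lt_mul_of_pos_right hkI (by linarith)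
    linarith [e1, e2]
  have s2 : 0 ≤ n * (k * l) := by positivity
  have z1 : p * I - n * (k * l) + l * (n * (b + k)) < p * l := by
    have e1 : p * I < l * (I + h) := lt_trans hpI (F.v2 hα)
    have e2 : n * (b * l) ≤ (b + I + h - 1) * (b * l) :=
      mul_le_mul_of_nonneg_right n3 (by positivity)
    have e3 : (b + I + h - 1) * b + (I + h) ≤ p := by
      have e4 : 2 * (b + I) ≤ (a - b) * (b + I) :=
        mul_le_mul_of_nonneg_right (by linarith) (by linarith)
      have e5 : h * 1 ≤ h * k := mul_le_mul_of_nonneg_left h2 (by linarith)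
      rw [hp]
      nlinarith
    have e6 : ((b + I + h - 1) * b + (I + h)) * l ≤ p * l := mul_le_mul_of_nonneg_right e3 hl0.le
    linarith [e1, e2, e6]
  have hal : 0 < a * l := mul_pos (by linarith) hl0
  have hz := r2 n 0 1 (n * l - p) (p * I - n * (k * l)) (n * (b + k)) (by ring) (by ring) (by ring)
    (by linarith) (by linarith) n5 n4 s1 (by linarith) z1
  exact ⟨n, p * I - n * (k * l), n * (b + k), n0,
    ⟨by ring, by ring, by ring, by linarith, by linarith, s1, hz, n0, le_refl _⟩, n7⟩

/-- one step of the chain -/
theorem step2 (F : FP p l a b k α I h) (hkI : k < I) (hα : α < l)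
    (r2 : R2 p l a b k α I h) {n s1 R1 : ℤ} (hn : 1 ≤ n) (hnl : n * l < p)
    (V1 : St2 p l a b k α I h n 0 1 (n * l - p) s1 R1) {t X w j s R : ℤ}
    (V : St2 p l a b k α I h t X w j s R) :
    ∃ t' X' w' j' s' R' : ℤ, St2 p l a b k α I h t' X' w' j' s' R' ∧ R < R' := by
  have h1 := F.hb; have h2 := F.hk; have h3 := F.hka; have h4 := F.hh; have h5 := F.hI
  have hIl := F.hIl; have hlp := F.hlp; have hα0 := F.hα0
  have hl0 : 0 < l := by linarith
  obtain ⟨B1, B2⟩ := F.b2
  have hv := F.v2 hα
  have hN := F.hN
  have hpI : p * I < α * I + h * l := by nlinarith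
  have hal : 0 < a * l := mul_pos (by linarith) hl0
  have hbl : 0 < b * l := mul_pos (by linarith) hl0
  have hkl : 0 < k * l := mul_pos (by linarith) hl0
  have hkal : k * l < a * l := mul_lt_mul_of_pos_right (by linarith) hl0
  have hkv : k * l < α * I + h * l := by
    have e1 : k * l < I * l := mul_lt_mul_of_pos_right hkI hl0
    have e2 : I * l ≤ I * p := mul_le_mul_of_nonneg_left hlp.le (by linarith)
    linarith
  have hV1R := V1.hR
  have hnb : 0 < n * (b + k) := mul_pos (by linarith) (by linarith)
  have hR1 : 0 < R1 := by rw [hV1R]; linarith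
  have htb : b + k ≤ t * (b + k) := by
    have := mul_le_mul_of_nonneg_right V.t1 (show (0 : ℤ) ≤ b + k by linarith)
    linarith
  have hXa : 0 ≤ X * a := mul_nonneg V.X0 (by linarith)
  have hR0 : 0 < R := by rw [V.hR]; linarith
  have hj1' : -l < n * l - p := V1.j1
  have hj := V.hj; have hs := V.hs; have hR := V.hR; have hs1 := V1.hs
  have j1 := V.j1; have j2 := V.j2; have s0 := V.s0; have z0 := V.z0
  have s10 := V1.s0; have z10 := V1.z0
  have t1 := V.t1; have X0 := V.X0
  -- bounds in `R`
  have hRR : l * (R + R1) < 2 * (α * I + h * l) := by linarith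
  have hRR' : R + R1 < 2 * (I + h) := lt_of_l F (by linarith)
  have hlRR : 0 < l * (R + R1) := mul_pos hl0 (by linarith)
  have hZp : ∀ c d : ℤ, c ≤ 3 → d ≤ 2 → ∀ Z : ℤ, Z < c * (α * I + h * l) + d * (b * l) →
      Z < p * l := by
    intro c d hc hd Z hZ
    have hv0 : 0 < α * I + h * l := by linarith
    have e1 : c * (α * I + h * l) ≤ 3 * (α * I + h * l) := mul_le_mul_of_nonneg_right hc hv0.le
    have e2 : d * (b * l) ≤ 2 * (b * l) := mul_le_mul_of_nonneg_right hd hbl.le
    have e3 : (3 * I + 3 * h + 2 * b) * l ≤ p * l := mul_le_mul_of_nonneg_right B2 hl0.le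
    linarith
  by_cases hA : -l < j + (n * l - p)
  · by_cases hs' : s + s1 < a * l + (α * I + h * l)
    · -- A1
      refine ⟨t + n, X, w + 1, j + (n * l - p), s + s1, R + R1, ⟨?_, ?_, ?_, hA, by linarith,
        by linarith, ?_, by linarith, X0⟩, by linarith⟩
      · rw [hj]; ring
      · rw [hs, hs1]; ring
      · rw [hR, hV1R]; ring
      · refine r2 (t + n) X (w + 1) (j + (n * l - p)) (s + s1) (R + R1) (by rw [hj]; ring)
          (by rw [hs, hs1]; ring) (by rw [hR, hV1R]; ring) hA (by linarith) (by linarith)
          (by linarith) (by linarith) hs' ?_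
        refine hZp 2 0 (by norm_num) (by norm_num) _ ?_
        linarith
    · push Not at hs'
      by_cases hA2 : j + (n * l - p) + α < l - α
      · -- A2
        have ej : j + (n * l - p) + α = (t + n) * l - (X + 1) * (p - α) - w * p := by rw [hj]; ring
        have es : s + s1 - (a * l + (α * I + h * l)) = w * (p * I) - (t + n) * (k * l) -
            (X + 1) * (a * l + (h * l - (p - α) * I)) := by rw [hs, hs1]; ring
        have eR : R + R1 + a = (t + n) * (b + k) + (X + 1) * a := by rw [hR, hV1R]; ring
        have hRb : R + R1 + a < I + h := by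
          refine lt_of_l F ?_
          linarith
        have hne := F.nz hkI (t + n) (X + 1) w _ _ _ ej es eR (by linarith) (by linarith)
          (by linarith) (by linarith)
        refine ⟨t + n, X + 1, w, _, _, _, ⟨ej, es, eR, by linarith, hA2, ?_, by linarith,
          by linarith, by linarith⟩, by linarith⟩
        exact lt_of_le_of_ne (by linarith) (Ne.symm hne)
      · -- A3
        push Not at hA2
        have ej : j + (n * l - p) + α - l = (t + n - 1) * l - (X + 1) * (p - α) - w * p := by
          rw [hj]; ring
        have es : s + s1 - (a * l + (α * I + h * l)) + k * l = w * (p * I) -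
            (t + n - 1) * (k * l) - (X + 1) * (a * l + (h * l - (p - α) * I)) := by
          rw [hs, hs1]; ring
        have eR : R + R1 + a - (b + k) = (t + n - 1) * (b + k) + (X + 1) * a := by
          rw [hR, hV1R]; ring
        refine ⟨t + n - 1, X + 1, w, _, _, _, ⟨ej, es, eR, by linarith, by linarith, by linarith,
          by linarith, by linarith, by linarith⟩, by linarith⟩
  · push Not at hA
    have ejU : j + (n * l - p) + l = (t + n + 1) * l - X * (p - α) - (w + 1) * p := by rw [hj]; ring
    have esU : s + s1 - k * l = (w + 1) * (p * I) - (t + n + 1) * (k * l) -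
        X * (a * l + (h * l - (p - α) * I)) := by rw [hs, hs1]; ring
    have eRU : R + R1 + (b + k) = (t + n + 1) * (b + k) + X * a := by rw [hR, hV1R]; ring
    have hneU := F.nz hkI (t + n + 1) X (w + 1) _ _ _ ejU esU eRU (by linarith) (by linarith)
      (by linarith) (by linarith)
    rcases lt_or_gt_of_ne hneU with hsU | hsU
    · -- B3
      exfalso
      have hX1 : 1 ≤ X := by
        by_contra hcon
        have hX : X = 0 := by linarith [not_le.1 hcon]
        -- `s' = - l S' - I j'`, `S' = - (t + n) (I - k)`
        have e1 : s + s1 = l * ((t + n) * (I - k)) - I * (j + (n * l - p)) := by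
          rw [hs, hs1, hj, hX]; ring
        have e2 : I * (j + (n * l - p)) ≤ I * (-l) := mul_le_mul_of_nonneg_left hA (by linarith)
        have e3 : 0 < l * ((t + n) * (I - k)) :=
          mul_pos hl0 (mul_pos (by linarith) (by linarith))
        have e4 : k * l < I * l := mul_lt_mul_of_pos_right hkI hl0
        linarith
      have hXa1 : a ≤ X * a := by
        have := mul_le_mul_of_nonneg_right hX1 (show (0 : ℤ) ≤ a by linarith)
        linarith
      have hRa : a + (b + k) ≤ R := by rw [hR]; linarith
      by_cases hc : α - l < j + (n * l - p) + l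
      · have h7 := r2 (t + n + 1) (X - 1) (w + 2) (j + (n * l - p) + l - α)
          (s + s1 - k * l + (a * l + (α * I + h * l))) (R + R1 + (b + k) - a)
          (by rw [hj]; ring) (by rw [hs, hs1]; ring) (by rw [hR, hV1R]; ring) (by linarith)
          (by linarith) (by linarith) (by linarith) (by linarith) (by linarith)
          (hZp 3 1 (by norm_num) (by norm_num) _ (by linarith))
        linarith
      · push Not at hc
        have h7 := r2 (t + n + 2) (X - 1) (w + 2) (j + (n * l - p) + l - α + l)
          (s + s1 - k * l + (a * l + (α * I + h * l)) - k * l) (R + R1 + (b + k) - a + (b + k))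
          (by rw [hj]; ring) (by rw [hs, hs1]; ring) (by rw [hR, hV1R]; ring) (by linarith)
          (by linarith) (by linarith) (by linarith) (by linarith) (by linarith)
          (hZp 3 2 (by norm_num) (by norm_num) _ (by linarith))
        linarith
    · by_cases hs' : s + s1 - k * l < a * l + (α * I + h * l)
      · -- B1
        refine ⟨t + n + 1, X, w + 1, _, _, _, ⟨ejU, esU, eRU, by linarith, by linarith, hsU, ?_,
          by linarith, X0⟩, by linarith⟩
        refine r2 _ _ _ _ _ _ ejU esU eRU (by linarith) (by linarith) (by linarith) (by linarith)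
          hsU hs' ?_
        refine hZp 2 1 (by norm_num) (by norm_num) _ ?_
        linarith
      · push Not at hs'
        by_cases hc : j + (n * l - p) + l + α < l - α
        · -- B2
          have ej : j + (n * l - p) + l + α = (t + n + 1) * l - (X + 1) * (p - α) - w * p := by
            rw [hj]; ring
          have es : s + s1 - k * l - (a * l + (α * I + h * l)) = w * (p * I) -
              (t + n + 1) * (k * l) - (X + 1) * (a * l + (h * l - (p - α) * I)) := by
            rw [hs, hs1]; ring
          have eR : R + R1 + (b + k) + a = (t + n + 1) * (b + k) + (X + 1) * a := by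
            rw [hR, hV1R]; ring
          have hRb : R + R1 + (b + k) + a < I + h + b := by
            refine lt_of_l F ?_
            linarith
          have hne := F.nz hkI (t + n + 1) (X + 1) w _ _ _ ej es eR (by linarith) (by linarith)
            (by linarith) (by linarith)
          have hs0 : 0 < s + s1 - k * l - (a * l + (α * I + h * l)) :=
            lt_of_le_of_ne (by linarith) (Ne.symm hne)
          refine ⟨t + n + 1, X + 1, w, _, _, _, ⟨ej, es, eR, by linarith, hc, hs0, ?_,
            by linarith, by linarith⟩, by linarith⟩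
          refine r2 _ _ _ _ _ _ ej es eR (by linarith) hc (by linarith) (by linarith) hs0
            (by linarith) ?_
          refine hZp 1 1 (by norm_num) (by norm_num) _ ?_
          linarith
        · -- B2'
          push Not at hc
          have ej : j + (n * l - p) + α = (t + n) * l - (X + 1) * (p - α) - w * p := by
            rw [hj]; ring
          have es : s + s1 - (a * l + (α * I + h * l)) = w * (p * I) - (t + n) * (k * l) -
              (X + 1) * (a * l + (h * l - (p - α) * I)) := by rw [hs, hs1]; ring
          have eR : R + R1 + a = (t + n) * (b + k) + (X + 1) * a := by rw [hR, hV1R]; ring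
          refine ⟨t + n, X + 1, w, _, _, _, ⟨ej, es, eR, by linarith, by linarith, by linarith,
            by linarith, by linarith, by linarith⟩, by linarith⟩

/-- the case `α < l` -/
theorem case2 (F : FP p l a b k α I h) (hkI : k < I) (hα : α < l)
    (r2 : R2 p l a b k α I h) : False := by
  obtain ⟨n, s1, R1, hn, V1, hnl⟩ := first2 F hkI hα r2
  have key : ∀ c : ℕ, ∃ t X w j s R : ℤ, St2 p l a b k α I h t X w j s R ∧ (c : ℤ) ≤ R := by
    intro c
    induction c with
    | zero =>
      refine ⟨n, 0, 1, _, s1, R1, V1, ?_⟩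
      have h1 := F.hb; have h2 := F.hk
      have : 0 < n * (b + k) := mul_pos (by linarith) (by linarith)
      rw [V1.hR]
      push_cast
      linarith
    | succ c ih =>
      obtain ⟨t, X, w, j, s, R, V, hc⟩ := ih
      obtain ⟨t', X', w', j', s', R', V', hR⟩ := step2 F hkI hα r2 hn hnl V1 V
      refine ⟨t', X', w', j', s', R', V', ?_⟩
      push_cast
      linarith
  obtain ⟨t, X, w, j, s, R, V, hc⟩ := key (α * I + h * l).toNat
  have h1 : 1 ≤ l := by have := F.hI; have := F.hIl; linarith
  have h2 : α * I + h * l ≤ R := le_trans (Int.self_le_toNat _) hc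
  have h3 := V.z0
  have h4 := V.s0
  have hv0 : 0 ≤ α * I + h * l := by
    have := F.hα0; have := F.hI; have := F.hh
    positivity
  have h5 : 1 * R ≤ l * R := mul_le_mul_of_nonneg_right h1 (le_trans hv0 h2)
  linarith

end Helper12.TX.Fin
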