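import Pool.Agent.Helper12.TX.F1

set_option autoImplicit false

/-!
# Project TX: the integer contradiction, case `I > k`, `l ≤ α`
-/

namespace Helper12.TX.Fin

/-- the rule for `l ≤ α`; `N = p - α`, `ξ = h l - N I`, `L = a l + ξ` -/
def R1 (p l a b k α I h : ℤ) : Prop := ∀ t X w j s R : ℤ, j = t * l - X * (p - α) - w * p →
    s = w * (p * I) - t * (k * l) - X * (a * l + (h * l - (p - α) * I)) →
    R = t * (b + k) + X * a → -l < j → j < p - α + l → 0 < R → R ≤ p - a → 0 < s →
    s < a * l + (h * l - (p - α) * I) → s + l * R < p * l → s + l * R < h * l - (p - α) * I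

/-- the data of the case: `t0` is `a / (b + k)` rounded up -/
structure T0 (p l a b k α : ℤ) (t0 : ℤ) : Prop where
  t1 : a ≤ t0 * (b + k)
  t2 : (t0 - 1) * (b + k) ≤ a - 1
  t3 : 1 ≤ t0
  pt : p < t0 * l
  Nt : p - α ≤ (t0 - 1) * l

/-- one state of the chain -/
structure St1 (p l a b k α I h : ℤ) (t X w j s R : ℤ) : Prop where
  hj : j = t * l - X * (p - α) - w * p
  hs : s = w * (p * I) - t * (k * l) - X * (a * l + (h * l - (p - α) * I))
  hR : R = t * (b + k) + X * a
  j1 : -l < j
  j2 : j < p - α + l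
  s0 : 0 < s
  z0 : s + l * R < h * l - (p - α) * I
  t1 : 1 ≤ t
  X0 : 0 ≤ X

variable {p l a b k α I h : ℤ}

/-- numerical bounds for the case `l ≤ α` -/
theorem FP.b1 (F : FP p l a b k α I h) (hkI : k < I) :
    a + (b + k) - 1 + a * I ≤ p - a ∧ a + h + (a + (b + k) - 1 + a * I) ≤ p ∧
    2 * h + (b + k) ≤ p - a ∧ h + b + a - 1 ≤ p - a ∧ 3 * h + b + a ≤ p := by
  have h1 := F.hb; have h2 := F.hk; have h3 := F.hka; have h4 := F.hh; have h5 := F.hI
  have h6 := F.h3
  have hp := F.hp
  have e1 : 2 * a ≤ b * a := mul_le_mul_of_nonneg_right h1 (by linarith)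
  have e2 : b + k ≤ (b + k) * h := by
    have := mul_le_mul_of_nonneg_left h4 (show (0 : ℤ) ≤ b + k by linarith)
    linarith
  have e3 : (b + k - 1) + h ≤ (b + k) * h := by nlinarith
  have e4 : a * 2 ≤ a * I := mul_le_mul_of_nonneg_left (by linarith) (by linarith)
  refine ⟨?_, ?_, ?_, ?_, ?_⟩
  · rw [hp]; linarith
  · rw [hp]; linarith
  · rw [hp]; linarith
  · rw [hp]; linarith
  · rw [hp]; linarith

theorem T0.two {t0 : ℤ} (F : FP p l a b k α I h) (T : T0 p l a b k α t0) : 2 * t0 ≤ a := by
  have h1 := F.hb; have h2 := F.hk; have h3 := F.hka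
  have e1 : (t0 - 1) * 3 ≤ (t0 - 1) * (b + k) :=
    mul_le_mul_of_nonneg_left (by linarith) (by linarith [T.t3])
  have e2 := T.t2
  have e3 := F.ha4
  omega

/-- the first vector -/
theorem first1 {t0 : ℤ} (F : FP p l a b k α I h) (hkI : k < I) (T : T0 p l a b k α t0)
    (r1 : R1 p l a b k α I h) : ∃ t1 X1 j1 s1 R1 ts : ℤ, St1 p l a b k α I h t1 X1 1 j1 s1 R1 ∧
      1 ≤ ts ∧ ts ≤ t1 ∧ j1 ≤ (t1 - ts) * l ∧ j1 ≤ p - α := by
  have h1 := F.hb; have h2 := F.hk; have h3 := F.hka; have h4 := F.hh; have h5 := F.hI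
  have hIl := F.hIl; have hlp := F.hlp; have hα0 := F.hα0; have hαp := F.hαp
  have hl0 : 0 < l := by linarith
  have hp0 : 0 < p := by linarith
  have hN0 : 0 < p - α := by linarith
  have hN := F.hN
  obtain ⟨B1, B2, B3, B4, B5⟩ := F.b1 hkI
  have hal : 0 < a * l := mul_pos (by linarith) hl0
  have hkl : 0 < k * l := mul_pos (by linarith) hl0
  set ξ := h * l - (p - α) * I with hξ
  have hξ0 : 0 < ξ := by linarith
  have hξh : ξ < h * l := by
    have : 0 < (p - α) * I := mul_pos hN0 (by linarith)
    linarith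
  set L := a * l + ξ with hL
  have hL0 : 0 < L := by linarith
  have hT2 := T.t2; have hT1 := T.t1; have hT3 := T.t3; have hpt := T.pt; have hNt := T.Nt
  have h2t := T.two F
  -- the functions
  let tX : ℤ → ℤ := fun X => (p + X * (p - α)) / l
  have tX1 : ∀ X, tX X * l ≤ p + X * (p - α) := fun X => Int.ediv_mul_le _ hl0.ne'
  have tX2 : ∀ X, p + X * (p - α) < (tX X + 1) * l := fun X => Int.lt_ediv_add_one_mul_self _ hl0
  let sX : ℤ → ℤ := fun X => p * I - tX X * (k * l) - X * L
  have tXpos : ∀ X : ℤ, 0 ≤ X → 1 ≤ tX X := by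
    intro X hX
    have e1 := tX2 X
    have e2 : 0 ≤ X * (p - α) := mul_nonneg hX hN0.le
    by_contra hcon
    have e3 : tX X + 1 ≤ 1 := by linarith [not_le.1 hcon]
    have e4 : (tX X + 1) * l ≤ 1 * l := mul_le_mul_of_nonneg_right e3 hl0.le
    linarith
  have tXlt : ∀ X : ℤ, 0 ≤ X → tX X < t0 + X * (t0 - 1) := by
    intro X hX
    have e1 := tX1 X
    have e2 : X * (p - α) ≤ X * ((t0 - 1) * l) := mul_le_mul_of_nonneg_left hNt hX
    have e3 : tX X * l < (t0 + X * (t0 - 1)) * l := by linarith
    exact lt_of_mul_lt_mul_right e3 hl0.le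
  have tXR : ∀ X : ℤ, 0 ≤ X → tX X * (b + k) ≤ a + (b + k) - 1 + X * (a - 1) := by
    intro X hX
    have e1 : tX X * (b + k) ≤ (t0 + X * (t0 - 1)) * (b + k) :=
      mul_le_mul_of_nonneg_right (tXlt X hX).le (by linarith)
    have e2 : X * ((t0 - 1) * (b + k)) ≤ X * (a - 1) := mul_le_mul_of_nonneg_left hT2 hX
    linarith
  have s0pos : 0 < sX 0 := by
    have e1 : k * (tX 0 * l) ≤ k * p := by
      have := tX1 0
      exact mul_le_mul_of_nonneg_left (by linarith) (by linarith)
    have e2 : k * p < I * p := mul_lt_mul_of_pos_right hkI hp0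
    show 0 < p * I - tX 0 * (k * l) - 0 * L
    linarith
  -- from a bound `c L < p I` to the bound of the rows
  have bound : ∀ c : ℤ, 0 ≤ c → c * L < p * I → 2 * (a * c) ≤ a * I := by
    intro c hc hcL
    have e1 : c * (a * l) ≤ c * L := mul_le_mul_of_nonneg_left (by linarith) hc
    have e2 : p * I ≤ (t0 * l) * I := mul_le_mul_of_nonneg_right hpt.le (by linarith)
    have e3 : (a * c) * l < (t0 * I) * l := by linarith
    have e4 : a * c < t0 * I := lt_of_mul_lt_mul_right e3 hl0.le
    have e5 : 2 * t0 * I ≤ a * I := mul_le_mul_of_nonneg_right h2t (by linarith)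
    linarith
  -- the last positive value
  have hex : ∃ c : ℕ, sX ((c : ℤ) + 1) ≤ 0 := by
    refine ⟨(p * I).toNat, ?_⟩
    have e1 : p * I ≤ ((p * I).toNat : ℤ) := Int.self_le_toNat _
    have e2 := tXpos (((p * I).toNat : ℤ) + 1) (by positivity)
    have e3 : 0 ≤ tX (((p * I).toNat : ℤ) + 1) * (k * l) := mul_nonneg (by linarith) hkl.le
    have e4 : (((p * I).toNat : ℤ) + 1) * 1 ≤ (((p * I).toNat : ℤ) + 1) * L :=
      mul_le_mul_of_nonneg_left (by linarith) (by positivity)
    show p * I - tX _ * (k * l) - _ * L ≤ 0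
    linarith
  classical
  obtain ⟨c, hc, hmin⟩ : ∃ c : ℕ, sX ((c : ℤ) + 1) ≤ 0 ∧ ∀ d : ℕ, d < c → ¬ sX ((d : ℤ) + 1) ≤ 0 :=
    ⟨Nat.find hex, Nat.find_spec hex, fun d hd => Nat.find_min hex hd⟩
  set X : ℤ := (c : ℤ) with hX
  have hX0 : 0 ≤ X := by positivity
  have hsX : 0 < sX X := by
    rcases Nat.eq_zero_or_pos c with h0 | h0
    · rw [hX, h0]; exact s0pos
    · have := hmin (c - 1) (by omega)
      have e1 : (((c - 1 : ℕ) : ℤ) + 1) = X := by omega
      rw [e1] at this
      linarith [not_le.1 this]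
  have ets : sX X = p * I - tX X * (k * l) - X * L := rfl
  have ets' : sX (X + 1) = p * I - tX (X + 1) * (k * l) - (X + 1) * L := rfl
  have hg1 := tX1 X; have hg2 := tX2 X; have hg3 := tX1 (X + 1); have hg4 := tX2 (X + 1)
  have hp1 := tXpos X hX0; have hp2 := tXpos (X + 1) (by linarith)
  have hXL : X * L < p * I := by
    have : 0 ≤ tX X * (k * l) := mul_nonneg (by linarith) hkl.le
    linarith
  have hXb := bound X hX0 hXL
  have hRX := tXR X hX0
  have hXa0 : 0 ≤ X * a := mul_nonneg hX0 (by linarith)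
  by_cases hsL : sX X < L
  · -- the vector `(tX X, X)`
    have eR : tX X * (b + k) + X * a ≤ a + (b + k) - 1 + a * I := by linarith
    have hR0 : 0 < tX X * (b + k) := mul_pos (by linarith) (by linarith)
    have ez : sX X + l * (tX X * (b + k) + X * a) < p * l := by
      have e1 : l * (tX X * (b + k) + X * a) ≤ l * (a + (b + k) - 1 + a * I) :=
        mul_le_mul_of_nonneg_left eR hl0.le
      have e2 : (a + h + (a + (b + k) - 1 + a * I)) * l ≤ p * l :=
        mul_le_mul_of_nonneg_right B2 hl0.le
      linarith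
    have hz := r1 (tX X) X 1 (tX X * l - X * (p - α) - 1 * p) (sX X) (tX X * (b + k) + X * a) rfl
      (by rw [ets]; ring) rfl (by linarith) (by linarith) (by linarith) (by linarith) hsX hsL ez
    refine ⟨tX X, X, _, sX X, _, tX X, ⟨rfl, by rw [ets]; ring, rfl, by linarith, by linarith, hsX,
      hz, hp1, hX0⟩, hp1, le_refl _, by linarith, by linarith⟩
  · push Not at hsL
    have hX1L : (X + 1) * L < p * I := by
      have : 0 < tX X * (k * l) := mul_pos (by linarith) hkl
      linarith
    have hXb' := bound (X + 1) (by linarith) hX1L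
    have hRX' := tXR (X + 1) (by linarith)
    have eR' : tX (X + 1) * (b + k) + (X + 1) * a ≤ a + (b + k) - 1 + a * I := by linarith
    have hR0' : 0 < tX (X + 1) * (b + k) := mul_pos (by linarith) (by linarith)
    have hne := F.nz hkI (tX (X + 1)) (X + 1) 1 _ (sX (X + 1)) _ rfl (by rw [ets']; ring) rfl
      (by linarith) (by linarith) (by linarith) (by linarith)
    have hlt : sX (X + 1) < 0 := lt_of_le_of_ne hc hne
    -- the difference `m`
    have hm1 : (tX (X + 1) - tX X - 1) * l < p - α := by linarith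
    have hm2 : tX (X + 1) - tX X < t0 := by
      have : (tX (X + 1) - tX X - 1) * l < (t0 - 1) * l := by linarith
      have := lt_of_mul_lt_mul_right this hl0.le
      linarith
    have hm3 : (tX (X + 1) - tX X) * k ≤ a - 1 := by
      have e1 : (tX (X + 1) - tX X) * k ≤ (t0 - 1) * k :=
        mul_le_mul_of_nonneg_right (by linarith) (by linarith)
      have e2 : (t0 - 1) * k ≤ (t0 - 1) * (b + k) :=
        mul_le_mul_of_nonneg_left (by linarith) (by linarith)
      linarith
    have hm4 : (tX (X + 1) - tX X) * k * l ≤ (a - 1) * l := mul_le_mul_of_nonneg_right hm3 hl0.le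
    have hm5 : 0 ≤ tX (X + 1) - tX X := by
      have e1 : tX X * l < (tX (X + 1) + 1) * l := by linarith
      have := lt_of_mul_lt_mul_right e1 hl0.le
      linarith
    have hs1 : 0 < sX (X + 1) + L := by linarith
    have eR : tX (X + 1) * (b + k) + X * a ≤ a + (b + k) - 1 + a * I := by linarith
    have ez : sX (X + 1) + L + l * (tX (X + 1) * (b + k) + X * a) < p * l := by
      have e1 : l * (tX (X + 1) * (b + k) + X * a) ≤ l * (a + (b + k) - 1 + a * I) :=
        mul_le_mul_of_nonneg_left eR hl0.le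
      have e2 : (a + h + (a + (b + k) - 1 + a * I)) * l ≤ p * l :=
        mul_le_mul_of_nonneg_right B2 hl0.le
      linarith
    have hz := r1 (tX (X + 1)) X 1 (tX (X + 1) * l - X * (p - α) - 1 * p) (sX (X + 1) + L)
      (tX (X + 1) * (b + k) + X * a) rfl (by rw [ets']; ring) rfl (by linarith) (by linarith)
      (by linarith) (by linarith) hs1 (by linarith) ez
    refine ⟨tX (X + 1), X, _, sX (X + 1) + L, _, tX X, ⟨rfl, by rw [ets']; ring, rfl, by linarith,
      by linarith, hs1, hz, hp2, hX0⟩, hp1, by linarith, by linarith, by linarith⟩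

/-- one step of the chain -/
theorem step1 {t0 : ℤ} (F : FP p l a b k α I h) (hkI : k < I) (hα : l ≤ α)
    (T : T0 p l a b k α t0)
    (r1 : R1 p l a b k α I h) {t1 X1 j1 s1 Q1 ts : ℤ}
    (V1 : St1 p l a b k α I h t1 X1 1 j1 s1 Q1) (hts : 1 ≤ ts) (htt : ts ≤ t1)
    (hjt : j1 ≤ (t1 - ts) * l) (hjN : j1 ≤ p - α) {t X w j s R : ℤ}
    (V : St1 p l a b k α I h t X w j s R) :
    ∃ t' X' w' j' s' R' : ℤ, St1 p l a b k α I h t' X' w' j' s' R' ∧ R < R' := by
  have h1 := F.hb; have h2 := F.hk; have h3 := F.hka; have h4 := F.hh; have h5 := F.hI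
  have hIl := F.hIl; have hlp := F.hlp; have hα0 := F.hα0; have hαp := F.hαp
  have hl0 : 0 < l := by linarith
  have hN0 : 0 < p - α := by linarith
  have hN := F.hN
  obtain ⟨B1, B2, B3, B4, B5⟩ := F.b1 hkI
  have hal : 0 < a * l := mul_pos (by linarith) hl0
  have hkl : 0 < k * l := mul_pos (by linarith) hl0
  have hbl : 0 < b * l := mul_pos (by linarith) hl0
  have hkal : k * l < a * l := mul_lt_mul_of_pos_right (by linarith) hl0
  set ξ := h * l - (p - α) * I with hξ
  have hξ0 : 0 < ξ := by linarith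
  have hξh : ξ < h * l := by
    have : 0 < (p - α) * I := mul_pos hN0 (by linarith)
    linarith
  have hT2 := T.t2; have hT1 := T.t1; have hT3 := T.t3; have hpt := T.pt; have hNt := T.Nt
  have hhl : 0 < h * l := mul_pos (by linarith) hl0
  have hj := V.hj; have hs := V.hs; have hR := V.hR
  have hj' := V1.hj; have hs' := V1.hs; have hR' := V1.hR
  have q1 := V.j1; have q2 := V.j2; have q3 := V.s0; have q4 := V.z0; have q5 := V.t1
  have q6 := V.X0
  have u1 := V1.j1; have u2 := V1.j2; have u3 := V1.s0; have u4 := V1.z0; have u5 := V1.t1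
  have u6 := V1.X0
  have htb : b + k ≤ t * (b + k) := by
    have := mul_le_mul_of_nonneg_right q5 (show (0 : ℤ) ≤ b + k by linarith)
    linarith
  have htb' : b + k ≤ t1 * (b + k) := by
    have := mul_le_mul_of_nonneg_right u5 (show (0 : ℤ) ≤ b + k by linarith)
    linarith
  have hXa : 0 ≤ X * a := mul_nonneg q6 (by linarith)
  have hXa' : 0 ≤ X1 * a := mul_nonneg u6 (by linarith)
  have hR0 : 0 < R := by linarith
  have hR0' : 0 < Q1 := by linarith
  have hlRR : 0 < l * (R + Q1) := mul_pos hl0 (by linarith)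
  have hRR : l * (R + Q1) < l * (2 * h) := by linarith
  have hRR' : R + Q1 < 2 * h := lt_of_l F hRR
  -- bound for the ordinates: `Z < 3 ξ + b l + (a - 1) l`
  have hZp : ∀ Z : ℤ, Z < 3 * (h * l) + b * l + a * l → Z < p * l := by
    intro Z hZ
    have e3 : (3 * h + b + a) * l ≤ p * l := mul_le_mul_of_nonneg_right B5 hl0.le
    linarith
  -- after the possible addition of `G`
  by_cases hB : j + j1 ≤ -l ∧ s + s1 - k * l ≤ 0
  · -- B3
    exfalso
    obtain ⟨hA, hsk⟩ := hB
    have ejU : j + j1 + l = (t + t1 + 1) * l - (X + X1) * (p - α) - (w + 1) * p := by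
      rw [hj, hj']; ring
    have esU : s + s1 - k * l = (w + 1) * (p * I) - (t + t1 + 1) * (k * l) -
        (X + X1) * (a * l + ξ) := by rw [hs, hs']; ring
    have eRU : R + Q1 + (b + k) = (t + t1 + 1) * (b + k) + (X + X1) * a := by rw [hR, hR']; ring
    have hne := F.nz hkI _ _ _ _ _ _ ejU esU eRU (by linarith) (by linarith) (by linarith)
      (by linarith)
    have hlt : s + s1 - k * l < 0 := lt_of_le_of_ne hsk hne
    have hX1 : 1 ≤ X + X1 := by
      by_contra hcon
      have hX : X + X1 = 0 := by linarith [not_le.1 hcon]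
      have e0 : X1 = -X := by linarith
      have e1 : s + s1 = l * ((t + t1) * (I - k)) - I * (j + j1) := by
        rw [hs, hs', hj, hj', e0]; ring
      have e2 : I * (j + j1) ≤ I * (-l) := mul_le_mul_of_nonneg_left hA (by linarith)
      have e3 : 0 < l * ((t + t1) * (I - k)) :=
        mul_pos hl0 (mul_pos (by linarith) (by linarith))
      have e4 : k * l < I * l := mul_lt_mul_of_pos_right hkI hl0
      linarith
    have hXa1 : a ≤ (X + X1) * a := by
      have := mul_le_mul_of_nonneg_right hX1 (show (0 : ℤ) ≤ a by linarith)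
      linarith
    have h7 := r1 (t + t1 + 1) (X + X1 - 1) (w + 1) (j + j1 + l + (p - α))
      (s + s1 - k * l + (a * l + ξ)) (R + Q1 + (b + k) - a) (by rw [hj, hj']; ring)
      (by rw [hs, hs']; ring) (by rw [hR, hR']; ring) (by linarith) (by linarith) (by linarith)
      (by linarith) (by linarith) (by linarith) (hZp _ (by linarith))
    linarith
  -- the vector `V''`
  obtain ⟨t2, j2, s2, Q2, ej, es, eR, g1, g2, g3, g4, g5, g6, g7⟩ :
      ∃ t2 j2 s2 Q2 : ℤ, j2 = t2 * l - (X + X1) * (p - α) - (w + 1) * p ∧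
        s2 = (w + 1) * (p * I) - t2 * (k * l) - (X + X1) * (a * l + ξ) ∧
        Q2 = t2 * (b + k) + (X + X1) * a ∧ -l < j2 ∧ (j2 ≤ 0 ∨ (j2 = j + j1 ∧ t2 = t + t1)) ∧
        0 < s2 ∧ s2 < 2 * ξ ∧ s2 + l * Q2 < 2 * ξ + b * l ∧ R + Q1 ≤ Q2 ∧ t + t1 ≤ t2 := by
    by_cases hA : j + j1 ≤ -l
    · have hsk : 0 < s + s1 - k * l := by
        by_contra hcon
        exact hB ⟨hA, not_lt.1 hcon⟩
      refine ⟨t + t1 + 1, j + j1 + l, s + s1 - k * l, R + Q1 + (b + k), by rw [hj, hj']; ring,
        by rw [hs, hs']; ring, by rw [hR, hR']; ring, by linarith, Or.inl (by linarith), hsk,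
        by linarith, by linarith, by linarith, by linarith⟩
    · push Not at hA
      refine ⟨t + t1, j + j1, s + s1, R + Q1, by rw [hj, hj']; ring,
        by rw [hs, hs']; ring, by rw [hR, hR']; ring, hA, Or.inr ⟨rfl, rfl⟩, by linarith,
        by linarith, by linarith, by linarith, by linarith⟩
  have hX2 : 0 ≤ X + X1 := by linarith
  have hXa2 : 0 ≤ (X + X1) * a := mul_nonneg hX2 (by linarith)
  have hQ2 : l * Q2 < l * (2 * h + b) := by linarith
  have hQ2' : Q2 < 2 * h + b := lt_of_l F hQ2
  have hj2 : j2 < 2 * (p - α) + l := by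
    rcases g2 with g2 | ⟨g2, _⟩
    · linarith
    · rw [g2]; linarith
  by_cases hsL : s2 < a * l + ξ
  · by_cases hjj : j2 < p - α + l
    · -- (i)
      refine ⟨t2, X + X1, w + 1, j2, s2, Q2, ⟨ej, es, eR, g1, hjj, g3, ?_, by linarith, hX2⟩,
        by linarith⟩
      exact r1 _ _ _ _ _ _ ej es eR g1 hjj (by linarith) (by linarith) g3 hsL (hZp _ (by linarith))
    · -- (ii)
      push Not at hjj
      rcases g2 with g2 | ⟨g2, g2'⟩
      · exfalso; linarith
      set m := (j2 - (p - α)) / l with hm
      have m1 : m * l ≤ j2 - (p - α) := Int.ediv_mul_le _ hl0.ne'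
      have m2 : j2 - (p - α) < (m + 1) * l := Int.lt_ediv_add_one_mul_self _ hl0
      have m3 : 1 ≤ m := by
        by_contra hcon
        have e3 : m + 1 ≤ 1 := by linarith [not_le.1 hcon]
        have e4 : (m + 1) * l ≤ 1 * l := mul_le_mul_of_nonneg_right e3 hl0.le
        linarith
      have m4 : m ≤ t1 - ts := by
        have e1 : (m - 1) * l < (t1 - ts) * l := by linarith
        have := lt_of_mul_lt_mul_right e1 hl0.le
        linarith
      have m5 : 0 < m * (k * l) := mul_pos (by linarith) hkl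
      have m6 : 0 < m * (b * l) := mul_pos (by linarith) hbl
      have m7 : t * (b + k) < (t2 - m) * (b + k) :=
        mul_lt_mul_of_pos_right (by linarith) (by linarith)
      by_cases hc : s2 + m * (k * l) < a * l + ξ
      · have ej' : j2 - m * l = (t2 - m) * l - (X + X1) * (p - α) - (w + 1) * p := by rw [ej]; ring
        have es' : s2 + m * (k * l) = (w + 1) * (p * I) - (t2 - m) * (k * l) -
            (X + X1) * (a * l + ξ) := by rw [es]; ring
        have eR' : Q2 - m * (b + k) = (t2 - m) * (b + k) + (X + X1) * a := by rw [eR]; ring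
        have m8 : 0 < m * (b + k) := mul_pos (by linarith) (by linarith)
        have m9 : R < Q2 - m * (b + k) := by rw [eR', hR]; linarith
        refine ⟨t2 - m, X + X1, w + 1, _, _, _, ⟨ej', es', eR', by linarith, by linarith,
          by linarith, ?_, by linarith, hX2⟩, m9⟩
        refine r1 _ _ _ _ _ _ ej' es' eR' (by linarith) (by linarith) (by linarith)
          (by linarith) (by linarith) hc (hZp _ (by linarith))
      · push Not at hc
        have ej' : j2 - m * l - (p - α) = (t2 - m) * l - (X + X1 + 1) * (p - α) - (w + 1) * p := by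
          rw [ej]; ring
        have es' : s2 + m * (k * l) - (a * l + ξ) = (w + 1) * (p * I) - (t2 - m) * (k * l) -
            (X + X1 + 1) * (a * l + ξ) := by rw [es]; ring
        have eR' : Q2 - m * (b + k) + a = (t2 - m) * (b + k) + (X + X1 + 1) * a := by rw [eR]; ring
        have m9 : R < Q2 - m * (b + k) + a := by rw [eR', hR]; linarith
        have hZ : s2 + m * (k * l) - (a * l + ξ) + l * (Q2 - m * (b + k) + a) < ξ + b * l := by
          linarith
        have hQb : Q2 - m * (b + k) + a < h + b := lt_of_l F (by linarith)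
        have hne := F.nz hkI _ _ _ _ _ _ ej' es' eR' (by linarith) (by linarith) (by linarith)
          (by linarith)
        have hpos : 0 < s2 + m * (k * l) - (a * l + ξ) := lt_of_le_of_ne (by linarith) (Ne.symm hne)
        refine ⟨t2 - m, X + X1 + 1, w + 1, _, _, _, ⟨ej', es', eR', by linarith, by linarith,
          hpos, ?_, by linarith, by linarith⟩, m9⟩
        -- `Z = Z' - m b l - ξ < ξ`
        have hZ' : s + s1 + l * (R + Q1) < 2 * ξ := by linarith
        have e1 : s2 = s + s1 := by
          rw [es, g2', hs, hs']; ring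
        have e2 : Q2 = R + Q1 := by
          rw [eR, g2', hR, hR']; ring
        rw [e1, e2]
        linarith
  · push Not at hsL
    have hlQ2 : l * Q2 < ξ + b * l - a * l := by linarith
    by_cases hjj : -l < j2 - (p - α)
    · -- (iii), first case
      have ej' : j2 - (p - α) = t2 * l - (X + X1 + 1) * (p - α) - (w + 1) * p := by rw [ej]; ring
      have es' : s2 - (a * l + ξ) = (w + 1) * (p * I) - t2 * (k * l) -
          (X + X1 + 1) * (a * l + ξ) := by rw [es]; ring
      have eR' : Q2 + a = t2 * (b + k) + (X + X1 + 1) * a := by rw [eR]; ring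
      have hQb : Q2 + a < h + b := lt_of_l F (by linarith)
      have hne := F.nz hkI _ _ _ _ _ _ ej' es' eR' hjj (by linarith) (by linarith) (by linarith)
      have hpos : 0 < s2 - (a * l + ξ) := lt_of_le_of_ne (by linarith) (Ne.symm hne)
      refine ⟨t2, X + X1 + 1, w + 1, _, _, _, ⟨ej', es', eR', hjj, by linarith, hpos, ?_,
        by linarith, by linarith⟩, by linarith⟩
      exact r1 _ _ _ _ _ _ ej' es' eR' hjj (by linarith) (by linarith) (by linarith) hpos
        (by linarith) (hZp _ (by linarith))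
    · push Not at hjj
      set m := ((p - α) - j2) / l with hm
      have m1 : m * l ≤ (p - α) - j2 := Int.ediv_mul_le _ hl0.ne'
      have m2 : (p - α) - j2 < (m + 1) * l := Int.lt_ediv_add_one_mul_self _ hl0
      have m3 : 1 ≤ m := by
        by_contra hcon
        have e3 : m + 1 ≤ 1 := by linarith [not_le.1 hcon]
        have e4 : (m + 1) * l ≤ 1 * l := mul_le_mul_of_nonneg_right e3 hl0.le
        linarith
      have m4 : m < t0 := by
        have e1 : m * l < t0 * l := by linarith
        exact lt_of_mul_lt_mul_right e1 hl0.le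
      have m5 : m * (b + k) ≤ a - 1 := by
        have e1 : m * (b + k) ≤ (t0 - 1) * (b + k) :=
          mul_le_mul_of_nonneg_right (by linarith) (by linarith)
        linarith
      have m5k : m * k ≤ a - 1 := by
        have : 0 ≤ m * b := mul_nonneg (by linarith) (by linarith)
        linarith
      have m5b : m * b ≤ a - 1 := by
        have : 0 ≤ m * k := mul_nonneg (by linarith) (by linarith)
        linarith
      have m6 : m * k * l ≤ (a - 1) * l := mul_le_mul_of_nonneg_right m5k hl0.le
      have m7 : m * b * l ≤ (a - 1) * l := mul_le_mul_of_nonneg_right m5b hl0.le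
      have m8 : 0 < m * (b + k) := mul_pos (by linarith) (by linarith)
      have m9 : 0 < m * (k * l) := mul_pos (by linarith) hkl
      have hQa : Q2 + a < h + b := lt_of_l F (by linarith)
      have ej' : j2 - (p - α) + m * l = (t2 + m) * l - (X + X1 + 1) * (p - α) - (w + 1) * p := by
        rw [ej]; ring
      have es' : s2 - (a * l + ξ) - m * (k * l) = (w + 1) * (p * I) - (t2 + m) * (k * l) -
          (X + X1 + 1) * (a * l + ξ) := by rw [es]; ring
      have eR' : Q2 + a + m * (b + k) = (t2 + m) * (b + k) + (X + X1 + 1) * a := by rw [eR]; ring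
      have hne := F.nz hkI _ _ _ _ _ _ ej' es' eR' (by linarith) (by linarith) (by linarith)
        (by linarith)
      rcases lt_or_gt_of_ne hne with hneg | hpos
      · -- add only `m G`
        have ej'' : j2 + m * l = (t2 + m) * l - (X + X1) * (p - α) - (w + 1) * p := by
          rw [ej]; ring
        have es'' : s2 - m * (k * l) = (w + 1) * (p * I) - (t2 + m) * (k * l) -
            (X + X1) * (a * l + ξ) := by rw [es]; ring
        have eR'' : Q2 + m * (b + k) = (t2 + m) * (b + k) + (X + X1) * a := by rw [eR]; ring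
        have hpos' : 0 < s2 - m * (k * l) := by linarith
        refine ⟨t2 + m, X + X1, w + 1, _, _, _, ⟨ej'', es'', eR'', by linarith, by linarith,
          hpos', ?_, by linarith, hX2⟩, by linarith⟩
        exact r1 _ _ _ _ _ _ ej'' es'' eR'' (by linarith) (by linarith) (by linarith)
          (by linarith) hpos' (by linarith) (hZp _ (by linarith))
      · refine ⟨t2 + m, X + X1 + 1, w + 1, _, _, _, ⟨ej', es', eR', by linarith, by linarith,
          hpos, ?_, by linarith, by linarith⟩, by linarith⟩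
        exact r1 _ _ _ _ _ _ ej' es' eR' (by linarith) (by linarith) (by linarith)
          (by linarith) hpos (by linarith) (hZp _ (by linarith))

/-- the case `l ≤ α`, `p < t0 l` -/
theorem case1 {t0 : ℤ} (F : FP p l a b k α I h) (hkI : k < I) (hα : l ≤ α)
    (T : T0 p l a b k α t0) (r1 : R1 p l a b k α I h) : False := by
  obtain ⟨t1, X1, j1, s1, Q1, ts, V1, hts, htt, hjt, hjN⟩ := first1 F hkI T r1
  have h1 := F.hb; have h2 := F.hk
  have key : ∀ c : ℕ, ∃ t X w j s R : ℤ, St1 p l a b k α I h t X w j s R ∧ (c : ℤ) ≤ R := by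
    intro c
    induction c with
    | zero =>
      refine ⟨t1, X1, 1, j1, s1, Q1, V1, ?_⟩
      have e1 : 0 ≤ t1 * (b + k) := mul_nonneg (by linarith [V1.t1]) (by linarith)
      have e2 : 0 ≤ X1 * a := mul_nonneg V1.X0 (by linarith [F.hka])
      rw [V1.hR]
      push_cast
      linarith
    | succ c ih =>
      obtain ⟨t, X, w, j, s, R, V, hc⟩ := ih
      obtain ⟨t', X', w', j', s', R', V', hR⟩ := step1 F hkI hα T r1 V1 hts htt hjt hjN V
      refine ⟨t', X', w', j', s', R', V', ?_⟩
      push_cast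
      linarith
  obtain ⟨t, X, w, j, s, R, V, hc⟩ := key (h * l).toNat
  have h1 : 1 ≤ l := by have := F.hI; have := F.hIl; linarith
  have h2 : h * l ≤ R := le_trans (Int.self_le_toNat _) hc
  have h3 := V.z0
  have h4 := V.s0
  have hv0 : 0 ≤ h * l := by
    have := F.hh
    positivity
  have h6 : 0 ≤ (p - α) * I := by
    have := F.hαp; have := F.hI
    exact mul_nonneg (by linarith) (by linarith)
  have h5 : 1 * R ≤ l * R := mul_le_mul_of_nonneg_right h1 (le_trans hv0 h2)
  linarith

end Helper12.TX.Fin
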