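import Pool.Agent.Helper12.TX.StB

set_option autoImplicit false
set_option linter.unusedSectionVars false

/-!
Project TX, module VD: the jumps of the progression
-/

namespace Helper12.TX

open Helper11.N1 Helper55.KE Helper73.TM

namespace VDaux

section

variable {p l a b k : ℕ} [NeZero p] [NeZero l] {z : ZMod p → ZMod (p * l)} {i0 ρ : ZMod p}
  {τ : ZMod (p * l)} {y u : ZMod p → ZMod (p * l) → ℤ}

/-- the index of a row step `a` -/
def al (p a : ℕ) (ρ : ZMod p) : ℕ := ((a : ZMod p) * ρ⁻¹).val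

theorem al_lt : al p a ρ < p := ZMod.val_lt _

theorem al_cast : ((al p a ρ : ℕ) : ZMod p) = (a : ZMod p) * ρ⁻¹ := by
  unfold al
  rw [ZMod.natCast_zmod_val]

theorem al_mul (h : TW p l a b k z i0 ρ τ y u) : ((al p a ρ : ℕ) : ZMod p) * ρ = a := by
  rw [al_cast, mul_assoc, ZMod.inv_mul_of_unit _ h.hE.hAP.1, mul_one]

theorem a_ne (h : TW p l a b k z i0 ρ τ y u) : ((a : ℕ) : ZMod p) ≠ 0 := by
  have h1 := h.h2a
  have h2 := h.hE.hP.ha
  exact h.nat_ne (by omega) (by omega)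

theorem al_pos (h : TW p l a b k z i0 ρ τ y u) : 0 < al p a ρ := by
  rcases Nat.eq_zero_or_pos (al p a ρ) with h0 | h0
  · exfalso
    have h1 := al_mul h
    rw [h0, Nat.cast_zero, zero_mul] at h1
    exact a_ne h h1.symm
  · exact h0

theorem ix_cast (j : ZMod p) : ((ix i0 ρ j : ℕ) : ZMod p) = (j - i0) * ρ⁻¹ := by
  unfold ix
  rw [ZMod.natCast_zmod_val]

theorem ix_sub_ge (j : ZMod p) (hj : al p a ρ ≤ ix i0 ρ j) :
    ix i0 ρ (j - a) + al p a ρ = ix i0 ρ j := by
  have h1 : (j - a - i0) * ρ⁻¹ = ((ix i0 ρ j - al p a ρ : ℕ) : ZMod p) := by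
    rw [Nat.cast_sub hj, ix_cast, al_cast]
    ring
  have h2 : ix i0 ρ (j - a) = ix i0 ρ j - al p a ρ := by
    conv_lhs => unfold ix
    rw [h1]
    exact ZMod.val_natCast_of_lt (lt_of_le_of_lt (Nat.sub_le _ _) (TW.ix_lt i0 ρ j))
  omega

theorem ix_sub_lt (j : ZMod p) (hj : ix i0 ρ j < al p a ρ) :
    ix i0 ρ (j - a) + al p a ρ = ix i0 ρ j + p := by
  have hp : al p a ρ < p := al_lt
  have h1 : (j - a - i0) * ρ⁻¹ = ((ix i0 ρ j + p - al p a ρ : ℕ) : ZMod p) := by
    rw [Nat.cast_sub (by omega), Nat.cast_add, ZMod.natCast_self, ix_cast, al_cast]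
    ring
  have h2 : ix i0 ρ (j - a) = ix i0 ρ j + p - al p a ρ := by
    conv_lhs => unfold ix
    rw [h1]
    exact ZMod.val_natCast_of_lt (by omega)
  omega

theorem z_ge (h : TW p l a b k z i0 ρ τ y u) (j : ZMod p) (hj : al p a ρ ≤ ix i0 ρ j) :
    z j - z (j - a) = (al p a ρ : ZMod (p * l)) * τ := by
  have h1 := h.z_ix j
  have h2 := h.z_ix (j - a)
  have h3 := congrArg (fun n : ℕ => (n : ZMod (p * l))) (ix_sub_ge (a := a) j hj)
  simp only [Nat.cast_add] at h3
  rw [h1, h2]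
  linear_combination (-τ) * h3

theorem z_lt (h : TW p l a b k z i0 ρ τ y u) (j : ZMod p) (hj : ix i0 ρ j < al p a ρ) :
    z j - z (j - a) = (al p a ρ : ZMod (p * l)) * τ - (p : ZMod (p * l)) * τ := by
  have h1 := h.z_ix j
  have h2 := h.z_ix (j - a)
  have h3 := congrArg (fun n : ℕ => (n : ZMod (p * l))) (ix_sub_lt (a := a) j hj)
  simp only [Nat.cast_add] at h3
  rw [h1, h2]
  linear_combination (-τ) * h3

theorem val_cop (h : TW p l a b k z i0 ρ τ y u) : (τ.val % l).Coprime l := by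
  obtain ⟨w, hw⟩ := h.hE.hu
  have h1 : (τ.val).Coprime (p * l) := by
    rw [← hw]
    exact ZMod.val_coe_unit_coprime w
  have h2 : (τ.val).Coprime l := Nat.Coprime.coprime_dvd_right (dvd_mul_left l p) h1
  unfold Nat.Coprime at h2 ⊢
  rw [← Nat.gcd_rec, Nat.gcd_comm]
  exact h2

theorem pt : (p : ZMod (p * l)) * τ = ((p * (τ.val % l) : ℕ) : ZMod (p * l)) := by
  have h1 : (τ.val : ZMod (p * l)) = τ := ZMod.natCast_zmod_val τ
  have h2 : p * τ.val = p * l * (τ.val / l) + p * (τ.val % l) := by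
    conv_lhs => rw [← Nat.div_add_mod τ.val l]
    ring
  have h3 := congrArg (fun n : ℕ => (n : ZMod (p * l))) h2
  simp only [Nat.cast_add, Nat.cast_mul] at h3
  rw [h1] at h3
  have h4 : ((p : ZMod (p * l)) * (l : ZMod (p * l))) = 0 := by
    rw [← Nat.cast_mul, ZMod.natCast_self]
  rw [h3, h4, zero_mul, zero_add]
  push_cast
  ring

/-- row `i0 - β` has index `p - l` -/
theorem z_beta (h : TW p l a b k z i0 ρ τ y u) :
    z (i0 - ((b + k : ℕ) : ZMod p)) = z i0 + ((p * (τ.val % l) + b * l : ℕ) : ZMod (p * l)) := by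
  have hlp := h.hE.hlp
  have hl0 := h.hl0
  have h1 : i0 - ((b + k : ℕ) : ZMod p) = i0 + ((p - l : ℕ) : ZMod p) * ρ := by
    rw [Nat.cast_sub hlp.le, ZMod.natCast_self, zero_sub, neg_mul, h.lρ]
    ring
  rw [h1, h.hE.zn (by omega), Nat.cast_sub hlp.le]
  have h2 : ((p * (τ.val % l) + b * l : ℕ) : ZMod (p * l)) =
      (p : ZMod (p * l)) * τ - (l : ZMod (p * l)) * τ := by
    rw [h.hE.hlt, pt]
    push_cast
    ring
  rw [h2]
  ring

theorem ix_i0 : ix i0 ρ i0 = 0 := by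
  unfold ix
  rw [sub_self, zero_mul, ZMod.val_zero]

/-- the main inequality -/
theorem main (hLT : StLT) (hSep : StSep) (h : TW p l a b k z i0 ρ τ y u) :
    off (z (i0 - a)) (z i0) + p * (τ.val % l) + 2 * (b * l) ≤ p * l := by
  have hβ := hLT p l a b k z i0 ρ τ y u h
  have h2a := h.h2a
  have hb := h.hE.hP.hb
  have ha := h.hE.hP.ha
  have hl0 := h.hl0
  have hIl : τ.val % l < l := Nat.mod_lt _ hl0
  have hsep := (hSep p l a b k z i0 ρ τ y u h).1
  have hβp : ((b + k : ℕ) : ZMod p).val = b + k := ZMod.val_natCast_of_lt (by omega)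
  have hne : i0 ≠ i0 - ((b + k : ℕ) : ZMod p) := by
    intro h1
    have h2 : ((b + k : ℕ) : ZMod p) = 0 := by linear_combination h1
    exact h.nat_ne (by omega) (by omega) h2
  have hR1 : aR a (i0 + 1) i0 := by
    unfold aR
    rw [show i0 + 1 - 1 - i0 = 0 by ring, ZMod.val_zero]
    omega
  have hB1 : aB b (i0 + 1) i0 := by
    unfold aB
    rw [show i0 + 1 - 1 - i0 = 0 by ring, ZMod.val_zero]
    omega
  have hR2 : aR a (i0 + 1) (i0 - ((b + k : ℕ) : ZMod p)) := by
    unfold aR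
    rw [show i0 + 1 - 1 - (i0 - ((b + k : ℕ) : ZMod p)) = ((b + k : ℕ) : ZMod p) by ring, hβp]
    omega
  have hB2 : ¬ aB b (i0 + 1) (i0 - ((b + k : ℕ) : ZMod p)) := by
    unfold aB
    rw [show i0 + 1 - 1 - (i0 - ((b + k : ℕ) : ZMod p)) = ((b + k : ℕ) : ZMod p) by ring, hβp]
    omega
  have hl1 : len l a b z (i0 + 1) i0 = b * l + off (z (i0 - a)) (z i0) := by
    unfold len
    rw [if_pos hB1]
  have hl2 : len l a b z (i0 + 1) (i0 - ((b + k : ℕ) : ZMod p)) = b * l := by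
    unfold len
    rw [if_neg hB2, add_zero]
  have hbl : 0 < b * l := Nat.mul_pos (by omega) hl0
  have hpI : p * (τ.val % l) + p ≤ p * l := by
    have : p * (τ.val % l + 1) ≤ p * l := Nat.mul_le_mul_left p hIl
    linarith [this]
  have hblpl : b * l < p * l := Nat.mul_lt_mul_of_pos_right (by omega) hl0
  have hlt1 : p * (τ.val % l) + b * l < p * l := by
    by_contra hcon
    have hge : p * l ≤ p * (τ.val % l) + b * l := not_lt.1 hcon
    have h1 : z (i0 - ((b + k : ℕ) : ZMod p)) =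
        z i0 + ((p * (τ.val % l) + b * l - p * l : ℕ) : ZMod (p * l)) := by
      rw [z_beta h, Nat.cast_sub hge, ZMod.natCast_self, sub_zero]
    refine hne (hsep (i0 + 1) i0 _ (z i0) hR1 hR2 ?_ ?_)
    · rw [off_self, hl1]
      omega
    · rw [hl2, h1, off_nat _ (by omega)]
      omega
  have hD : off (z i0) (z (i0 - ((b + k : ℕ) : ZMod p))) = p * (τ.val % l) + b * l := by
    rw [z_beta h, off_nat _ hlt1]
  have hsym := off_symm (x := z i0) (y := z (i0 - ((b + k : ℕ) : ZMod p)))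
    (fun h1 => hne (h.zinj h1))
  rw [hD] at hsym
  by_contra hcon
  refine hne (hsep (i0 + 1) i0 _ (z (i0 - ((b + k : ℕ) : ZMod p))) hR1 hR2 ?_ ?_)
  · rw [hl1]
    omega
  · rw [off_self, hl2]
    exact hbl

end

end VDaux

open VDaux in
theorem vd : StLT → StSep → StVD := by
  intro hLT hSep p l a b k _ _ z i0 ρ τ y u h
  have hmain := main hLT hSep h
  have hl0 := h.hl0
  have hl2 := h.hE.hl2
  have hαp : al p a ρ < p := al_lt
  have hα0 := al_pos h
  set α : ℕ := al p a ρ with hα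
  set I : ℕ := τ.val % l with hI
  set ξ : ℕ := off (z (i0 - a)) (z i0) with hξ
  have hIl : I < l := Nat.mod_lt _ hl0
  have hIc : I.Coprime l := val_cop h
  have hI1 : 1 ≤ I := by
    rcases Nat.eq_zero_or_pos I with h0 | h0
    · exfalso
      rw [h0, Nat.coprime_zero_left] at hIc
      omega
    · exact h0
  have hξ0 : 0 < ξ := by
    rcases Nat.eq_zero_or_pos ξ with h0 | h0
    · exfalso
      have h1 := h.zinj (off_eq_zero.1 h0)
      exact a_ne h (by linear_combination -h1)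
    · exact h0
  have hξz : ((ξ : ℕ) : ZMod (p * l)) = (α : ZMod (p * l)) * τ - (p : ZMod (p * l)) * τ := by
    rw [← z_lt h i0 (by rw [ix_i0]; exact hα0), hξ]
    unfold off
    rw [ZMod.natCast_zmod_val]
  have hbl : 0 < b * l := Nat.mul_pos (by have := h.hE.hP.hb; omega) hl0
  have hvlt : ξ + p * I < p * l := by omega
  have hατ : (α : ZMod (p * l)) * τ = ((ξ + p * I : ℕ) : ZMod (p * l)) := by
    rw [Nat.cast_add, hξz, ← pt]
    ring
  -- the residue modulo `l`
  have hαI : α * I < ξ + p * I := by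
    have : α * I ≤ p * I := Nat.mul_le_mul_right I hαp.le
    omega
  have hdvd : l ∣ ξ + p * I - α * I := by
    have h1 : ((α * τ.val : ℕ) : ZMod (p * l)) = ((ξ + p * I : ℕ) : ZMod (p * l)) := by
      rw [← hατ, Nat.cast_mul, ZMod.natCast_zmod_val]
    rw [ZMod.natCast_eq_natCast_iff] at h1
    have h2 : α * τ.val ≡ ξ + p * I [MOD l] := h1.of_mul_left p
    have h3 : α * I ≡ α * τ.val [MOD l] := (Nat.mod_modEq τ.val l).mul_left α
    exact (Nat.modEq_iff_dvd' hαI.le).1 (h3.trans h2)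
  obtain ⟨c, hc⟩ := hdvd
  have hv : ξ + p * I = α * I + c * l := by
    rw [mul_comm c l, ← hc]
    omega
  have hc1 : 1 ≤ c := by
    rcases Nat.eq_zero_or_pos c with h0 | h0
    · exfalso
      rw [h0, zero_mul] at hv
      omega
    · exact h0
  refine ⟨α, I, c, ξ, ⟨hα0, hαp, al_mul h, hI1, hIl, hIc, pt, hc1, hξ0, hv, ?_, ?_, ?_, ?_⟩⟩
  · rw [← hv]
    exact hατ
  · rw [← hv, mul_assoc]
    exact hmain
  · intro j hj
    rw [← hv]
    unfold off
    rw [z_ge h j hj, hατ, ZMod.val_natCast_of_lt hvlt]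
  · intro j hj
    unfold off
    rw [z_lt h j hj, ← hξz, ZMod.val_natCast_of_lt (by omega)]

end Helper12.TX

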