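import Pool.Agent.Helper12.TX.Api

set_option autoImplicit false

/-!
Project TX (MP_0a4b47_nt, ties, empty overlap set, `k > 0`: the world `TW` is impossible).
Statements with complete proofs in the docstrings.  Definitions in `Defs.lean`; PROVED in
`Api.lean`: `TW.zinj`, `TW.ix_eq`, `TW.ix_at`, `TW.z_ix`, `TW.co`, `TW.tied` (coincidences of
vertical letters), `TW.bb`, `TW.tt`, `TW.tb` (horizontal letters), `TW.yj`, `TW.uj` (the jumps as
indicators), `TW.ss`, `TW.nat_ne`.  Many proofs are
adaptations of project N1 (`Helper11/N1/StA.lean`, `StB.lean`), where no two letters coincide.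

Conventions: `M = p l`, `β = b + k`, `3 ≤ β ≤ a`, `2 a < p`, `e n = n l` (`e_natCast`),
`z` is injective (`EX.zinj`).  COINCIDENCES OF VERTICAL LETTERS (`EX.tie_iff`, `EX.row`):
`z i - b l = z j` implies `i = j - β` and `l ≤ ix j`; conversely `l ≤ ix j` implies
`z (j - β) - b l = z j` (row `j` is TIED).  At a level `W` the tied sides `R j`, `L (j - β)` are
both active iff `(W-1-j).val < a - k`; only `L` is active for `W - 1 - j ∈ {-k..-1}`, only `R` for
`(W-1-j).val ∈ {a-k..a-1}`.
COINCIDENCES OF HORIZONTAL LETTERS: two `B` (or two `T`) sides active at the same level are never at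
the same place (if `sc i = sc j` then `z i - z j = e (j - i)` is less than `b l` in absolute value,
so the boxes meet; `Disj`).  If `sc m + a l = sc j` with `T m`, `B j` both active at `W`, then
`z j - z m = a l - e (j - m) = x l` with `-b < x < b` (both `(W-1-j).val` and `(W-a-1-m).val` are
`< b`, their difference is `x`), and `x ≠ 0` by injectivity of `z`.
-/

namespace Helper12.TX

open Helper11.N1 Helper55.KE Helper73.TM

/-- ND1 (no dependence).

PROOF.  By the hypotheses `e (j - m) = a l - x l`, so `j = m + a - x` (`e_inj`).  Level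
`W = m + a`: `(W-1-j).val = x - 1 < b`, so `B j` is active; the line point
`(z m, z m + e W) = (z m, sc m + a l)` lies in the box `m`, so `u S = 0` for `S = sc m + a l = sc j`
(`inn`).  By `uJ` at `S`: `u (S+1) - 0 = #T - #B`, and `#B ≥ 1`, `u (S+1) ≥ 0`, so some `T m'` with
`sc m' + a l = S` is active: `sc m' = sc m`, `(W-a-1-m').val < b`, i.e. `m' = m - 1 - x'`, `x' < b`
(`x' = (m-1-m').val`), `z m' - z m = e (m - m') = (x'+1) l`.  If `x' + 1 < b` then the point
`(z m, sc m + 1)` is in both boxes `m`, `m'`, so `m = m'`, impossible (`0 < x' + 1 < p`).  If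
`x' + 1 = b` then `z m' - b l = z m`, so `m' = m - β`, so `b ≡ b + k (mod p)`, impossible. -/
def StND1 : Prop := ∀ (p l a b k : ℕ) [NeZero p] [NeZero l] (z : ZMod p → ZMod (p * l))
  (i0 ρ : ZMod p) (τ : ZMod (p * l)) (y u : ZMod p → ZMod (p * l) → ℤ),
  TW p l a b k z i0 ρ τ y u → ∀ (m j : ZMod p) (x : ℕ), 0 < x → x < b →
  z j = z m + ((x * l : ℕ) : ZMod (p * l)) → sc l z m + a * l = sc l z j → False

/-- ROW (to prove: `theorem row : StND1 → StRow`).  The same formulas as in N1 (module ROW,
`Helper11/N1/M_ROW.lean`).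

PROOF.  Put `c x = y j x - y (j+1) x`, `c' x = u j (x + e j) - u (j+1) (x + e j)`, `P = z j`,
`r = z (j - a)`, `L = z (j - b) - b l`, `t = z (j - a - b) - b l`.
(0) They are pairwise different, by injectivity of `z` and the coincidence rule: `P = L` would give
`j - b = j - β` (`k = 0`); `P = t`: `a + b = β`, i.e. `a = k`; `r = L`: `j - b = j - a - β`, i.e.
`a + k = 0`; `r = t`: `j - a - b = j - a - β`, `k = 0`; all impossible modulo `p`.
(1) `c (x+1) - c x = [x = P] + [x = t] - [x = r] - [x = L]` and the same for `c'`: in the sums `yJ` at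
`j` and at `j + 1` only the sides of the header of N1 differ (`aR`: `j` is new, `j - a` is lost;
`aL`: `j - b` is new, `j - a - b` is lost; `aB`: `j` is new, `j - b` is lost; `aT`: `j - a` is new,
`j - a - b` is lost), and the place of a horizontal side `S` is `S - e j`:
`sc (j-a) + a l = r + e j`, `sc (j-a-b) + a l = t + e j`, `sc (j-b) = L + e j`, `sc j = P + e j`.
(2) `c = c'`: the difference is constant by (1); at `P`.  `y (j+1) P = 1` (the line point
`(z j, z j + e (j+1))` of level `j+1` is in the box `j`).  The sides at `S = sc j` active at level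
`j + 1`: `B j`, no other `B`, at most one `T`.  If there is no `T`: `u (j+1) S = 1` (`uJ`), and the
point `(z j, sc j)` is in no box: a box `i` containing it is not `j`, and `(z j, sc j + 1)` is in the
box `j`, so not in the box `i`, so `sc i + a l = sc j`, `off (z j) (z i) < b l`,
`z i - z j = e (j - a - i)`, so `(j-a-i).val < b`, which means that `T i` is active at level `j + 1`,
contradiction; so `y j P = u j (P + e j)` by `out`, and `c P = c' P`.  If `T i` is there: by the
header `z j = z i + x l`, `0 < |x| < b`; `x > 0` is impossible by ND1; so `z i = z j + |x| l`, the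
point `(z j, sc j)` (a line point of level `j`) is in the box `i`, `y j P = 1`, `u j S = 0`; the jump
of `u (j+1)` at `S` is `0` and the line point of level `j + 1` over `S + 1` is in the box `j`
(`X = z j + 1 - l`), so `u (j+1) S = u (j+1) (S+1) = 0`.  Again `c P = c' P`.
(3) `c L = 1`: the line point `L + 1` of level `j` is in the box `j - b`, so `y j (L+1) = 1`.  The only
vertical sides at `L` are `L (j-b)` and possibly `R (j+k)` (tie).  At level `j` both are inactive
(`(-1).val ≥ a`, `(-1-k).val ≥ a`), so `y j L = 1`; at level `j + 1` only `L (j - b)` is active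
(`(-k).val ≥ a`), so `y (j+1) L = 0`.
(4) `c' r = 0`: the line point `r` of level `j` is in the box `j - a`, so `u j (r + e j) = 0`.  At
level `j + 1` the side `T (j-a)` is active at `S = r + e j = sc (j-a) + a l`, no other `T`.  If no `B`
is active there then `u (j+1) S = 0`.  If `B i` is active: `(j-i).val < b` and
`z i - z (j-a) = a l - e (i-j+a) = e (j - i) = x l`, `x = (j-i).val < b`; `x = 0` gives
`z j = z (j-a)`, impossible; `x > 0` contradicts ND1 (`m = j - a`).
(5) As in N1: for `1 ≤ n ≤ M`, `c (r + n) = -1 + [π < n] + [σ < n] - [λ < n]`, `π = off r P`,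
`σ = off r t`, `λ = off r L ≥ 1`; at `n = λ` this is `1`, so `π < λ`, `σ < λ`, and the formulas
follow. -/
def StRow : Prop := ∀ (p l a b k : ℕ) [NeZero p] [NeZero l] (z : ZMod p → ZMod (p * l))
  (i0 ρ : ZMod p) (τ : ZMod (p * l)) (y u : ZMod p → ZMod (p * l) → ℤ),
  TW p l a b k z i0 ρ τ y u → ∀ j : ZMod p, open Classical in
  (∀ x, y j x - y (j + 1) x = (if A l a z (j - b) (x + b * l) then 1 else 0) -
    (if A l a z j x then 1 else 0)) ∧
  (∀ x, u j (x + e p l j) - u (j + 1) (x + e p l j) =
    (if A l a z (j - b) (x + b * l) then 1 else 0) - (if A l a z j x then 1 else 0)) ∧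
  off (z (j - a)) (z j) < off (z (j - a)) (z (j - b) - b * l) ∧
  off (z (j - a)) (z (j - a - b) - b * l) < off (z (j - a)) (z (j - b) - b * l)

/-- AL (to prove: `theorem al : StRow → StAL`).  In every row `P` comes before `t`.

PROOF.  `P ≠ t` (see ROW (0)).  Let `Z j` be the statement `∀ X, H j X → y (j+1) X = 0`.  In terms of
`n` with `X = r + n`, `1 ≤ n ≤ M`: `H j X` iff `π < n ≤ λ`.
(i) If `t` comes before `P` (`σ < π`) then `Z j`: for `π < n ≤ λ` ROW gives
`y j X - y (j+1) X = [σ < n ≤ λ] - [n ≤ π] = 1`.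
(ii) `Z j` is false for a tied row: `R j` and `L (j - β)` are both active at level `j + 1` at `z j`
(`(j+1-b-1-(j-β)).val = k < a`), no other vertical side is there, so the jump is `0`, and
`y (j+1) (z j) = 1` (line point in the box `j`), so `y (j+1) (z j + 1) = 1`; but `H j (z j + 1)`
holds since `0 < off (z j) (z (j-b) - b l)`.
(iii) If `Z j` and `j` is not tied then `YY j`: induction on `n < a`, level `W = j + 1 + n`, claim
`y W = 0` on `H j`.  Step to `W + 1`: `R j` is active, and no `L` is at `z j`, so `y (W+1) (z j) = 1`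
and `y (W+1) (z j + 1) = 0` (`yJ`, `y01`).  Going up in `H j`, suppose `y (W+1) X = 0`, `X`, `X + 1`
in `H j`, `y (W+1) (X+1) = 1`.  Then the jump at `X` is `1`, so some `L i` is active at level `W + 1`
at `X` and no `R` is active there.  If `L i` was active at level `W`: there the jump at `X` is `0`
(`y W = 0` at `X`, `X + 1`), so some `R m` is active at `X` at level `W` and not at `W + 1`, so
`m = W - a` and, by the coincidence rule, `i = m - β = W - a - β`; but `L i` active at level `W + 1`
means `(a + k).val < a`, false.  If `L i` was not active at level `W` then `i = W - b`, the line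
point `X + 1` of level `W` is in the box `i` and `y W (X+1) = 1`, contradiction.
(iv) `YY j` implies `Z (j + a)`: put `W = j + a`; the arc `H j` is `r_W + 1, ..., t_W`.  For `H W X`,
`X = r_W + n`, `π < n ≤ λ`: ROW gives `y W X - y (W+1) X = [σ < n]`.  If `σ < n` then
`y (W+1) X = 0`; otherwise `n ≤ σ`, `X` is in `H j`, and `y W X = 0` by `YY j` (`aR a W j`), so
`y (W+1) X = 0`.
Suppose some `Z j0` holds.  By (ii) `j0` is not tied, so (iii), (iv) give `Z (j0 + a)`; by induction
`Z (j0 + n a)` and `j0 + n a` is not tied for all `n`.  `a` is a unit modulo `p`, so no row is tied;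
but the row `i0 + l ρ` is (`l < p`).  So `Z j` is false for all `j`, and (i) gives the claim. -/
def StAL : Prop := ∀ (p l a b k : ℕ) [NeZero p] [NeZero l] (z : ZMod p → ZMod (p * l))
  (i0 ρ : ZMod p) (τ : ZMod (p * l)) (y u : ZMod p → ZMod (p * l) → ℤ),
  TW p l a b k z i0 ρ τ y u → ∀ j : ZMod p,
  off (z (j - a)) (z j) < off (z (j - a)) (z (j - a - b) - b * l)

/-- UB (to prove: `theorem ub : StND1 → StRow → StAL → StUB`).  The horizontal letters behave as
without coincidences.

PROOF.  Claim: a `T m` and a `B j` at the same place `sc m + a l = sc j` are never active at the same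
level.  By the header `z j = z m + x l` with `0 < |x| < b`; `x > 0` is impossible by ND1.  If
`x < 0`: the point `(z j, sc j)` is in the box `m` (`off (z j) (z m) = |x| l < b l`,
`off (sc m + 1) (sc j) = a l - 1`) and is a line point of level `j`, so `y j (z j) = 1` (`inn`).  But
ROW at `x = P = z j`: by AL `P` comes before `t`, so `A (j-b) (P + b l)` is false and `A j P` is true,
`y j P - y (j+1) P = -1`, so `y j P = 0`, contradiction.
So at every place and level at most one horizontal side is active (two `B` or two `T` never, see the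
header), and the three statements follow from `uJ`, `u01`. -/
def StUB : Prop := ∀ (p l a b k : ℕ) [NeZero p] [NeZero l] (z : ZMod p → ZMod (p * l))
  (i0 ρ : ZMod p) (τ : ZMod (p * l)) (y u : ZMod p → ZMod (p * l) → ℤ),
  TW p l a b k z i0 ρ τ y u →
  (∀ W j, aB b W j → u W (sc l z j) = 1 ∧ u W (sc l z j + 1) = 0) ∧
  (∀ W j, aT a b W j → u W (sc l z j + a * l) = 0 ∧ u W (sc l z j + a * l + 1) = 1) ∧
  (∀ W S, (∀ j, aB b W j → sc l z j ≠ S) → (∀ j, aT a b W j → sc l z j + a * l ≠ S) →
    u W (S + 1) = u W S)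

/-- STRIP (to prove: `theorem strip : StRow → StAL → StUB → StStrip`).

PROOF.  As N1, module STRIP (`Helper11/N1/M_STRIP.lean`), parts (1) and (2), with UB in place of the
fields `uB`, `uT`, `uC` (these parts use nothing else), since AL holds in all rows. -/
def StStrip : Prop := ∀ (p l a b k : ℕ) [NeZero p] [NeZero l] (z : ZMod p → ZMod (p * l))
  (i0 ρ : ZMod p) (τ : ZMod (p * l)) (y u : ZMod p → ZMod (p * l) → ℤ),
  TW p l a b k z i0 ρ τ y u → ∀ j : ZMod p, UU l a b z u j

/-- GH (to prove: `theorem gh : StUB → StStrip → StGH`).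

PROOF.  As N1, module GH (`Helper11/N1/M_GH.lean`).  Let `g S` be the number of the `j` with
`aB b W j` and `A j (S - e j)`; `g (S+1) - g S = Σ_{aB W j} ([S = sc (j-a) + a l] - [S = sc j])`
and `aB b W j` iff `aT a b W (j - a)`, so this is the jump of `u W` (`uJ`).  So `g - u W` is constant;
at `S0 = sc (W-1) + 1`: `u S0 = 0` (UB), and `g S0 = 0` since otherwise STRIP gives `u S0 = 1`. -/
def StGH : Prop := ∀ (p l a b k : ℕ) [NeZero p] [NeZero l] (z : ZMod p → ZMod (p * l))
  (i0 ρ : ZMod p) (τ : ZMod (p * l)) (y u : ZMod p → ZMod (p * l) → ℤ),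
  TW p l a b k z i0 ρ τ y u → ∀ (W : ZMod p) (S : ZMod (p * l)), open Classical in
  u W S = ((Finset.univ.filter fun j : ZMod p => aB b W j ∧ A l a z j (S - e p l j)).card : ℤ)

/-- SUM (to prove: `theorem sum : Helper11.N1.StCnt → StGH → StSum`).  The total of `y`.

PROOF.  On the line `NN = y - u` (`NN` is `1` in a box, by disjointness, and `0` outside; `inn`,
`out`).  Sum over the line (StCnt for `q = l`): `Σ_X y W X = a b l + Σ_S u W S` (shift `X ↦ X + e W`).
By GH `Σ_S u W S = Σ_{j, aB b W j} #{S : A j (S - e j)}` and `A j` has `off (z (j-a)) (z j)` elements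
(`off (r+1) x < off r P`).  The second statement: `y W X ≤ 1`, there are `p l` positions. -/
def StSum : Prop := ∀ (p l a b k : ℕ) [NeZero p] [NeZero l] (z : ZMod p → ZMod (p * l))
  (i0 ρ : ZMod p) (τ : ZMod (p * l)) (y u : ZMod p → ZMod (p * l) → ℤ),
  TW p l a b k z i0 ρ τ y u → ∀ W : ZMod p, open Classical in
  (∑ X, y W X = (a * b * l : ℕ) +
    ∑ j : ZMod p, if aB b W j then (off (z (j - a)) (z j) : ℤ) else 0) ∧
  ((a * b * l : ℕ) + ∑ j : ZMod p, (if aB b W j then (off (z (j - a)) (z j) : ℤ) else 0) ≤
    (p * l : ℕ)) ∧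
  (∀ j, a * b * l + off (z (j - a)) (z j) ≤ p * l)

/-- LT (to prove: `theorem lt : StSum → StLT`).  The case `a = b + k` is impossible.

PROOF.  Suppose `a = b + k` (`≤` is a hypothesis).  The row `j = i0 + l ρ` is tied:
`z (j - a) - b l = z j`, so `off (z (j-a)) (z j) = p l - b l`, and StSum gives
`a b l + p l - b l ≤ p l`, so `a ≤ 1`, contradiction. -/
def StLT : Prop := ∀ (p l a b k : ℕ) [NeZero p] [NeZero l] (z : ZMod p → ZMod (p * l))
  (i0 ρ : ZMod p) (τ : ZMod (p * l)) (y u : ZMod p → ZMod (p * l) → ℤ),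
  TW p l a b k z i0 ρ τ y u → b + k + 1 ≤ a

/-- YF (to prove: `theorem yf : StRow → StSum → StYf`).  The formula for `y` as a height difference,
with constant `0`.

PROOF.  That the difference of the two sides is a constant `C` (independent of `W`, `X`) is proved
as in N1, module YF (`Helper11/N1/M_YF.lean`): only `yJ` in its sum form, injectivity of `z` and ROW
are used (`L f` is active at level `W` iff `R f` is active at level `W - b`, and it is at `X` iff
`z f = X + b l`).  `C = 0`: sum over `X` at one level `W`.  The right side gives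
`Σ_{i<b} off (z (W-1-i-a)) (z (W-1-i)) + b (a l)` (each of the `a` active right sides is counted for
`l` positions), which is `Σ_X y W X` by StSum (`aB b W j` iff `j = W - 1 - i`, `i < b`). -/
def StYf : Prop := ∀ (p l a b k : ℕ) [NeZero p] [NeZero l] (z : ZMod p → ZMod (p * l))
  (i0 ρ : ZMod p) (τ : ZMod (p * l)) (y u : ZMod p → ZMod (p * l) → ℤ),
  TW p l a b k z i0 ρ τ y u → ∀ W X, open Classical in
  y W X = ∑ i ∈ Finset.range b,
    ((if A l a z (W - 1 - (i : ℕ)) (X + (((i + 1) * l : ℕ) : ZMod (p * l))) then (1 : ℤ) else 0) +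
      Q l a z (W - (i : ℕ)) (X + ((i * l : ℕ) : ZMod (p * l))))

/-- the length of the arc of row `j` at level `W` -/
noncomputable def len {p : ℕ} (l a b : ℕ) (z : ZMod p → ZMod (p * l)) (W j : ZMod p) : ℕ :=
  open Classical in b * l + if aB b W j then off (z (j - a)) (z j) else 0

/-- ARC (to prove: `theorem arc : StSum → StArc`).  `y` is the number of arcs.

PROOF.  Let `G X` be the right side.  `G (X+1) - G X` is the sum over the `j` with `aR a W j` of
`[X + len = z j] - [X = z j]` (`len ≤ p l` by StSum, as `a ≥ 2`).  If `aB b W j` then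
`z j - len = z (j-a) - b l` is the place of `L (j-a)`; otherwise it is `z j - b l`, the place of `L j`.
The rows `i` with `aL a b W i` are those with `(W-1-i).val ∈ [b, a+b)`: the `j` with `aR`, not `aB`
(`[b, a)`), and the `j - a` with `aB b W j` (`[a, a+b)`).  So `G (X+1) - G X = y (X+1) - y X` by
`yJ`, and `G - y W` is constant.  `Σ_X G = Σ_{aR a W j} len = a b l + Σ_{aB b W j} off (z (j-a)) (z j)
= Σ_X y W X` (StSum; `aB` implies `aR` since `b < a`), so the constant is `0`. -/
def StArc : Prop := ∀ (p l a b k : ℕ) [NeZero p] [NeZero l] (z : ZMod p → ZMod (p * l))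
  (i0 ρ : ZMod p) (τ : ZMod (p * l)) (y u : ZMod p → ZMod (p * l) → ℤ),
  TW p l a b k z i0 ρ τ y u → ∀ (W : ZMod p) (X : ZMod (p * l)), open Classical in
  y W X = ((Finset.univ.filter fun j : ZMod p =>
    aR a W j ∧ off X (z j) < len l a b z W j).card : ℤ)

/-- SEP (to prove: `theorem sep : StSum → StArc → StSep`).

PROOF.  First part (the arcs of one level are disjoint): `y W X ≤ 1`.
Second part: let `0 < off (z n) (z g) < b l`; `n ≠ g`.  If `R n`, `R g` are both active at some level
`W` then `X = z n` is in both arcs, contradiction.  So `a ≤ (g-n).val ≤ p - a` (two cyclic intervals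
of `a` levels are disjoint).  Suppose `d = (n-g).val < a + b`; so `a ≤ d`.  Level `W = n + 1`: with
`g' = g + a`, `(W-1-g').val = d - a < b`, so `R g'`, `B g'` are active, and
`off (z n) (z g') < len` since `off (z n) (z g) < b l`, `off (z g) (z g') = off (z (g'-a)) (z g')`
and `len` is less than `p l` (StSum).  `X = z n` is in the arcs of `n` and `g'`, so `n = g'`; then
`off (z g) (z n) < p l - b l` by StSum (`a ≥ 2`), i.e. `off (z n) (z g) > b l`, contradiction.
Third part: let `ν` be tied, `0 < off (z ν) (z m) < b l`, `(w-ν).val + β ≤ a`.  By the second part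
`a ≤ (m-ν).val ≤ p - a - b`.  As `z (ν-β) = z ν + b l` also `0 < off (z m) (z (ν-β)) < b l`, so
`a ≤ (ν-β-m).val ≤ p - a - b`, i.e. `a + b ≤ (m-ν+β).val ≤ p - a`; since
`(m-ν).val + β ≤ p - a - b + β < p`, `(m-ν).val ≤ p - a - β`.  And
`(m-w).val = (m-ν).val - (w-ν).val`. -/
def StSep : Prop := ∀ (p l a b k : ℕ) [NeZero p] [NeZero l] (z : ZMod p → ZMod (p * l))
  (i0 ρ : ZMod p) (τ : ZMod (p * l)) (y u : ZMod p → ZMod (p * l) → ℤ),
  TW p l a b k z i0 ρ τ y u →
  (∀ (W i j : ZMod p) (X : ZMod (p * l)), aR a W i → aR a W j → off X (z i) < len l a b z W i →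
    off X (z j) < len l a b z W j → i = j) ∧
  (∀ n g : ZMod p, 0 < off (z n) (z g) → off (z n) (z g) < b * l →
    a ≤ (g - n).val ∧ (g - n).val + a + b ≤ p) ∧
  (∀ w m ν : ZMod p, l ≤ ix i0 ρ ν → 0 < off (z ν) (z m) → off (z ν) (z m) < b * l →
    (w - ν).val + b + k ≤ a → b + k ≤ (m - w).val ∧ (m - w).val + b + k ≤ p)

/-- ER (to prove: `theorem er : StRow → StAL → StStrip → StSum → StYf → StER`).

PROOF.  Write `xw = off (z (w-a)) (z w)`; by StSum `a l + xw < p l`, and
`off (sc (w-a)) (sc w) = a l + xw`.  The strip of `w` consists of the `S = sc (w-a) + n`,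
`a l < n ≤ a l + xw` (`A w (S - e w)`), and by STRIP `u W S = 1` there for the levels
`W ∈ {w+1..w+b}`.  Let `σ = off (sc (w-a)) (sc m)`, `0 < σ < a l + xw`.  The strip meets
`{sc m + 1, ..., sc m + a l}` (`σ + 1 ≤ a l + xw`, `a l + 1 ≤ σ + a l`), say in `S`.  So
`y W X = 1` for all `X` with `off X (z m) < b l` and all `W ∈ {w+1..w+b}` (`flat`).   (*)
Use StYf with `W = w + b`, `X = z m - b l + 1`: the left side is `1` by (*).
`A`-terms: for `i < b - 1`, row `W' = w + b - 1 - i`, `x = X + (i+1) l` (in the range of the box `m`),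
`y W' x = y (W'+1) x = 1` by (*), and by AL the arcs `A W' x`, `A (W'-b) (x + b l)` exclude each
other, so by ROW `A W' x` is false.  For `i = b - 1` the term is
`[A w (z m + 1)] = [off (z (w-a)) (z m) < xw]`.
`Q`-terms: level `W'' = w + b - i`, positions `x = X + i l + k'`, `0 ≤ k' < l`.  The last one
(`i = b - 1`, `k' = l - 1`) is `x = z m`, level `w + 1`: `[(w - m).val < a]` (injectivity).  For all
other `x` one has `x = z m - o`, `o = off x (z m)`, `0 < o < b l`, `i = b - 1 - o / l`; by (*) `y W = 1`
at `x` and `x + 1` for all `W ∈ {w+1..w+b}`, so by `yJ` at each of these levels the number of the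
active `R` at `x` is the number of the active `L` at `x`.  If `R ν` is active at `x = z ν` at level
`W''` then `L (ν-β)` is at `x` and active too, so `ν` is tied, and
`(W''-1-ν).val + k < a`; with `v = w - ν` (an element of `ZMod p`) and `g = o / l < b`,
`W'' - 1 - ν = v + g`.  Since at all `b` levels `R ν` is active iff `L (ν - β)` is active, none of
`v, v + 1, ..., v + b - 1` is in `{-k..-1} ∪ {a-k..a-1}` (modulo `p`), while `v + g` is in
`{0..a-k-1}`; as `k ≥ 1` all of them are in `{0..a-k-1}`, so `v.val + b - 1 ≤ a - k - 1`.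
Conversely if `ν` is tied, `0 < off (z ν) (z m) < b l` and `(w-ν).val + b + k ≤ a` then
`(v + g).val < a`, and `R ν` is counted once.  So the sum of the `Q`-terms is
`[(w-m).val < a] + #{ν ...}`. -/
def StER : Prop := ∀ (p l a b k : ℕ) [NeZero p] [NeZero l] (z : ZMod p → ZMod (p * l))
  (i0 ρ : ZMod p) (τ : ZMod (p * l)) (y u : ZMod p → ZMod (p * l) → ℤ),
  TW p l a b k z i0 ρ τ y u → ∀ w m : ZMod p, open Classical in
  0 < off (sc l z (w - a)) (sc l z m) →
  off (sc l z (w - a)) (sc l z m) < a * l + off (z (w - a)) (z w) →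
  (if off (z (w - a)) (z m) < off (z (w - a)) (z w) then 1 else 0) +
    (if (w - m).val < a then 1 else 0) +
    (Finset.univ.filter fun ν : ZMod p => l ≤ ix i0 ρ ν ∧ 0 < off (z ν) (z m) ∧
      off (z ν) (z m) < b * l ∧ (w - ν).val + b + k ≤ a).card = 1

end Helper12.TX
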