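import Pool.Agent.Helper12.TX.StA

set_option autoImplicit false

/-!
Project TX, part 2: the progression in the world `TW` (conventions as in `StA.lean`).  Complete
proofs in the docstrings.  `β = b + k`; `β < a` by LT.
-/

namespace Helper12.TX

open Helper11.N1 Helper55.KE Helper73.TM

/-- the data of the jumps: `α` is the index of a row step `a`, `v = α I + h l` the jump of the rows
with index `≥ α`, `ξ = v - p I` the jump of the other rows -/
structure VD (p l a b : ℕ) [NeZero p] [NeZero l] (z : ZMod p → ZMod (p * l)) (i0 ρ : ZMod p)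
    (τ : ZMod (p * l)) (α I h ξ : ℕ) : Prop where
  α0 : 0 < α
  αp : α < p
  αρ : (α : ZMod p) * ρ = a
  I1 : 1 ≤ I
  Il : I < l
  Ic : I.Coprime l
  pτ : (p : ZMod (p * l)) * τ = ((p * I : ℕ) : ZMod (p * l))
  h1 : 1 ≤ h
  ξ0 : 0 < ξ
  ξv : ξ + p * I = α * I + h * l
  ατ : (α : ZMod (p * l)) * τ = ((α * I + h * l : ℕ) : ZMod (p * l))
  v2 : α * I + h * l + 2 * b * l ≤ p * l
  xv : ∀ j, α ≤ ix i0 ρ j → off (z (j - a)) (z j) = α * I + h * l
  xξ : ∀ j, ix i0 ρ j < α → off (z (j - a)) (z j) = ξ

/-- an integer relation of the progression -/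
def PR {p l : ℕ} (ρ : ZMod p) (τ : ZMod (p * l)) (j x r : ℤ) : Prop :=
  ((j : ℤ) : ZMod (p * l)) * τ = ((x : ℤ) : ZMod (p * l)) ∧
    ((j : ℤ) : ZMod p) * ρ = ((r : ℤ) : ZMod p)

/-- VD (to prove: `theorem vd : StLT → StSep → StVD`).

PROOF.  `α = (a ρ⁻¹).val` (`0 < α` since `a ≠ 0` modulo `p`).  `I = τ.val % l`; `τ` is a unit, so
`I` is prime to `l`, and `l ≥ 2` gives `1 ≤ I`; `p τ = p I` because `p τ.val ≡ p I (mod p l)`.
For a row `j` with index `n ≥ α` the row `j - a` has index `n - α`, so `z j - z (j-a) = α τ`; for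
`n < α` it has index `n - α + p`, so `z j - z (j-a) = α τ - p τ = α τ - p I`.
`xv`, `xξ` hold with `v = (α τ).val` and `ξ = (α τ - p I).val`.
Rows `i0` (index `0 < α`, jump `ξ`) and `i0 - β` (index `p - l`) at the level `W = i0 + 1`: both
right sides are active (`(W-1-(i0-β)).val = β < a`, LT), `aB b W i0`, not `aB b W (i0 - β)`
(`β ≥ b`).  Their arcs (first part of StSep) are `{X : off X (z i0) < b l + ξ}` and
`{X : off X (z (i0-β)) < b l}`, where `z (i0-β) = z i0 + (p - l) τ = z i0 + p I + b l`.
`p I + b l < p l`: otherwise (`I < l`, so `p I + b l < p l + b l`)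
`off (z i0) (z (i0-β)) = p I + b l - p l < b l` and `X = z i0` is in both arcs.  The point
`X = z (i0 - β)` is in its own arc and `off X (z i0) = p l - (p I + b l)`; since the arcs are disjoint
this is `≥ b l + ξ`.  So
`ξ + p I + 2 b l ≤ p l`, hence `v = ξ + p I`, and `v + 2 b l ≤ p l`.  `ξ > 0` since
`z i0 ≠ z (i0 - a)`.  `v ≡ α I (mod l)` (`τ.val ≡ I`), and `v = ξ + p I > α I`, so
`v = α I + h l` with `h ≥ 1`. -/
def StVD : Prop := ∀ (p l a b k : ℕ) [NeZero p] [NeZero l] (z : ZMod p → ZMod (p * l))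
  (i0 ρ : ZMod p) (τ : ZMod (p * l)) (y u : ZMod p → ZMod (p * l) → ℤ),
  TW p l a b k z i0 ρ τ y u → ∃ α I h ξ : ℕ, VD p l a b z i0 ρ τ α I h ξ

/-- the upper neighbour of the row `n` at the level `W` -/
def nxt {p : ℕ} (a b k : ℕ) (W n : ZMod p) : ZMod p :=
  if (W - 1 - n).val + (b + k) < a then n - (b + k : ℕ) else n - (b + k : ℕ) + a

/-- SUCC (to prove: `theorem succ : StLT → StSep → StSucc`).  No active right side lies strictly
between `z n` and `z (nxt W n)`.

PROOF.  Fact (J): let `aR a (W+1) g`, `g ≠ W`.  Then `z g` is not in the arc of `W` at level `W + 1`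
(first part of StSep, `X = z g`; `aB b (W+1) W`), so `off (z g) (z W) ≥ b l + off (z (W-a)) (z W)`; in
particular `z g` is not in the arc from `z (W-a)` to `z W`.
Claim `C W n` (for `aR a W n`): the statement.
Start: `n0 = i0 + l ρ` is tied, `W = n0 + 1`, `nxt = m = n0 - β` (LT), `z m = z n0 + b l`.  A right side
`g` active at `W` strictly between has `off (z g) (z m) < b l`; `z g` is in the arcs of `g` and `m`,
so `g = m`, contradiction.
Step: `C W n → C (W+1) n'` where `n' = n` if `n ≠ W - a` and `n' = W` if `n = W - a`.  The rows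
active at `W + 1` are those active at `W` without `W - a` and with `W`.  Let `m = nxt W n`.
(i) `n ≠ W - a`, `m ≠ W - a`: `nxt (W+1) n = m` (if `(W-1-n).val + β = a - 1` then `m = W - a`).
An active `g` strictly between `z n` and `z m` at level `W + 1` must be `g = W`; by (J) for `n`, the
way down from `z W` to `z (W-a)` does not meet `z n`, so `z (W-a)` is strictly between `z n` and
`z m`, contradiction to `C W n`.
(ii) `n = W - a`: `m = n - β + a = W - β = nxt (W+1) W` (`β < a`).  An active `g` strictly between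
`z W` and `z m` at level `W + 1` is active at `W`, and by (J) for `m` the way up from `z (W-a)` to
`z m` first meets `z W`; so `g` is strictly between `z (W-a)` and `z m`, contradiction.
(iii) `m = W - a`, `n ≠ W - a`: then `(W-1-n).val + β = a - 1` (the second alternative of `nxt` has
`(W-1-m).val = (W-1-n).val + β - a < β ≤ a - 1`), so `nxt (W+1) n = n - β + a = W`.  By (J) for `n`
the way up from `z n` to `z W` passes `z (W-a)`; an active `g` strictly between `z n` and `z W` at
level `W + 1` would be strictly between `z n` and `z (W-a)` (contradiction to `C W n`), or equal to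
`z (W-a)` (not active), or strictly between `z (W-a)` and `z W` (contradiction to (J)).
The orbit of `(n0 + 1, n0)` under the step contains all `(W, n)` with `aR a W n`: after `a` steps
`(W, n)` becomes `(W + a, n + a)`, the positions `(W-1-n).val` run through `0, ..., a - 1` in
between, and `a` is a unit modulo `p`. -/
def StSucc : Prop := ∀ (p l a b k : ℕ) [NeZero p] [NeZero l] (z : ZMod p → ZMod (p * l))
  (i0 ρ : ZMod p) (τ : ZMod (p * l)) (y u : ZMod p → ZMod (p * l) → ℤ),
  TW p l a b k z i0 ρ τ y u → ∀ W n g : ZMod p, aR a W n → aR a W g → 0 < off (z n) (z g) →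
  off (z n) (z (nxt a b k W n)) ≤ off (z n) (z g)

/-- CP (to prove: `theorem cp : Helper11.N1.StWind → StLT → StSep → StSucc → StCP`).

PROOF.  Fix a position `x`.  For every `W` there is exactly one active `n` with
`off (z n) x < off (z n) (z (nxt W n))`.  Existence: choose `n` active with minimal `off (z n) x`; let
`m = nxt W n` (it is active and `≠ n`, so `z m ≠ z n`); if `off (z n) (z m) ≤ off (z n) x` then
`off (z m) x = off (z n) x - off (z n) (z m)` is smaller, contradiction.  Uniqueness: let `n ≠ n'` have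
the property, `off (z n) x < off (z n') x` (they are different as `z` is injective); then
`off (z n') (z n) = off (z n') x - off (z n) x` is positive and less than
`off (z n') (z (nxt W n'))`, contradiction to StSucc.
Sum over the `p` levels and exchange: for each `n` there are `a` levels `W = n + 1 + i`, `i < a`, the
first `a - β` have `nxt W n = n - β`, the last `β` have `nxt W n = n - β + a`.  So
`p = (a - β) A1 + β A2`, `A1 = #{n : off (z n) x < off (z n) (z (n-β))}`,
`A2 = #{n : off (z n) x < off (z n) (z (n-β+a))}`.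
StWind with `f = z`, `c = - β` (so `j = n - β`): `p l A1 = Σ_n off (z n) (z (n-β))`.  If `ix n ≥ l`
this distance is `b l`; if `ix n < l` the row `n - β` has index `ix n + p - l` and
`z (n-β) - z n = (p - l) τ = p I + b l < p l` (`VD.v2`, `VD.ξv`).  The sum is
`p b l + l p I`, so `A1 = b + I`.
StWind with `c = a - β`... take `j = n - β + a`, `c = a - β`: `p l A2 = Σ_n off (z n) (z (n-β+a))`.
The distance is `off (z n) (z (n-β)) + off (z (n-β)) (z (n-β+a))`: otherwise the sum exceeds it by
`p l` and `off (z n) (z W) < off (z (W-a)) (z W)` with `W = n - β + a`, but `n` and `W` are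
both active at level `W + 1` (`(W-n).val = a - β < a`, `n ≠ W`) and `z n` would be in the arc of `W`
(`len ≥ b l + off (z (W-a)) (z W)`), contradiction to StSep.  `Σ_j off (z (j-a)) (z j)
= (p - α) v + α ξ = p v - α p I = p h l` (`p - α` rows have index `≥ α`).  So `A2 = b + I + h`, and
`p = (a - β) (b + I) + β (b + I + h) = a (b + I) + β h`. -/
def StCP : Prop := ∀ (p l a b k : ℕ) [NeZero p] [NeZero l] (z : ZMod p → ZMod (p * l))
  (i0 ρ : ZMod p) (τ : ZMod (p * l)) (y u : ZMod p → ZMod (p * l) → ℤ) (α I h ξ : ℕ),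
  TW p l a b k z i0 ρ τ y u → VD p l a b z i0 ρ τ α I h ξ → p = a * (b + I) + (b + k) * h

/-- RV (to prove: `theorem rv : StLT → StSum → StSep → StER → StRV`).

PROOF.  `v = α I + h l`.  Choose a row `w` with index `n ≥ α` and a row `m` with index `n + j` in
`[0, p)`: `n = α` if `j ≥ 0`, `n = p - 1` if `j < 0`.  Then `z m - z w = x` (`PR`), `m - w = r` (as
elements of `ZMod p`), `z w - z (w-a) = v`, `z m - z (w-a) = x + v`,
`sc m - sc (w-a) = x + v + r l + a l` which is in `(0, a l + v)`, and `a l + v < p l`; so StER applies.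
Its second term is `0`: `(w-m).val = p - r ≥ a`.  Its third term is `0`: otherwise the third part of
StSep gives `β ≤ (m-w).val = r`.  So the first term is `1`: `off (z (w-a)) (z m) < v`.  Now
`-p l < x` (`x > -(a l + v) - r l` and `a l + v + r l < 2 a l + v ≤ a b l + v ≤ p l`, StSum), `x < 0`.
If `x < -v` then `off (z (w-a)) (z m) = p l + x + v > v`... it is `≥ v` since `x > - p l`,
contradiction.  If `x = -v` then `z m = z (w-a)`, `m = w - a`, `r ≡ -a (mod p)`, impossible for
`0 < r < β < p - a`.  So `-v < x`. -/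
def StRV : Prop := ∀ (p l a b k : ℕ) [NeZero p] [NeZero l] (z : ZMod p → ZMod (p * l))
  (i0 ρ : ZMod p) (τ : ZMod (p * l)) (y u : ZMod p → ZMod (p * l) → ℤ) (α I h ξ : ℕ),
  TW p l a b k z i0 ρ τ y u → VD p l a b z i0 ρ τ α I h ξ → ∀ j x r : ℤ, PR ρ τ j x r →
  -(p : ℤ) < j → j < p - α → 0 < r → r < b + k →
  -(a * l + (α * I + h * l) : ℤ) < x + l * r → x + l * r < 0 → -(α * I + h * l : ℤ) < x

/-- ST1 (to prove: `theorem st1 : StLT → StSep → StER → StST1`).  The rule for `α ≥ l`.

PROOF.  Let `N = p - α`, `v = ξ + p I`, `L = a l + ξ`.  Suppose `x ≤ -ξ`.  Define for an integer `e`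
the predicate `E e`: `0 < off (e τ) x < b l` and `(-e ρ).val + β ≤ a`, and for an integer `n`
`c n = #{e ∈ [l - n, p - n) : E e}`.
(A) Let `n ∈ [-N, α)`, `-j ≤ n < p - j`.  Let `w` be the row with index `n` (if `n ≥ 0`) or `n + p`
(if `n < 0`), `m` the row with index `n + j ∈ [0, p)`.  Then `z m - z (w-a) = x + ξ`: if `n ≥ 0` the
jump of `w` is `ξ` and `z m - z w = j τ = x`; if `n < 0` the jump is `v` (index `n + p ≥ α`) and
`z m - z w = (j - p) τ = x - p I`.  `m - w = r` in `ZMod p`, so `sc m - sc (w-a) = x + ξ + r l + a l`,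
in `(0, L)`, `L ≤ a l + (jump)`; StER applies.  The second term is `0` (`(w-m).val = p - r ≥ a`).
`x ≠ -ξ`: otherwise `z m = z (w-a)`, `m = w - a`, `sc m = sc (w-a)`, contradiction.  So
`off (z (w-a)) (z m) = p l + x + ξ`.  If `n ≥ 0` this is `≥ ξ` (as `x > -p l`), the first term is
`0` and the third is `1`.  If `n < 0` the first term is `1` iff `p l + x < p I`.  The third term is
`c n`: a row `ν` with index `i ≥ l` corresponds to `e = i - n`, `z m - z ν = (n + j - i) τ =
x - e τ`, `w - ν = -e ρ`.
(B) Some such `n` exists (for `-l < j < N + l`, `l ≤ α`), so `x < -ξ`.  If `j ≥ 1` then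
`p l + x ≥ p I`: otherwise `c (-1) = 0` and `c 0 = 1` (both are admissible in (A)), but
`c 0 - c (-1) = [E l] - [E p] ≤ 0` since `(-l ρ).val = p - β` and `p - β + β ≤ a` is false.  So
`c n = 1` for all `n` as in (A) (for `j ≤ 0` there is no `n < 0`).
(C) Let `n ∈ [α, p)`, `-j ≤ n < p - j`, `w` of index `n`, `m` of index `n + j`, jump `v`:
`z m - z (w-a) = x + v`, `sc m - sc (w-a) = x + r l + L + p I`, in `(p I, a l + v)`; StER applies, the
second term is `0`; the first is `1` if `-v ≤ x` and `0` if `x < -v`.  So `c n = 0` resp.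
`c n = 1`.
(D) Let `j < N`; `-α < j` since `l ≤ α`.  Suppose `-v ≤ x`.  Then `c (α-1) = 1` by (B) and
`c α = 0` by (C) (both admissible), but `c α - c (α-1) = [E (l-α)] - [E (p-α)] ≥ 0` since
`(-(p-α) ρ).val = a` and `a + β ≤ a` is false.  Contradiction; so `x < -v`, and `c n = 1` for all
`n ∈ [α, p)` with `-j ≤ n < p - j` too.
(E) So `c n = 1` for at least `p - l + 1` consecutive integers: `[-N, p - j)` if `j ≥ N`
(`p - j ≤ α`, `j ≤ N + l - 1`); `[-j, p - j)` if `0 ≤ j < N`; `[-j, p)` if `-l < j < 0`.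
(F) This is impossible: let the integers be `s, ..., s + (p - l)`; let `e1` be the element of `E` in
`[l - s', p - s')` for `s' = s + (p - l)` (the lowest window `[l - s', l - s' + (p - l))`).  The window
with left end `e1` (it is `[l - n, p - n)` for `n = l - e1`, and `s ≤ n ≤ s'`) contains `e1`
and nothing else, the window with left end `e1 + 1` (if `n = l - e1 - 1 ≥ s`, which holds because
`e1 < p - s' = l - s`) contains exactly one element, and this must be `e1 + (p - l)`.  So `E e1` and
`E (e1 + (p - l))`.  As `(p - l) τ = p I + b l`, with `d = off (e1 τ) x ∈ (0, b l)` one has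
`off ((e1 + (p-l)) τ) x = d - (p I + b l) + p l ≥ b l` (`VD.v2`, `ξv`, `ξ > 0`), contradiction. -/
def StST1 : Prop := ∀ (p l a b k : ℕ) [NeZero p] [NeZero l] (z : ZMod p → ZMod (p * l))
  (i0 ρ : ZMod p) (τ : ZMod (p * l)) (y u : ZMod p → ZMod (p * l) → ℤ) (α I h ξ : ℕ),
  TW p l a b k z i0 ρ τ y u → VD p l a b z i0 ρ τ α I h ξ → l ≤ α → ∀ j x r : ℤ, PR ρ τ j x r →
  -(l : ℤ) < j → j < p - α + l → 0 < r → r ≤ p - a →
  -(a * l + ξ : ℤ) < x + l * r → x + l * r < 0 → -(p * l : ℤ) < x → x < 0 → -(ξ : ℤ) < x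

/-- ST2 (to prove: `theorem st2 : StLT → StSep → StER → StST2`).  The rule for `α < l`.

PROOF.  As ST1, with (C) only.  Suppose `x ≤ -v`, `v = α I + h l`.  For `n ∈ [α, p)`,
`-j ≤ n < p - j`, `w` of index `n`, `m` of index `n + j`: `z m - z (w-a) = x + v`,
`sc m - sc (w-a) = x + v + r l + a l`, in `(0, a l + v)`, StER applies, the second term is `0`
(`p - r ≥ a`).  `x = -v` would give `m = w - a` and `sc m = sc (w-a)`, contradiction; so `x < -v`, the
first term is `0` (`off = p l + x + v ≥ v`), and `c n = 1`.  These `n` are at least `p - l + 1`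
consecutive integers: `[α, p - j)` if `0 ≤ j ≤ l - α - 1`; `[max α (-j), p)` if `-l < j < 0`
(`α ≤ l - 1`, `-j ≤ l - 1`).  Contradiction by (F) of ST1. -/
def StST2 : Prop := ∀ (p l a b k : ℕ) [NeZero p] [NeZero l] (z : ZMod p → ZMod (p * l))
  (i0 ρ : ZMod p) (τ : ZMod (p * l)) (y u : ZMod p → ZMod (p * l) → ℤ) (α I h ξ : ℕ),
  TW p l a b k z i0 ρ τ y u → VD p l a b z i0 ρ τ α I h ξ → α < l → ∀ j x r : ℤ, PR ρ τ j x r →
  -(l : ℤ) < j → j < l - α → 0 < r → r ≤ p - a →
  -(a * l + (α * I + h * l) : ℤ) < x + l * r → x + l * r < 0 → -(p * l : ℤ) < x → x < 0 →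
  -(α * I + h * l : ℤ) < x

end Helper12.TX
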