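import Pool.Agent.Helper12.TX.Main
import Pool.Agent.Helper11.N1.M_LDX
import Pool.Agent.Helper11.N1.M_LJ
import Pool.Agent.Helper11.N1.M_DEC
import Pool.Agent.Helper11.N1.M_LVL

set_option autoImplicit false
set_option linter.unusedSectionVars false

/-!
# Project TX: from normal levels to the contradiction
-/

namespace Helper12.TX

open Helper11.N1 Helper55.KE Helper73.TM

section

variable {p l a b k : ℕ} [NeZero p] [NeZero l] {z : ZMod p → ZMod (p * l)} {i0 ρ : ZMod p}
  {τ : ZMod (p * l)}

/-- a level in normal form -/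
theorem tlvl (hd : Disj l a b z) {W : ZMod p} {lam rho : ZMod (p * l) → ℤ}
    (h : LD l a b z W lam rho) {c : ℤ} (hc1 : ∀ X, lam X = c ∨ lam X = c - 1)
    (hc2 : ∀ S, rho S = -c ∨ rho S = -c + 1) :
    TLvl l a b z W (fun X => c - lam X) (fun S => rho S + c) := by
  have y01 : ∀ X, c - lam X = 0 ∨ c - lam X = 1 := fun X => by
    have := hc1 X
    omega
  have v01 : ∀ S, rho S + c = 0 ∨ rho S + c = 1 := fun S => by
    have := hc2 S
    omega
  refine
    { y01 := y01
      u01 := v01
      yJ := fun X => ?_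
      uJ := fun S => ?_
      inn := fun j X hX => ?_
      out := fun X hX => ?_
      flat := fun j X S hX hS => ?_ }
  · have := h.lj X
    show (c - lam (X + 1)) - (c - lam X) = _
    linarith
  · have := h.rj S
    show (rho (S + 1) + c) - (rho S + c) = _
    linarith
  · have h1 := h.line X
    rw [LVLaux.NN_in z hd hX] at h1
    have h2 := y01 X
    have h3 := v01 (X + e p l W)
    show c - lam X = 1 ∧ rho (X + e p l W) + c = 0
    omega
  · have h1 := h.line X
    rw [LVLaux.NN_out z hX] at h1
    show c - lam X = rho (X + e p l W) + c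
    omega
  · have h1 := h.up X S
    rw [LVLaux.NN_in z hd hX] at h1
    have h2 := y01 X
    replace hS : rho S + c = 1 := hS
    show c - lam X = 1
    omega

/-- THE NORMAL FORM IS IMPOSSIBLE: not all levels of a flat exact tie model with disjoint boxes are
in normal form -/
theorem normal_false (hE : EX p l a b z i0 ρ τ (k : ℤ)) (hD : Disj l a b z) (hk : 1 ≤ k)
    (hka : b + k ≤ a) (h2a : 2 * a < p) (hap : a.Coprime p) (hbp : b.Coprime p)
    (hlev : ∀ (W : ZMod p) (lam rho : ZMod (p * l) → ℤ), LD l a b z W lam rho →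
      ∃ c : ℤ, (∀ X, lam X = c ∨ lam X = c - 1) ∧ (∀ S, rho S = -c ∨ rho S = -c + 1)) : False := by
  have h1 : ∀ W : ZMod p, ∃ y u : ZMod (p * l) → ℤ, TLvl l a b z W y u := by
    intro W
    obtain ⟨lam, rho, h⟩ := ldx (lj bl) dec p l a b hE.hP z W (fun X S => hE.hF X W S)
    obtain ⟨c, hc1, hc2⟩ := hlev W lam rho h
    exact ⟨_, _, tlvl hD h hc1 hc2⟩
  choose y u hW using h1
  exact TW.false (y := y) (u := u) (i0 := i0) (ρ := ρ) (τ := τ) (k := k)
    { hE := hE, hD := hD, hk := hk, hka := hka, h2a := h2a, hap := hap, hbp := hbp, hW := hW }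

end

end Helper12.TX
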